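import Pool.Agent.Lib.H22F301.Pencil

/-!
# Block triangular systems of values of characters

`P x z` is the value of the character `z` at the point `x`.
-/

namespace Pool.Agent.Lib.H22T

/-- A value which is a root of unity. -/
def IsTors {K : Type*} [Monoid K] (u : K) : Prop := ∃ N : ℕ, 0 < N ∧ u ^ N = 1

/-- `BlockRank P M Z k`: the matrix of the values `P x z`, `x ∈ M`, `z ∈ Z`, contains a block
triangular system (`add`: the values on one side of the diagonal blocks are roots of unity) with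
diagonal blocks of the following kinds; `k` is the sum of their weights.
* `one`: a `1 × 1` block, not a root of unity; weight `1`;
* `six`, `six'`: a `3 × 2` or `2 × 3` block with independent rows and independent columns (the
  hypotheses of the theorem of six exponentials); weight `2`;
* `two`: an `r × r` block the entries of which lie, up to a common power, in a group of rank two, such
  that the determinant of the pencil of the matrices of exponents does not vanish (the theorem of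
  Gelfond and Schneider applies); weight `r`.
Here `P x (c • z)` is the power `(P x z) ^ c`. -/
inductive BlockRank {G H K : Type*} [CommGroup G] [AddCommGroup H] [Monoid K] (P : G → H → K) :
    Set G → Set H → ℕ → Prop
  | zero (M : Set G) (Z : Set H) : BlockRank P M Z 0
  | one (M : Set G) (Z : Set H) (x : G) (z : H) (hx : x ∈ M) (hz : z ∈ Z)
      (h : ¬ IsTors (P x z)) : BlockRank P M Z 1
  | six (M : Set G) (Z : Set H) (x : Fin 3 → G) (z : Fin 2 → H) (hx : ∀ k, x k ∈ M)
      (hz : ∀ l, z l ∈ Z)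
      (h1 : ∀ a : Fin 3 → ℤ, a ≠ 0 → ∃ l, ¬ IsTors (P (∏ k, x k ^ a k) (z l)))
      (h2 : ∀ b : Fin 2 → ℤ, b ≠ 0 → ∃ k, ¬ IsTors (P (x k) (∑ l, b l • z l))) :
      BlockRank P M Z 2
  | six' (M : Set G) (Z : Set H) (x : Fin 2 → G) (z : Fin 3 → H) (hx : ∀ k, x k ∈ M)
      (hz : ∀ l, z l ∈ Z)
      (h1 : ∀ a : Fin 2 → ℤ, a ≠ 0 → ∃ l, ¬ IsTors (P (∏ k, x k ^ a k) (z l)))
      (h2 : ∀ b : Fin 3 → ℤ, b ≠ 0 → ∃ k, ¬ IsTors (P (x k) (∑ l, b l • z l))) :
      BlockRank P M Z 2
  | two (M : Set G) (Z : Set H) (r : ℕ) (x : Fin r → G) (z : Fin r → H) (hx : ∀ k, x k ∈ M)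
      (hz : ∀ l, z l ∈ Z) (y₁ y₂ : G) (w₁ w₂ : H) (hy₁ : y₁ ∈ M) (hy₂ : y₂ ∈ M)
      (h0 : ∀ a b : ℤ, P y₁ (a • w₁) * P y₂ (b • w₂) = 1 → a = 0 ∧ b = 0)
      (c : ℤ) (hc : c ≠ 0) (A B : Fin r → Fin r → ℤ)
      (h1 : ∀ k l, P (x k) (c • z l) = P y₁ (A k l • w₁) * P y₂ (B k l • w₂))
      (t : ℚ) (h2 : (Matrix.of fun k l => (A k l : ℚ) + t * B k l).det ≠ 0) :
      BlockRank P M Z r
  | add (M M' : Set G) (Z Z' : Set H) (a b : ℕ) (hM : M' ⊆ M) (hZ : Z' ⊆ Z)
      (h0 : ∀ x ∈ M', ∀ z ∈ Z', IsTors (P x z)) (h1 : BlockRank P M Z' a)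
      (h2 : BlockRank P M' Z b) : BlockRank P M Z (a + b)

/-- A block triangular system gives linearly independent vectors of logarithms. -/
theorem exists_indep_of_blockRank {G H K 𝕜 : Type*} [CommGroup G] [AddCommGroup H] [Monoid K]
    [Field 𝕜] [CharZero 𝕜] (P : G → H → K) (Λ : G → H → 𝕜)
    (hΛ1 : ∀ x y z, Λ (x * y) z = Λ x z + Λ y z) (hΛ2 : ∀ x z w, Λ x (z + w) = Λ x z + Λ x w)
    (S : Subgroup G) (hS : ∀ x ∈ S, ∀ z, Λ x z = 0 ↔ IsTors (P x z))
    (hmul : ∀ x y x' : G, ∀ z w z' : H, P x' z' = P x z * P y w → Λ x' z' = Λ x z + Λ y w)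
    (hgs : ∀ y₁ ∈ S, ∀ y₂ ∈ S, ∀ w₁ w₂ : H,
      (∀ a b : ℤ, P y₁ (a • w₁) * P y₂ (b • w₂) = 1 → a = 0 ∧ b = 0) →
      Λ y₁ w₁ ≠ 0 ∧ Transcendental ℚ (Λ y₂ w₂ / Λ y₁ w₁))
    (h23 : ∀ (x : Fin 2 → G) (z : Fin 3 → H), (∀ k, x k ∈ S) → ∀ (s : Fin 2 → 𝕜) (t : Fin 3 → 𝕜),
      (∀ l k, Λ (x l) (z k) = s l * t k) →
      (∀ c : Fin 2 → ℤ, ∑ i, (c i : 𝕜) * s i = 0 → c = 0) →
      (∀ c : Fin 3 → ℤ, ∑ i, (c i : 𝕜) * t i = 0 → c = 0) → False)
    (h32 : ∀ (x : Fin 3 → G) (z : Fin 2 → H), (∀ k, x k ∈ S) → ∀ (s : Fin 2 → 𝕜) (t : Fin 3 → 𝕜),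
      (∀ l k, Λ (x k) (z l) = s l * t k) →
      (∀ c : Fin 2 → ℤ, ∑ i, (c i : 𝕜) * s i = 0 → c = 0) →
      (∀ c : Fin 3 → ℤ, ∑ i, (c i : 𝕜) * t i = 0 → c = 0) → False)
    {M : Set G} {Z : Set H} {k : ℕ} (h : BlockRank P M Z k) (hM : M ⊆ S) :
    ∃ (ι : Type) (_ : Fintype ι) (x : ι → G), Fintype.card ι = k ∧ (∀ i, x i ∈ M) ∧
      LinearIndependent 𝕜 (fun (i : ι) (z : Z) => Λ (x i) z) := by
  have hx1 : ∀ z, Λ 1 z = 0 := by
    intro z
    have := hΛ1 1 1 z
    rw [mul_one] at this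
    simpa using this
  have hz0 : ∀ x, Λ x 0 = 0 := by
    intro x
    have := hΛ2 x 0 0
    rw [add_zero] at this
    simpa using this
  have hzp : ∀ (x : G) (a : ℤ) (z : H), Λ (x ^ a) z = a * Λ x z := by
    intro x a z
    set f : Multiplicative ℤ →* Multiplicative 𝕜 :=
      MonoidHom.mk' (fun a => Multiplicative.ofAdd (Λ (x ^ (Multiplicative.toAdd a)) z)) (by
        intro a b
        rw [← ofAdd_add, ← hΛ1, toAdd_mul, zpow_add]) with hf
    have h1 : f (Multiplicative.ofAdd a) = f (Multiplicative.ofAdd 1) ^ a := by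
      rw [← map_zpow, ← ofAdd_zsmul, smul_eq_mul, mul_one]
    have h2 := congrArg Multiplicative.toAdd h1
    rw [toAdd_zpow, zsmul_eq_mul] at h2
    have h3 : Multiplicative.toAdd (f (Multiplicative.ofAdd a)) = Λ (x ^ a) z := rfl
    have h4 : Multiplicative.toAdd (f (Multiplicative.ofAdd (1 : ℤ))) = Λ (x ^ (1 : ℤ)) z := rfl
    rw [h3, h4, zpow_one] at h2
    exact h2
  have hsm : ∀ (x : G) (a : ℤ) (z : H), Λ x (a • z) = a * Λ x z := by
    intro x a z
    have h1 := map_zsmul (AddMonoidHom.mk' (Λ x) (hΛ2 x)) a z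
    rw [zsmul_eq_mul] at h1
    exact h1
  have hprod : ∀ {m : ℕ} (x : Fin m → G) (a : Fin m → ℤ) (z : H),
      Λ (∏ k, x k ^ a k) z = ∑ k, (a k : 𝕜) * Λ (x k) z := by
    intro m x a z
    induction (Finset.univ : Finset (Fin m)) using Finset.induction_on with
    | empty => simp [hx1]
    | insert b s hb ih => rw [Finset.prod_insert hb, Finset.sum_insert hb, hΛ1, hzp, ih]
  have hsum : ∀ {m : ℕ} (x : G) (b : Fin m → ℤ) (z : Fin m → H),
      Λ x (∑ l, b l • z l) = ∑ l, (b l : 𝕜) * Λ x (z l) := by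
    intro m x b z
    induction (Finset.univ : Finset (Fin m)) using Finset.induction_on with
    | empty => simp [hz0]
    | insert c s hc ih => rw [Finset.sum_insert hc, Finset.sum_insert hc, hΛ2, hsm, ih]
  induction h with
  | zero M Z =>
    exact ⟨Empty, inferInstance, fun i => i.elim, by simp, fun i => i.elim,
      linearIndependent_empty_type⟩
  | one M Z x z hx hz h =>
    refine ⟨Unit, inferInstance, fun _ => x, by simp, fun _ => hx, ?_⟩
    rw [linearIndependent_unique_iff]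
    intro h0
    exact h ((hS x (hM hx) z).1 (congrFun h0 ⟨z, hz⟩))
  | six M Z x z hx hz h1 h2 =>
    by_contra hcon
    have hpair : ∀ i j, ¬ LinearIndependent 𝕜
        ![fun w : Z => Λ (x i) w, fun w : Z => Λ (x j) w] := by
      intro i j hij
      apply hcon
      refine ⟨Fin 2, inferInstance, ![x i, x j], by simp, ?_, ?_⟩
      · intro t
        fin_cases t
        · exact hx i
        · exact hx j
      · convert hij using 1
        funext t
        fin_cases t <;> rfl
    have hne : ∃ l, Λ (x 0) (z l) ≠ 0 := by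
      obtain ⟨l, hl⟩ := h1 (Pi.single 0 1) (by
        intro h
        have := congrFun h 0
        simp at this)
      refine ⟨l, fun h0 => hl ?_⟩
      rw [← hS _ (Subgroup.prod_mem _ fun k _ => Subgroup.zpow_mem _ (hM (hx k)) _), hprod]
      rw [Finset.sum_eq_single 0]
      · rw [h0, mul_zero]
      · intro k _ hk
        simp [hk]
      · simp
    obtain ⟨l₀, hl₀⟩ := hne
    have hu : ∀ j, ∃ u : 𝕜, ∀ w : Z, Λ (x j) w = u * Λ (x 0) w := by
      intro j
      have h3 := hpair 0 j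
      rw [LinearIndependent.pair_iff] at h3
      push Not at h3
      obtain ⟨s, t, hst, hne⟩ := h3
      have ht : t ≠ 0 := by
        intro ht
        rw [ht, zero_smul, add_zero] at hst
        have h4 := congrFun hst ⟨z l₀, hz l₀⟩
        rw [Pi.smul_apply, smul_eq_mul, Pi.zero_apply, mul_eq_zero] at h4
        exact hne (h4.resolve_right hl₀) ht
      refine ⟨-(t⁻¹ * s), fun w => ?_⟩
      have h4 := congrFun hst w
      simp only [Pi.add_apply, Pi.smul_apply, smul_eq_mul, Pi.zero_apply] at h4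
      field_simp
      linear_combination h4
    choose u hu using hu
    refine h32 x z (fun k => hM (hx k)) (fun l => Λ (x 0) (z l)) u (fun l k => ?_) ?_ ?_
    · rw [hu k ⟨z l, hz l⟩]
      exact mul_comm _ _
    · intro b hb
      by_contra hb0
      obtain ⟨k, hk⟩ := h2 b hb0
      apply hk
      rw [← hS _ (hM (hx k)), hsum]
      have e1 : ∑ l, (b l : 𝕜) * Λ (x k) (z l) = u k * ∑ l, (b l : 𝕜) * Λ (x 0) (z l) := by
        rw [Finset.mul_sum]
        refine Finset.sum_congr rfl fun l _ => ?_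
        rw [hu k ⟨z l, hz l⟩]
        ring
      rw [e1, hb, mul_zero]
    · intro a ha
      by_contra ha0
      obtain ⟨l, hl⟩ := h1 a ha0
      apply hl
      rw [← hS _ (Subgroup.prod_mem _ fun k _ => Subgroup.zpow_mem _ (hM (hx k)) _), hprod]
      have e1 : ∑ k, (a k : 𝕜) * Λ (x k) (z l) = (∑ k, (a k : 𝕜) * u k) * Λ (x 0) (z l) := by
        rw [Finset.sum_mul]
        refine Finset.sum_congr rfl fun k _ => ?_
        rw [hu k ⟨z l, hz l⟩]
        ring
      rw [e1, ha, zero_mul]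
  | six' M Z x z hx hz h1 h2 =>
    by_contra hcon
    have hpair : ¬ LinearIndependent 𝕜
        ![fun w : Z => Λ (x 0) w, fun w : Z => Λ (x 1) w] := by
      intro hij
      apply hcon
      refine ⟨Fin 2, inferInstance, x, by simp, hx, ?_⟩
      convert hij using 1
      funext t
      fin_cases t <;> rfl
    have hne : ∃ l, Λ (x 0) (z l) ≠ 0 := by
      obtain ⟨l, hl⟩ := h1 (Pi.single 0 1) (by
        intro h
        have := congrFun h 0
        simp at this)
      refine ⟨l, fun h0 => hl ?_⟩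
      rw [← hS _ (Subgroup.prod_mem _ fun k _ => Subgroup.zpow_mem _ (hM (hx k)) _), hprod]
      rw [Finset.sum_eq_single 0]
      · rw [h0, mul_zero]
      · intro k _ hk
        simp [hk]
      · simp
    obtain ⟨l₀, hl₀⟩ := hne
    obtain ⟨u, hu⟩ : ∃ u : 𝕜, ∀ w : Z, Λ (x 1) w = u * Λ (x 0) w := by
      rw [LinearIndependent.pair_iff] at hpair
      push Not at hpair
      obtain ⟨s, t, hst, hne⟩ := hpair
      have ht : t ≠ 0 := by
        intro ht
        rw [ht, zero_smul, add_zero] at hst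
        have h4 := congrFun hst ⟨z l₀, hz l₀⟩
        rw [Pi.smul_apply, smul_eq_mul, Pi.zero_apply, mul_eq_zero] at h4
        exact hne (h4.resolve_right hl₀) ht
      refine ⟨-(t⁻¹ * s), fun w => ?_⟩
      have h4 := congrFun hst w
      simp only [Pi.add_apply, Pi.smul_apply, smul_eq_mul, Pi.zero_apply] at h4
      field_simp
      linear_combination h4
    have hu' : ∀ (k : Fin 2) (w : Z), Λ (x k) w = (![1, u] : Fin 2 → 𝕜) k * Λ (x 0) w := by
      intro k w
      fin_cases k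
      · simp
      · simpa using hu w
    refine h23 x z (fun k => hM (hx k)) ![1, u] (fun l => Λ (x 0) (z l)) (fun l k => ?_) ?_ ?_
    · exact hu' l ⟨z k, hz k⟩
    · intro a ha
      by_contra ha0
      obtain ⟨l, hl⟩ := h1 a ha0
      apply hl
      rw [← hS _ (Subgroup.prod_mem _ fun k _ => Subgroup.zpow_mem _ (hM (hx k)) _), hprod]
      have e1 : ∑ k, (a k : 𝕜) * Λ (x k) (z l) =
          (∑ k, (a k : 𝕜) * (![1, u] : Fin 2 → 𝕜) k) * Λ (x 0) (z l) := by
        rw [Finset.sum_mul]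
        refine Finset.sum_congr rfl fun k _ => ?_
        rw [hu' k ⟨z l, hz l⟩]
        ring
      rw [e1, ha, zero_mul]
    · intro b hb
      by_contra hb0
      obtain ⟨k, hk⟩ := h2 b hb0
      apply hk
      rw [← hS _ (hM (hx k)), hsum]
      have e1 : ∑ l, (b l : 𝕜) * Λ (x k) (z l) =
          (![1, u] : Fin 2 → 𝕜) k * ∑ l, (b l : 𝕜) * Λ (x 0) (z l) := by
        rw [Finset.mul_sum]
        refine Finset.sum_congr rfl fun l _ => ?_
        rw [hu' k ⟨z l, hz l⟩]
        ring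
      rw [e1, hb, mul_zero]
  | two M Z r x z hx hz y₁ y₂ w₁ w₂ hy₁ hy₂ h0 c hc A B h1 t h2 =>
    refine ⟨Fin r, inferInstance, x, by simp, hx, ?_⟩
    obtain ⟨hl, ht⟩ := hgs y₁ (hM hy₁) y₂ (hM hy₂) w₁ w₂ h0
    have hc' : (c : 𝕜) ≠ 0 := by exact_mod_cast hc
    have hval : ∀ k l, (A k l : 𝕜) * Λ y₁ w₁ + (B k l : 𝕜) * Λ y₂ w₂ = c * Λ (x k) (z l) := by
      intro k l
      have h3 := hmul _ _ _ _ _ _ (h1 k l)
      rw [hsm, hsm, hsm] at h3
      exact h3.symm
    have h3 := Pool.Agent.Lib.H22F301.pencil_rank_le (𝕜 := ℚ) A B 1 t (Λ y₁ w₁) (Λ y₂ w₂) hl ht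
    have h4 : Module.finrank ℚ (Submodule.span ℚ (Set.range fun (j : Fin r) (i : Fin r) =>
        (A j i : ℚ) * 1 + (B j i : ℚ) * t)) = r := by
      have h5 : (Matrix.of fun (j : Fin r) (i : Fin r) => (A j i : ℚ) * 1 + (B j i : ℚ) * t).det
          ≠ 0 := by
        have : (Matrix.of fun (j : Fin r) (i : Fin r) => (A j i : ℚ) * 1 + (B j i : ℚ) * t) =
            Matrix.of fun k l => (A k l : ℚ) + t * B k l := by
          ext j i
          simp only [Matrix.of_apply]
          ring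
        rw [this]
        exact h2
      have h6 := Matrix.linearIndependent_rows_of_det_ne_zero h5
      have h7 := finrank_span_eq_card h6
      rw [Fintype.card_fin] at h7
      exact h7
    have h5 : LinearIndependent 𝕜 (fun (j : Fin r) (i : Fin r) =>
        (A j i : 𝕜) * Λ y₁ w₁ + (B j i : 𝕜) * Λ y₂ w₂) := by
      rw [linearIndependent_iff_card_le_finrank_span, Fintype.card_fin]
      rw [h4] at h3
      exact h3
    rw [Fintype.linearIndependent_iff] at h5 ⊢
    intro g hg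
    apply h5
    funext l
    have h6 := congrFun hg ⟨z l, hz l⟩
    simp only [Finset.sum_apply, Pi.smul_apply, smul_eq_mul, Pi.zero_apply] at h6 ⊢
    have h7 : ∑ k, g k * ((A k l : 𝕜) * Λ y₁ w₁ + (B k l : 𝕜) * Λ y₂ w₂) =
        c * ∑ k, g k * Λ (x k) (z l) := by
      rw [Finset.mul_sum]
      refine Finset.sum_congr rfl fun k _ => ?_
      rw [hval]
      ring
    rw [h7, h6, mul_zero]
  | add M M' Z Z' a b hMM hZ h0 _ _ ih1 ih2 =>
    obtain ⟨ι, _, x, hcard, hx, hli⟩ := ih1 hM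
    obtain ⟨ι', _, y, hcard', hy, hli'⟩ := ih2 (hMM.trans hM)
    refine ⟨ι ⊕ ι', inferInstance, Sum.elim x y, by rw [Fintype.card_sum, hcard, hcard'], ?_, ?_⟩
    · rintro (i | i)
      · exact hx i
      · exact hMM (hy i)
    · rw [Fintype.linearIndependent_iff] at hli hli' ⊢
      intro g hg
      rw [Fintype.sum_sum_type] at hg
      simp only [Sum.elim_inl, Sum.elim_inr] at hg
      have h3 : ∀ i, g (Sum.inl i) = 0 := by
        apply hli
        funext w
        have h4 := congrFun hg ⟨w, hZ w.2⟩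
        simp only [Pi.add_apply, Finset.sum_apply, Pi.smul_apply, smul_eq_mul, Pi.zero_apply] at h4 ⊢
        have h5 : ∑ i, g (Sum.inr i) * Λ (y i) w = 0 :=
          Finset.sum_eq_zero fun i _ => by
            rw [(hS _ (hM (hMM (hy i))) w).2 (h0 _ (hy i) w w.2), mul_zero]
        rw [h5, add_zero] at h4
        exact h4
      have h4 : ∀ i, g (Sum.inr i) = 0 := by
        apply hli'
        rw [← hg]
        simp only [h3, zero_smul, Finset.sum_const_zero, zero_add]
      rintro (i | i)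
      · exact h3 i
      · exact h4 i

end Pool.Agent.Lib.H22T
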