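import Pool.Agent.Lib.H22T.Tori

/-!
# Values of characters of a torus
-/

namespace Pool.Agent.Lib.H22T

open scoped TensorProduct
open WithConv Coalgebra

section Val

variable {A : Type*} [CommRing A] [HopfAlgebra ℚ A] [Coalgebra.IsCocomm ℚ A]
variable (F : Type*) {C : Type*} [Field F] [Algebra ℚ F] [Field C] [Algebra ℚ C] [Algebra F C]
  [IsScalarTower ℚ F C]

/-- The value of an element of `F ⊗ A` at a point of `T(C)`; `C` is an extension of `F`. -/
noncomputable def val (y : Pt A C) : (F ⊗[ℚ] A) →ₐ[F] C :=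
  Algebra.TensorProduct.lift (Algebra.ofId F C) (ev y) (fun _ _ => .all _ _)

theorem val_tmul (y : Pt A C) (c : F) (a : A) : val F y (c ⊗ₜ[ℚ] a) = algebraMap F C c * ev y a := by
  simp [val, Algebra.ofId_apply]

theorem val_mul_apply (x y : Pt A C) (t : F ⊗[ℚ] A) :
    val F (x * y) t = Algebra.TensorProduct.lift (val F x) (val F y) (fun _ _ => .all _ _)
      (Coalgebra.comul (R := F) t) := by
  suffices h : val F (x * y) =
      (Algebra.TensorProduct.lift (val F x) (val F y) (fun _ _ => .all _ _)).comp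
      (Bialgebra.comulAlgHom F (F ⊗[ℚ] A)) by
    exact DFunLike.congr_fun h t
  apply Algebra.TensorProduct.ext (by ext)
  ext a
  have h1 : Coalgebra.comul (R := F) ((1 : F) ⊗ₜ[ℚ] a) =
      ∑ i ∈ (Coalgebra.Repr.arbitrary ℚ a).index,
        ((1 : F) ⊗ₜ[ℚ] (Coalgebra.Repr.arbitrary ℚ a).left i) ⊗ₜ[F]
          ((1 : F) ⊗ₜ[ℚ] (Coalgebra.Repr.arbitrary ℚ a).right i) := by
    rw [TensorProduct.comul_tmul, ← (Coalgebra.Repr.arbitrary ℚ a).eq]
    simp [TensorProduct.tmul_sum]
  simp only [AlgHom.coe_comp, Function.comp_apply, Algebra.TensorProduct.includeRight_apply,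
    AlgHom.coe_restrictScalars', Bialgebra.comulAlgHom_apply, h1, map_sum,
    Algebra.TensorProduct.lift_tmul, val_tmul, map_one, one_mul]
  exact ev_mul_repr _ _ _

/-- Group-like elements are multiplicative functions. -/
theorem val_mul (x y : Pt A C) {g : F ⊗[ℚ] A} (hg : IsGroupLikeElem F g) :
    val F (x * y) g = val F x g * val F y g := by
  rw [val_mul_apply, hg.comul_eq_tmul_self, Algebra.TensorProduct.lift_tmul]

end Val

section Chars

variable {A : Type*} [CommRing A] [HopfAlgebra ℚ A] [Coalgebra.IsCocomm ℚ A] {n : ℕ}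

/-- The character with exponent `z` of a splitting over `F`, as an element of `F ⊗ A`. -/
noncomputable def chr {F : Type*} [Field F] [Algebra ℚ F] (e : Splitting A F n) (z : Fin n → ℤ) :
    F ⊗[ℚ] A :=
  e.symm (MonoidAlgebra.single (Multiplicative.ofAdd z) 1)

theorem chr_groupLike {F : Type*} [Field F] [Algebra ℚ F] (e : Splitting A F n) (z : Fin n → ℤ) :
    IsGroupLikeElem F (chr e z) :=
  (MonoidAlgebra.isGroupLikeElem_single_one _).map e.symm

theorem chr_zero {F : Type*} [Field F] [Algebra ℚ F] (e : Splitting A F n) : chr e 0 = 1 := by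
  unfold chr
  rw [ofAdd_zero, ← MonoidAlgebra.one_def, map_one]

theorem chr_add {F : Type*} [Field F] [Algebra ℚ F] (e : Splitting A F n) (z w : Fin n → ℤ) :
    chr e (z + w) = chr e z * chr e w := by
  unfold chr
  rw [← map_mul, MonoidAlgebra.single_mul_single, one_mul, ofAdd_add]

/-- Every element of `F ⊗ A` is a linear combination of characters. -/
theorem eq_sum_chr {F : Type*} [Field F] [Algebra ℚ F] (e : Splitting A F n) (t : F ⊗[ℚ] A) :
    t = (e t).coeff.sum fun z c => c • chr e (Multiplicative.toAdd z) := by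
  have h1 : t = e.symm (e t) := by rw [BialgEquiv.symm_apply_apply]
  conv_lhs => rw [h1, ← MonoidAlgebra.sum_coeff_single (e t)]
  rw [Finsupp.sum, Finsupp.sum, map_sum]
  refine Finset.sum_congr rfl fun z _ => ?_
  have h2 : (MonoidAlgebra.single z ((e t).coeff z) :
      MonoidAlgebra F (Multiplicative (Fin n → ℤ))) =
      ((e t).coeff z) • MonoidAlgebra.single z 1 := by
    rw [MonoidAlgebra.smul_single, smul_eq_mul, mul_one]
  rw [h2, map_smul]
  rfl

/-- The value at `x ∈ T(ℚ)` of the `j`-th basis character of a splitting over `Q̄`. -/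
noncomputable def cval (e₀ : Splitting A (AlgebraicClosure ℚ) n) (x : Pt A ℚ) (j : Fin n) :
    AlgebraicClosure ℚ :=
  val (AlgebraicClosure ℚ) (toK A (AlgebraicClosure ℚ) x) (chr e₀ (Pi.single j 1))

end Chars

end Pool.Agent.Lib.H22T
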