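import Pool.Agent.Lib.H22F301.Val
import Pool.Agent.Lib.H22T.Defs

/-!
# Values of characters in a number field: valuations, logarithms and their ranks
-/

namespace Pool.Agent.Lib.H22T

open Pool.Agent.Lib.H22F301 (coord pairHom valHom logAbs)

section Values

variable {E K 𝕜 : Type*} [Field E] [Field K] [Field 𝕜]

/-- The value of `f : Kˣ → 𝕜` at `σ u`. -/
noncomputable def ehv (σ : E →+* K) (f : Kˣ →* Multiplicative 𝕜) (u : Eˣ) : 𝕜 :=
  Multiplicative.toAdd (f (Units.map σ.toMonoidHom u))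

theorem ehv_mul (σ : E →+* K) (f : Kˣ →* Multiplicative 𝕜) (u v : Eˣ) :
    ehv σ f (u * v) = ehv σ f u + ehv σ f v := by
  unfold ehv
  rw [map_mul, map_mul, toAdd_mul]

theorem ehv_zpow (σ : E →+* K) (f : Kˣ →* Multiplicative 𝕜) (u : Eˣ) (c : ℤ) :
    ehv σ f (u ^ c) = c * ehv σ f u := by
  unfold ehv
  rw [map_zpow, map_zpow, toAdd_zpow, zsmul_eq_mul]

theorem ehv_prod (σ : E →+* K) (f : Kˣ →* Multiplicative 𝕜) {ι : Type*} (s : Finset ι)
    (u : ι → Eˣ) (c : ι → ℤ) :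
    ehv σ f (∏ k ∈ s, u k ^ c k) = ∑ k ∈ s, (c k : 𝕜) * ehv σ f (u k) := by
  classical
  induction s using Finset.induction_on with
  | empty => simp [ehv]
  | insert a s ha ih => rw [Finset.prod_insert ha, Finset.sum_insert ha, ehv_mul, ehv_zpow, ih]

theorem ehv_torsion [CharZero 𝕜] (σ : E →+* K) (f : Kˣ →* Multiplicative 𝕜) {N : ℕ} (hN : 0 < N)
    {u : Eˣ} (h : u ^ N = 1) : ehv σ f u = 0 := by
  have h1 : ehv σ f (u ^ (N : ℤ)) = (N : ℤ) * ehv σ f u := ehv_zpow σ f u N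
  rw [zpow_natCast, h] at h1
  have h2 : ehv σ f 1 = 0 := by simp [ehv]
  rw [h2] at h1
  have h3 : ((N : ℤ) : 𝕜) ≠ 0 := by exact_mod_cast hN.ne'
  exact (mul_eq_zero.1 h1.symm).resolve_left h3

end Values

section Padic

variable {p : ℕ} [hp : Fact p.Prime] {E : Type*} [Field E] {n : ℕ}

/-- The valuation of `σ u` at `p`. -/
noncomputable def ezval (σ : E →+* ℚ_[p]) (u : Eˣ) : ℤ :=
  ((Units.map σ.toMonoidHom u : ℚ_[p]ˣ) : ℚ_[p]).valuation

theorem ehv_valHom (σ : E →+* ℚ_[p]) (u : Eˣ) : ehv σ (valHom p) u = (ezval σ u : ℚ_[p]) := rfl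

theorem ezval_prod (σ : E →+* ℚ_[p]) {ι : Type*} (s : Finset ι) (u : ι → Eˣ) (c : ι → ℤ) :
    ezval σ (∏ k ∈ s, u k ^ c k) = ∑ k ∈ s, c k * ezval σ (u k) := by
  have h := ehv_prod σ (valHom p) s u c
  simp only [ehv_valHom] at h
  exact_mod_cast h

/-- The vector of the valuations and logarithms of the coordinates. -/
noncomputable def epv (σ : E →+* ℚ_[p]) (lg : ℚ_[p]ˣ →* Multiplicative ℚ_[p]) (x : Fin n → Eˣ) :
    Fin (n + n) → ℚ_[p] :=
  Multiplicative.toAdd (pairHom lg n fun i => Units.map σ.toMonoidHom (x i))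

/-- The rank of the group of the vectors of the valuations of the elements of `L`. -/
noncomputable def evalRank (σ : E →+* ℚ_[p]) (L : Subgroup (Fin n → Eˣ)) : ℕ :=
  Module.finrank ℚ (Submodule.span ℚ
    ((fun (x : Fin n → Eˣ) (i : Fin n) => ((ezval σ (x i) : ℤ) : ℚ)) '' (L : Set (Fin n → Eˣ))))

end Padic

end Pool.Agent.Lib.H22T
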