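import Pool.Agent.Lib.H22T.Defs2

/-!
# The elements of `L` with trivial absolute values at a place at which `T` is split
-/

namespace Pool.Agent.Lib.H22T

section Torus

variable {A : Type*} [CommRing A] [HopfAlgebra ℚ A] [Coalgebra.IsCocomm ℚ A]

/-- The value of the character with exponent `z` at `x ∈ T(ℚ)`; `e` is a splitting of `T` over `K`
and the characters of `T` over `K` correspond to the vectors `z ∈ ℤ ^ n`. -/
noncomputable def chi {K : Type*} [NormedField K] [Algebra ℚ K] {n : ℕ} (e : Splitting A K n)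
    (z : Fin n → ℤ) (x : Pt A ℚ) : K :=
  bc (toK A K x) (gl e z)

/-- `L₀`: the elements `x ∈ L` with `|χ(x)| = 1` for the basis characters `χ` of the splitting. -/
def unitPart {K : Type*} [NormedField K] [Algebra ℚ K] {n : ℕ} (e : Splitting A K n)
    (L : Subgroup (Pt A ℚ)) : Set (Pt A ℚ) :=
  {x | x ∈ L ∧ ∀ i, ‖chi e (Pi.single i 1) x‖ = 1}

/-- `L₀` lies, up to torsion, in a subtorus of dimension at most two of `T` over `K`: there are two
characters `χ₁`, `χ₂` of `T` over `K` such that each basis character has a nonzero power which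
agrees on `L₀` with a product of powers of `χ₁` and `χ₂`. -/
def UnitsInPlane {K : Type*} [NormedField K] [Algebra ℚ K] {n : ℕ} (e : Splitting A K n)
    (L : Subgroup (Pt A ℚ)) : Prop :=
  ∃ z₁ z₂ : Fin n → ℤ, ∀ i, ∃ a b c : ℤ, c ≠ 0 ∧ ∀ x ∈ unitPart e L,
    chi e (Pi.single i 1) x ^ c = chi e z₁ x ^ a * chi e z₂ x ^ b

end Torus

section Field

variable {p : ℕ} [hp : Fact p.Prime] {E : Type*} [Field E] {n : ℕ}

/-- Version of `UnitsInPlane` for a group of vectors. -/
def EPlane (σ : E →+* ℚ_[p]) (L : Subgroup (Fin n → Eˣ)) : Prop :=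
  ∃ i₁ i₂ : Fin n, ∀ i, ∃ a b c : ℤ, c ≠ 0 ∧
    ∀ x ∈ L, (∀ k, ezval σ (x k) = 0) → x i ^ c = x i₁ ^ a * x i₂ ^ b

end Field

end Pool.Agent.Lib.H22T
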