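import Pool.Agent.Lib.H22T.Defs3

/-!
# The rank of the group generated by the values of the characters
-/

namespace Pool.Agent.Lib.H22T

/-- The subgroup of `Kˣ` generated by the set `S` of nonzero elements of `K` has rank at most `k`:
up to powers, all elements of `S` lie in a group with `k` generators. -/
def RankLE {K : Type*} [Field K] (S : Set K) (k : ℕ) : Prop :=
  ∃ g : Fin k → Kˣ, ∀ u ∈ S, ∃ (c : ℤ) (a : Fin k → ℤ), c ≠ 0 ∧ u ^ c = ∏ i, (g i : K) ^ a i

section Torus

variable {A : Type*} [CommRing A] [HopfAlgebra ℚ A] [Coalgebra.IsCocomm ℚ A]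

/-- The values in `ℚ̄` at the elements of `S` of the basis characters of the splitting `e₀` of `T`
over `ℚ̄`. -/
def charValuesBar {n : ℕ} (e₀ : Splitting A (AlgebraicClosure ℚ) n) (S : Set (Pt A ℚ)) :
    Set (AlgebraicClosure ℚ) :=
  {u | ∃ x ∈ S, ∃ j, u = cval e₀ x j}

/-- The values at the elements of `S` of the basis characters of the splitting `e` over `K`. -/
def charValues {K : Type*} [NormedField K] [Algebra ℚ K] {n : ℕ} (e : Splitting A K n)
    (S : Set (Pt A ℚ)) : Set K :=
  {u | ∃ x ∈ S, ∃ i, u = chi e (Pi.single i 1) x}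

end Torus

end Pool.Agent.Lib.H22T
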