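import Pool.Agent.Lib.H22F301.Six3

/-!
# Six exponentials for values in a number field: the `p`-adic case
-/

namespace Pool.Agent.Lib.H22T

open Pool.Agent.Lib.H22F301 Finset Matrix NormedSpace

variable {p : ℕ} [hp : Fact p.Prime] {E : Type*} [Field E] [NumberField E]

/-- The entries of the interpolation matrix. -/
private def t4ent (a : Fin 2 → Fin 3 → E) (e : Fin 2 → ℕ) (k : Fin 3 → ℕ) : E :=
  ∏ i, ∏ j, a i j ^ (e i * k j)

private theorem t4_den (a : Fin 2 → Fin 3 → E) :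
    ∃ q : ℕ, q ≠ 0 ∧ ∀ i j, IsIntegral ℤ ((q : E) * a i j) := by
  classical
  obtain ⟨y, hy0, hy⟩ := exists_integral_multiples ℤ ℚ
    ((univ : Finset (Fin 2 × Fin 3)).image fun z => a z.1 z.2)
  refine ⟨y.natAbs, Int.natAbs_ne_zero.2 hy0, fun i j => ?_⟩
  have h1 := hy (a i j) (mem_image.2 ⟨(i, j), mem_univ _, rfl⟩)
  rw [zsmul_eq_mul] at h1
  rcases Int.natAbs_eq y with h | h
  · rw [h] at h1
    simpa using h1
  · rw [h] at h1
    have h2 := h1.neg
    simpa using h2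

omit [NumberField E] in
private theorem t4_int (a : Fin 2 → Fin 3 → E) {q : ℕ}
    (hq : ∀ i j, IsIntegral ℤ ((q : E) * a i j)) {e : Fin 2 → ℕ} {k : Fin 3 → ℕ} {M : ℕ}
    (h : ∀ i j, e i * k j ≤ M) : IsIntegral ℤ (((q ^ (6 * M) : ℕ) : E) * t4ent a e k) := by
  have h1 : ((q ^ (6 * M) : ℕ) : E) * t4ent a e k =
      ∏ i, ∏ j, ((q : E) ^ (M - e i * k j) * ((q : E) * a i j) ^ (e i * k j)) := by
    unfold t4ent
    have h2 : ((q ^ (6 * M) : ℕ) : E) = ∏ _i : Fin 2, ∏ _j : Fin 3, (q : E) ^ M := by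
      rw [Finset.prod_const, Finset.prod_const, Finset.card_univ, Finset.card_univ,
        Fintype.card_fin, Fintype.card_fin, ← pow_mul, ← pow_mul]
      push_cast
      congr 1
      ring
    rw [h2, ← Finset.prod_mul_distrib]
    refine Finset.prod_congr rfl fun i _ => ?_
    rw [← Finset.prod_mul_distrib]
    refine Finset.prod_congr rfl fun j _ => ?_
    rw [mul_pow, ← mul_assoc, ← pow_add, Nat.sub_add_cancel (h i j)]
  have h3 : IsIntegral ℤ (q : E) := by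
    have h4 := isIntegral_algebraMap (R := ℤ) (A := E) (x := (q : ℤ))
    simpa using h4
  rw [h1]
  refine IsIntegral.prod _ fun i _ => IsIntegral.prod _ fun j _ => ?_
  exact (h3.pow _).mul ((hq i j).pow _)

omit [NumberField E] in
private theorem t4_le (a : Fin 2 → Fin 3 → E) (τ : E →+* ℂ) {H : ℝ} (hH1 : 1 ≤ H)
    (haH : ∀ i j, ‖τ (a i j)‖ ≤ H) {e : Fin 2 → ℕ} {k : Fin 3 → ℕ} {M : ℕ}
    (h : ∀ i j, e i * k j ≤ M) : ‖τ (t4ent a e k)‖ ≤ H ^ (6 * M) := by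
  unfold t4ent
  rw [map_prod, norm_prod]
  calc ∏ i, ‖τ (∏ j, a i j ^ (e i * k j))‖ ≤ ∏ _i : Fin 2, H ^ (3 * M) := by
        refine Finset.prod_le_prod (fun _ _ => norm_nonneg _) fun i _ => ?_
        rw [map_prod, norm_prod]
        calc ∏ j, ‖τ (a i j ^ (e i * k j))‖ ≤ ∏ _j : Fin 3, H ^ M := by
              refine Finset.prod_le_prod (fun _ _ => norm_nonneg _) fun j _ => ?_
              rw [map_pow, norm_pow]
              exact (pow_le_pow_left₀ (norm_nonneg _) (haH i j) _).trans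
                (pow_le_pow_right₀ hH1 (h i j))
          _ = H ^ (3 * M) := by
              rw [Finset.prod_const, Finset.card_univ, Fintype.card_fin, ← pow_mul, mul_comm]
    _ = H ^ (6 * M) := by
        rw [Finset.prod_const, Finset.card_univ, Fintype.card_fin, ← pow_mul]
        congr 1
        ring

/-- `p`-adic six exponentials, values in a number field `E` (compare `six_exp_padic` in
`H22F301/Six2.lean`; the inequality of Liouville is `one_le_padic_norm_mul_pow` in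
`H22F301/PGS.lean`). -/
theorem six_exp_padic_nf (σ : E →+* ℚ_[p]) (u : Fin 2 → ℚ_[p]) (v : Fin 3 → ℚ_[p])
    (hu1 : ∀ i, ‖u i‖ ≤ ((p : ℝ) ^ 2)⁻¹) (hv1 : ∀ j, ‖v j‖ ≤ 1) (a : Fin 2 → Fin 3 → E)
    (hexp : ∀ i j, exp (u i * v j) = σ (a i j))
    (hu : ∀ c : Fin 2 → ℤ, ∑ i, (c i : ℚ_[p]) * u i = 0 → c = 0)
    (hv : ∀ c : Fin 3 → ℤ, ∑ j, (c j : ℚ_[p]) * v j = 0 → c = 0) : False := by
  classical
  have hpR : (1 : ℝ) < p := one_lt_p
  have hp0 : (0 : ℝ) < p := by linarith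
  obtain ⟨q, hq0, hq⟩ := t4_den a
  set δ := Fintype.card (E →+* ℂ) with hδ
  set H : ℝ := 1 + ∑ τ : E →+* ℂ, ∑ i, ∑ j, ‖τ (a i j)‖ with hH
  have haH : ∀ (τ : E →+* ℂ) i j, ‖τ (a i j)‖ ≤ H := by
    intro τ i j
    have h1 : ‖τ (a i j)‖ ≤ ∑ j, ‖τ (a i j)‖ :=
      Finset.single_le_sum (f := fun j => ‖τ (a i j)‖) (fun j _ => norm_nonneg _) (mem_univ j)
    have h2 : ∑ j, ‖τ (a i j)‖ ≤ ∑ i, ∑ j, ‖τ (a i j)‖ :=
      Finset.single_le_sum (f := fun i => ∑ j, ‖τ (a i j)‖)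
        (fun i _ => Finset.sum_nonneg fun j _ => norm_nonneg _) (mem_univ i)
    have h3 : ∑ i, ∑ j, ‖τ (a i j)‖ ≤ ∑ τ : E →+* ℂ, ∑ i, ∑ j, ‖τ (a i j)‖ :=
      Finset.single_le_sum (f := fun τ : E →+* ℂ => ∑ i, ∑ j, ‖τ (a i j)‖)
        (fun τ _ => Finset.sum_nonneg fun i _ => Finset.sum_nonneg fun j _ => norm_nonneg _)
        (mem_univ τ)
    rw [hH]; linarith
  have hH1 : 1 ≤ H := by
    have : 0 ≤ ∑ τ : E →+* ℂ, ∑ i, ∑ j, ‖τ (a i j)‖ :=
      Finset.sum_nonneg fun τ _ => Finset.sum_nonneg fun i _ => Finset.sum_nonneg fun j _ =>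
        norm_nonneg _
    rw [hH]; linarith
  apply contra6_p (p := p) (δ * (6 + (12 * q + 12 * H)))
  intro s hs
  have hs' : (1 : ℝ) ≤ s := by exact_mod_cast hs
  set D1 := s ^ 6 with hD1
  have hcard1 : Fintype.card (Fin D1) = Fintype.card (Fin 2 → Fin (s ^ 3)) := by
    simp only [Fintype.card_fin, Fintype.card_fun, hD1]
    ring
  have hcard2 : Fintype.card (Fin (2 * (1 * D1))) ≤ Fintype.card (Fin 3 → Fin (2 * s ^ 2)) := by
    simp only [Fintype.card_fin, Fintype.card_fun, hD1]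
    have e1 : (2 * s ^ 2) ^ 3 = 8 * s ^ 6 := by ring
    rw [e1]
    omega
  have hcard : Fintype.card (Fin (1 * D1)) = s ^ 6 := by
    rw [Fintype.card_fin, one_mul]
  set ε := Fintype.equivOfCardEq hcard1 with hε
  obtain ⟨η⟩ := Function.Embedding.nonempty_of_card_le hcard2
  have hz1 : ∀ k : Fin 3 → ℕ, ‖∑ j, ((k j : ℕ) : ℚ_[p]) * v j‖ ≤ 1 := by
    intro k
    apply IsUltrametricDist.norm_sum_le_of_forall_le_of_nonneg zero_le_one
    intro j _
    rw [norm_mul]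
    exact mul_le_one₀ (norm_natCast_le _) (norm_nonneg _) (hv1 j)
  set w : Fin D1 → ℚ_[p] := fun r => ∑ i, ((ε r i : ℕ) : ℚ_[p]) * u i with hw
  set ζ : Fin (2 * (1 * D1)) → ℤ_[p] := fun c =>
    ⟨∑ j, ((η c j : ℕ) : ℚ_[p]) * v j, hz1 _⟩ with hζ
  have hζv : ∀ c, (ζ c : ℚ_[p]) = ∑ j, ((η c j : ℕ) : ℚ_[p]) * v j := fun c => rfl
  have hwn : ∀ r, ‖w r‖ ≤ ((p : ℝ) ^ 2)⁻¹ := by
    intro r
    apply IsUltrametricDist.norm_sum_le_of_forall_le_of_nonneg (by positivity)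
    intro i _
    exact norm_mul_le' (hu1 i) (norm_natCast_le _)
  have hwinj : Function.Injective w := by
    intro r r' h
    apply ε.injective
    have h1 := hu (fun i => ((ε r i : ℕ) : ℤ) - ((ε r' i : ℕ) : ℤ)) (by
      push_cast
      simp only [sub_mul, Finset.sum_sub_distrib]
      rw [sub_eq_zero]
      exact h)
    funext i
    have h2 := congrFun h1 i
    simp only [Pi.zero_apply] at h2
    apply Fin.ext
    omega
  have hζinj : Function.Injective ζ := by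
    intro r r' h
    apply η.injective
    have h0 : (ζ r : ℚ_[p]) = ζ r' := by rw [h]
    rw [hζv, hζv] at h0
    have h1 := hv (fun i => ((η r i : ℕ) : ℤ) - ((η r' i : ℕ) : ℤ)) (by
      push_cast
      simp only [sub_mul, Finset.sum_sub_distrib]
      rw [sub_eq_zero]
      exact h0)
    funext i
    have h2 := congrFun h1 i
    simp only [Pi.zero_apply] at h2
    apply Fin.ext
    omega
  obtain ⟨r, c, hdet0⟩ := padic_exists_minor (D0 := 1) w hwinj hwn ζ hζinj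
  set MP : Matrix (Fin (1 * D1)) (Fin (1 * D1)) ℚ_[p] :=
    Matrix.of fun i j => ((ζ (c j) : ℚ_[p]) ^ ((r i).1 : ℕ) *
        exp (w (r i).2 * ζ (c j))) with hMP
  set MK : Matrix (Fin (1 * D1)) (Fin (1 * D1)) E := Matrix.of fun i j =>
    t4ent a (fun k => (ε (r i).2 k : ℕ)) (fun l => (η (c j) l : ℕ)) with hMK
  have huv : ∀ i j, ‖u i * v j‖ ≤ ((p : ℝ) ^ 2)⁻¹ := fun i j => by
    rw [mul_comm]
    exact norm_mul_le' (hu1 i) (hv1 j)
  have hMKP : σ MK.det = MP.det := by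
    rw [RingHom.map_det]
    congr 1
    ext i j
    simp only [RingHom.mapMatrix_apply, Matrix.map_apply, hMK, hMP, Matrix.of_apply, t4ent]
    have e2 : ((r i).1 : ℕ) = 0 := by have := (r i).1.2; omega
    rw [e2, pow_zero, one_mul (exp (w (r i).2 * (ζ (c j) : ℚ_[p]))), hζv, hw]
    simp only
    have e3 : ∀ (k : Fin 2) (l : Fin 3), ((ε (r i).2 k : ℕ) : ℚ_[p]) * u k *
        (((η (c j) l : ℕ) : ℚ_[p]) * v l) =
        (((ε (r i).2 k : ℕ) * (η (c j) l : ℕ) : ℕ) : ℚ_[p]) * (u k * v l) := by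
      intro k l
      push_cast
      ring
    rw [Finset.sum_mul_sum]
    simp only [e3]
    rw [exp_sum' _ _ (fun k _ => IsUltrametricDist.norm_sum_le_of_forall_le_of_nonneg
      (by positivity) fun l _ => norm_mul_le' (huv k l) (norm_natCast_le _)), map_prod]
    refine Finset.prod_congr rfl fun k _ => ?_
    rw [exp_sum' _ _ (fun l _ => norm_mul_le' (huv k l) (norm_natCast_le _)), map_prod]
    refine Finset.prod_congr rfl fun l _ => ?_
    rw [map_pow, ← hexp k l, ← exp_nat_mul' (huv k l)]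
  have hMK0 : MK.det ≠ 0 := by
    intro h0
    apply hdet0
    rw [← hMKP, h0, map_zero]
  have hM : ∀ (i j : Fin (1 * D1)) (k : Fin 2) (l : Fin 3),
      (ε (r i).2 k : ℕ) * (η (c j) l : ℕ) ≤ 2 * s ^ 5 := fun i j k l => by
    calc (ε (r i).2 k : ℕ) * (η (c j) l : ℕ) ≤ s ^ 3 * (2 * s ^ 2) :=
          Nat.mul_le_mul (ε (r i).2 k).2.le (η (c j) l).2.le
      _ = 2 * s ^ 5 := by ring
  set Q : ℕ := q ^ (6 * (2 * s ^ 5)) with hQ
  have hQ0 : Q ≠ 0 := pow_ne_zero _ hq0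
  set x : E := ((Q : E) • MK).det with hx
  have hxe : x = (Q : E) ^ (s ^ 6) * MK.det := by
    rw [hx, Matrix.det_smul, hcard]
  have hxint : IsIntegral ℤ x := by
    apply IsIntegral.det
    intro i j
    exact t4_int a hq (hM i j)
  have hx0 : x ≠ 0 := by
    rw [hxe]
    exact mul_ne_zero (pow_ne_zero _ (by exact_mod_cast hQ0)) hMK0
  set G : ℝ := (Q : ℝ) * H ^ (6 * (2 * s ^ 5)) with hG
  have hG0 : 0 ≤ G := by positivity
  have hσx : ∀ τ : E →+* ℂ, ‖τ x‖ ≤ (Nat.factorial (s ^ 6) : ℕ) * G ^ (s ^ 6) := by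
    intro τ
    rw [hx, RingHom.map_det, ← hcard]
    apply norm_det_le
    intro i j
    simp only [RingHom.mapMatrix_apply, Matrix.map_apply, Matrix.smul_apply, smul_eq_mul, map_mul,
      map_natCast, norm_mul]
    have h1 : ‖((Q : ℕ) : ℂ)‖ = (Q : ℝ) := by simp
    rw [h1, hG]
    apply mul_le_mul_of_nonneg_left _ (by positivity)
    exact t4_le a τ hH1 (haH τ) (hM i j)
  have hL := one_le_padic_norm_mul_pow hxint hx0 σ _ hσx
  rw [hxe, map_mul, map_pow, map_natCast, hMKP, norm_mul, norm_pow] at hL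
  -- the analytic bound
  have hdet := padic_det_bound (p := p) (ι := Fin (1 * D1))
    (fun i n => pcoef (r i).1 (w (r i).2) n) (fun _ => 1)
    (fun _ => zero_le_one) (ρ := (p : ℝ)⁻¹) (by positivity) (inv_le_one_of_one_le₀ hpR.le)
    (by
      intro i n
      have e2 : ((r i).1 : ℕ) = 0 := by have := (r i).1.2; omega
      have := norm_pcoef_le ((r i).1 : ℕ) (hwn (r i).2) n
      rw [e2] at this ⊢
      rwa [pow_zero] at this)
    (fun i x => x ^ ((r i).1 : ℕ) * exp (w (r i).2 * x))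
    (fun i x hx => hasSum_pcoef _ (hwn _) hx) (fun j => (ζ (c j) : ℚ_[p]))
    (fun j => (ζ (c j)).norm_le_one)
  rw [hcard, Finset.prod_const_one] at hdet
  have hdet' : ‖MP.det‖ ≤ (p : ℝ)⁻¹ ^ (s ^ 6 * (s ^ 6 - 1) / 2) := hdet.trans (one_mul _).le
  have hfac := factorial6_le_exp hs
  have hQle : (Q : ℝ) ≤ Real.exp (12 * q * (s : ℝ) ^ 5) := by
    have := pow_le_exp (x := (q : ℝ)) (by positivity) (le_exp _) (6 * (2 * s ^ 5))
    rw [hQ]
    push_cast
    refine this.trans (le_of_eq ?_)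
    congr 1
    push_cast
    ring
  have hHle : H ^ (6 * (2 * s ^ 5)) ≤ Real.exp (12 * H * (s : ℝ) ^ 5) := by
    have := pow_le_exp (x := H) (by linarith) (le_exp _) (6 * (2 * s ^ 5))
    refine this.trans (le_of_eq ?_)
    congr 1
    push_cast
    ring
  have hGle : G ≤ Real.exp ((12 * q + 12 * H) * (s : ℝ) ^ 5) := by
    rw [hG, add_mul, Real.exp_add]
    exact mul_le_mul hQle hHle (by positivity) (by positivity)
  set T := s ^ 6 * (s ^ 6 - 1) / 2 with hT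
  have hpT : (0 : ℝ) < (p : ℝ) ^ T := by positivity
  have hQn : ‖(Q : ℚ_[p])‖ ^ (s ^ 6) ≤ 1 := pow_le_one₀ (norm_nonneg _) (norm_natCast_le Q)
  have hF0 : 0 ≤ (((Nat.factorial (s ^ 6) : ℕ) : ℝ) * G ^ (s ^ 6)) ^ δ := by positivity
  have h1 : (1 : ℝ) ≤ (p : ℝ)⁻¹ ^ T * (((Nat.factorial (s ^ 6) : ℕ) : ℝ) * G ^ (s ^ 6)) ^ δ := by
    refine hL.trans (mul_le_mul_of_nonneg_right ?_ hF0)
    calc ‖(Q : ℚ_[p])‖ ^ (s ^ 6) * ‖MP.det‖ ≤ 1 * ‖MP.det‖ :=
          mul_le_mul_of_nonneg_right hQn (norm_nonneg _)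
      _ ≤ _ := by rw [one_mul]; exact hdet'
  have h2 : (p : ℝ) ^ T * (p : ℝ)⁻¹ ^ T = 1 := by
    rw [← mul_pow, mul_inv_cancel₀ hp0.ne', one_pow]
  calc (p : ℝ) ^ T = (p : ℝ) ^ T * 1 := (mul_one _).symm
    _ ≤ (p : ℝ) ^ T * ((p : ℝ)⁻¹ ^ T * (((Nat.factorial (s ^ 6) : ℕ) : ℝ) * G ^ (s ^ 6)) ^ δ) :=
        mul_le_mul_of_nonneg_left h1 hpT.le
    _ = (((Nat.factorial (s ^ 6) : ℕ) : ℝ) * G ^ (s ^ 6)) ^ δ := by
        rw [← mul_assoc, h2, one_mul]
    _ ≤ (Real.exp (6 * (s : ℝ) ^ 5) ^ (s ^ 6) *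
        Real.exp ((12 * q + 12 * H) * (s : ℝ) ^ 5) ^ (s ^ 6)) ^ δ := by
        gcongr
    _ = Real.exp ((δ * (6 + (12 * q + 12 * H))) * s ^ 5) ^ (s ^ 6) := by
        have e1 : Real.exp ((δ * (6 + (12 * q + 12 * H))) * s ^ 5) =
            (Real.exp (6 * (s : ℝ) ^ 5) * Real.exp ((12 * q + 12 * H) * (s : ℝ) ^ 5)) ^ δ := by
          rw [← Real.exp_add, ← Real.exp_nat_mul]
          congr 1
          ring
        rw [e1]
        ring

/-- The same with logarithms (compare `six_lg` in `H22F301/Six3.lean`). -/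
theorem six_lg_nf (σ : E →+* ℚ_[p]) {lg : ℚ_[p]ˣ →* Multiplicative ℚ_[p]} {N : ℕ} (hN : 0 < N)
    (hlg : Continuous fun y => Multiplicative.toAdd (lg y))
    (hker : ∀ y : ℚ_[p]ˣ, ‖(y : ℚ_[p])‖ = 1 → Multiplicative.toAdd (lg y) = 0 → y ^ N = 1)
    (x : Fin 2 → Fin 3 → Eˣ) (hx : ∀ l k, ‖σ (x l k : E)‖ = 1)
    (s : Fin 2 → ℚ_[p]) (t : Fin 3 → ℚ_[p])
    (h : ∀ l k, Multiplicative.toAdd (lg (Units.map σ.toMonoidHom (x l k))) = s l * t k)
    (hs : ∀ c : Fin 2 → ℤ, ∑ i, (c i : ℚ_[p]) * s i = 0 → c = 0)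
    (ht : ∀ c : Fin 3 → ℤ, ∑ j, (c j : ℚ_[p]) * t j = 0 → c = 0) : False := by
  classical
  obtain ⟨c, hc0, hc1, hc2⟩ := exists_exp_log lg hN hlg hker
  choose M hM w hw he using fun l k => hc2 (Units.map σ.toMonoidHom (x l k)) (hx l k)
  set P : ℕ := ∏ l, ∏ k, M l k with hP
  have hP0 : 0 < P := Finset.prod_pos fun l _ => Finset.prod_pos fun k _ => hM l k
  have hdvd : ∀ l k, M l k ∣ P := fun l k =>
    (Finset.dvd_prod_of_mem (fun k => M l k) (mem_univ k)).trans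
      (Finset.dvd_prod_of_mem (fun l => ∏ k, M l k) (mem_univ l))
  choose Q hQ using hdvd
  set w' : Fin 2 → Fin 3 → ℚ_[p] := fun l k => ((Q l k : ℕ) : ℚ_[p]) * w l k with hw'
  have hw'n : ∀ l k, ‖w' l k‖ ≤ ((p : ℝ) ^ 2)⁻¹ := fun l k =>
    norm_mul_le' (hw l k) (norm_natCast_le _)
  have hexp : ∀ l k, exp (w' l k) = σ ((x l k : E) ^ P) := by
    intro l k
    have h1 : ((Units.map σ.toMonoidHom (x l k) : ℚ_[p]ˣ) : ℚ_[p]) = σ (x l k : E) := rfl
    rw [hw']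
    simp only
    rw [exp_nat_mul' (hw l k), ← he l k, Units.val_pow_eq_pow_val, ← pow_mul, ← hQ l k, h1, map_pow]
  have hlw : ∀ l k, c * w' l k = ((P : ℕ) : ℚ_[p]) * (s l * t k) := by
    intro l k
    have h1 := hc1 _ (w l k) (hw l k) (he l k)
    rw [map_pow, toAdd_pow, nsmul_eq_mul, h l k] at h1
    rw [hw']
    simp only
    have h2 : (P : ℚ_[p]) = (M l k : ℚ_[p]) * Q l k := by
      exact_mod_cast congrArg (fun z : ℕ => (z : ℚ_[p])) (hQ l k)
    rw [h2]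
    linear_combination (-(Q l k : ℚ_[p])) * h1
  have h2P : ((P : ℕ) : ℚ_[p]) ≠ 0 := by
    have : P ≠ 0 := by omega
    exact_mod_cast this
  have ht0 : ∀ k, t k ≠ 0 := by
    intro k hk
    have h1 := ht (Pi.single k 1) (by
      rw [Finset.sum_eq_single k]
      · rw [hk, mul_zero]
      · intro j _ hj
        rw [Pi.single_eq_of_ne hj]
        simp
      · simp)
    have := congrFun h1 k
    simp at this
  obtain ⟨k0, -, hk0⟩ := Finset.exists_max_image (univ : Finset (Fin 3)) (fun k => ‖t k‖)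
    ⟨0, mem_univ _⟩
  refine six_exp_padic_nf σ (fun l => w' l k0) (fun k => t k / t k0) (fun l => hw'n l k0) ?_
    (fun l k => (x l k : E) ^ P) ?_ ?_ ?_
  · intro k
    rw [norm_div]
    exact div_le_one_of_le₀ (hk0 k (mem_univ k)) (norm_nonneg _)
  · intro l k
    rw [← hexp l k]
    congr 1
    apply mul_left_cancel₀ hc0
    rw [← mul_assoc, hlw, hlw]
    field_simp [ht0 k0]
  · intro b hb
    apply hs
    have h1 : ∑ i, (b i : ℚ_[p]) * (c * w' i k0) = 0 := by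
      have : ∑ i, (b i : ℚ_[p]) * (c * w' i k0) = c * ∑ i, (b i : ℚ_[p]) * w' i k0 := by
        rw [Finset.mul_sum]
        exact Finset.sum_congr rfl fun i _ => by ring
      rw [this, hb, mul_zero]
    simp only [hlw] at h1
    have h2 : ∑ i, (b i : ℚ_[p]) * (((P : ℕ) : ℚ_[p]) * (s i * t k0)) =
        (((P : ℕ) : ℚ_[p]) * t k0) * ∑ i, (b i : ℚ_[p]) * s i := by
      rw [Finset.mul_sum]
      exact Finset.sum_congr rfl fun i _ => by ring
    rw [h2] at h1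
    exact (mul_eq_zero.1 h1).resolve_left (mul_ne_zero h2P (ht0 k0))
  · intro b hb
    apply ht
    have h2 : ∑ j, (b j : ℚ_[p]) * (t j / t k0) = (∑ j, (b j : ℚ_[p]) * t j) / t k0 := by
      rw [Finset.sum_div]
      exact Finset.sum_congr rfl fun i _ => by ring
    rw [h2] at hb
    exact (div_eq_zero_iff.1 hb).resolve_right (ht0 k0)

end Pool.Agent.Lib.H22T
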