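import Pool.Agent.Lib.H22F301.Six3

/-!
# Six exponentials for values in a number field: the real case
-/

namespace Pool.Agent.Lib.H22T

open Pool.Agent.Lib.H22F301 Finset Matrix
open scoped Nat

variable {E : Type*} [Field E] [NumberField E]

namespace T5

/-- The entries of the interpolation matrix. -/
def entE (a : Fin 2 → Fin 3 → E) (e : Fin 2 → ℕ) (k : Fin 3 → ℕ) : E :=
  ∏ i, ∏ j, a i j ^ (e i * k j)

/-- A common denominator. -/
theorem exists_den (a : Fin 2 → Fin 3 → E) :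
    ∃ d : ℤ, d ≠ 0 ∧ ∀ i j, IsIntegral ℤ ((d : E) * a i j) := by
  classical
  obtain ⟨d, hd0, hd⟩ := exists_integral_multiples ℤ ℚ
    (univ.image fun ij : Fin 2 × Fin 3 => a ij.1 ij.2)
  refine ⟨d, hd0, fun i j => ?_⟩
  have h1 := hd (a i j) (Finset.mem_image.2 ⟨(i, j), mem_univ _, rfl⟩)
  rwa [zsmul_eq_mul] at h1

omit [NumberField E] in
theorem isIntegral_int (d : ℤ) : IsIntegral ℤ (d : E) := by
  have h := isIntegral_algebraMap (R := ℤ) (A := E) (x := d)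
  rwa [eq_intCast] at h

omit [NumberField E] in
theorem entE_int {a : Fin 2 → Fin 3 → E} {d : ℤ} (hd : ∀ i j, IsIntegral ℤ ((d : E) * a i j))
    {e : Fin 2 → ℕ} {k : Fin 3 → ℕ} {M : ℕ} (h : ∀ i j, e i * k j ≤ M) :
    IsIntegral ℤ ((d : E) ^ (6 * M) * entE a e k) := by
  have e1 : (d : E) ^ (6 * M) * entE a e k = ∏ i : Fin 2, ∏ j : Fin 3,
      ((d : E) ^ (M - e i * k j) * ((d : E) * a i j) ^ (e i * k j)) := by
    have e2 : ∀ i j, (d : E) ^ (M - e i * k j) * ((d : E) * a i j) ^ (e i * k j) =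
        (d : E) ^ M * a i j ^ (e i * k j) := by
      intro i j
      have e3 : (d : E) ^ M = (d : E) ^ (M - e i * k j) * (d : E) ^ (e i * k j) := by
        rw [← pow_add]; congr 1; have := h i j; omega
      rw [mul_pow, e3]
      ring
    simp only [e2, Finset.prod_mul_distrib, Finset.prod_const, Finset.card_univ, Fintype.card_fin,
      entE]
    ring
  rw [e1]
  refine IsIntegral.prod _ fun i _ => IsIntegral.prod _ fun j _ => ?_
  exact ((isIntegral_int d).pow _).mul ((hd i j).pow _)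

omit [NumberField E] in
theorem entE_le {a : Fin 2 → Fin 3 → E} {H : ℝ} (hH1 : 1 ≤ H) (τ : E →+* ℂ)
    (haH : ∀ i j, ‖τ (a i j)‖ ≤ H) {e : Fin 2 → ℕ} {k : Fin 3 → ℕ} {M : ℕ}
    (h : ∀ i j, e i * k j ≤ M) : ‖τ (entE a e k)‖ ≤ H ^ (6 * M) := by
  unfold entE
  rw [map_prod, norm_prod]
  calc ∏ i, ‖τ (∏ j, a i j ^ (e i * k j))‖ ≤ ∏ _i : Fin 2, H ^ (3 * M) := by
        refine Finset.prod_le_prod (fun _ _ => norm_nonneg _) fun i _ => ?_
        rw [map_prod, norm_prod]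
        calc ∏ j, ‖τ (a i j ^ (e i * k j))‖ ≤ ∏ _j : Fin 3, H ^ M := by
              refine Finset.prod_le_prod (fun _ _ => norm_nonneg _) fun j _ => ?_
              rw [map_pow, norm_pow]
              exact (pow_le_pow_left₀ (norm_nonneg _) (haH i j) _).trans
                (pow_le_pow_right₀ hH1 (h i j))
          _ = H ^ (3 * M) := by
              rw [Finset.prod_const, Finset.card_univ, Fintype.card_fin, ← pow_mul, mul_comm]
    _ = H ^ (6 * M) := by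
        rw [Finset.prod_const, Finset.card_univ, Fintype.card_fin, ← pow_mul]
        congr 1
        ring

/-- A bound for the heights. -/
theorem exists_height (a : Fin 2 → Fin 3 → E) (d : ℤ) :
    ∃ H : ℝ, 1 ≤ H ∧ (∀ (τ : E →+* ℂ) i j, ‖τ (a i j)‖ ≤ H) ∧ |(d : ℝ)| ≤ H := by
  classical
  have h0 : 0 ≤ ∑ τ : E →+* ℂ, ∑ i, ∑ j, ‖τ (a i j)‖ :=
    Finset.sum_nonneg fun τ _ => Finset.sum_nonneg fun i _ => Finset.sum_nonneg fun j _ =>
      norm_nonneg _
  refine ⟨1 + |(d : ℝ)| + ∑ τ : E →+* ℂ, ∑ i, ∑ j, ‖τ (a i j)‖, ?_, ?_, ?_⟩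
  · have := abs_nonneg (d : ℝ)
    linarith
  · intro τ i j
    have h1 : ‖τ (a i j)‖ ≤ ∑ j, ‖τ (a i j)‖ :=
      Finset.single_le_sum (f := fun j => ‖τ (a i j)‖) (fun j _ => norm_nonneg _) (mem_univ j)
    have h2 : ∑ j, ‖τ (a i j)‖ ≤ ∑ i, ∑ j, ‖τ (a i j)‖ :=
      Finset.single_le_sum (f := fun i => ∑ j, ‖τ (a i j)‖)
        (fun i _ => Finset.sum_nonneg fun j _ => norm_nonneg _) (mem_univ i)
    have h3 : ∑ i, ∑ j, ‖τ (a i j)‖ ≤ ∑ τ : E →+* ℂ, ∑ i, ∑ j, ‖τ (a i j)‖ :=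
      Finset.single_le_sum (f := fun τ : E →+* ℂ => ∑ i, ∑ j, ‖τ (a i j)‖)
        (fun τ _ => Finset.sum_nonneg fun i _ => Finset.sum_nonneg fun j _ => norm_nonneg _)
        (mem_univ τ)
    have := abs_nonneg (d : ℝ)
    linarith
  · linarith

/-- The algebraic integer, its conjugates, and the inequality of Liouville. -/
theorem liouville {a : Fin 2 → Fin 3 → E} {d : ℤ} (hd0 : d ≠ 0)
    (hd : ∀ i j, IsIntegral ℤ ((d : E) * a i j)) {H : ℝ} (hH1 : 1 ≤ H)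
    (haH : ∀ (τ : E →+* ℂ) i j, ‖τ (a i j)‖ ≤ H) (hdH : |(d : ℝ)| ≤ H) (σ0 : E →+* ℂ)
    {ι : Type*} [Fintype ι] [DecidableEq ι]
    (e : ι → Fin 2 → ℕ) (k : ι → Fin 3 → ℕ) {M : ℕ} (h : ∀ i j r c, e r i * k c j ≤ M)
    (hdet : (Matrix.of fun r c => entE a (e r) (k c)).det ≠ 0) :
    1 ≤ (H ^ (6 * M)) ^ Fintype.card ι * ‖σ0 (Matrix.of fun r c => entE a (e r) (k c)).det‖ *
      ((H ^ (6 * M)) ^ Fintype.card ι * ((Fintype.card ι)! * (H ^ (6 * M)) ^ Fintype.card ι)) ^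
        Fintype.card (E →+* ℂ) := by
  set D : E := (Matrix.of fun r c => entE a (e r) (k c)).det with hD
  have hdE : (d : E) ≠ 0 := by exact_mod_cast hd0
  have hdn : ∀ τ : E →+* ℂ, ‖τ (((d : E) ^ (6 * M)) ^ Fintype.card ι)‖ ≤
      (H ^ (6 * M)) ^ Fintype.card ι := by
    intro τ
    rw [map_pow, map_pow, map_intCast, norm_pow, norm_pow]
    have h1 : ‖((d : ℤ) : ℂ)‖ ≤ H := by
      rw [Complex.norm_intCast]
      exact hdH
    exact pow_le_pow_left₀ (by positivity) (pow_le_pow_left₀ (norm_nonneg _) h1 _) _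
  have hint : IsIntegral ℤ (((d : E) ^ (6 * M)) ^ Fintype.card ι * D) := by
    rw [hD, ← Matrix.det_smul]
    apply IsIntegral.det
    intro r c
    rw [Matrix.smul_apply, Matrix.of_apply, smul_eq_mul]
    exact entE_int hd fun i j => h i j r c
  have hne : ((d : E) ^ (6 * M)) ^ Fintype.card ι * D ≠ 0 :=
    mul_ne_zero (pow_ne_zero _ (pow_ne_zero _ hdE)) hdet
  have hDn : ∀ τ : E →+* ℂ, ‖τ D‖ ≤ (Fintype.card ι)! * (H ^ (6 * M)) ^ Fintype.card ι := by
    intro τ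
    rw [hD, RingHom.map_det]
    apply norm_det_le
    intro r c
    rw [RingHom.mapMatrix_apply, Matrix.map_apply, Matrix.of_apply]
    exact entE_le hH1 τ (haH τ) fun i j => h i j r c
  have hH0 : (0 : ℝ) ≤ H := by linarith
  have hB1 : 1 ≤ (H ^ (6 * M)) ^ Fintype.card ι *
      ((Fintype.card ι)! * (H ^ (6 * M)) ^ Fintype.card ι) := by
    have h1 : (1 : ℝ) ≤ (H ^ (6 * M)) ^ Fintype.card ι := one_le_pow₀ (one_le_pow₀ hH1)
    have h2 : (1 : ℝ) ≤ ((Fintype.card ι)! : ℕ) := by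
      exact_mod_cast Nat.succ_le_of_lt (Nat.factorial_pos _)
    exact one_le_mul_of_one_le_of_one_le h1 (one_le_mul_of_one_le_of_one_le h2 h1)
  have key := one_le_norm_mul_pow hint hne σ0 ((H ^ (6 * M)) ^ Fintype.card ι *
      ((Fintype.card ι)! * (H ^ (6 * M)) ^ Fintype.card ι)) hB1 (by
    intro τ
    rw [map_mul, norm_mul]
    exact mul_le_mul (hdn τ) (hDn τ) (norm_nonneg _) (by positivity))
  refine key.trans (mul_le_mul_of_nonneg_right ?_ (by positivity))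
  rw [map_mul, norm_mul]
  exact mul_le_mul_of_nonneg_right (hdn σ0) (norm_nonneg _)

theorem exp_pow_swap (x : ℝ) (N g : ℕ) : (Real.exp x ^ N) ^ g = Real.exp (g * x) ^ N := by
  rw [Real.exp_nat_mul, ← pow_mul, ← pow_mul, mul_comm]

end T5

open T5

/-- Six exponentials, real numbers and values in a number field `E` (compare `six_exp_real` in
`H22F301/Six.lean`; the inequality of Liouville is `one_le_norm_mul_pow` in `H22F301/GS.lean`). -/
theorem six_exp_real_nf (σ : E →+* ℝ) (u : Fin 2 → ℝ) (v : Fin 3 → ℝ) (a : Fin 2 → Fin 3 → E)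
    (hexp : ∀ i j, Real.exp (u i * v j) = σ (a i j))
    (hu : ∀ c : Fin 2 → ℤ, ∑ i, (c i : ℝ) * u i = 0 → c = 0)
    (hv : ∀ c : Fin 3 → ℤ, ∑ j, (c j : ℝ) * v j = 0 → c = 0) : False := by
  classical
  obtain ⟨d, hd0, hd⟩ := exists_den a
  obtain ⟨H, hH1, haH, hdH⟩ := exists_height a d
  have hH0 : (0 : ℝ) < H := by linarith
  set L : ℝ := Real.log H with hL
  have hLH : Real.exp L = H := Real.exp_log hH0
  set g : ℕ := Fintype.card (E →+* ℂ) with hg
  set σ0 : E →+* ℂ := Complex.ofRealHom.comp σ with hσ0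
  set U : ℝ := ∑ i, |u i| with hU
  set V : ℝ := ∑ j, |v j| with hV
  have hU0 : 0 ≤ U := Finset.sum_nonneg fun _ _ => abs_nonneg _
  have hV0 : 0 ≤ V := Finset.sum_nonneg fun _ _ => abs_nonneg _
  apply contra6 (6 * L + g * (6 * L + (6 + 6 * L)) + (6 + U * V * Real.exp 1))
  intro s hs
  have hs' : (1 : ℝ) ≤ s := by exact_mod_cast hs
  have hcard1 : Fintype.card (Fin (s ^ 6)) = Fintype.card (Fin 2 → Fin (s ^ 3)) := by
    simp only [Fintype.card_fin, Fintype.card_fun]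
    ring
  have hcard2 : Fintype.card (Fin 1 × Fin (s ^ 6)) = Fintype.card (Fin 3 → Fin (s ^ 2)) := by
    simp only [Fintype.card_prod, Fintype.card_fin, Fintype.card_fun]
    ring
  have hcard : Fintype.card (Fin 1 × Fin (s ^ 6)) = s ^ 6 := by
    simp only [Fintype.card_prod, Fintype.card_fin]
    ring
  set ε := Fintype.equivOfCardEq hcard1 with hε
  set η := Fintype.equivOfCardEq hcard2 with hη
  set w : Fin (s ^ 6) → ℝ := fun r => ∑ i, ((ε r i : ℕ) : ℝ) * u i with hw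
  set ζ : Fin 1 × Fin (s ^ 6) → ℝ := fun c => ∑ j, ((η c j : ℕ) : ℝ) * v j with hζ
  have hwinj : Function.Injective w := by
    intro r r' h
    apply ε.injective
    have h1 := hu (fun i => ((ε r i : ℕ) : ℤ) - ((ε r' i : ℕ) : ℤ)) (by
      push_cast
      simp only [sub_mul, Finset.sum_sub_distrib]
      rw [sub_eq_zero]
      exact h)
    funext i
    have h2 := congrFun h1 i
    simp only [Pi.zero_apply] at h2
    apply Fin.ext
    omega
  have hζinj : Function.Injective ζ := by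
    intro r r' h
    apply η.injective
    have h1 := hv (fun i => ((η r i : ℕ) : ℤ) - ((η r' i : ℕ) : ℤ)) (by
      push_cast
      simp only [sub_mul, Finset.sum_sub_distrib]
      rw [sub_eq_zero]
      exact h)
    funext i
    have h2 := congrFun h1 i
    simp only [Pi.zero_apply] at h2
    apply Fin.ext
    omega
  set ME : Matrix (Fin 1 × Fin (s ^ 6)) (Fin 1 × Fin (s ^ 6)) E := Matrix.of fun r c =>
    entE a (fun i => (ε r.2 i : ℕ)) (fun j => (η c j : ℕ)) with hME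
  set MR : Matrix (Fin 1 × Fin (s ^ 6)) (Fin 1 × Fin (s ^ 6)) ℝ := Matrix.of fun r c =>
    ζ c ^ (r.1 : ℕ) * Real.exp (w r.2 * ζ c) with hMR
  have hMER : σ ME.det = MR.det := by
    rw [RingHom.map_det]
    congr 1
    ext r c
    simp only [RingHom.mapMatrix_apply, Matrix.map_apply, hME, hMR, Matrix.of_apply, entE]
    have e2 : (r.1 : ℕ) = 0 := by have := r.1.2; omega
    rw [e2, pow_zero, one_mul, hw, hζ]
    simp only
    rw [Finset.sum_mul_sum, Real.exp_sum, map_prod]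
    refine Finset.prod_congr rfl fun i _ => ?_
    rw [Real.exp_sum, map_prod]
    refine Finset.prod_congr rfl fun j _ => ?_
    rw [map_pow, ← hexp i j, ← Real.exp_nat_mul]
    congr 1
    push_cast
    ring
  have hMR0 : MR.det ≠ 0 := det_ne_zero w hwinj ζ hζinj
  have hME0 : ME.det ≠ 0 := by
    intro h0
    apply hMR0
    rw [← hMER, h0, map_zero]
  have hM : ∀ (i : Fin 2) (j : Fin 3) (r c : Fin 1 × Fin (s ^ 6)),
      (ε r.2 i : ℕ) * (η c j : ℕ) ≤ s ^ 5 := fun i j r c => by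
    calc (ε r.2 i : ℕ) * (η c j : ℕ) ≤ s ^ 3 * s ^ 2 := Nat.mul_le_mul (ε r.2 i).2.le (η c j).2.le
      _ = s ^ 5 := by ring
  have hz1 := liouville hd0 hd hH1 haH hdH σ0 (fun (r : Fin 1 × Fin (s ^ 6)) i => (ε r.2 i : ℕ))
    (fun c j => (η c j : ℕ)) hM hME0
  have hnorm : ‖σ0 ME.det‖ = |MR.det| := by
    rw [hσ0, RingHom.comp_apply, hMER, Complex.ofRealHom_eq_coe, Complex.norm_real,
      Real.norm_eq_abs]
  rw [hcard] at hz1
  change 1 ≤ (H ^ (6 * s ^ 5)) ^ (s ^ 6) * ‖σ0 ME.det‖ *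
    ((H ^ (6 * s ^ 5)) ^ (s ^ 6) * (((s ^ 6)! : ℕ) * (H ^ (6 * s ^ 5)) ^ (s ^ 6))) ^ g at hz1
  rw [hnorm] at hz1
  have hHe : H ^ (6 * s ^ 5) = Real.exp (6 * L * (s : ℝ) ^ 5) := by
    rw [← hLH, ← Real.exp_nat_mul]
    congr 1
    push_cast
    ring
  rw [hHe] at hz1
  -- the analytic bound
  have hdet := det_bound (ι := Fin 1 × Fin (s ^ 6)) (fun r n => coef r.1 (w r.2) n)
    (fun _ => Real.exp ((s : ℝ) ^ 3 * U * ((s : ℝ) ^ 2 * V * Real.exp 1)))
    ((s : ℝ) ^ 2 * V) (Real.exp 1) (by positivity) (Real.one_le_exp zero_le_one)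
    (by
      intro r D
      refine (sum_abs_coef_le _ _ _ (by positivity) D).trans ?_
      have e2 : (r.1 : ℕ) = 0 := by have := r.1.2; omega
      rw [e2, pow_zero, one_mul]
      apply Real.exp_le_exp.2
      apply mul_le_mul_of_nonneg_right _ (by positivity)
      rw [hw]
      simp only
      calc |∑ i, ((ε r.2 i : ℕ) : ℝ) * u i| ≤ ∑ i, |((ε r.2 i : ℕ) : ℝ) * u i| :=
            Finset.abs_sum_le_sum_abs _ _
        _ ≤ ∑ i, (s : ℝ) ^ 3 * |u i| := by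
            refine Finset.sum_le_sum fun i _ => ?_
            rw [abs_mul, Nat.abs_cast]
            apply mul_le_mul_of_nonneg_right _ (abs_nonneg _)
            exact_mod_cast (ε r.2 i).2.le
        _ = (s : ℝ) ^ 3 * U := by rw [← Finset.mul_sum])
    (fun r x => x ^ (r.1 : ℕ) * Real.exp (w r.2 * x))
    (fun r x _ => hasSum_coef r.1 (w r.2) x) ζ
    (by
      intro c
      rw [hζ]
      simp only
      calc |∑ j, ((η c j : ℕ) : ℝ) * v j| ≤ ∑ j, |((η c j : ℕ) : ℝ) * v j| :=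
            Finset.abs_sum_le_sum_abs _ _
        _ ≤ ∑ j, (s : ℝ) ^ 2 * |v j| := by
            refine Finset.sum_le_sum fun j _ => ?_
            rw [abs_mul, Nat.abs_cast]
            apply mul_le_mul_of_nonneg_right _ (abs_nonneg _)
            exact_mod_cast (η c j).2.le
        _ = (s : ℝ) ^ 2 * V := by rw [← Finset.mul_sum])
  rw [hcard, Finset.prod_const, Finset.card_univ, hcard] at hdet
  have hdet' : Real.exp 1 ^ (s ^ 6 * (s ^ 6 - 1) / 2) * |MR.det| ≤ ((s ^ 6)! : ℕ) *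
      Real.exp ((s : ℝ) ^ 3 * U * ((s : ℝ) ^ 2 * V * Real.exp 1)) ^ (s ^ 6) := hdet
  have hfac := factorial6_le_exp hs
  set T := s ^ 6 * (s ^ 6 - 1) / 2 with hT
  have hT0 : (0 : ℝ) < Real.exp 1 ^ T := by positivity
  have hB : ((Real.exp (6 * L * (s : ℝ) ^ 5)) ^ (s ^ 6) *
      ((((s ^ 6)! : ℕ) : ℝ) * (Real.exp (6 * L * (s : ℝ) ^ 5)) ^ (s ^ 6))) ^ g ≤
      Real.exp (g * ((6 * L + (6 + 6 * L)) * (s : ℝ) ^ 5)) ^ (s ^ 6) := by
    rw [← exp_pow_swap]
    apply pow_le_pow_left₀ (by positivity)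
    calc (Real.exp (6 * L * (s : ℝ) ^ 5)) ^ (s ^ 6) *
        ((((s ^ 6)! : ℕ) : ℝ) * (Real.exp (6 * L * (s : ℝ) ^ 5)) ^ (s ^ 6))
        ≤ (Real.exp (6 * L * (s : ℝ) ^ 5)) ^ (s ^ 6) *
        (Real.exp (6 * (s : ℝ) ^ 5) ^ (s ^ 6) * (Real.exp (6 * L * (s : ℝ) ^ 5)) ^ (s ^ 6)) := by
          apply mul_le_mul_of_nonneg_left _ (by positivity)
          exact mul_le_mul_of_nonneg_right hfac (by positivity)
      _ = Real.exp ((6 * L + (6 + 6 * L)) * (s : ℝ) ^ 5) ^ (s ^ 6) := by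
          rw [← mul_pow, ← mul_pow, ← Real.exp_add, ← Real.exp_add]
          congr 2
          ring
  calc Real.exp 1 ^ T ≤ Real.exp 1 ^ T * ((Real.exp (6 * L * (s : ℝ) ^ 5)) ^ (s ^ 6) * |MR.det| *
        ((Real.exp (6 * L * (s : ℝ) ^ 5)) ^ (s ^ 6) *
          ((((s ^ 6)! : ℕ) : ℝ) * (Real.exp (6 * L * (s : ℝ) ^ 5)) ^ (s ^ 6))) ^ g) :=
        le_mul_of_one_le_right hT0.le hz1
    _ ≤ Real.exp 1 ^ T * ((Real.exp (6 * L * (s : ℝ) ^ 5)) ^ (s ^ 6) * |MR.det| *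
        Real.exp (g * ((6 * L + (6 + 6 * L)) * (s : ℝ) ^ 5)) ^ (s ^ 6)) := by
        apply mul_le_mul_of_nonneg_left _ hT0.le
        exact mul_le_mul_of_nonneg_left hB (by positivity)
    _ = Real.exp (6 * L * (s : ℝ) ^ 5) ^ (s ^ 6) *
        Real.exp (g * ((6 * L + (6 + 6 * L)) * (s : ℝ) ^ 5)) ^ (s ^ 6) *
        (Real.exp 1 ^ T * |MR.det|) := by ring
    _ ≤ Real.exp (6 * L * (s : ℝ) ^ 5) ^ (s ^ 6) *
        Real.exp (g * ((6 * L + (6 + 6 * L)) * (s : ℝ) ^ 5)) ^ (s ^ 6) *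
        (Real.exp (6 * (s : ℝ) ^ 5) ^ (s ^ 6) *
          Real.exp ((s : ℝ) ^ 3 * U * ((s : ℝ) ^ 2 * V * Real.exp 1)) ^ (s ^ 6)) := by
        apply mul_le_mul_of_nonneg_left _ (by positivity)
        exact hdet'.trans (mul_le_mul_of_nonneg_right hfac (by positivity))
    _ = Real.exp ((6 * L + g * (6 * L + (6 + 6 * L)) + (6 + U * V * Real.exp 1)) * s ^ 5) ^ (s ^ 6) := by
        rw [← mul_pow, ← mul_pow, ← mul_pow, ← Real.exp_add, ← Real.exp_add, ← Real.exp_add]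
        congr 2
        ring

/-- The same with logarithms of absolute values. -/
theorem six_log_nf (σ : E →+* ℝ) (x : Fin 2 → Fin 3 → Eˣ) (s : Fin 2 → ℝ) (t : Fin 3 → ℝ)
    (h : ∀ l k, Real.log |σ (x l k : E)| = s l * t k)
    (hs : ∀ c : Fin 2 → ℤ, ∑ i, (c i : ℝ) * s i = 0 → c = 0)
    (ht : ∀ c : Fin 3 → ℤ, ∑ j, (c j : ℝ) * t j = 0 → c = 0) : False := by
  classical
  refine six_exp_real_nf σ s t
    (fun l k => if 0 ≤ σ (x l k : E) then (x l k : E) else -(x l k : E)) ?_ hs ht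
  intro l k
  have h0 : σ (x l k : E) ≠ 0 := (map_ne_zero σ).2 (x l k).ne_zero
  rw [← h l k, Real.exp_log (abs_pos.2 h0)]
  split_ifs with h1
  · exact abs_of_nonneg h1
  · rw [map_neg]
    exact abs_of_neg (lt_of_not_ge h1)

end Pool.Agent.Lib.H22T
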