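import Pool.Agent.Lib.H22T.Defs2
import Pool.Agent.Lib.H22T.T4
import Pool.Agent.Lib.H22T.T5
import Pool.Agent.Lib.H22F301.PGS3

/-!
# The `p`-adic theorem of Gelfond and Schneider for values in a number field
-/

namespace Pool.Agent.Lib.H22T

open Pool.Agent.Lib.H22F301 (logAbs)

namespace G1

open Pool.Agent.Lib.H22F301 Finset Matrix NormedSpace
open scoped Nat IntermediateField

section Field

variable {K : Type*} [Field K] [NumberField K]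

/-- The entries of the interpolation matrix. -/
private def gent (ϑ α β : K) (i j k l : ℕ) : K :=
  ((k : K) + (l : K) * ϑ) ^ i * (α ^ (j * k) * β ^ (j * l))

private theorem g_den (ϑ α β : K) : ∃ q : ℕ, q ≠ 0 ∧ IsIntegral ℤ ((q : K) * ϑ) ∧
    IsIntegral ℤ ((q : K) * α) ∧ IsIntegral ℤ ((q : K) * β) := by
  classical
  obtain ⟨y, hy0, hy⟩ := exists_integral_multiples ℤ ℚ ({ϑ, α, β} : Finset K)
  have key : ∀ z ∈ ({ϑ, α, β} : Finset K), IsIntegral ℤ (((y.natAbs : ℕ) : K) * z) := by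
    intro z hz
    have h1 := hy z hz
    rw [zsmul_eq_mul] at h1
    rcases Int.natAbs_eq y with h | h
    · rw [h] at h1
      simpa using h1
    · rw [h] at h1
      have h2 := h1.neg
      simpa using h2
  exact ⟨y.natAbs, Int.natAbs_ne_zero.2 hy0, key ϑ (by simp), key α (by simp), key β (by simp)⟩

omit [NumberField K] in
private theorem g_int {ϑ α β : K} {q : ℕ} (hq : IsIntegral ℤ ((q : K) * ϑ))
    (hqa : IsIntegral ℤ ((q : K) * α)) (hqb : IsIntegral ℤ ((q : K) * β))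
    {D0 M i j k l : ℕ} (hi : i ≤ D0) (hk : j * k ≤ M) (hl : j * l ≤ M) :
    IsIntegral ℤ (((q ^ D0 * (q ^ M * q ^ M) : ℕ) : K) * gent ϑ α β i j k l) := by
  have h1 : ((q ^ D0 * (q ^ M * q ^ M) : ℕ) : K) * gent ϑ α β i j k l =
      (q : K) ^ (D0 - i) * ((q : K) * (k : K) + (l : K) * ((q : K) * ϑ)) ^ i *
        (((q : K) ^ (M - j * k) * ((q : K) * α) ^ (j * k)) *
          ((q : K) ^ (M - j * l) * ((q : K) * β) ^ (j * l))) := by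
    have e3 : (q : K) ^ D0 = (q : K) ^ (D0 - i) * (q : K) ^ i := by
      rw [← pow_add]; congr 1; omega
    have e5 : (q : K) ^ M = (q : K) ^ (M - j * k) * (q : K) ^ (j * k) := by
      rw [← pow_add]; congr 1; omega
    have e6 : (q : K) ^ M = (q : K) ^ (M - j * l) * (q : K) ^ (j * l) := by
      rw [← pow_add]; congr 1; omega
    have e4 : (q : K) * (k : K) + (l : K) * ((q : K) * ϑ) = (q : K) * ((k : K) + (l : K) * ϑ) := by
      ring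
    have e7 : (q : K) ^ M * (q : K) ^ M = ((q : K) ^ (M - j * k) * (q : K) ^ (j * k)) *
        ((q : K) ^ (M - j * l) * (q : K) ^ (j * l)) := by
      rw [← e5, ← e6]
    rw [e4, mul_pow, mul_pow, mul_pow, gent]
    push_cast
    rw [e3, e7]
    ring
  rw [h1]
  have hn : ∀ n : ℕ, IsIntegral ℤ (n : K) := fun n => by
    have := isIntegral_algebraMap (R := ℤ) (A := K) (x := (n : ℤ))
    simpa using this
  exact (((hn q).pow _).mul ((((hn q).mul (hn k)).add ((hn l).mul hq)).pow _)).mul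
    ((((hn q).pow _).mul (hqa.pow _)).mul (((hn q).pow _).mul (hqb.pow _)))

omit [NumberField K] in
private theorem g_le (ϑ α β : K) (σ : K →+* ℂ) {C1 H : ℝ}
    (hC1 : 1 + ‖σ ϑ‖ ≤ C1) (hH1 : 1 ≤ H) (haH : ‖σ α‖ ≤ H) (hbH : ‖σ β‖ ≤ H)
    {D0 M S i j k l : ℕ} (hS : 1 ≤ S) (hi : i ≤ D0) (hk : j * k ≤ M) (hl : j * l ≤ M)
    (hkS : k ≤ S) (hlS : l ≤ S) :
    ‖σ (gent ϑ α β i j k l)‖ ≤ (S * C1) ^ D0 * (H ^ M * H ^ M) := by
  have hS' : (1 : ℝ) ≤ S := by exact_mod_cast hS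
  have h0 := norm_nonneg (σ ϑ)
  have hC : 1 ≤ C1 := by linarith
  have hSC : 1 ≤ (S : ℝ) * C1 := by nlinarith
  unfold gent
  rw [map_mul, map_pow, map_add, map_mul, map_natCast, map_natCast, norm_mul, norm_pow, map_mul,
    norm_mul, map_pow, map_pow, norm_pow, norm_pow]
  apply mul_le_mul _ _ (by positivity) (by positivity)
  · have h1 : ‖(k : ℂ) + (l : ℂ) * σ ϑ‖ ≤ S * C1 := by
      calc ‖(k : ℂ) + (l : ℂ) * σ ϑ‖ ≤ ‖(k : ℂ)‖ + ‖(l : ℂ) * σ ϑ‖ := norm_add_le _ _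
        _ = k + l * ‖σ ϑ‖ := by rw [norm_mul]; simp
        _ ≤ S + S * ‖σ ϑ‖ := by
            have e1 : (k : ℝ) ≤ S := by exact_mod_cast hkS
            have e2 : (l : ℝ) ≤ S := by exact_mod_cast hlS
            nlinarith
        _ = S * (1 + ‖σ ϑ‖) := by ring
        _ ≤ S * C1 := mul_le_mul_of_nonneg_left hC1 (by linarith)
    calc ‖(k : ℂ) + (l : ℂ) * σ ϑ‖ ^ i ≤ (S * C1) ^ i := pow_le_pow_left₀ (norm_nonneg _) h1 _
      _ ≤ (S * C1) ^ D0 := pow_le_pow_right₀ hSC hi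
  · apply mul_le_mul _ _ (by positivity) (by positivity)
    · exact (pow_le_pow_left₀ (norm_nonneg _) haH _).trans (pow_le_pow_right₀ hH1 hk)
    · exact (pow_le_pow_left₀ (norm_nonneg _) hbH _).trans (pow_le_pow_right₀ hH1 hl)

end Field

variable {p : ℕ} [hp : Fact p.Prime]

private theorem g_key_ineq {K : Type*} [Field K] [NumberField K] (σp : K →+* ℚ_[p]) (ϑ α β : K)
    {w1 w2 : ℚ_[p]} (hw1 : ‖w1‖ ≤ ((p : ℝ) ^ 2)⁻¹)
    (hw2 : ‖w2‖ ≤ ((p : ℝ) ^ 2)⁻¹) (hw10 : w1 ≠ 0)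
    (hea : exp w1 = σp α) (heb : exp w2 = σp β)
    (hθ : σp ϑ * w1 = w2) (hθ1 : ‖σp ϑ‖ ≤ 1)
    (hinj : ∀ k l k' l' : ℕ, (k : ℚ_[p]) + l * σp ϑ = k' + l' * σp ϑ → k = k' ∧ l = l') :
    ∃ C : ℝ, ∀ s : ℕ, 1 ≤ s →
      (p : ℝ) ^ (s ^ 8 * (s ^ 8 - 1) / 2) ≤ Real.exp (C * s ^ 7) ^ (s ^ 8) := by
  classical
  obtain ⟨q, hq0, hq, hqa, hqb⟩ := g_den ϑ α β
  have hpR : (1 : ℝ) < p := one_lt_p
  have hp0 : (0 : ℝ) < p := by linarith
  set δ := Fintype.card (K →+* ℂ) with hδ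
  set θ := σp ϑ with hθ'
  set C1 : ℝ := 1 + ∑ σ : K →+* ℂ, ‖σ ϑ‖ with hC1
  set H : ℝ := 1 + ((∑ σ : K →+* ℂ, ‖σ α‖) + ∑ σ : K →+* ℂ, ‖σ β‖) with hH
  have hsum0 : ∀ z : K, 0 ≤ ∑ σ : K →+* ℂ, ‖σ z‖ :=
    fun z => Finset.sum_nonneg fun _ _ => norm_nonneg _
  have hsum1 : ∀ (z : K) (σ : K →+* ℂ), ‖σ z‖ ≤ ∑ σ : K →+* ℂ, ‖σ z‖ := fun z σ =>
    Finset.single_le_sum (f := fun σ : K →+* ℂ => ‖σ z‖) (fun _ _ => norm_nonneg _) (mem_univ σ)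
  have hC1σ : ∀ σ : K →+* ℂ, 1 + ‖σ ϑ‖ ≤ C1 := fun σ => by
    rw [hC1]
    have := hsum1 ϑ σ
    linarith
  have hC11 : 1 ≤ C1 := by rw [hC1]; have := hsum0 ϑ; linarith
  have hH1 : 1 ≤ H := by rw [hH]; have := hsum0 α; have := hsum0 β; linarith
  have haH : ∀ σ : K →+* ℂ, ‖σ α‖ ≤ H := fun σ => by
    rw [hH]; have := hsum1 α σ; have := hsum0 β; linarith
  have hbH : ∀ σ : K →+* ℂ, ‖σ β‖ ≤ H := fun σ => by
    rw [hH]; have := hsum1 β σ; have := hsum0 α; linarith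
  set cE : ℝ := q + ((q ^ 2 : ℕ) : ℝ) + ((q ^ 2 : ℕ) : ℝ) + (4 + 2 * C1) + 2 * H ^ 2
    with hcE
  refine ⟨p + δ * (8 + cE), fun s hs => ?_⟩
  have hs' : (1 : ℝ) ≤ s := by exact_mod_cast hs
  set D0 := s ^ 6 with hD0
  set D1 := s ^ 2 with hD1
  have hN : D0 * D1 = s ^ 8 := by rw [hD0, hD1]; ring
  have h8 : Fintype.card (Fin (D0 * D1)) = s ^ 8 := by rw [Fintype.card_fin, hN]
  -- the points
  have hcard : Fintype.card (Fin (2 * (D0 * D1))) =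
      Fintype.card (Fin (2 * s ^ 4) × Fin (s ^ 4)) := by
    simp only [Fintype.card_prod, Fintype.card_fin]
    rw [hN]
    ring
  set η := Fintype.equivOfCardEq hcard with hη
  have hnat : ∀ k : ℕ, ‖(k : ℚ_[p])‖ ≤ 1 := fun k => norm_natCast_le k
  have hz1 : ∀ k l : ℕ, ‖(k : ℚ_[p]) + l * θ‖ ≤ 1 := by
    intro k l
    refine (Padic.nonarchimedean _ _).trans (max_le (hnat k) ?_)
    rw [norm_mul]
    exact mul_le_one₀ (hnat l) (norm_nonneg _) hθ1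
  set ζ : Fin (2 * (D0 * D1)) → ℤ_[p] := fun c =>
    ⟨((η c).1 : ℕ) + ((η c).2 : ℕ) * θ, hz1 _ _⟩ with hζ
  have hζv : ∀ c, (ζ c : ℚ_[p]) = ((η c).1 : ℕ) + ((η c).2 : ℕ) * θ := fun c => rfl
  have hζinj : Function.Injective ζ := by
    intro c c' h
    have h1 : (ζ c : ℚ_[p]) = ζ c' := by rw [h]
    rw [hζv, hζv] at h1
    have h2 := hinj _ _ _ _ h1
    apply η.injective
    exact Prod.ext (Fin.ext h2.1) (Fin.ext h2.2)
  set w : Fin D1 → ℚ_[p] := fun j => ((j : ℕ) : ℚ_[p]) * w1 with hw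
  have hwinj : Function.Injective w := by
    intro j j' h
    have h2 : ((j : ℕ) : ℚ_[p]) = (j' : ℕ) := mul_right_cancel₀ hw10 h
    exact Fin.ext (by exact_mod_cast h2)
  have hwn : ∀ j, ‖w j‖ ≤ ((p : ℝ) ^ 2)⁻¹ := fun j => norm_mul_le' hw1 (hnat _)
  obtain ⟨r, c, hdet0⟩ := padic_exists_minor w hwinj hwn ζ hζinj
  set MP : Matrix (Fin (D0 * D1)) (Fin (D0 * D1)) ℚ_[p] :=
    Matrix.of fun i j => ((ζ (c j) : ℚ_[p]) ^ ((r i).1 : ℕ) *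
        exp (w (r i).2 * ζ (c j))) with hMP
  set MK : Matrix (Fin (D0 * D1)) (Fin (D0 * D1)) K :=
    Matrix.of fun i j => gent ϑ α β (r i).1 (r i).2 (η (c j)).1 (η (c j)).2 with hMK
  have hMKP : σp MK.det = MP.det := by
    rw [RingHom.map_det]
    congr 1
    ext i j
    simp only [RingHom.mapMatrix_apply, Matrix.map_apply, hMK, hMP, Matrix.of_apply, gent, map_mul,
      map_pow, map_add, map_natCast, hζv, hw]
    congr 1
    have e1 : (((r i).2 : ℕ) : ℚ_[p]) * w1 * (((η (c j)).1 : ℕ) + ((η (c j)).2 : ℕ) * θ) =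
        ((((r i).2 : ℕ) * ((η (c j)).1 : ℕ) : ℕ) : ℚ_[p]) * w1 +
          ((((r i).2 : ℕ) * ((η (c j)).2 : ℕ) : ℕ) : ℚ_[p]) * w2 := by
      rw [← hθ]; push_cast; ring
    rw [e1, exp_add' (norm_mul_le' hw1 (hnat _)) (norm_mul_le' hw2 (hnat _)), exp_nat_mul' hw1,
      exp_nat_mul' hw2, hea, heb]
  have hMK0 : MK.det ≠ 0 := by
    intro h
    apply hdet0
    rw [← hMKP, h, map_zero]
  set Q : ℕ := q ^ (s ^ 6) * (q ^ (2 * s ^ 6) * q ^ (2 * s ^ 6)) with hQ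
  have hQ0 : Q ≠ 0 := by
    rw [hQ]
    positivity
  have hjk : ∀ (j : Fin D1) (k : Fin (2 * s ^ 4)), (j : ℕ) * (k : ℕ) ≤ 2 * s ^ 6 := fun j k => by
    calc (j : ℕ) * (k : ℕ) ≤ s ^ 2 * (2 * s ^ 4) := Nat.mul_le_mul j.2.le k.2.le
      _ = 2 * s ^ 6 := by ring
  have hjl : ∀ (j : Fin D1) (k : Fin (s ^ 4)), (j : ℕ) * (k : ℕ) ≤ 2 * s ^ 6 := fun j k => by
    calc (j : ℕ) * (k : ℕ) ≤ s ^ 2 * s ^ 4 := Nat.mul_le_mul j.2.le k.2.le
      _ = s ^ 6 := by ring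
      _ ≤ 2 * s ^ 6 := by omega
  set x : K := ((Q : K) • MK).det with hx
  have hxe : x = (Q : K) ^ (s ^ 8) * MK.det := by
    rw [hx, Matrix.det_smul, h8]
  have hxint : IsIntegral ℤ x := by
    apply IsIntegral.det
    intro i j
    exact g_int hq hqa hqb (r i).1.2.le (hjk _ _) (hjl _ _)
  have hx0 : x ≠ 0 := by
    rw [hxe]
    exact mul_ne_zero (pow_ne_zero _ (by exact_mod_cast hQ0)) hMK0
  set E : ℝ := (Q : ℝ) * ((((2 * s ^ 4 : ℕ) : ℝ) * C1) ^ (s ^ 6) *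
    (H ^ (2 * s ^ 6) * H ^ (2 * s ^ 6))) with hE
  have hEle : E ≤ Real.exp (cE * (s : ℝ) ^ 7) := by
    have := E_le (q := q) (ad := q ^ 2) (bd := q ^ 2) (C1 := 2 * C1) (H := H ^ 2) hs
      (by linarith) (by positivity)
    refine le_trans (le_of_eq ?_) this
    rw [hE, hQ]
    simp only [← pow_mul]
    push_cast
    ring
  have hS4 : 1 ≤ 2 * s ^ 4 := by
    have := Nat.one_le_pow 4 s (by omega)
    omega
  have hE0 : 0 ≤ E := by rw [hE]; positivity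
  have hσx : ∀ σ : K →+* ℂ, ‖σ x‖ ≤ ((s ^ 8)! : ℕ) * E ^ (s ^ 8) := by
    intro σ
    rw [hx, RingHom.map_det, ← h8]
    apply norm_det_le
    intro i j
    simp only [RingHom.mapMatrix_apply, Matrix.map_apply, Matrix.smul_apply, smul_eq_mul, map_mul,
      map_natCast, norm_mul]
    rw [hE]
    have h1 : ‖((Q : ℕ) : ℂ)‖ = (Q : ℝ) := by simp
    rw [h1]
    apply mul_le_mul_of_nonneg_left _ (by positivity)
    exact g_le ϑ α β σ (hC1σ σ) hH1 (haH σ) (hbH σ) hS4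
      (r i).1.2.le (hjk _ _) (hjl _ _) (η (c j)).1.2.le
      (by have := (η (c j)).2.2; omega)
  have hL := one_le_padic_norm_mul_pow hxint hx0 σp _ hσx
  rw [hxe, map_mul, map_pow, map_natCast, hMKP, norm_mul, norm_pow] at hL
  -- the analytic bound
  have hdet := padic_det_bound (p := p) (ι := Fin (D0 * D1))
    (fun i n => pcoef (r i).1 (w (r i).2) n) (fun _ => (p : ℝ) ^ (s ^ 6))
    (fun _ => by positivity) (ρ := (p : ℝ)⁻¹) (by positivity) (inv_le_one_of_one_le₀ hpR.le)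
    (by
      intro i n
      refine (norm_pcoef_le _ (hwn _) n).trans ?_
      apply mul_le_mul_of_nonneg_right _ (by positivity)
      exact pow_le_pow_right₀ hpR.le (r i).1.2.le)
    (fun i x => x ^ ((r i).1 : ℕ) * exp (w (r i).2 * x))
    (fun i x hx => hasSum_pcoef _ (hwn _) hx) (fun j => (ζ (c j) : ℚ_[p]))
    (fun j => (ζ (c j)).norm_le_one)
  rw [h8, Finset.prod_const, Finset.card_univ, h8] at hdet
  have hdet' : ‖MP.det‖ ≤ ((p : ℝ) ^ (s ^ 6)) ^ (s ^ 8) *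
      (p : ℝ)⁻¹ ^ (s ^ 8 * (s ^ 8 - 1) / 2) := hdet
  have hfac := factorial_le_exp hs
  set T := s ^ 8 * (s ^ 8 - 1) / 2 with hT
  have hpT : (0 : ℝ) < (p : ℝ) ^ T := by positivity
  have hQn : ‖(Q : ℚ_[p])‖ ^ (s ^ 8) ≤ 1 := pow_le_one₀ (norm_nonneg _) (hnat Q)
  have hG0 : 0 ≤ ((((s ^ 8)! : ℕ) : ℝ) * E ^ (s ^ 8)) ^ δ := by positivity
  have h1 : (1 : ℝ) ≤ (((p : ℝ) ^ (s ^ 6)) ^ (s ^ 8) * (p : ℝ)⁻¹ ^ T) *
      ((((s ^ 8)! : ℕ) : ℝ) * E ^ (s ^ 8)) ^ δ := by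
    refine hL.trans (mul_le_mul_of_nonneg_right ?_ hG0)
    calc ‖(Q : ℚ_[p])‖ ^ (s ^ 8) * ‖MP.det‖ ≤ 1 * ‖MP.det‖ :=
          mul_le_mul_of_nonneg_right hQn (norm_nonneg _)
      _ ≤ _ := by rw [one_mul]; exact hdet'
  have h2 : (p : ℝ) ^ T * (p : ℝ)⁻¹ ^ T = 1 := by
    rw [← mul_pow, mul_inv_cancel₀ hp0.ne', one_pow]
  have hp6 : (p : ℝ) ^ (s ^ 6) ≤ Real.exp (p * (s : ℝ) ^ 7) := by
    have := pow_le_exp (x := (p : ℝ)) (by positivity) (le_exp _) (s ^ 6)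
    refine this.trans (Real.exp_le_exp.2 ?_)
    push_cast
    exact mul_le_mul_of_nonneg_left (pow_le_pow_right₀ hs' (by norm_num)) hp0.le
  calc (p : ℝ) ^ T = (p : ℝ) ^ T * 1 := (mul_one _).symm
    _ ≤ (p : ℝ) ^ T * ((((p : ℝ) ^ (s ^ 6)) ^ (s ^ 8) * (p : ℝ)⁻¹ ^ T) *
      ((((s ^ 8)! : ℕ) : ℝ) * E ^ (s ^ 8)) ^ δ) := mul_le_mul_of_nonneg_left h1 hpT.le
    _ = ((p : ℝ) ^ T * (p : ℝ)⁻¹ ^ T) * (((p : ℝ) ^ (s ^ 6)) ^ (s ^ 8) *
      ((((s ^ 8)! : ℕ) : ℝ) * E ^ (s ^ 8)) ^ δ) := by ring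
    _ = ((p : ℝ) ^ (s ^ 6)) ^ (s ^ 8) * ((((s ^ 8)! : ℕ) : ℝ) * E ^ (s ^ 8)) ^ δ := by
        rw [h2, one_mul]
    _ ≤ Real.exp (p * (s : ℝ) ^ 7) ^ (s ^ 8) *
        (Real.exp (8 * (s : ℝ) ^ 7) ^ (s ^ 8) * Real.exp (cE * (s : ℝ) ^ 7) ^ (s ^ 8)) ^ δ := by
        gcongr
    _ = Real.exp ((p + δ * (8 + cE)) * s ^ 7) ^ (s ^ 8) := by
        have e1 : Real.exp ((p + δ * (8 + cE)) * s ^ 7) =
            Real.exp (p * (s : ℝ) ^ 7) *
              (Real.exp (8 * (s : ℝ) ^ 7) * Real.exp (cE * (s : ℝ) ^ 7)) ^ δ := by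
          rw [← Real.exp_add, ← Real.exp_nat_mul, ← Real.exp_add]
          congr 1
          ring
        rw [e1]
        ring

/-- `p`-adic logarithms of multiplicatively independent numbers. -/
private theorem g_indep {a b : ℚ_[p]} (ha : a ≠ 0) (hb : b ≠ 0)
    (hind : ∀ k l : ℤ, a ^ k * b ^ l = 1 → k = 0 ∧ l = 0) {w1 w2 : ℚ_[p]}
    (hw1 : ‖w1‖ ≤ ((p : ℝ) ^ 2)⁻¹) (hw2 : ‖w2‖ ≤ ((p : ℝ) ^ 2)⁻¹)
    (hea : exp w1 = a) (heb : exp w2 = b) (k l k' l' : ℕ)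
    (h : (k : ℚ_[p]) * w1 + l * w2 = k' * w1 + l' * w2) : k = k' ∧ l = l' := by
  have h1 : a ^ k * b ^ l = a ^ k' * b ^ l' := by
    have e : ∀ k l : ℕ, a ^ k * b ^ l = exp ((k : ℚ_[p]) * w1 + l * w2) := by
      intro k l
      rw [exp_add' (norm_mul_le' hw1 (norm_natCast_le _)) (norm_mul_le' hw2 (norm_natCast_le _)),
        exp_nat_mul' hw1, exp_nat_mul' hw2, hea, heb]
    rw [e, e, h]
  have h3 : a ^ ((k : ℤ) - k') * b ^ ((l : ℤ) - l') = 1 := by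
    rw [zpow_sub₀ ha, zpow_sub₀ hb, zpow_natCast, zpow_natCast, zpow_natCast, zpow_natCast,
      div_mul_div_comm, h1]
    exact div_self (mul_ne_zero (pow_ne_zero _ ha) (pow_ne_zero _ hb))
  have h4 := hind _ _ h3
  omega

private theorem g_ne_zero {a b : ℚ_[p]} (ha : a ≠ 0) (hb : b ≠ 0)
    (hind : ∀ k l : ℤ, a ^ k * b ^ l = 1 → k = 0 ∧ l = 0) {w1 w2 : ℚ_[p]}
    (hw1 : ‖w1‖ ≤ ((p : ℝ) ^ 2)⁻¹) (hw2 : ‖w2‖ ≤ ((p : ℝ) ^ 2)⁻¹)
    (hea : exp w1 = a) (heb : exp w2 = b) : w1 ≠ 0 := by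
  intro h
  have := g_indep ha hb hind hw1 hw2 hea heb 1 0 0 0 (by rw [h]; simp)
  exact one_ne_zero this.1

private theorem g_aux {E : Type*} [Field E] [NumberField E] (σ : E →+* ℚ_[p]) {a b : E}
    (ha : a ≠ 0) (hb : b ≠ 0)
    (hind : ∀ k l : ℤ, (σ a) ^ k * (σ b) ^ l = 1 → k = 0 ∧ l = 0) {w1 w2 : ℚ_[p]}
    (hw1 : ‖w1‖ ≤ ((p : ℝ) ^ 2)⁻¹) (hw2 : ‖w2‖ ≤ ((p : ℝ) ^ 2)⁻¹)
    (hea : exp w1 = σ a) (heb : exp w2 = σ b) (hle : ‖w2‖ ≤ ‖w1‖) :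
    Transcendental ℚ (w2 / w1) := by
  intro halg
  have hσa : σ a ≠ 0 := (map_ne_zero σ).2 ha
  have hσb : σ b ≠ 0 := (map_ne_zero σ).2 hb
  have hw10 : w1 ≠ 0 := g_ne_zero hσa hσb hind hw1 hw2 hea heb
  set θ := w2 / w1 with hθ
  have hθw : θ * w1 = w2 := div_mul_cancel₀ _ hw10
  have hθ1 : ‖θ‖ ≤ 1 := by
    rw [hθ, norm_div]
    exact div_le_one_of_le₀ hle (norm_nonneg _)
  set S : Set ℚ_[p] := {θ, σ a, σ b} with hS
  have hfinS : S.Finite := by rw [hS]; exact Set.toFinite _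
  have halgσ : ∀ z : E, IsIntegral ℚ (σ z) := by
    intro z
    have h1 : IsIntegral ℚ z := Algebra.IsIntegral.isIntegral z
    have h2 := h1.map (RingHom.toRatAlgHom σ)
    exact h2
  have hfin : FiniteDimensional ℚ (IntermediateField.adjoin ℚ S) := by
    have : Finite S := hfinS
    apply IntermediateField.finiteDimensional_adjoin
    intro x hx
    rcases hx with h | h | h
    · rw [h]; exact halg.isIntegral
    · rw [h]; exact halgσ a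
    · rw [Set.mem_singleton_iff.1 h]; exact halgσ b
  set K := IntermediateField.adjoin ℚ S with hK
  have hnf : NumberField K := { to_charZero := inferInstance, to_finiteDimensional := hfin }
  have hsub : S ⊆ K := IntermediateField.subset_adjoin ℚ S
  set ϑ : K := ⟨θ, hsub (by simp [hS])⟩ with hϑ
  set α : K := ⟨σ a, hsub (by simp [hS])⟩ with hα
  set β : K := ⟨σ b, hsub (by simp [hS])⟩ with hβ
  have e1 : algebraMap K ℚ_[p] ϑ = θ := rfl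
  have e2 : algebraMap K ℚ_[p] α = σ a := rfl
  have e3 : algebraMap K ℚ_[p] β = σ b := rfl
  obtain ⟨C, hC⟩ := g_key_ineq (algebraMap K ℚ_[p]) ϑ α β hw1 hw2 hw10
    (by rw [e2]; exact hea) (by rw [e3]; exact heb) (by rw [e1]; exact hθw) (by rw [e1]; exact hθ1)
    (by
      intro k l k' l' h
      rw [e1] at h
      apply g_indep hσa hσb hind hw1 hw2 hea heb
      rw [← hθw]
      linear_combination w1 * h)
  exact contra_p C hC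

private theorem g_tr {E : Type*} [Field E] [NumberField E] (σ : E →+* ℚ_[p]) {a b : E}
    (ha : a ≠ 0) (hb : b ≠ 0)
    (hind : ∀ k l : ℤ, (σ a) ^ k * (σ b) ^ l = 1 → k = 0 ∧ l = 0) {w1 w2 : ℚ_[p]}
    (hw1 : ‖w1‖ ≤ ((p : ℝ) ^ 2)⁻¹) (hw2 : ‖w2‖ ≤ ((p : ℝ) ^ 2)⁻¹)
    (hea : exp w1 = σ a) (heb : exp w2 = σ b) :
    Transcendental ℚ (w2 / w1) := by
  rcases le_total ‖w2‖ ‖w1‖ with hle | hle
  · exact g_aux σ ha hb hind hw1 hw2 hea heb hle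
  · have hind' : ∀ k l : ℤ, (σ b) ^ k * (σ a) ^ l = 1 → k = 0 ∧ l = 0 := by
      intro k l h
      have := hind l k (by rw [mul_comm]; exact h)
      exact ⟨this.2, this.1⟩
    have h1 := g_aux σ hb ha hind' hw2 hw1 heb hea hle
    intro halg
    apply h1
    have := halg.inv
    rwa [inv_div] at this

end G1

open Pool.Agent.Lib.H22F301 NormedSpace G1 in
/-- Compare `transcendental_lg` in `H22F301/PGS3.lean` (rational values; the proof is in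
`H22F301/PGS*.lean`, `H22F301/PDet.lean`). -/
theorem transcendental_lg_nf {p : ℕ} [hp : Fact p.Prime] {E : Type*} [Field E] [NumberField E]
    (σ : E →+* ℚ_[p]) {lg : ℚ_[p]ˣ →* Multiplicative ℚ_[p]} {N : ℕ} (hN : 0 < N)
    (hlg : Continuous fun y => Multiplicative.toAdd (lg y))
    (hker : ∀ y : ℚ_[p]ˣ, ‖(y : ℚ_[p])‖ = 1 → Multiplicative.toAdd (lg y) = 0 → y ^ N = 1)
    {g₁ g₂ : Eˣ} (hind : ∀ a b : ℤ, g₁ ^ a * g₂ ^ b = 1 → a = 0 ∧ b = 0)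
    (h1 : ‖σ (g₁ : E)‖ = 1) (h2 : ‖σ (g₂ : E)‖ = 1) :
    ehv σ lg g₁ ≠ 0 ∧ Transcendental ℚ (ehv σ lg g₂ / ehv σ lg g₁) := by
  obtain ⟨c, hc0, hc1, hc2⟩ := exists_exp_log lg hN hlg hker
  unfold ehv
  set G₁ : ℚ_[p]ˣ := Units.map σ.toMonoidHom g₁ with hG₁
  set G₂ : ℚ_[p]ˣ := Units.map σ.toMonoidHom g₂ with hG₂
  obtain ⟨M₁, hM₁, w₁, hw₁, he₁⟩ := hc2 G₁ h1
  obtain ⟨M₂, hM₂, w₂, hw₂, he₂⟩ := hc2 G₂ h2
  have hl1 : (M₁ : ℚ_[p]) * Multiplicative.toAdd (lg G₁) = c * w₁ := by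
    rw [← hc1 (G₁ ^ M₁) w₁ hw₁ he₁, map_pow, toAdd_pow, nsmul_eq_mul]
  have hl2 : (M₂ : ℚ_[p]) * Multiplicative.toAdd (lg G₂) = c * w₂ := by
    rw [← hc1 (G₂ ^ M₂) w₂ hw₂ he₂, map_pow, toAdd_pow, nsmul_eq_mul]
  set a : E := (g₁ : E) ^ M₁ with ha
  set b : E := (g₂ : E) ^ M₂ with hb
  have ha0 : a ≠ 0 := pow_ne_zero _ g₁.ne_zero
  have hb0 : b ≠ 0 := pow_ne_zero _ g₂.ne_zero
  have hab : ∀ k l : ℤ, (σ a) ^ k * (σ b) ^ l = 1 → k = 0 ∧ l = 0 := by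
    intro k l h
    have h0 : a ^ k * b ^ l = 1 := by
      apply σ.injective
      rw [map_mul, map_zpow₀, map_zpow₀, h, map_one]
    have h3 : g₁ ^ ((M₁ : ℕ) * k : ℤ) * g₂ ^ ((M₂ : ℕ) * l : ℤ) = 1 := by
      apply Units.ext
      rw [Units.val_mul, Units.val_zpow_eq_zpow_val, Units.val_zpow_eq_zpow_val, zpow_mul, zpow_mul,
        zpow_natCast, zpow_natCast, Units.val_one]
      exact h0
    have h4 := hind _ _ h3
    have e1 : ((M₁ : ℕ) : ℤ) ≠ 0 := by positivity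
    have e2 : ((M₂ : ℕ) : ℤ) ≠ 0 := by positivity
    exact ⟨(mul_eq_zero.1 h4.1).resolve_left e1, (mul_eq_zero.1 h4.2).resolve_left e2⟩
  have hea : exp w₁ = σ a := by
    rw [← he₁, ha, map_pow, Units.val_pow_eq_pow_val]
    rfl
  have heb : exp w₂ = σ b := by
    rw [← he₂, hb, map_pow, Units.val_pow_eq_pow_val]
    rfl
  have hM₁0 : (M₁ : ℚ_[p]) ≠ 0 := by exact_mod_cast hM₁.ne'
  have hM₂0 : (M₂ : ℚ_[p]) ≠ 0 := by exact_mod_cast hM₂.ne'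
  have hw10 : w₁ ≠ 0 := g_ne_zero ((map_ne_zero σ).2 ha0) ((map_ne_zero σ).2 hb0) hab hw₁ hw₂
    hea heb
  have hl10 : Multiplicative.toAdd (lg G₁) ≠ 0 := by
    intro h0
    rw [h0, mul_zero] at hl1
    exact (mul_ne_zero hc0 hw10) hl1.symm
  refine ⟨hl10, ?_⟩
  intro halg
  have htr := g_tr σ ha0 hb0 hab hw₁ hw₂ hea heb
  apply htr
  have e1 : w₂ / w₁ =
      ((M₂ / M₁ : ℚ) : ℚ_[p]) * (Multiplicative.toAdd (lg G₂) / Multiplicative.toAdd (lg G₁)) := by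
    push_cast
    field_simp
    linear_combination w₂ * hl1 - w₁ * hl2
  rw [e1]
  exact (isAlgebraic_algebraMap (R := ℚ) (A := ℚ_[p]) (M₂ / M₁ : ℚ)).mul halg

end Pool.Agent.Lib.H22T
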