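import Pool.Agent.Lib.H22T.Defs2
import Pool.Agent.Lib.H22T.T5
import Pool.Agent.Lib.H22F301.GS4

/-!
# The real theorem of Gelfond and Schneider for values in a number field
-/

namespace Pool.Agent.Lib.H22T

open Pool.Agent.Lib.H22F301 (logAbs)

section GSReal

open Pool.Agent.Lib.H22F301 Finset Matrix
open scoped Nat

section Field

variable {K : Type*} [Field K]

/-- The entries of the interpolation matrix. -/
private noncomputable def nent (ϑ a b : K) (i j k l : ℕ) : K :=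
  ((k : K) + (l : K) * ϑ) ^ i * (a ^ (j * k) * b ^ (j * l))

private theorem int_pow_nf [NumberField K] {q : ℕ} {a : K} (hqa : IsIntegral ℤ ((q : K) * a))
    {e M : ℕ} (h : e ≤ M) : IsIntegral ℤ ((q : K) ^ M * a ^ e) := by
  have hqi : IsIntegral ℤ (q : K) := by
    have := isIntegral_algebraMap (R := ℤ) (A := K) (x := (q : ℤ))
    simpa using this
  have e1 : (q : K) ^ M * a ^ e = (q : K) ^ (M - e) * ((q : K) * a) ^ e := by
    rw [mul_pow, ← mul_assoc, ← pow_add, Nat.sub_add_cancel h]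
  rw [e1]
  exact (hqi.pow _).mul (hqa.pow _)

private theorem isIntegral_nent [NumberField K] (ϑ : K) (q : ℕ) (hq : IsIntegral ℤ ((q : K) * ϑ))
    (a b : K) (hqa : IsIntegral ℤ ((q : K) * a)) (hqb : IsIntegral ℤ ((q : K) * b))
    {D0 M i j k l : ℕ} (hi : i ≤ D0) (hk : j * k ≤ M) (hl : j * l ≤ M) :
    IsIntegral ℤ (((q ^ D0 * (q ^ M * q ^ M) : ℕ) : K) * nent ϑ a b i j k l) := by
  have h1 : ((q ^ D0 * (q ^ M * q ^ M) : ℕ) : K) * nent ϑ a b i j k l =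
      (q : K) ^ (D0 - i) * ((q : K) * (k : K) + (l : K) * ((q : K) * ϑ)) ^ i *
        (((q : K) ^ M * a ^ (j * k)) * ((q : K) ^ M * b ^ (j * l))) := by
    have e3 : (q : K) ^ D0 = (q : K) ^ (D0 - i) * (q : K) ^ i := by
      rw [← pow_add]; congr 1; omega
    have e4 : (q : K) * (k : K) + (l : K) * ((q : K) * ϑ) = (q : K) * ((k : K) + (l : K) * ϑ) := by
      ring
    rw [e4, mul_pow, nent]
    push_cast
    rw [e3]
    ring
  rw [h1]
  have hqi : IsIntegral ℤ (q : K) := by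
    have := isIntegral_algebraMap (R := ℤ) (A := K) (x := (q : ℤ))
    simpa using this
  have hki : IsIntegral ℤ (k : K) := by
    have := isIntegral_algebraMap (R := ℤ) (A := K) (x := (k : ℤ))
    simpa using this
  have hli : IsIntegral ℤ (l : K) := by
    have := isIntegral_algebraMap (R := ℤ) (A := K) (x := (l : ℤ))
    simpa using this
  exact ((hqi.pow _).mul (((hqi.mul hki).add (hli.mul hq)).pow _)).mul
    ((int_pow_nf hqa hk).mul (int_pow_nf hqb hl))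

private theorem norm_nent_le (ϑ a b : K) (σ : K →+* ℂ) {C1 H : ℝ}
    (hC1 : 1 + ‖σ ϑ‖ ≤ C1) (hH1 : 1 ≤ H) (haH : ‖σ a‖ ≤ H) (hbH : ‖σ b‖ ≤ H)
    {D0 M S i j k l : ℕ} (hS : 1 ≤ S) (hi : i ≤ D0) (hk : j * k ≤ M) (hl : j * l ≤ M)
    (hkS : k ≤ S) (hlS : l ≤ S) :
    ‖σ (nent ϑ a b i j k l)‖ ≤ (S * C1) ^ D0 * (H ^ M * H ^ M) := by
  have hS' : (1 : ℝ) ≤ S := by exact_mod_cast hS
  have h0 := norm_nonneg (σ ϑ)
  have hC : 1 ≤ C1 := by linarith
  have hSC : 1 ≤ (S : ℝ) * C1 := by nlinarith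
  unfold nent
  rw [map_mul, map_pow, map_add, map_mul, map_natCast, map_natCast, map_mul, map_pow, map_pow,
    norm_mul, norm_pow]
  apply mul_le_mul _ _ (norm_nonneg _) (by positivity)
  · have h1 : ‖(k : ℂ) + (l : ℂ) * σ ϑ‖ ≤ S * C1 := by
      calc ‖(k : ℂ) + (l : ℂ) * σ ϑ‖ ≤ ‖(k : ℂ)‖ + ‖(l : ℂ) * σ ϑ‖ := norm_add_le _ _
        _ = k + l * ‖σ ϑ‖ := by rw [norm_mul]; simp
        _ ≤ S + S * ‖σ ϑ‖ := by
            have e1 : (k : ℝ) ≤ S := by exact_mod_cast hkS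
            have e2 : (l : ℝ) ≤ S := by exact_mod_cast hlS
            nlinarith
        _ = S * (1 + ‖σ ϑ‖) := by ring
        _ ≤ S * C1 := mul_le_mul_of_nonneg_left hC1 (by linarith)
    calc ‖(k : ℂ) + (l : ℂ) * σ ϑ‖ ^ i ≤ (S * C1) ^ i := pow_le_pow_left₀ (norm_nonneg _) h1 _
      _ ≤ (S * C1) ^ D0 := pow_le_pow_right₀ hSC hi
  · rw [norm_mul, norm_pow, norm_pow]
    apply mul_le_mul _ _ (by positivity) (by positivity)
    · exact (pow_le_pow_left₀ (norm_nonneg _) haH _).trans (pow_le_pow_right₀ hH1 hk)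
    · exact (pow_le_pow_left₀ (norm_nonneg _) hbH _).trans (pow_le_pow_right₀ hH1 hl)

end Field

private theorem key_ineq_nf {K : Type*} [Field K] [NumberField K] (σR : K →+* ℝ) (ϑ a b : K)
    (haR : 0 < σR a) (hbR : 0 < σR b) (hla : Real.log (σR a) ≠ 0)
    (hθ : σR ϑ * Real.log (σR a) = Real.log (σR b))
    (hinj : ∀ k l k' l' : ℕ, (k : ℝ) + l * σR ϑ = k' + l' * σR ϑ → k = k' ∧ l = l')
    (q : ℕ) (hq0 : q ≠ 0) (hq : IsIntegral ℤ ((q : K) * ϑ)) (hqa : IsIntegral ℤ ((q : K) * a))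
    (hqb : IsIntegral ℤ ((q : K) * b)) :
    ∃ C : ℝ, ∀ s : ℕ, 1 ≤ s →
      Real.exp 1 ^ (s ^ 8 * (s ^ 8 - 1) / 2) ≤ Real.exp (C * s ^ 7) ^ (s ^ 8) := by
  classical
  set δ := Fintype.card (K →+* ℂ) with hδ
  set la := Real.log (σR a) with hla'
  set θ := σR ϑ with hθ'
  set C1 : ℝ := 1 + ∑ σ : K →+* ℂ, ‖σ ϑ‖ with hC1
  set H : ℝ := 1 + ∑ σ : K →+* ℂ, (‖σ a‖ + ‖σ b‖) with hH
  have hHσ : ∀ σ : K →+* ℂ, 1 + (‖σ a‖ + ‖σ b‖) ≤ H := fun σ => by
    rw [hH]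
    gcongr
    exact Finset.single_le_sum (f := fun σ : K →+* ℂ => ‖σ a‖ + ‖σ b‖)
      (fun _ _ => add_nonneg (norm_nonneg _) (norm_nonneg _)) (mem_univ σ)
  have hC1σ : ∀ σ : K →+* ℂ, 1 + ‖σ ϑ‖ ≤ C1 := fun σ => by
    rw [hC1]
    gcongr
    exact Finset.single_le_sum (f := fun σ : K →+* ℂ => ‖σ ϑ‖) (fun _ _ => norm_nonneg _)
      (mem_univ σ)
  set σ0 : K →+* ℂ := Complex.ofRealHom.comp σR with hσ0
  have hσ0n : ∀ x, ‖σ0 x‖ = |σR x| := fun x => by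
    rw [hσ0]
    show ‖((σR x : ℝ) : ℂ)‖ = _
    rw [Complex.norm_real, Real.norm_eq_abs]
  have hθC : 1 + |θ| ≤ C1 := by
    have := hC1σ σ0
    rwa [hσ0n] at this
  have hC11 : 1 ≤ C1 := by linarith [abs_nonneg θ]
  have hH1 : 1 ≤ H := by
    have h1 := hHσ σ0
    have h2 := norm_nonneg (σ0 a)
    have h3 := norm_nonneg (σ0 b)
    linarith
  set cE : ℝ := q + q + q + (4 + C1) + 2 * H with hcE
  set cM : ℝ := 4 + C1 + 1 + |la| * C1 * Real.exp 1 with hcM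
  refine ⟨cE + 8 + cM + δ * (8 + cE), fun s hs => ?_⟩
  have hs' : (1 : ℝ) ≤ s := by exact_mod_cast hs
  -- the matrices
  have hcard : Fintype.card (Fin (s ^ 6) × Fin (s ^ 2)) =
      Fintype.card (Fin (s ^ 4) × Fin (s ^ 4)) := by
    simp only [Fintype.card_prod, Fintype.card_fin]
    ring
  have hcard8 : Fintype.card (Fin (s ^ 6) × Fin (s ^ 2)) = s ^ 8 := by
    simp only [Fintype.card_prod, Fintype.card_fin]
    ring
  set η := Fintype.equivOfCardEq hcard with hη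
  set MK : Matrix (Fin (s ^ 6) × Fin (s ^ 2)) (Fin (s ^ 6) × Fin (s ^ 2)) K :=
    Matrix.of fun r c => nent ϑ a b r.1 r.2 (η c).1 (η c).2 with hMK
  set ζ : Fin (s ^ 6) × Fin (s ^ 2) → ℝ := fun c => ((η c).1 : ℕ) + ((η c).2 : ℕ) * θ with hζ
  set w : Fin (s ^ 2) → ℝ := fun j => (j : ℕ) * la with hw
  set MR : Matrix (Fin (s ^ 6) × Fin (s ^ 2)) (Fin (s ^ 6) × Fin (s ^ 2)) ℝ :=
    Matrix.of fun r c => ζ c ^ (r.1 : ℕ) * Real.exp (w r.2 * ζ c) with hMR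
  have hMKR : σR MK.det = MR.det := by
    rw [RingHom.map_det]
    congr 1
    ext r c
    simp only [RingHom.mapMatrix_apply, Matrix.map_apply, hMK, hMR, Matrix.of_apply, nent, map_mul,
      map_pow, map_add, map_natCast, hζ, hw]
    congr 1
    have e1 : ((r.2 : ℕ) : ℝ) * la * (((η c).1 : ℕ) + ((η c).2 : ℕ) * θ) =
        (((r.2 : ℕ) * ((η c).1 : ℕ) : ℕ) : ℝ) * la +
          (((r.2 : ℕ) * ((η c).2 : ℕ) : ℕ) : ℝ) * Real.log (σR b) := by
      rw [← hθ]; push_cast; ring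
    rw [e1, Real.exp_add, Real.exp_nat_mul, Real.exp_nat_mul, hla', Real.exp_log haR,
      Real.exp_log hbR]
  have hMR0 : MR.det ≠ 0 := by
    apply det_ne_zero w
    · intro j j' h
      have h2 : ((j : ℕ) : ℝ) = (j' : ℕ) := mul_right_cancel₀ hla h
      exact Fin.ext (by exact_mod_cast h2)
    · intro c c' h
      have h2 := hinj _ _ _ _ h
      apply η.injective
      exact Prod.ext (Fin.ext h2.1) (Fin.ext h2.2)
  have hMK0 : MK.det ≠ 0 := by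
    intro h
    apply hMR0
    rw [← hMKR, h, map_zero]
  set Q : ℕ := q ^ (s ^ 6) * (q ^ (s ^ 6) * q ^ (s ^ 6)) with hQ
  have hQ0 : Q ≠ 0 := by
    rw [hQ]
    positivity
  have hjk : ∀ (j : Fin (s ^ 2)) (k : Fin (s ^ 4)), (j : ℕ) * (k : ℕ) ≤ s ^ 6 := fun j k => by
    calc (j : ℕ) * (k : ℕ) ≤ s ^ 2 * s ^ 4 := Nat.mul_le_mul j.2.le k.2.le
      _ = s ^ 6 := by ring
  set x : K := ((Q : K) • MK).det with hx
  have hxe : x = (Q : K) ^ (s ^ 8) * MK.det := by rw [hx, Matrix.det_smul, hcard8]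
  have hxint : IsIntegral ℤ x := by
    apply IsIntegral.det
    intro r c
    exact isIntegral_nent ϑ q hq a b hqa hqb r.1.2.le (hjk _ _) (hjk _ _)
  have hx0 : x ≠ 0 := by
    rw [hxe]
    exact mul_ne_zero (pow_ne_zero _ (by exact_mod_cast hQ0)) hMK0
  set E : ℝ := (Q : ℝ) * ((((s ^ 4 : ℕ) : ℝ) * C1) ^ (s ^ 6) * (H ^ (s ^ 6) * H ^ (s ^ 6))) with hE
  have hEle : E ≤ Real.exp (cE * (s : ℝ) ^ 7) := by
    have := E_le (q := q) (ad := q) (bd := q) (C1 := C1) (H := H) hs (by linarith)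
      (by linarith)
    exact this
  have hS4 : 1 ≤ s ^ 4 := Nat.one_le_pow _ _ (by omega)
  have hSC : 1 ≤ ((s ^ 4 : ℕ) : ℝ) * C1 := by
    have : (1 : ℝ) ≤ ((s ^ 4 : ℕ) : ℝ) := by exact_mod_cast hS4
    nlinarith
  have hfac1 : 1 ≤ (((s ^ 4 : ℕ) : ℝ) * C1) ^ (s ^ 6) * (H ^ (s ^ 6) * H ^ (s ^ 6)) := by
    have f1 := one_le_pow₀ hSC (n := s ^ 6)
    have f2 := one_le_pow₀ hH1 (n := s ^ 6)
    have f3 := one_le_mul_of_one_le_of_one_le f2 f2
    exact one_le_mul_of_one_le_of_one_le f1 f3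
  have hQ1 : (1 : ℝ) ≤ Q := by exact_mod_cast Nat.one_le_iff_ne_zero.2 hQ0
  have hQE : (Q : ℝ) ≤ E := le_mul_of_one_le_right (by linarith) hfac1
  have hE1 : 1 ≤ E := hQ1.trans hQE
  have hσx : ∀ σ : K →+* ℂ, ‖σ x‖ ≤ ((s ^ 8)! : ℕ) * E ^ (s ^ 8) := by
    intro σ
    rw [hx, RingHom.map_det, ← hcard8]
    apply norm_det_le
    intro r c
    simp only [RingHom.mapMatrix_apply, Matrix.map_apply, Matrix.smul_apply, smul_eq_mul, map_mul,
      map_natCast, norm_mul]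
    rw [hE]
    have h1 : ‖((Q : ℕ) : ℂ)‖ = (Q : ℝ) := by simp
    rw [h1]
    apply mul_le_mul_of_nonneg_left _ (by positivity)
    exact norm_nent_le ϑ a b σ (hC1σ σ) hH1
      (by have h2 := hHσ σ; have h3 := norm_nonneg (σ b); linarith)
      (by have h2 := hHσ σ; have h3 := norm_nonneg (σ a); linarith) hS4
      r.1.2.le (hjk _ _) (hjk _ _) (η c).1.2.le (η c).2.2.le
  have hE' : 1 ≤ (((s ^ 8)! : ℕ) : ℝ) * E ^ (s ^ 8) := by
    have f1 : (1 : ℝ) ≤ (((s ^ 8)! : ℕ) : ℝ) := by exact_mod_cast Nat.factorial_pos (s ^ 8)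
    exact one_le_mul_of_one_le_of_one_le f1 (one_le_pow₀ hE1)
  have hL := one_le_norm_mul_pow hxint hx0 σ0 _ hE' hσx
  rw [hσ0n, hxe, map_mul, map_pow, map_natCast, hMKR, abs_mul, abs_pow, Nat.abs_cast] at hL
  -- the analytic bound
  have hdet := det_bound (ι := Fin (s ^ 6) × Fin (s ^ 2)) (fun r n => coef r.1 (w r.2) n)
    (fun _ => (((s ^ 4 : ℕ) : ℝ) * C1 * Real.exp 1) ^ (s ^ 6) *
      Real.exp ((((s ^ 2 : ℕ) : ℝ) * |la|) * (((s ^ 4 : ℕ) : ℝ) * C1 * Real.exp 1)))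
    (((s ^ 4 : ℕ) : ℝ) * C1) (Real.exp 1) (by linarith) (Real.one_le_exp zero_le_one)
    (by
      intro r D
      refine (sum_abs_coef_le _ _ _ (by positivity) D).trans ?_
      have f1 : 1 ≤ ((s ^ 4 : ℕ) : ℝ) * C1 * Real.exp 1 :=
        one_le_mul_of_one_le_of_one_le hSC (Real.one_le_exp zero_le_one)
      apply mul_le_mul (pow_le_pow_right₀ f1 r.1.2.le) _ (Real.exp_pos _).le (by positivity)
      apply Real.exp_le_exp.2
      apply mul_le_mul_of_nonneg_right _ (by linarith)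
      rw [hw]
      simp only
      rw [abs_mul, Nat.abs_cast]
      apply mul_le_mul_of_nonneg_right _ (abs_nonneg _)
      exact_mod_cast r.2.2.le)
    (fun r x => x ^ (r.1 : ℕ) * Real.exp (w r.2 * x))
    (fun r x _ => hasSum_coef r.1 (w r.2) x) ζ
    (by
      intro c
      rw [hζ]
      simp only
      have f1 : (((η c).1 : ℕ) : ℝ) ≤ ((s ^ 4 : ℕ) : ℝ) := by exact_mod_cast (η c).1.2.le
      have f2 : (((η c).2 : ℕ) : ℝ) ≤ ((s ^ 4 : ℕ) : ℝ) := by exact_mod_cast (η c).2.2.le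
      calc |(((η c).1 : ℕ) : ℝ) + ((η c).2 : ℕ) * θ|
          ≤ |(((η c).1 : ℕ) : ℝ)| + |(((η c).2 : ℕ) : ℝ) * θ| := abs_add_le _ _
        _ = ((η c).1 : ℕ) + ((η c).2 : ℕ) * |θ| := by rw [abs_mul, Nat.abs_cast, Nat.abs_cast]
        _ ≤ ((s ^ 4 : ℕ) : ℝ) + ((s ^ 4 : ℕ) : ℝ) * |θ| := by
            have := mul_le_mul_of_nonneg_right f2 (abs_nonneg θ)
            linarith
        _ = ((s ^ 4 : ℕ) : ℝ) * (1 + |θ|) := by ring
        _ ≤ ((s ^ 4 : ℕ) : ℝ) * C1 := mul_le_mul_of_nonneg_left hθC (by positivity))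
  rw [hcard8, Finset.prod_const, Finset.card_univ, hcard8] at hdet
  have hMMle := MM_le (s := s) (C1 := C1) (la := la) hs (by linarith)
  set MM : ℝ := (((s ^ 4 : ℕ) : ℝ) * C1 * Real.exp 1) ^ (s ^ 6) *
      Real.exp ((((s ^ 2 : ℕ) : ℝ) * |la|) * (((s ^ 4 : ℕ) : ℝ) * C1 * Real.exp 1)) with hMM
  have hMM0 : 0 ≤ MM := by rw [hMM]; positivity
  have hfac := factorial_le_exp hs
  set e1T : ℝ := Real.exp 1 ^ (s ^ 8 * (s ^ 8 - 1) / 2) with he1T
  have he1T0 : 0 < e1T := by rw [he1T]; positivity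
  have hdet' : e1T * |MR.det| ≤ ((s ^ 8)! : ℕ) * MM ^ (s ^ 8) := hdet
  have hE'0 : 0 ≤ (((s ^ 8)! : ℕ) : ℝ) * E ^ (s ^ 8) := by linarith
  calc e1T ≤ e1T * (((Q : ℝ) ^ (s ^ 8) * |MR.det|) *
        ((((s ^ 8)! : ℕ) : ℝ) * E ^ (s ^ 8)) ^ δ) := le_mul_of_one_le_right he1T0.le hL
    _ = (Q : ℝ) ^ (s ^ 8) * (e1T * |MR.det|) * ((((s ^ 8)! : ℕ) : ℝ) * E ^ (s ^ 8)) ^ δ := by ring
    _ ≤ (Q : ℝ) ^ (s ^ 8) * (((s ^ 8)! : ℕ) * MM ^ (s ^ 8)) *
        ((((s ^ 8)! : ℕ) : ℝ) * E ^ (s ^ 8)) ^ δ := by gcongr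
    _ ≤ (Real.exp (cE * (s : ℝ) ^ 7)) ^ (s ^ 8) * (Real.exp (8 * (s : ℝ) ^ 7) ^ (s ^ 8) *
        Real.exp (cM * (s : ℝ) ^ 7) ^ (s ^ 8)) *
        (Real.exp (8 * (s : ℝ) ^ 7) ^ (s ^ 8) * Real.exp (cE * (s : ℝ) ^ 7) ^ (s ^ 8)) ^ δ := by
        gcongr
        exact hQE.trans hEle
    _ = Real.exp ((cE + 8 + cM + δ * (8 + cE)) * s ^ 7) ^ (s ^ 8) := by
        have e1 : Real.exp ((cE + 8 + cM + δ * (8 + cE)) * s ^ 7) =
            Real.exp (cE * (s : ℝ) ^ 7) * (Real.exp (8 * (s : ℝ) ^ 7) *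
              Real.exp (cM * (s : ℝ) ^ 7)) *
              (Real.exp (8 * (s : ℝ) ^ 7) * Real.exp (cE * (s : ℝ) ^ 7)) ^ δ := by
          rw [← Real.exp_add, ← Real.exp_add, ← Real.exp_add, ← Real.exp_nat_mul, ← Real.exp_add]
          congr 1
          ring
        rw [e1]
        ring

end GSReal

section Final

open scoped IntermediateField

private theorem exists_pos_rep {E : Type*} [Field E] (σ : E →+* ℝ) (g : Eˣ) :
    ∃ a : E, (a = g ∨ a = -g) ∧ 0 < σ a ∧ Real.log (σ a) = ehv σ logAbs g := by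
  have h0 : σ (g : E) ≠ 0 := (map_ne_zero σ).2 g.ne_zero
  have h1 : ehv σ logAbs g = Real.log |σ (g : E)| := rfl
  rcases lt_or_gt_of_ne h0 with h | h
  · refine ⟨-g, Or.inr rfl, ?_, ?_⟩
    · rw [map_neg]; linarith
    · rw [h1, map_neg, abs_of_neg h]
  · refine ⟨g, Or.inl rfl, h, ?_⟩
    rw [h1, abs_of_pos h]

private theorem log_indep_nf {E : Type*} [Field E] (σ : E →+* ℝ) {g₁ g₂ : Eˣ}
    (hind : ∀ a b : ℤ, g₁ ^ a * g₂ ^ b = 1 → a = 0 ∧ b = 0) (k l : ℤ)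
    (h : (k : ℝ) * ehv σ logAbs g₁ + l * ehv σ logAbs g₂ = 0) : k = 0 ∧ l = 0 := by
  have h1 : ehv σ logAbs (g₁ ^ k * g₂ ^ l) = 0 := by
    rw [ehv_mul, ehv_zpow, ehv_zpow]
    exact_mod_cast h
  set u : Eˣ := g₁ ^ k * g₂ ^ l with hu
  have h2 : Real.log |σ (u : E)| = 0 := h1
  have h0 : σ (u : E) ≠ 0 := (map_ne_zero σ).2 u.ne_zero
  have h3 : |σ (u : E)| = 1 := Real.eq_one_of_pos_of_log_eq_zero (abs_pos.2 h0) h2
  have h4 : σ ((u : E) ^ 2) = σ 1 := by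
    rw [map_pow, map_one, ← sq_abs, h3, one_pow]
  have h5 : u ^ 2 = 1 := by
    apply Units.ext
    rw [Units.val_pow_eq_pow_val, Units.val_one]
    exact σ.injective h4
  have h6 : g₁ ^ (2 * k) * g₂ ^ (2 * l) = 1 := by
    rw [← h5, hu]
    rw [mul_comm 2 k, mul_comm 2 l, zpow_mul, zpow_mul, ← mul_zpow]
    norm_cast
  have h7 := hind _ _ h6
  omega

private theorem exists_den3 {K : Type*} [Field K] [NumberField K] (x y z : K) :
    ∃ q : ℕ, q ≠ 0 ∧ IsIntegral ℤ ((q : K) * x) ∧ IsIntegral ℤ ((q : K) * y) ∧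
      IsIntegral ℤ ((q : K) * z) := by
  classical
  obtain ⟨d, hd0, hd⟩ := exists_integral_multiples ℤ ℚ ({x, y, z} : Finset K)
  have key : ∀ w ∈ ({x, y, z} : Finset K), IsIntegral ℤ (((d.natAbs : ℕ) : K) * w) := by
    intro w hw
    have h1 := hd w hw
    rw [zsmul_eq_mul] at h1
    rcases Int.natAbs_eq d with h | h
    · rw [h] at h1
      simpa using h1
    · rw [h] at h1
      have h2 := h1.neg
      simpa using h2
  exact ⟨d.natAbs, Int.natAbs_ne_zero.2 hd0, key x (by simp), key y (by simp), key z (by simp)⟩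

end Final

/-- Compare the theorem for rational values in `H22F301/GS4.lean` (the proof is in
`H22F301/GS*.lean`). -/
theorem transcendental_log_nf {E : Type*} [Field E] [NumberField E] (σ : E →+* ℝ)
    {g₁ g₂ : Eˣ} (hind : ∀ a b : ℤ, g₁ ^ a * g₂ ^ b = 1 → a = 0 ∧ b = 0) :
    ehv σ logAbs g₁ ≠ 0 ∧ Transcendental ℚ (ehv σ logAbs g₂ / ehv σ logAbs g₁) := by
  have hla0 : ehv σ logAbs g₁ ≠ 0 := by
    intro h
    have := log_indep_nf σ hind 1 0 (by rw [h]; simp)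
    exact one_ne_zero this.1
  refine ⟨hla0, fun halg => ?_⟩
  obtain ⟨a, ha, ha0, hal⟩ := exists_pos_rep σ g₁
  obtain ⟨b, hb, hb0, hbl⟩ := exists_pos_rep σ g₂
  set θ := ehv σ logAbs g₂ / ehv σ logAbs g₁ with hθ
  have hθla : θ * ehv σ logAbs g₁ = ehv σ logAbs g₂ := div_mul_cancel₀ _ hla0
  set σQ : E →ₐ[ℚ] ℝ := RingHom.equivRatAlgHom (R := E) (S := ℝ) σ with hσQ
  have hfinE : FiniteDimensional ℚ σQ.fieldRange :=
    LinearMap.finiteDimensional_range σQ.toLinearMap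
  have hfinθ : FiniteDimensional ℚ (IntermediateField.adjoin ℚ {θ}) :=
    IntermediateField.adjoin.finiteDimensional halg.isIntegral
  set F : IntermediateField ℚ ℝ := σQ.fieldRange ⊔ IntermediateField.adjoin ℚ {θ} with hF
  have hfin : FiniteDimensional ℚ F := IntermediateField.finiteDimensional_sup _ _
  have hnf : NumberField F := { to_charZero := inferInstance, to_finiteDimensional := hfin }
  have hmem : ∀ x : E, σ x ∈ F := fun x =>
    (le_sup_left : σQ.fieldRange ≤ F) ⟨x, rfl⟩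
  have hθF : θ ∈ F := (le_sup_right : IntermediateField.adjoin ℚ {θ} ≤ F)
    (IntermediateField.mem_adjoin_simple_self ℚ θ)
  obtain ⟨q, hq0, hq, hqa, hqb⟩ := exists_den3 (⟨θ, hθF⟩ : F) ⟨σ a, hmem a⟩ ⟨σ b, hmem b⟩
  obtain ⟨C, hC⟩ := key_ineq_nf (algebraMap F ℝ) (⟨θ, hθF⟩ : F) ⟨σ a, hmem a⟩ ⟨σ b, hmem b⟩
    ha0 hb0 (by rw [show (algebraMap F ℝ) ⟨σ a, hmem a⟩ = σ a from rfl, hal]; exact hla0)
    (by
      show θ * Real.log (σ a) = Real.log (σ b)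
      rw [hal, hbl]
      exact hθla)
    (by
      intro k l k' l' h
      change (k : ℝ) + l * θ = k' + l' * θ at h
      have h1 : (((k : ℤ) - k' : ℤ) : ℝ) * ehv σ logAbs g₁ +
          (((l : ℤ) - l' : ℤ) : ℝ) * ehv σ logAbs g₂ = 0 := by
        rw [← hθla]
        push_cast
        linear_combination ehv σ logAbs g₁ * h
      have h2 := log_indep_nf σ hind _ _ h1
      omega)
    q hq0 hq hqa hqb
  exact Pool.Agent.Lib.H22F301.contra C hC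

end Pool.Agent.Lib.H22T
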