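import Mathlib

/-!
# Families in a commutative group any three members of which are dependent
-/

namespace Pool.Agent.Lib.H22T

/-- a common nonzero exponent for a finite family -/
private theorem g3_common {ι : Type*} [Finite ι] (P : ι → ℤ → Prop)
    (hP : ∀ i, ∃ c : ℤ, c ≠ 0 ∧ P i c) (hmul : ∀ i c k, P i c → P i (c * k)) :
    ∃ c : ℤ, c ≠ 0 ∧ ∀ i, P i c := by
  classical
  haveI := Fintype.ofFinite ι
  choose c hc0 hc using hP
  refine ⟨∏ i, c i, Finset.prod_ne_zero_iff.2 fun i _ => hc0 i, fun i => ?_⟩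
  rw [← Finset.mul_prod_erase Finset.univ c (Finset.mem_univ i)]
  exact hmul i _ _ (hc i)

theorem rank_two_structure {G : Type*} [CommGroup G] {ι : Type*} [Finite ι] (y : ι → G)
    (h : ∀ i : Fin 3 → ι, ∃ c : Fin 3 → ℤ, c ≠ 0 ∧ ∏ k, y (i k) ^ c k = 1) :
    (∃ i₁ i₂, (∀ a b : ℤ, y i₁ ^ a * y i₂ ^ b = 1 → a = 0 ∧ b = 0) ∧
      ∃ c : ℤ, c ≠ 0 ∧ ∀ i, ∃ a b : ℤ, y i ^ c = y i₁ ^ a * y i₂ ^ b) ∨
    (∃ i₁, (∀ a : ℤ, y i₁ ^ a = 1 → a = 0) ∧
      ∃ c : ℤ, c ≠ 0 ∧ ∀ i, ∃ a : ℤ, y i ^ c = y i₁ ^ a) ∨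
    ∃ c : ℤ, c ≠ 0 ∧ ∀ i, y i ^ c = 1 := by
  by_cases h1 : ∃ i₁ i₂, ∀ a b : ℤ, y i₁ ^ a * y i₂ ^ b = 1 → a = 0 ∧ b = 0
  · -- an independent pair
    obtain ⟨i₁, i₂, h12⟩ := h1
    refine Or.inl ⟨i₁, i₂, h12, ?_⟩
    refine g3_common (fun i c => ∃ a b : ℤ, y i ^ c = y i₁ ^ a * y i₂ ^ b) ?_ ?_
    · intro i
      obtain ⟨c, hc, hprod⟩ := h ![i₁, i₂, i]
      rw [Fin.prod_univ_three] at hprod
      simp only [Matrix.cons_val_zero, Matrix.cons_val_one, Matrix.cons_val] at hprod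
      have hc2 : c 2 ≠ 0 := by
        intro h2
        rw [h2, zpow_zero, mul_one] at hprod
        obtain ⟨h3, h4⟩ := h12 _ _ hprod
        apply hc
        funext k
        fin_cases k
        · exact h3
        · exact h4
        · exact h2
      refine ⟨c 2, hc2, -c 0, -c 1, ?_⟩
      rw [zpow_neg, zpow_neg, ← mul_inv]
      exact eq_inv_of_mul_eq_one_right hprod
    · rintro i c k ⟨a, b, hab⟩
      exact ⟨a * k, b * k, by rw [zpow_mul, hab, mul_zpow, zpow_mul, zpow_mul]⟩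
  · right
    push Not at h1
    by_cases h2 : ∃ i₁, ∀ a : ℤ, y i₁ ^ a = 1 → a = 0
    · obtain ⟨i₁, hi₁⟩ := h2
      refine Or.inl ⟨i₁, hi₁, ?_⟩
      refine g3_common (fun i c => ∃ a : ℤ, y i ^ c = y i₁ ^ a) ?_ ?_
      · intro i
        obtain ⟨a, b, hab, hne⟩ := h1 i₁ i
        have hb : b ≠ 0 := by
          intro hb
          rw [hb, zpow_zero, mul_one] at hab
          exact hne (hi₁ a hab) hb
        refine ⟨b, hb, -a, ?_⟩
        rw [zpow_neg]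
        exact eq_inv_of_mul_eq_one_right hab
      · rintro i c k ⟨a, ha⟩
        exact ⟨a * k, by rw [zpow_mul, ha, zpow_mul]⟩
    · right
      push Not at h2
      refine g3_common (fun i c => y i ^ c = 1) ?_ ?_
      · intro i
        obtain ⟨a, ha, ha0⟩ := h2 i
        exact ⟨a, ha0, ha⟩
      · intro i c k hc
        rw [zpow_mul, hc, one_zpow]

end Pool.Agent.Lib.H22T
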