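import Pool.Agent.Lib.H22F301.Val
import Pool.Agent.Lib.H22T.G3

/-!
# Ranks of matrices of logarithms of elements of a group of rank two
-/

namespace Pool.Agent.Lib.H22T

open Pool.Agent.Lib.H22F301 (pencil_rank_le finrank_images_le)

private theorem g4_zpow {G : Type*} [CommGroup G] {𝕜 : Type*} [Field 𝕜]
    (ψ : G →* Multiplicative 𝕜) (g : G) (c : ℤ) :
    Multiplicative.toAdd (ψ (g ^ c)) = (c : 𝕜) * Multiplicative.toAdd (ψ g) := by
  rw [map_zpow, toAdd_zpow, zsmul_eq_mul]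

private theorem g4_scale {𝕜 : Type*} [Field 𝕜] {m n : ℕ} (c : 𝕜) (v w : Fin m → Fin n → 𝕜)
    (h : ∀ j i, w j i = c * v j i) :
    Module.finrank 𝕜 (Submodule.span 𝕜 (Set.range fun (j : Fin m) (i : Fin n) => w j i)) ≤
      Module.finrank 𝕜 (Submodule.span 𝕜 (Set.range fun (j : Fin m) (i : Fin n) => v j i)) := by
  refine finrank_images_le (c • (LinearMap.id : (Fin n → 𝕜) →ₗ[𝕜] (Fin n → 𝕜))) _ _ fun j => ?_
  funext i
  simp [h]

private theorem g4_det {F : Type*} [Field F] {m n ρ : ℕ} (A : Fin m → Fin n → ℤ) (t : F)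
    (a : Fin ρ → Fin m) (b : Fin ρ → Fin n) :
    (Matrix.of fun i j => (fun (j : Fin m) (i : Fin n) => (A j i : F) * t) (a i) (b j)).det =
      t ^ ρ * (((Matrix.of fun i j => A (a i) (b j)).det : ℤ) : F) := by
  have h1 : (Matrix.of fun i j => (fun (j : Fin m) (i : Fin n) => (A j i : F) * t) (a i) (b j)) =
      t • (Matrix.of fun i j => A (a i) (b j)).map (Int.castRingHom F) := by
    ext i j
    simp [mul_comm]
  rw [h1, Matrix.det_smul, Fintype.card_fin]
  congr 1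
  exact (RingHom.map_det (Int.castRingHom F) _).symm

private theorem g4_int {𝕜 𝕝 : Type*} [Field 𝕜] [Field 𝕝] [CharZero 𝕝] {m n : ℕ}
    (A : Fin m → Fin n → ℤ) (l : 𝕜) (x : 𝕝) (hx : x ≠ 0) :
    Module.finrank 𝕜 (Submodule.span 𝕜 (Set.range fun (j : Fin m) (i : Fin n) =>
      (A j i : 𝕜) * l)) ≤
    Module.finrank 𝕝 (Submodule.span 𝕝 (Set.range fun (j : Fin m) (i : Fin n) =>
      (A j i : 𝕝) * x)) := by
  set ρ := Module.finrank 𝕜 (Submodule.span 𝕜 (Set.range fun (j : Fin m) (i : Fin n) =>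
      (A j i : 𝕜) * l)) with hρ
  obtain ⟨a, b, hab⟩ := Pool.Agent.Lib.H22F301.exists_minor (r := ρ)
    (fun (j : Fin m) (i : Fin n) => (A j i : 𝕜) * l) (le_of_eq hρ)
  apply Pool.Agent.Lib.H22F301.le_finrank_of_minor _ a b
  have hab' := hab
  rw [g4_det A l a b] at hab'
  rw [g4_det A x a b]
  have h2 : (Matrix.of fun i j => A (a i) (b j)).det ≠ 0 := by
    intro h0
    apply hab'
    rw [h0, Int.cast_zero, mul_zero]
  exact mul_ne_zero (pow_ne_zero _ hx) (Int.cast_ne_zero.2 h2)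

/-- (By `rank_two_structure`: in the first case `pencil_rank_le`, in the second case the two
matrices are proportional to the integer matrix of the exponents and the factor on the right hand
side is not zero, in the third case the left hand side is zero.) -/
theorem rank_le_of_rank_two {G : Type*} [CommGroup G] {𝕜 𝕝 : Type*} [Field 𝕜] [CharZero 𝕜]
    [Field 𝕝] [Algebra ℚ 𝕝] {m n : ℕ} (y : Fin m → Fin n → G)
    (h : ∀ (j : Fin 3 → Fin m) (i : Fin 3 → Fin n), ∃ c : Fin 3 → ℤ, c ≠ 0 ∧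
      ∏ k, y (j k) (i k) ^ c k = 1)
    (φ : G →* Multiplicative 𝕝) (ψ : G →* Multiplicative 𝕜)
    (h0 : ∀ j i, Multiplicative.toAdd (φ (y j i)) = 0 → ∃ N : ℕ, 0 < N ∧ y j i ^ N = 1)
    (ht : ∀ j₁ i₁ j₂ i₂, (∀ a b : ℤ, y j₁ i₁ ^ a * y j₂ i₂ ^ b = 1 → a = 0 ∧ b = 0) →
      Transcendental ℚ (Multiplicative.toAdd (φ (y j₂ i₂)) / Multiplicative.toAdd (φ (y j₁ i₁)))) :
    Module.finrank 𝕜 (Submodule.span 𝕜 (Set.range fun (j : Fin m) (i : Fin n) =>
      Multiplicative.toAdd (ψ (y j i)))) ≤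
    Module.finrank 𝕝 (Submodule.span 𝕝 (Set.range fun (j : Fin m) (i : Fin n) =>
      Multiplicative.toAdd (φ (y j i)))) := by
  classical
  have hc𝕝 : CharZero 𝕝 := algebraRat.charZero 𝕝
  have hmulφ : ∀ g g' : G, Multiplicative.toAdd (φ (g * g')) =
      Multiplicative.toAdd (φ g) + Multiplicative.toAdd (φ g') := fun g g' => by
    rw [map_mul, toAdd_mul]
  have hmulψ : ∀ g g' : G, Multiplicative.toAdd (ψ (g * g')) =
      Multiplicative.toAdd (ψ g) + Multiplicative.toAdd (ψ g') := fun g g' => by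
    rw [map_mul, toAdd_mul]
  rcases rank_two_structure (fun p : Fin m × Fin n => y p.1 p.2)
    (fun i => h (fun k => (i k).1) (fun k => (i k).2)) with
    ⟨⟨j₁, i₁⟩, ⟨j₂, i₂⟩, hind, c, hc, hy⟩ | ⟨⟨j₁, i₁⟩, hind, c, hc, hy⟩ | ⟨c, hc, hy⟩
  · choose A B hAB using fun (j : Fin m) (i : Fin n) => hy (j, i)
    simp only at hind hAB
    have hx : Multiplicative.toAdd (φ (y j₁ i₁)) ≠ 0 := by
      intro h1
      obtain ⟨N, hN, h2⟩ := h0 j₁ i₁ h1
      have h3 := hind N 0 (by rw [zpow_natCast, h2, zpow_zero, mul_one])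
      have := h3.1
      omega
    have hck : (c : 𝕜) ≠ 0 := Int.cast_ne_zero.2 hc
    have hφ : ∀ j i, (A j i : 𝕝) * Multiplicative.toAdd (φ (y j₁ i₁)) +
        (B j i : 𝕝) * Multiplicative.toAdd (φ (y j₂ i₂)) =
        (c : 𝕝) * Multiplicative.toAdd (φ (y j i)) := by
      intro j i
      rw [← g4_zpow, ← g4_zpow, ← g4_zpow, ← hmulφ, hAB]
    have hψ : ∀ j i, (A j i : 𝕜) * Multiplicative.toAdd (ψ (y j₁ i₁)) +
        (B j i : 𝕜) * Multiplicative.toAdd (ψ (y j₂ i₂)) =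
        (c : 𝕜) * Multiplicative.toAdd (ψ (y j i)) := by
      intro j i
      rw [← g4_zpow, ← g4_zpow, ← g4_zpow, ← hmulψ, hAB]
    refine le_trans ?_ ((pencil_rank_le A B (Multiplicative.toAdd (ψ (y j₁ i₁)))
      (Multiplicative.toAdd (ψ (y j₂ i₂))) (Multiplicative.toAdd (φ (y j₁ i₁)))
      (Multiplicative.toAdd (φ (y j₂ i₂))) hx (ht j₁ i₁ j₂ i₂ hind)).trans ?_)
    · refine g4_scale ((c : 𝕜)⁻¹) _ _ fun j i => ?_
      rw [hψ, inv_mul_cancel_left₀ hck]
    · exact g4_scale (c : 𝕝) _ _ fun j i => hφ j i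
  · choose A hA using fun (j : Fin m) (i : Fin n) => hy (j, i)
    simp only at hind hA
    have hx : Multiplicative.toAdd (φ (y j₁ i₁)) ≠ 0 := by
      intro h1
      obtain ⟨N, hN, h2⟩ := h0 j₁ i₁ h1
      have h3 := hind N (by rw [zpow_natCast, h2])
      omega
    have hck : (c : 𝕜) ≠ 0 := Int.cast_ne_zero.2 hc
    have hφ : ∀ j i, (A j i : 𝕝) * Multiplicative.toAdd (φ (y j₁ i₁)) =
        (c : 𝕝) * Multiplicative.toAdd (φ (y j i)) := by
      intro j i
      rw [← g4_zpow, ← g4_zpow, hA]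
    have hψ : ∀ j i, (A j i : 𝕜) * Multiplicative.toAdd (ψ (y j₁ i₁)) =
        (c : 𝕜) * Multiplicative.toAdd (ψ (y j i)) := by
      intro j i
      rw [← g4_zpow, ← g4_zpow, hA]
    refine le_trans ?_ ((g4_int A (Multiplicative.toAdd (ψ (y j₁ i₁)))
      (Multiplicative.toAdd (φ (y j₁ i₁))) hx).trans ?_)
    · refine g4_scale ((c : 𝕜)⁻¹) _ _ fun j i => ?_
      rw [hψ, inv_mul_cancel_left₀ hck]
    · exact g4_scale (c : 𝕝) _ _ fun j i => hφ j i
  · have hz : ∀ j i, Multiplicative.toAdd (ψ (y j i)) = 0 := by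
      intro j i
      have h1 := g4_zpow ψ (y j i) c
      have h2 : y j i ^ c = 1 := hy (j, i)
      rw [h2, map_one, toAdd_one] at h1
      exact (mul_eq_zero.1 h1.symm).resolve_left (Int.cast_ne_zero.2 hc)
    have h3 : Submodule.span 𝕜 (Set.range fun (j : Fin m) (i : Fin n) =>
        Multiplicative.toAdd (ψ (y j i))) = ⊥ := by
      rw [Submodule.span_eq_bot]
      rintro _ ⟨j, rfl⟩
      funext i
      exact hz j i
    rw [h3, finrank_bot]
    exact Nat.zero_le _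

end Pool.Agent.Lib.H22T
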