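import Pool.Agent.Lib.H22T.Defs4

/-!
# Dependence of `k + 1` elements of a group of rank `k`
-/

namespace Pool.Agent.Lib.H22T

private theorem g5_sum {K ι : Type*} [Field K] (s : Finset ι) (x : K) (hx : x ≠ 0) (f : ι → ℤ) :
    ∏ t ∈ s, x ^ f t = x ^ (∑ t ∈ s, f t) := by
  classical
  induction s using Finset.induction_on with
  | empty => simp
  | insert a s ha ih => rw [Finset.prod_insert ha, Finset.sum_insert ha, zpow_add₀ hx, ih]

theorem dep_of_rankLE {K E : Type*} [Field K] [Field E] (σ : E →+* K) {S : Set K} {k : ℕ}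
    (h : RankLE S k) (y : Fin (k + 1) → Eˣ)
    (hy : ∀ i, ∃ (N : ℕ) (s : Fin N → K) (a : Fin N → ℤ), (∀ t, s t ∈ S) ∧
      σ (y i : E) = ∏ t, s t ^ a t) :
    ∃ c : Fin (k + 1) → ℤ, c ≠ 0 ∧ ∏ i, y i ^ c i = 1 := by
  classical
  obtain ⟨g, hg⟩ := h
  have key : ∀ i, ∃ (C : ℤ) (b : Fin k → ℤ), C ≠ 0 ∧ (σ (y i : E)) ^ C = ∏ j, (g j : K) ^ b j := by
    intro i
    obtain ⟨N, s, a, hs, hy'⟩ := hy i
    choose c b hc hb using fun t => hg (s t) (hs t)
    refine ⟨∏ t, c t, fun j => ∑ t, b t j * ((∏ t' ∈ Finset.univ.erase t, c t') * a t),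
      Finset.prod_ne_zero_iff.2 fun t _ => hc t, ?_⟩
    rw [hy', ← Finset.prod_zpow]
    have h1 : ∀ t, (s t ^ a t) ^ (∏ t, c t) =
        ∏ j, (g j : K) ^ (b t j * ((∏ t' ∈ Finset.univ.erase t, c t') * a t)) := by
      intro t
      have h2 : ∏ t, c t = c t * ∏ t' ∈ Finset.univ.erase t, c t' :=
        (Finset.mul_prod_erase _ _ (Finset.mem_univ t)).symm
      have h3 : a t * ∏ t, c t = c t * ((∏ t' ∈ Finset.univ.erase t, c t') * a t) := by
        rw [h2]
        ring
      rw [← zpow_mul, h3, zpow_mul, hb t, ← Finset.prod_zpow]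
      refine Finset.prod_congr rfl fun j _ => ?_
      rw [← zpow_mul]
    rw [Finset.prod_congr rfl fun t _ => h1 t, Finset.prod_comm]
    refine Finset.prod_congr rfl fun j _ => ?_
    exact g5_sum _ _ (g j).ne_zero _
  choose C b hC hb using key
  -- a dependence of the exponent vectors
  obtain ⟨d, hd, hd0⟩ : ∃ d : Fin (k + 1) → ℤ, d ≠ 0 ∧ ∀ j, ∑ i, d i * b i j = 0 := by
    by_contra hcon
    push Not at hcon
    have hinj : Function.Injective (Matrix.vecMulLinear (Matrix.of b : Matrix (Fin (k + 1)) (Fin k) ℤ)) := by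
      rw [injective_iff_map_eq_zero]
      intro d hd
      by_contra hne
      obtain ⟨j, hj⟩ := hcon d hne
      apply hj
      have h1 := congrFun hd j
      simpa [Matrix.vecMul, dotProduct] using h1
    have h2 := le_of_fin_injective ℤ _ hinj
    omega
  refine ⟨fun i => C i * d i, ?_, ?_⟩
  · intro h1
    apply hd
    funext i
    have h2 := congrFun h1 i
    have h3 : C i * d i = 0 := h2
    exact (mul_eq_zero.1 h3).resolve_left (hC i)
  · apply Units.ext
    apply σ.injective
    rw [Units.val_one, map_one, Units.coe_prod, map_prod]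
    have h1 : ∀ i, σ ((y i ^ (C i * d i) : Eˣ) : E) = ∏ j, (g j : K) ^ (b i j * d i) := by
      intro i
      rw [Units.val_zpow_eq_zpow_val, map_zpow₀, zpow_mul, hb i, ← Finset.prod_zpow]
      refine Finset.prod_congr rfl fun j _ => ?_
      rw [← zpow_mul]
    rw [Finset.prod_congr rfl fun i _ => h1 i, Finset.prod_comm]
    refine Finset.prod_eq_one fun j _ => ?_
    rw [g5_sum _ _ (g j).ne_zero]
    have h2 : ∑ i, b i j * d i = 0 := by
      rw [← hd0 j]
      exact Finset.sum_congr rfl fun i _ => mul_comm _ _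
    rw [h2, zpow_zero]

end Pool.Agent.Lib.H22T
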