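import Mathlib

/-!
# Primes `q` for which a number field embeds into `ℚ_q`
-/

namespace Pool.Agent.Lib.H22T

open Polynomial

private theorem t1_schur (f : ℤ[X]) (hf : 0 < f.natDegree) (N : ℕ) :
    ∃ q : ℕ, q.Prime ∧ N < q ∧ ∃ n : ℤ, (q : ℤ) ∣ f.eval n := by
  by_cases hc : f.eval 0 = 0
  · obtain ⟨q, hq1, hq2⟩ := Nat.exists_infinite_primes (N + 1)
    exact ⟨q, hq2, by omega, 0, by rw [hc]; exact dvd_zero _⟩
  set c : ℤ := f.eval 0 with hcdef
  set M : ℤ := (N.factorial : ℤ) with hM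
  have hM0 : M ≠ 0 := by
    rw [hM]
    exact_mod_cast N.factorial_ne_zero
  have hne : ∀ a : ℤ, f - C a ≠ 0 := by
    intro a h
    have h1 : f = C a := sub_eq_zero.1 h
    rw [h1, natDegree_C] at hf
    exact lt_irrefl _ hf
  obtain ⟨x, hx1, hx2⟩ : ∃ x : ℤ, f.eval (c * M * x) ≠ c ∧ f.eval (c * M * x) ≠ -c := by
    by_contra hcon
    push Not at hcon
    have hP : (f - C c) * (f - C (-c)) ≠ 0 := mul_ne_zero (hne c) (hne (-c))
    apply hP
    apply eq_zero_of_infinite_isRoot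
    have hinj : Function.Injective (fun x : ℤ => c * M * x) := by
      intro a b hab
      exact mul_left_cancel₀ (mul_ne_zero hc hM0) hab
    refine (Set.infinite_range_of_injective hinj).mono ?_
    rintro _ ⟨x, rfl⟩
    show ((f - C c) * (f - C (-c))).eval (c * M * x) = 0
    rw [eval_mul, eval_sub, eval_sub, eval_C, eval_C]
    by_cases h1 : f.eval (c * M * x) = c
    · rw [h1]
      ring
    · rw [hcon x h1]
      ring
  obtain ⟨k, hk⟩ := sub_dvd_eval_sub (c * M * x) 0 f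
  rw [sub_zero] at hk
  have hw : f.eval (c * M * x) = c * (1 + M * (x * k)) := by
    have h2 : f.eval (c * M * x) = c + c * M * x * k := by
      rw [← hk, hcdef]
      ring
    rw [h2]
    ring
  have hw1 : (1 + M * (x * k)).natAbs ≠ 1 := by
    intro h
    rcases Int.natAbs_eq (1 + M * (x * k)) with h3 | h3
    · rw [h] at h3
      apply hx1
      rw [hw, h3]
      push_cast
      ring
    · rw [h] at h3
      apply hx2
      rw [hw, h3]
      push_cast
      ring
  obtain ⟨q, hq, hqd⟩ := Nat.exists_prime_and_dvd hw1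
  have hqd' : (q : ℤ) ∣ 1 + M * (x * k) := Int.natCast_dvd.2 hqd
  refine ⟨q, hq, ?_, c * M * x, ?_⟩
  · by_contra hle
    have h4 : q ∣ N.factorial := (Nat.Prime.dvd_factorial hq).2 (not_lt.1 hle)
    have h5 : (q : ℤ) ∣ M := by
      rw [hM]
      exact_mod_cast h4
    have h6 : (q : ℤ) ∣ 1 := by
      have := dvd_sub hqd' (h5.mul_right (x * k))
      simpa using this
    exact hq.one_lt.ne' (by exact_mod_cast Int.eq_one_of_dvd_one (by positivity) h6)
  · rw [hw]
    exact hqd'.mul_left c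

private theorem t1_int (p : ℚ[X]) : ∃ (b : ℤ) (P : ℤ[X]), b ≠ 0 ∧
    P.map (Int.castRingHom ℚ) = C (b : ℚ) * p := by
  obtain ⟨b, hb0, hb⟩ := IsLocalization.integerNormalization_spec (nonZeroDivisors ℤ) p
  refine ⟨b, IsLocalization.integerNormalization (nonZeroDivisors ℤ) p, nonZeroDivisors.ne_zero hb0, ?_⟩
  rw [← algebraMap_int_eq, hb, ← smul_eq_C_mul]
  ext i
  simp

private theorem t1_bezout (g : ℚ[X]) (hg : g.Separable) : ∃ (f a b : ℤ[X]) (c D : ℤ), c ≠ 0 ∧ D ≠ 0 ∧
    f.map (Int.castRingHom ℚ) = C (c : ℚ) * g ∧ a * f + b * derivative f = C D := by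
  obtain ⟨u, v, huv⟩ := hg
  obtain ⟨c, f, hc, hf⟩ := t1_int g
  obtain ⟨b1, U, hb1, hU⟩ := t1_int u
  obtain ⟨b2, W, hb2, hW⟩ := t1_int v
  refine ⟨f, C b2 * U, C b1 * W, c, c * b1 * b2, hc, mul_ne_zero (mul_ne_zero hc hb1) hb2, hf, ?_⟩
  apply map_injective (Int.castRingHom ℚ) (RingHom.injective_int _)
  have hf' : (derivative f).map (Int.castRingHom ℚ) = C (c : ℚ) * derivative g := by
    rw [← derivative_map, hf, derivative_C_mul]
  have hC : ∀ z : ℤ, (C z : ℤ[X]).map (Int.castRingHom ℚ) = C (z : ℚ) := by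
    intro z
    rw [map_C, eq_intCast]
  rw [Polynomial.map_add, Polynomial.map_mul, Polynomial.map_mul, Polynomial.map_mul,
    Polynomial.map_mul, hf, hf', hU, hW, hC, hC, hC]
  push_cast
  rw [C_mul, C_mul]
  linear_combination C (c : ℚ) * C (b1 : ℚ) * C (b2 : ℚ) * huv

/-- There are infinitely many primes `q` for which the number field `F` embeds into `ℚ_q`. -/
theorem exists_prime_embedding (F : Type*) [Field F] [NumberField F] (N : ℕ) :
    ∃ (q : ℕ) (_ : Fact q.Prime), N < q ∧ Nonempty (F →+* ℚ_[q]) := by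
  set pb := Field.powerBasisOfFiniteOfSeparable ℚ F with hpb
  have hint : IsIntegral ℚ pb.gen := IsIntegral.of_finite ℚ pb.gen
  obtain ⟨f, a, b, c, D, hc, hD, hf, hab⟩ := t1_bezout (minpoly ℚ pb.gen)
    (minpoly.irreducible hint).separable
  have hdeg : 0 < f.natDegree := by
    have h1 : (f.map (Int.castRingHom ℚ)).natDegree = f.natDegree :=
      natDegree_map_eq_of_injective (RingHom.injective_int _) f
    rw [← h1, hf, natDegree_C_mul (by exact_mod_cast hc)]
    exact minpoly.natDegree_pos hint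
  obtain ⟨q, hq, hNq, n, hn⟩ := t1_schur f hdeg (max N D.natAbs)
  have : Fact q.Prime := ⟨hq⟩
  have hqD : ¬ (q : ℤ) ∣ D := by
    intro h
    have h1 : q ≤ D.natAbs := Nat.le_of_dvd (Int.natAbs_pos.2 hD) (Int.natCast_dvd.1 h)
    have h2 : D.natAbs ≤ max N D.natAbs := le_max_right _ _
    omega
  have hqf' : ¬ (q : ℤ) ∣ (derivative f).eval n := by
    intro h
    apply hqD
    have h1 := congrArg (eval n) hab
    rw [eval_add, eval_mul, eval_mul, eval_C] at h1
    rw [← h1]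
    exact dvd_add (hn.mul_left _) (h.mul_left _)
  have h1 : ‖aeval (n : ℤ_[q]) f‖ < 1 := by
    have : aeval (n : ℤ_[q]) f = ((f.eval n : ℤ) : ℤ_[q]) := by
      rw [aeval_def, eval₂_at_intCast]
      simp
    rw [this, PadicInt.norm_int_lt_one_iff_dvd]
    exact hn
  have h2 : ‖aeval (n : ℤ_[q]) (derivative f)‖ = 1 := by
    have : aeval (n : ℤ_[q]) (derivative f) = (((derivative f).eval n : ℤ) : ℤ_[q]) := by
      rw [aeval_def, eval₂_at_intCast]
      simp
    rw [this]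
    refine le_antisymm (PadicInt.norm_le_one _) (not_lt.1 fun h => hqf' ?_)
    exact (PadicInt.norm_int_lt_one_iff_dvd _).1 h
  obtain ⟨z, hz, -⟩ := hensels_lemma (p := q) (R := ℤ) (F := f) (a := (n : ℤ_[q])) (by
    rw [h2, one_pow]
    exact h1)
  refine ⟨q, ⟨hq⟩, lt_of_le_of_lt (le_max_left _ _) hNq, ⟨(pb.lift (z : ℚ_[q]) ?_).toRingHom⟩⟩
  have h3 : aeval (z : ℚ_[q]) f = 0 := by
    have h4 : aeval (z : ℚ_[q]) f = ((aeval z f : ℤ_[q]) : ℚ_[q]) := by
      have := Polynomial.hom_eval₂ f (Int.castRingHom ℤ_[q]) (PadicInt.Coe.ringHom (p := q)) z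
      rw [aeval_def, aeval_def, algebraMap_int_eq, algebraMap_int_eq]
      show _ = PadicInt.Coe.ringHom (p := q) _
      rw [this]
      exact congrArg (fun φ : ℤ →+* ℚ_[q] => eval₂ φ (z : ℚ_[q]) f) (RingHom.ext_int _ _)
    rw [h4, hz]
    rfl
  have h5 : aeval (z : ℚ_[q]) (f.map (Int.castRingHom ℚ)) = 0 := by
    rw [← h3, aeval_def, eval₂_map, aeval_def]
    exact congrArg (fun φ : ℤ →+* ℚ_[q] => eval₂ φ (z : ℚ_[q]) f) (RingHom.ext_int _ _)
  rw [hf, map_mul, aeval_C] at h5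
  rcases mul_eq_zero.1 h5 with h6 | h6
  · exfalso
    rw [map_eq_zero] at h6
    exact hc (by exact_mod_cast h6)
  · exact h6

end Pool.Agent.Lib.H22T
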