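import Pool.Agent.Lib.H22T.Defs2

/-!
# Lower bounds for `ℓ(p)` and `ℓ(∞)` from values of characters
-/

namespace Pool.Agent.Lib.H22T

open Pool.Agent.Lib.H22F301 (coord pairHom valHom logAbs)

variable {A : Type*} [CommRing A] [HopfAlgebra ℚ A] [Coalgebra.IsCocomm ℚ A] {n : ℕ}

private theorem t10_cont {K : Type*} [NormedField K] [Algebra ℚ K] (Θ : Pt A K →* (Fin n → Kˣ))
    (hΘ : Continuous fun y (j : Fin n) => ((Θ y j : Kˣ) : K)) : Continuous Θ := by
  refine continuous_pi fun j => ?_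
  rw [Units.isEmbedding_val₀.continuous_iff]
  exact (continuous_apply j).comp hΘ

/-- Compare `finrank_pv_le_ell` in `H22F301/Val.lean` (`finrank_span_le` in `H22F301/Top.lean`). -/
theorem finrank_theta_le_ell {p : ℕ} [Fact p.Prime] {lg : ℚ_[p]ˣ →* Multiplicative ℚ_[p]}
    (hlg : Continuous fun y => Multiplicative.toAdd (lg y))
    (Θ : Pt A ℚ_[p] →* (Fin n → ℚ_[p]ˣ))
    (hΘ : Continuous fun y (j : Fin n) => ((Θ y j : ℚ_[p]ˣ) : ℚ_[p])) (L : Subgroup (Pt A ℚ)) :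
    ((Module.finrank ℚ_[p] (Submodule.span ℚ_[p]
      ((fun x => Multiplicative.toAdd (pairHom lg n (Θ (toK A ℚ_[p] x)))) '' (L : Set (Pt A ℚ))))
      : ℕ) : ℕ∞) ≤ ell ℚ_[p] L := by
  refine le_iInf₂ fun k hk' => ?_
  obtain ⟨F, H, hF, hH, -, hfin⟩ := hk'
  have h := Pool.Agent.Lib.H22F301.finrank_span_le
    (((pairHom lg n).comp Θ).comp (closureAt ℚ_[p] L).subtype)
    (((Pool.Agent.Lib.H22F301.continuous_pairHom lg hlg).comp (t10_cont Θ hΘ)).comp
      continuous_subtype_val) hF hH hfin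
    (inClosure ℚ_[p] L : Set (closureAt ℚ_[p] L))
  have h4 : Module.finrank ℚ_[p] (Submodule.span ℚ_[p]
      ((fun x => Multiplicative.toAdd (pairHom lg n (Θ (toK A ℚ_[p] x)))) '' (L : Set (Pt A ℚ))))
      ≤ k := by
    refine le_trans ?_ h
    apply Submodule.finrank_mono
    apply Submodule.span_mono
    rintro _ ⟨x, hx, rfl⟩
    exact ⟨⟨toK A ℚ_[p] x, map_le_closureAt ℚ_[p] L ⟨x, hx, rfl⟩⟩, ⟨x, hx, rfl⟩, rfl⟩
  exact_mod_cast h4

/-- Compare `min_le_topRank` in `H22T/Tori.lean` (`min_le_of_free`). -/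
theorem min_le_ell_real_theta (Θ : Pt A ℝ →* (Fin n → ℝˣ))
    (hΘ : Continuous fun y (j : Fin n) => ((Θ y j : ℝˣ) : ℝ)) {L : Subgroup (Pt A ℚ)} {m : ℕ}
    (hL : FreeOfRank L m) :
    ((min m (Module.finrank ℝ (Submodule.span ℝ
      ((fun x => Multiplicative.toAdd (coord logAbs (Θ (toK A ℝ x)))) '' (L : Set (Pt A ℚ)))) + 1)
      : ℕ) : ℕ∞) ≤ ell ℝ L := by
  refine le_iInf₂ fun k hk => ?_
  obtain ⟨F, H, hF, hH, -, hfin⟩ := hk
  have hc : Continuous fun y : Pt A ℝ => Multiplicative.toAdd (coord logAbs (Θ y)) := by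
    refine continuous_pi fun i => ?_
    exact Pool.Agent.Lib.H22F301.continuous_logAbs.comp
      ((continuous_apply i).comp (t10_cont Θ hΘ))
  have h := min_le_of_free (((coord logAbs).comp Θ).comp (closureAt ℝ L).subtype)
    (hc.comp continuous_subtype_val) (freeOfRank_inClosure ℝ hL) hF hH hfin
  have h2 : ((fun g => Multiplicative.toAdd ((((coord logAbs).comp Θ).comp
      (closureAt ℝ L).subtype) g)) '' (inClosure ℝ L : Set (closureAt ℝ L))) =
      ((fun x => Multiplicative.toAdd (coord logAbs (Θ (toK A ℝ x)))) '' (L : Set (Pt A ℚ))) := by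
    ext v
    constructor
    · rintro ⟨z, hz, rfl⟩
      obtain ⟨x, hx, hxz⟩ := hz
      exact ⟨x, hx, by simp only; rw [hxz]; rfl⟩
    · rintro ⟨x, hx, rfl⟩
      exact ⟨⟨toK A ℝ x, map_le_closureAt ℝ L ⟨x, hx, rfl⟩⟩, ⟨x, hx, rfl⟩, rfl⟩
  rw [h2] at h
  exact_mod_cast h

end Pool.Agent.Lib.H22T
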