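import Pool.Agent.Lib.H22T.Defs2

/-!
# The rank of integer vectors does not depend on the field
-/

namespace Pool.Agent.Lib.H22T

/-- Compare `select_rows` in `H22F301/Val.lean` (namespace `Pool.Agent.Lib.H22F301`), which gives the
inequality in both directions. -/
theorem finrank_int_eq {𝕜 : Type*} [Field 𝕜] [CharZero 𝕜] {m n : ℕ} (w : Fin m → Fin n → ℤ) :
    Module.finrank 𝕜 (Submodule.span 𝕜 (Set.range fun (j : Fin m) (i : Fin n) =>
      ((w j i : ℤ) : 𝕜))) =
    Module.finrank ℚ (Submodule.span ℚ (Set.range fun (j : Fin m) (i : Fin n) =>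
      ((w j i : ℤ) : ℚ))) := by
  classical
  set v := Module.finrank ℚ (Submodule.span ℚ (Set.range fun (j : Fin m) (i : Fin n) =>
      ((w j i : ℤ) : ℚ))) with hv
  obtain ⟨a, G, D, C, -, hG, hD, hC⟩ := Pool.Agent.Lib.H22F301.select_rows w hv.symm
  have hli : LinearIndependent 𝕜 (fun (s : Fin v) (i : Fin n) => ((w (a s) i : ℤ) : 𝕜)) := by
    rw [Fintype.linearIndependent_iff]
    intro g hg t
    have h1 : ∑ i, ((G t i : ℚ) : 𝕜) *
        (∑ s, g s • (fun (i : Fin n) => ((w (a s) i : ℤ) : 𝕜))) i = 0 := by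
      rw [hg]
      simp
    have h2 : ∀ s, ∑ i, ((G t i : ℚ) : 𝕜) * ((w (a s) i : ℤ) : 𝕜) = if t = s then 1 else 0 := by
      intro s
      have h3 := congrArg (fun x : ℚ => (x : 𝕜)) (hG t s)
      simp only [Rat.cast_sum, Rat.cast_mul, Rat.cast_intCast] at h3
      rw [h3]
      split_ifs <;> simp
    have h4 : ∑ i, ((G t i : ℚ) : 𝕜) *
        (∑ s, g s • (fun (i : Fin n) => ((w (a s) i : ℤ) : 𝕜))) i =
        ∑ s, g s * ∑ i, ((G t i : ℚ) : 𝕜) * ((w (a s) i : ℤ) : 𝕜) := by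
      simp only [Finset.sum_apply, Pi.smul_apply, smul_eq_mul, Finset.mul_sum]
      rw [Finset.sum_comm]
      refine Finset.sum_congr rfl fun s _ => Finset.sum_congr rfl fun i _ => ?_
      ring
    rw [h4] at h1
    simpa [h2] using h1
  have hsp : Submodule.span 𝕜 (Set.range fun (j : Fin m) (i : Fin n) => ((w j i : ℤ) : 𝕜)) =
      Submodule.span 𝕜 (Set.range fun (s : Fin v) (i : Fin n) => ((w (a s) i : ℤ) : 𝕜)) := by
    apply le_antisymm
    · rw [Submodule.span_le]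
      rintro _ ⟨j, rfl⟩
      have hDj : ((D j : ℤ) : 𝕜) ≠ 0 := by exact_mod_cast hD j
      have h5 : (fun (i : Fin n) => ((w j i : ℤ) : 𝕜)) =
          ((D j : ℤ) : 𝕜)⁻¹ • ∑ s, ((C j s : ℤ) : 𝕜) • (fun (i : Fin n) => ((w (a s) i : ℤ) : 𝕜)) := by
        funext i
        simp only [Pi.smul_apply, Finset.sum_apply, smul_eq_mul]
        rw [eq_inv_mul_iff_mul_eq₀ hDj]
        have h6 := congrArg (fun x : ℤ => (x : 𝕜)) (hC j i)
        simpa only [Int.cast_mul, Int.cast_sum] using h6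
      show (fun (i : Fin n) => ((w j i : ℤ) : 𝕜)) ∈ _
      rw [h5]
      exact Submodule.smul_mem _ _ (Submodule.sum_mem _ fun s _ =>
        Submodule.smul_mem _ _ (Submodule.subset_span ⟨s, rfl⟩))
    · refine Submodule.span_mono ?_
      rintro _ ⟨s, rfl⟩
      exact ⟨a s, rfl⟩
  rw [hsp, finrank_span_eq_card hli, Fintype.card_fin]

end Pool.Agent.Lib.H22T
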