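import Pool.Agent.Lib.H22T.Defs3
import Pool.Agent.Lib.H22T.T8

/-!
# The rank of the valuations in terms of the values of characters in a number field
-/

namespace Pool.Agent.Lib.H22T

section Aux

private theorem span_gens {𝕜 G : Type*} [Field 𝕜] [CommGroup G] {N : ℕ} {L : Subgroup G} {m : ℕ}
    (f : Fin m → G) (hf : ∀ x, x ∈ L ↔ ∃ c : Fin m → ℤ, x = ∏ i, f i ^ c i)
    (φ : G → (Fin N → 𝕜))
    (hφ : ∀ (c : Fin m → ℤ), φ (∏ i, f i ^ c i) = ∑ i, (c i : 𝕜) • φ (f i)) :
    Submodule.span 𝕜 (φ '' (L : Set G)) = Submodule.span 𝕜 (Set.range fun j => φ (f j)) := by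
  apply le_antisymm
  · rw [Submodule.span_le]
    rintro _ ⟨x, hx, rfl⟩
    obtain ⟨c, rfl⟩ := (hf x).1 hx
    rw [hφ]
    exact Submodule.sum_mem _ fun i _ =>
      Submodule.smul_mem _ _ (Submodule.subset_span ⟨i, rfl⟩)
  · apply Submodule.span_mono
    rintro _ ⟨j, rfl⟩
    refine ⟨f j, (hf _).2 ⟨Pi.single j 1, ?_⟩, rfl⟩
    rw [Finset.prod_eq_single j]
    · rw [Pi.single_eq_same, zpow_one]
    · intro i _ hij
      rw [Pi.single_eq_of_ne hij, zpow_zero]
    · intro h
      exact absurd (Finset.mem_univ j) h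

private theorem log_norm_padic {p : ℕ} [hp : Fact p.Prime] {y : ℚ_[p]} (hy : y ≠ 0) :
    Real.log ‖y‖ = -Real.log p * (y.valuation : ℝ) := by
  rw [Padic.norm_eq_zpow_neg_valuation hy, Real.log_zpow]
  push_cast
  ring

private theorem log_p_ne {p : ℕ} [hp : Fact p.Prime] : -Real.log (p : ℝ) ≠ 0 := by
  have h1 : (1 : ℝ) < p := by exact_mod_cast hp.out.one_lt
  exact neg_ne_zero.2 (Real.log_pos h1).ne'

end Aux

variable {A : Type*} [CommRing A] [HopfAlgebra ℚ A] [Coalgebra.IsCocomm ℚ A] {n n' : ℕ}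

private theorem val_chi {p : ℕ} [Fact p.Prime] (e : Splitting A ℚ_[p] n') (x : Pt A ℚ)
    (z : Fin n' → ℤ) :
    (chi e z x).valuation = ∑ i, z i * (chi e (Pi.single i 1) x).valuation := by
  have h := log_norm_gl e (toK A ℚ_[p] x) z
  have h1 : Real.log ‖bc (toK A ℚ_[p] x) (gl e z)‖ =
      -Real.log p * ((chi e z x).valuation : ℝ) := log_norm_padic (bc_gl_ne_zero _ _ _)
  have h2 : ∀ i, Multiplicative.toAdd (logVec e (toK A ℚ_[p] x)) i =
      -Real.log p * ((chi e (Pi.single i 1) x).valuation : ℝ) := fun i =>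
    log_norm_padic (bc_gl_ne_zero _ _ _)
  rw [h1] at h
  simp only [h2] at h
  have h3 : ((chi e z x).valuation : ℝ) =
      ∑ i, (z i : ℝ) * ((chi e (Pi.single i 1) x).valuation : ℝ) := by
    apply mul_left_cancel₀ (log_p_ne (p := p))
    rw [h, Finset.mul_sum]
    refine Finset.sum_congr rfl fun i _ => ?_
    ring
  exact_mod_cast h3

/-- Use generators `exists_gens hL`, `log ‖y‖ = - log p * valuation y`
(`Padic.norm_eq_zpow_neg_valuation`), `log_norm_gl`, `finrank_images_le` in `H22F301/Val.lean`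
(both directions between the two systems of coordinates) and `finrank_int_eq` (T8). -/
theorem logRank_eq_evalRank {p : ℕ} [Fact p.Prime] (e : Splitting A ℚ_[p] n') {E : Type*}
    [Field E] (σ : E →+* ℚ_[p]) (c : Pt A ℚ →* (Fin n → Eˣ)) (M : Fin n' → Fin n → ℤ)
    (w : Fin n → Fin n' → ℤ) (h1 : ∀ (x : Pt A ℚ) (j : Fin n), σ (c x j : E) = chi e (w j) x)
    (h2 : ∀ (x : Pt A ℚ) (i : Fin n'),
      chi e (Pi.single i 1) x = ∏ j, σ (c x j : E) ^ M i j)
    {L : Subgroup (Pt A ℚ)} {m : ℕ} (hL : FreeOfRank L m) :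
    logRank e L = evalRank σ (L.map c) := by
  obtain ⟨f, hf⟩ := exists_gens hL
  set V : Fin m → Fin n' → ℤ := fun j i => (chi e (Pi.single i 1) (f j)).valuation with hV
  set W : Fin m → Fin n → ℤ := fun j k => ezval σ (c (f j) k) with hW
  -- the rank of the logarithms
  have hlog : ∀ (x : Pt A ℚ) (i : Fin n'), Multiplicative.toAdd (logVec e (toK A ℚ_[p] x)) i =
      -Real.log p * ((chi e (Pi.single i 1) x).valuation : ℝ) := fun x i =>
    log_norm_padic (bc_gl_ne_zero _ _ _)
  have hA0 : logRank e L = Module.finrank ℝ (Submodule.span ℝ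
      (Set.range fun j => Multiplicative.toAdd (logVec e (toK A ℚ_[p] (f j))))) := by
    unfold logRank
    rw [span_gens f hf (fun x => Multiplicative.toAdd (logVec e (toK A ℚ_[p] x)))]
    intro a
    rw [map_prod, map_prod, toAdd_prod]
    refine Finset.sum_congr rfl fun i _ => ?_
    rw [map_zpow, map_zpow, toAdd_zpow, ← Int.cast_smul_eq_zsmul ℝ]
  have hA : logRank e L = Module.finrank ℝ (Submodule.span ℝ
      (Set.range fun (j : Fin m) (i : Fin n') => ((V j i : ℤ) : ℝ))) := by
    rw [hA0]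
    apply le_antisymm
    · apply Pool.Agent.Lib.H22F301.finrank_images_le ((-Real.log p) • LinearMap.id)
      intro j
      funext i
      rw [hlog]
      rfl
    · apply Pool.Agent.Lib.H22F301.finrank_images_le ((-Real.log p)⁻¹ • LinearMap.id)
      intro j
      funext i
      rw [LinearMap.smul_apply, Pi.smul_apply, LinearMap.id_apply, hlog, smul_eq_mul,
        inv_mul_cancel_left₀ (log_p_ne (p := p))]
  -- the rank of the valuations in `E`
  have hC : evalRank σ (L.map c) = Module.finrank ℚ (Submodule.span ℚ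
      (Set.range fun (j : Fin m) (k : Fin n) => ((W j k : ℤ) : ℚ))) := by
    unfold evalRank
    have himg : ((fun (x : Fin n → Eˣ) (i : Fin n) => ((ezval σ (x i) : ℤ) : ℚ)) ''
        ((L.map c : Subgroup (Fin n → Eˣ)) : Set (Fin n → Eˣ))) =
        (fun (x : Pt A ℚ) (i : Fin n) => ((ezval σ (c x i) : ℤ) : ℚ)) '' (L : Set (Pt A ℚ)) := by
      rw [Subgroup.coe_map, Set.image_image]
    rw [himg, span_gens f hf (fun (x : Pt A ℚ) (i : Fin n) => ((ezval σ (c x i) : ℤ) : ℚ))]
    intro a
    funext k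
    have h3 : c (∏ i, f i ^ a i) k = ∏ i, (c (f i) k) ^ a i := by
      rw [map_prod, Finset.prod_apply]
      refine Finset.prod_congr rfl fun i _ => ?_
      rw [map_zpow, Pi.pow_apply]
    rw [Finset.sum_apply]
    simp only [h3, ezval_prod, Pi.smul_apply, smul_eq_mul]
    push_cast
    rfl
  -- the two systems of coordinates
  have hVW : ∀ j i, V j i = ∑ k, M i k * W j k := by
    intro j i
    have h4 := ezval_prod σ Finset.univ (fun k => c (f j) k) (M i)
    have h5 : ((Units.map σ.toMonoidHom (∏ k, (c (f j) k) ^ M i k) : ℚ_[p]ˣ) : ℚ_[p]) =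
        chi e (Pi.single i 1) (f j) := by
      rw [h2, map_prod, Units.coe_prod]
      refine Finset.prod_congr rfl fun k _ => ?_
      rw [map_zpow, Units.val_zpow_eq_zpow_val]
      rfl
    have h6 : ezval σ (∏ k, (c (f j) k) ^ M i k) = V j i := by
      unfold ezval
      rw [h5]
    rw [← h6]
    exact h4
  have hWV : ∀ j k, W j k = ∑ i, w k i * V j i := by
    intro j k
    have h4 := val_chi e (f j) (w k)
    have h5 : W j k = (chi e (w k) (f j)).valuation := by
      rw [← h1]
      rfl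
    rw [h5, h4]
  rw [hA, hC, finrank_int_eq V]
  apply le_antisymm
  · apply Pool.Agent.Lib.H22F301.finrank_images_le
      (Matrix.mulVecLin (Matrix.of fun (i : Fin n') (k : Fin n) => (M i k : ℚ)))
    intro j
    funext i
    rw [Matrix.mulVecLin_apply, Matrix.mulVec, dotProduct, hVW]
    push_cast
    rfl
  · apply Pool.Agent.Lib.H22F301.finrank_images_le
      (Matrix.mulVecLin (Matrix.of fun (k : Fin n) (i : Fin n') => (w k i : ℚ)))
    intro j
    funext k
    rw [Matrix.mulVecLin_apply, Matrix.mulVec, dotProduct, hWV]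
    push_cast
    rfl

end Pool.Agent.Lib.H22T
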