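import Pool.Agent.Lib.H22T.Defs3

/-!
# Two systems of coordinates: planes and groups of rank two
-/

namespace Pool.Agent.Lib.H22T

variable {A : Type*} [CommRing A] [HopfAlgebra ℚ A] [Coalgebra.IsCocomm ℚ A] {n n' : ℕ}

private theorem chi_prod {K : Type*} [NormedField K] [Algebra ℚ K] (e : Splitting A K n)
    (x : Pt A ℚ) (z : Fin n → ℤ) : chi e z x = ∏ i, chi e (Pi.single i 1) x ^ z i := by
  set Φ : Multiplicative (Fin n → ℤ) →* Kˣ := MonoidHom.mk'
    (fun z => Units.mk0 (bc (toK A K x) (gl e (Multiplicative.toAdd z))) (bc_gl_ne_zero e _ _))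
    (by
      intro a b
      apply Units.ext
      show bc (toK A K x) (gl e (Multiplicative.toAdd (a * b))) = _
      rw [toAdd_mul, gl_add, map_mul]
      rfl) with hΦ
  have hval : ∀ z : Fin n → ℤ, ((Φ (Multiplicative.ofAdd z) : Kˣ) : K) = chi e z x :=
    fun z => rfl
  have h1 : Multiplicative.ofAdd z =
      ∏ i, (Multiplicative.ofAdd (Pi.single i (1 : ℤ) : Fin n → ℤ)) ^ z i := by
    have h2 : z = ∑ i, z i • (Pi.single i (1 : ℤ) : Fin n → ℤ) := by
      funext j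
      simp [Finset.sum_apply, Pi.single_apply]
    conv_lhs => rw [h2]
    rw [ofAdd_sum]
    rfl
  rw [← hval z, h1, map_prod, Units.coe_prod]
  refine Finset.prod_congr rfl fun j _ => ?_
  rw [map_zpow, Units.val_zpow_eq_zpow_val, hval]

private theorem zpow_sum_aux {G : Type*} [CommGroup G] {ι : Type*} (s : Finset ι) (g : G)
    (f : ι → ℤ) : ∏ i ∈ s, g ^ f i = g ^ (∑ i ∈ s, f i) := by
  classical
  induction s using Finset.induction_on with
  | empty => simp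
  | insert a s ha ih => rw [Finset.prod_insert ha, Finset.sum_insert ha, zpow_add, ih]

private theorem ezval_iff {p : ℕ} [hp : Fact p.Prime] {E : Type*} [Field E] (σ : E →+* ℚ_[p])
    (u : Eˣ) : ezval σ u = 0 ↔ ‖σ (u : E)‖ = 1 := by
  have h0 : σ (u : E) ≠ 0 := (map_ne_zero σ).2 u.ne_zero
  have h1 : ezval σ u = (σ (u : E)).valuation := rfl
  have hpR : (1 : ℝ) < p := by exact_mod_cast hp.out.one_lt
  rw [h1, Padic.norm_eq_zpow_neg_valuation h0, zpow_eq_one_iff_right₀ (by linarith) (ne_of_gt hpR),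
    neg_eq_zero]

/-- (The valuations `ezval σ (c x k)` all vanish if and only if `x ∈ unitPart e L`.) -/
theorem mem_unitPart_iff {p : ℕ} [Fact p.Prime] (e : Splitting A ℚ_[p] n') {E : Type*}
    [Field E] (σ : E →+* ℚ_[p]) (c : Pt A ℚ →* (Fin n → Eˣ)) (M : Fin n' → Fin n → ℤ)
    (w : Fin n → Fin n' → ℤ) (h1 : ∀ (x : Pt A ℚ) (j : Fin n), σ (c x j : E) = chi e (w j) x)
    (h2 : ∀ (x : Pt A ℚ) (i : Fin n'),
      chi e (Pi.single i 1) x = ∏ j, σ (c x j : E) ^ M i j)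
    {L : Subgroup (Pt A ℚ)} {x : Pt A ℚ} (hx : x ∈ L) :
    x ∈ unitPart e L ↔ ∀ k, ezval σ (c x k) = 0 := by
  constructor
  · rintro ⟨-, h⟩ k
    rw [ezval_iff, h1 x k, chi_prod e x (w k), norm_prod]
    refine Finset.prod_eq_one fun i _ => ?_
    rw [norm_zpow, h i, one_zpow]
  · intro h
    refine ⟨hx, fun i => ?_⟩
    rw [h2 x i, norm_prod]
    refine Finset.prod_eq_one fun j _ => ?_
    rw [norm_zpow, (ezval_iff σ _).1 (h j), one_zpow]

theorem unitsInPlane_of_ePlane {p : ℕ} [Fact p.Prime] (e : Splitting A ℚ_[p] n') {E : Type*}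
    [Field E] (σ : E →+* ℚ_[p]) (c : Pt A ℚ →* (Fin n → Eˣ)) (M : Fin n' → Fin n → ℤ)
    (w : Fin n → Fin n' → ℤ) (h1 : ∀ (x : Pt A ℚ) (j : Fin n), σ (c x j : E) = chi e (w j) x)
    (h2 : ∀ (x : Pt A ℚ) (i : Fin n'),
      chi e (Pi.single i 1) x = ∏ j, σ (c x j : E) ^ M i j)
    {L : Subgroup (Pt A ℚ)} (h : EPlane σ (L.map c)) : UnitsInPlane e L := by
  classical
  obtain ⟨i₁, i₂, h⟩ := h
  choose a b d hd hE using h
  refine ⟨w i₁, w i₂, fun i => ⟨∑ j, a j * (M i j * ∏ k ∈ Finset.univ.erase j, d k),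
    ∑ j, b j * (M i j * ∏ k ∈ Finset.univ.erase j, d k), ∏ k, d k,
    Finset.prod_ne_zero_iff.2 fun k _ => hd k, fun x hx => ?_⟩⟩
  have hxL : x ∈ L := hx.1
  have hval := (mem_unitPart_iff e σ c M w h1 h2 hxL).1 hx
  have h01 : σ (c x i₁ : E) ≠ 0 := (map_ne_zero σ).2 (c x i₁).ne_zero
  have h02 : σ (c x i₂ : E) ≠ 0 := (map_ne_zero σ).2 (c x i₂).ne_zero
  have hj : ∀ j, σ (c x j : E) ^ d j = σ (c x i₁ : E) ^ a j * σ (c x i₂ : E) ^ b j := by
    intro j
    have h3 := hE j (c x) (Subgroup.mem_map_of_mem c hxL) hval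
    have h4 := congrArg (fun u : Eˣ => σ (u : E)) h3
    simpa using h4
  rw [h2 x i, ← h1 x i₁, ← h1 x i₂, ← Finset.prod_zpow]
  have h5 : ∀ j, (σ (c x j : E) ^ M i j) ^ (∏ k, d k) =
      σ (c x i₁ : E) ^ (a j * (M i j * ∏ k ∈ Finset.univ.erase j, d k)) *
      σ (c x i₂ : E) ^ (b j * (M i j * ∏ k ∈ Finset.univ.erase j, d k)) := by
    intro j
    rw [← Finset.mul_prod_erase Finset.univ d (Finset.mem_univ j), ← zpow_mul, zpow_mul _ (a j),
      zpow_mul _ (b j), ← mul_zpow, ← hj j, ← zpow_mul]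
    congr 1
    ring
  simp only [h5]
  rw [Finset.prod_mul_distrib]
  congr 1
  · rw [← Units.val_mk0 h01]
    simp only [← Units.val_zpow_eq_zpow_val]
    rw [← Units.coe_prod]
    congr 1
    exact zpow_sum_aux _ _ _
  · rw [← Units.val_mk0 h02]
    simp only [← Units.val_zpow_eq_zpow_val]
    rw [← Units.coe_prod]
    congr 1
    exact zpow_sum_aux _ _ _

end Pool.Agent.Lib.H22T
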