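import Pool.Agent.Lib.H22T.Defs3

/-!
# Compactness and valuations
-/

namespace Pool.Agent.Lib.H22T

variable {A : Type*} [CommRing A] [HopfAlgebra ℚ A] [Coalgebra.IsCocomm ℚ A] {n : ℕ}

private theorem t13_rank_zero {p : ℕ} [Fact p.Prime] (e : Splitting A ℚ_[p] n)
    {L : Subgroup (Pt A ℚ)}
    (h : ∀ x ∈ L, ∀ i, Real.log ‖chi e (Pi.single i 1) x‖ = 0) : logRank e L = 0 := by
  have h1 : Submodule.span ℝ
      ((fun x => Multiplicative.toAdd (logVec e (toK A ℚ_[p] x))) '' (L : Set (Pt A ℚ))) = ⊥ := by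
    rw [Submodule.span_eq_bot]
    rintro _ ⟨x, hx, rfl⟩
    funext i
    exact h x hx i
  rw [logRank, h1, finrank_bot]

/-- (One direction is `isCompact_of_logRank`; for the other, `logVec e` is a continuous homomorphism
and bounded on a compact subgroup, so it vanishes.) -/
theorem compactAt_iff {p : ℕ} [Fact p.Prime] (e : Splitting A ℚ_[p] n) (L : Subgroup (Pt A ℚ)) :
    CompactAt p L ↔ logRank e L = 0 := by
  constructor
  · intro hc
    apply t13_rank_zero
    intro x hx i
    have hcont : Continuous fun y : Pt A ℚ_[p] => Multiplicative.toAdd (logVec e y) i :=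
      (continuous_apply i).comp (continuous_logVec e)
    obtain ⟨C, hC⟩ := hc.exists_bound_of_continuousOn hcont.continuousOn
    have hmem : ∀ k : ℕ, (toK A ℚ_[p] x) ^ k ∈ (closureAt ℚ_[p] L : Set (Pt A ℚ_[p])) := fun k =>
      (closureAt ℚ_[p] L).pow_mem (map_le_closureAt ℚ_[p] L ⟨x, hx, rfl⟩) k
    have hval : ∀ k : ℕ, Multiplicative.toAdd (logVec e ((toK A ℚ_[p] x) ^ k)) i =
        k * Multiplicative.toAdd (logVec e (toK A ℚ_[p] x)) i := by
      intro k
      rw [map_pow, toAdd_pow, Pi.smul_apply, nsmul_eq_mul]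
    have hb : ∀ k : ℕ, (k : ℝ) * |Multiplicative.toAdd (logVec e (toK A ℚ_[p] x)) i| ≤ C := by
      intro k
      have h1 := hC _ (hmem k)
      rw [hval k, Real.norm_eq_abs, abs_mul, Nat.abs_cast] at h1
      exact h1
    show Multiplicative.toAdd (logVec e (toK A ℚ_[p] x)) i = 0
    by_contra hne
    have hpos : 0 < |Multiplicative.toAdd (logVec e (toK A ℚ_[p] x)) i| := abs_pos.2 hne
    obtain ⟨k, hk⟩ := exists_nat_gt (C / |Multiplicative.toAdd (logVec e (toK A ℚ_[p] x)) i|)
    rw [div_lt_iff₀ hpos] at hk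
    exact absurd (hb k) (not_le.2 hk)
  · intro h
    exact isCompact_of_logRank e h

end Pool.Agent.Lib.H22T
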