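import Pool.Agent.Lib.H22T.Defs

/-!
# Characters at a place into which the field of definition of the characters embeds
-/

namespace Pool.Agent.Lib.H22T

open scoped TensorProduct

variable {A : Type*} [CommRing A] [HopfAlgebra ℚ A] [Coalgebra.IsCocomm ℚ A] {n : ℕ}

/-- Functoriality of the group of points in the field. -/
private theorem exists_push (A : Type*) [CommRing A] [HopfAlgebra ℚ A] [Coalgebra.IsCocomm ℚ A]
    {K C : Type*} [Field K] [Algebra ℚ K] [Field C] [Algebra ℚ C] (f : K →+* C) :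
    ∃ P : Pt A K →* Pt A C, ∀ y a, ev (P y) a = f (ev y a) := by
  have hf : ∀ q : ℚ, f (algebraMap ℚ K q) = algebraMap ℚ C q := fun q => by
    have : f.comp (algebraMap ℚ K) = algebraMap ℚ C := Subsingleton.elim _ _
    exact RingHom.congr_fun this q
  let g : Pt A K → Pt A C := fun y => WithConv.toConv
    (({ f with commutes' := hf } : K →ₐ[ℚ] C).comp (ev y))
  have hg : ∀ y a, ev (g y) a = f (ev y a) := fun y a => rfl
  have hg1 : g 1 = 1 := by
    apply ev_ext
    intro a
    rw [hg, ev_one, ev_one, hf]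
  have hgm : ∀ x y, g (x * y) = g x * g y := by
    intro x y
    apply ev_ext
    intro a
    rw [hg, ev_mul_repr _ _ (Coalgebra.Repr.arbitrary ℚ a),
      ev_mul_repr _ _ (Coalgebra.Repr.arbitrary ℚ a), map_sum]
    simp only [map_mul, hg]
  exact ⟨{ toFun := g, map_one' := hg1, map_mul' := hgm }, hg⟩

private theorem isAlgebraic_rat (inst : Algebra ℚ (AlgebraicClosure ℚ)) :
    @Algebra.IsAlgebraic ℚ (AlgebraicClosure ℚ) _ _ inst := by
  have h2 := AlgebraicClosure.isAlgebraic ℚ
  have h3 : inst = AlgebraicClosure.instAlgebra ℚ := Subsingleton.elim _ _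
  rw [h3]
  exact h2

/-- Two points with the same values at the basis characters are equal. -/
private theorem eq_of_chr_eq {Q C : Type*} [Field Q] [Algebra ℚ Q] [Field C] [Algebra ℚ C]
    [Algebra Q C] [IsScalarTower ℚ Q C] (e : Splitting A Q n) (y y' : Pt A C)
    (h : ∀ j : Fin n, val Q y (chr e (Pi.single j 1)) = val Q y' (chr e (Pi.single j 1))) :
    y = y' := by
  let φ : Pt A C → Multiplicative (Fin n → ℤ) →* C := fun y =>
    { toFun := fun z => val Q y (chr e (Multiplicative.toAdd z))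
      map_one' := by
        rw [toAdd_one, chr_zero, map_one]
      map_mul' := fun z w => by
        rw [toAdd_mul, chr_add, map_mul] }
  have hz : ∀ z : Multiplicative (Fin n → ℤ), z = ∏ j,
      (Multiplicative.ofAdd (Pi.single j (1 : ℤ) : Fin n → ℤ)) ^ (Multiplicative.toAdd z j) := by
    intro z
    have h2 : Multiplicative.toAdd z =
        ∑ i, (Multiplicative.toAdd z i) • (Pi.single i (1 : ℤ) : Fin n → ℤ) := by
      funext j
      simp [Finset.sum_apply, Pi.single_apply]
    have h1 : z = Multiplicative.ofAdd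
        (∑ i, (Multiplicative.toAdd z i) • (Pi.single i (1 : ℤ) : Fin n → ℤ)) := by
      rw [← h2]; rfl
    conv_lhs => rw [h1]
    rw [ofAdd_sum]
    rfl
  have hφ : (φ y).toHomUnits = (φ y').toHomUnits := by
    refine DFunLike.ext _ _ fun z => ?_
    rw [hz z, map_prod, map_prod]
    refine Finset.prod_congr rfl fun j _ => ?_
    rw [map_zpow, map_zpow]
    congr 1
    apply Units.ext
    exact h j
  have hφ' : ∀ z : Multiplicative (Fin n → ℤ),
      val Q y (chr e (Multiplicative.toAdd z)) = val Q y' (chr e (Multiplicative.toAdd z)) := by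
    intro z
    exact congrArg Units.val (DFunLike.congr_fun hφ z)
  apply ev_ext
  intro a
  have h3 : ∀ t : Q ⊗[ℚ] A, val Q y t = val Q y' t := by
    intro t
    rw [eq_sum_chr e t, Finsupp.sum, map_sum, map_sum]
    refine Finset.sum_congr rfl fun z _ => ?_
    rw [map_smul, map_smul, hφ' z]
  have h4 := h3 (1 ⊗ₜ[ℚ] a)
  rwa [val_tmul, val_tmul, map_one, one_mul, one_mul] at h4

private theorem exists_theta_aux (e₀ : Splitting A (AlgebraicClosure ℚ) n)
    (F : IntermediateField ℚ (AlgebraicClosure ℚ)) (S : Fin n → Finset (AlgebraicClosure ℚ × A))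
    (hS : ∀ j, chr e₀ (Pi.single j 1) = ∑ i ∈ S j, i.1 ⊗ₜ[ℚ] i.2)
    (hmem : ∀ (j : Fin n) (p : AlgebraicClosure ℚ × A), p ∈ S j → p.1 ∈ F)
    {K C : Type*} [NormedField K] [Algebra ℚ K] [Field C] [Algebra ℚ C]
    (τ : F →+* K) (f : K →+* C) (ι : AlgebraicClosure ℚ →+* C)
    (hι : ∀ c : F, ι (c : AlgebraicClosure ℚ) = f (τ c)) :
    ∃ Θ : Pt A K →* (Fin n → Kˣ), Function.Injective Θ ∧ ∀ y j, ((Θ y j : Kˣ) : K) =
      ∑ p ∈ (S j).attach, τ ⟨p.1.1, hmem j p.1 p.2⟩ * ev y p.1.2 := by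
  let θ : Fin n → Pt A K → K := fun j y =>
    ∑ p ∈ (S j).attach, τ ⟨p.1.1, hmem j p.1 p.2⟩ * ev y p.1.2
  let _ : Algebra (AlgebraicClosure ℚ) C := ι.toAlgebra
  have _ : IsScalarTower ℚ (AlgebraicClosure ℚ) C := by
    apply IsScalarTower.of_algebraMap_eq'
    exact Subsingleton.elim _ _
  obtain ⟨P, hP⟩ := exists_push A f
  have hθ : ∀ (j : Fin n) (y : Pt A K), f (θ j y) =
      val (AlgebraicClosure ℚ) (P y) (chr e₀ (Pi.single j 1)) := by
    intro j y
    have h1 := Finset.sum_attach (S j)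
      (fun p => val (AlgebraicClosure ℚ) (P y) (p.1 ⊗ₜ[ℚ] p.2))
    rw [hS j, map_sum (val (AlgebraicClosure ℚ) (P y)), ← h1]
    show f (∑ p ∈ (S j).attach, τ ⟨p.1.1, hmem j p.1 p.2⟩ * ev y p.1.2) = _
    rw [map_sum]
    refine Finset.sum_congr rfl fun p _ => ?_
    rw [val_tmul, map_mul, hP]
    congr 1
    exact (hι ⟨p.1.1, hmem j p.1 p.2⟩).symm
  have hinjK : Function.Injective f := f.injective
  have hmul : ∀ (j : Fin n) (y y' : Pt A K), θ j (y * y') = θ j y * θ j y' := by
    intro j y y'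
    apply hinjK
    rw [map_mul, hθ, hθ, hθ, map_mul, val_mul _ _ _ (chr_groupLike _ _)]
  have hone : ∀ j : Fin n, θ j 1 = 1 := by
    intro j
    apply hinjK
    rw [hθ, map_one, map_one]
    have h1 : val (AlgebraicClosure ℚ) (1 : Pt A C) (chr e₀ (Pi.single j 1)) =
        val (AlgebraicClosure ℚ) (1 : Pt A C) (chr e₀ (Pi.single j 1)) *
        val (AlgebraicClosure ℚ) (1 : Pt A C) (chr e₀ (Pi.single j 1)) := by
      rw [← val_mul _ _ _ (chr_groupLike _ _), mul_one]
    have h2 : val (AlgebraicClosure ℚ) (1 : Pt A C) (chr e₀ (Pi.single j 1)) ≠ 0 := by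
      intro h0
      have h3 : val (AlgebraicClosure ℚ) (1 : Pt A C)
          (chr e₀ (Pi.single j 1) * chr e₀ (-(Pi.single j 1))) = 1 := by
        rw [← chr_add, add_neg_cancel, chr_zero, map_one]
      rw [map_mul, h0, zero_mul] at h3
      exact zero_ne_one h3
    exact (mul_left_cancel₀ h2 (by rw [mul_one]; exact h1)).symm
  let Θ' : Fin n → Pt A K →* Kˣ := fun j =>
    MonoidHom.toHomUnits { toFun := θ j, map_one' := hone j, map_mul' := hmul j }
  have hΘ' : ∀ j y, ((Θ' j y : Kˣ) : K) = θ j y := fun j y => rfl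
  refine ⟨MonoidHom.pi Θ', ?_, fun y j => rfl⟩
  intro y y' hyy
  have h1 : P y = P y' := by
    apply eq_of_chr_eq e₀
    intro j
    rw [← hθ, ← hθ]
    congr 1
    rw [← hΘ', ← hΘ']
    exact congrArg Units.val (congrFun hyy j)
  apply ev_ext
  intro a
  apply hinjK
  rw [← hP, ← hP, h1]

/-- An embedding of a subfield of `Q̄` extends to `Q̄`. -/
private theorem exists_ext (F : IntermediateField ℚ (AlgebraicClosure ℚ)) {C : Type*} [Field C]
    [IsAlgClosed C] (σ : F →+* C) :
    ∃ ι : AlgebraicClosure ℚ →+* C, ∀ c : F, ι (c : AlgebraicClosure ℚ) = σ c := by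
  let _ : Algebra F C := σ.toAlgebra
  have _ := isAlgebraic_rat inferInstance
  have _ : Algebra.IsAlgebraic F (AlgebraicClosure ℚ) := Algebra.IsAlgebraic.tower_top (K := ℚ) F
  refine ⟨(IsAlgClosed.lift (R := F) (S := AlgebraicClosure ℚ) (M := C)).toRingHom, fun c => ?_⟩
  exact (IsAlgClosed.lift (R := F) (S := AlgebraicClosure ℚ) (M := C)).commutes c

theorem exists_theta_of_embedding (e₀ : Splitting A (AlgebraicClosure ℚ) n) :
    ∃ F : IntermediateField ℚ (AlgebraicClosure ℚ), FiniteDimensional ℚ F ∧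
      (∀ (x : Pt A ℚ) (j : Fin n), cval e₀ x j ∈ F) ∧
      ∀ (K : Type) [NormedField K] [Algebra ℚ K] (τ : F →+* K),
        ∃ Θ : Pt A K →* (Fin n → Kˣ), (Continuous fun y (j : Fin n) => ((Θ y j : Kˣ) : K)) ∧
          Function.Injective Θ ∧
          ∀ (x : Pt A ℚ) (j : Fin n) (hx : cval e₀ x j ∈ F),
            ((Θ (toK A K x) j : Kˣ) : K) = τ ⟨cval e₀ x j, hx⟩ := by
  classical
  choose S hS using fun j : Fin n =>
    TensorProduct.exists_finset (chr e₀ (Pi.single j 1))
  set G₀ : Finset (AlgebraicClosure ℚ) := (Finset.univ : Finset (Fin n)).biUnion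
    fun j => (S j).image Prod.fst with hG₀
  set G : Set (AlgebraicClosure ℚ) := (G₀ : Set (AlgebraicClosure ℚ)) with hG
  set F : IntermediateField ℚ (AlgebraicClosure ℚ) := IntermediateField.adjoin ℚ G with hF
  have hmem : ∀ (j : Fin n) (p : AlgebraicClosure ℚ × A), p ∈ S j → p.1 ∈ F := by
    intro j p hp
    apply IntermediateField.subset_adjoin
    rw [hG, hG₀]
    simp only [Finset.coe_biUnion, Finset.coe_univ, Set.mem_univ, Set.iUnion_true,
      Finset.coe_image, Set.mem_iUnion]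
    exact ⟨j, p, hp, rfl⟩
  have _ := isAlgebraic_rat inferInstance
  have hfin : FiniteDimensional ℚ F := by
    have _ : Finite G := by rw [hG]; exact Finset.finite_toSet _
    exact IntermediateField.finiteDimensional_adjoin fun x _ =>
      (Algebra.IsAlgebraic.isAlgebraic x).isIntegral
  have hcval : ∀ (x : Pt A ℚ) (j : Fin n), cval e₀ x j =
      ((∑ p ∈ (S j).attach, (⟨p.1.1, hmem j p.1 p.2⟩ : F) * algebraMap ℚ F (ev x p.1.2) : F) :
        AlgebraicClosure ℚ) := by
    intro x j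
    unfold cval
    rw [hS j, map_sum, ← Finset.sum_attach, ← IntermediateField.coe_val, map_sum]
    refine Finset.sum_congr rfl fun p _ => ?_
    rw [val_tmul, map_mul, ev_toK]
    rfl
  refine ⟨F, hfin, fun x j => ?_, ?_⟩
  · rw [hcval]; exact SetLike.coe_mem _
  intro K _ _ τ
  obtain ⟨ι, hι⟩ := exists_ext F ((algebraMap K (AlgebraicClosure K)).comp τ)
  obtain ⟨Θ, hΘ, hv⟩ := exists_theta_aux e₀ F S hS hmem τ (algebraMap K (AlgebraicClosure K)) ι hι
  refine ⟨Θ, ?_, hΘ, ?_⟩
  · apply continuous_pi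
    intro j
    simp only [hv]
    exact continuous_finsetSum _ fun p _ => continuous_const.mul (continuous_ev _)
  · intro x j hx
    have h1 : (⟨cval e₀ x j, hx⟩ : F) =
        ∑ p ∈ (S j).attach, (⟨p.1.1, hmem j p.1 p.2⟩ : F) * algebraMap ℚ F (ev x p.1.2) :=
      Subtype.ext (hcval x j)
    rw [h1, map_sum, hv]
    refine Finset.sum_congr rfl fun p _ => ?_
    rw [map_mul, ev_toK]
    congr 1
    have h2 : τ.comp (algebraMap ℚ F) = algebraMap ℚ K := Subsingleton.elim _ _
    exact (RingHom.congr_fun h2 _).symm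

end Pool.Agent.Lib.H22T
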