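import Pool.Agent.Lib.H22T.Defs

/-!
# Characters at a place at which the torus is split
-/

namespace Pool.Agent.Lib.H22T

open scoped TensorProduct

variable {A : Type*} [CommRing A] [HopfAlgebra ℚ A] [Coalgebra.IsCocomm ℚ A] {n n' : ℕ}

section Aux

variable {F : Type*} {C : Type*} [Field F] [Algebra ℚ F] [Field C] [Algebra ℚ C] [Algebra F C]
  [IsScalarTower ℚ F C]

private theorem val_chr_ne_zero (e : Splitting A F n) (y : Pt A C) (z : Fin n → ℤ) :
    val F y (chr e z) ≠ 0 := by
  intro h
  have h1 : val F y (chr e z) * val F y (chr e (-z)) = 1 := by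
    rw [← map_mul, ← chr_add, add_neg_cancel, chr_zero, map_one]
  rw [h, zero_mul] at h1
  exact zero_ne_one h1

/-- The character as a homomorphism to the multiplicative monoid of `C`. -/
private noncomputable def chi (e : Splitting A F n) (z : Fin n → ℤ) : Pt A C →* C where
  toFun y := val F y (chr e z)
  map_one' := by
    have h1 : val F (1 : Pt A C) (chr e z) * val F (1 : Pt A C) (chr e z) =
        val F (1 : Pt A C) (chr e z) := by
      rw [← val_mul F 1 1 (chr_groupLike e z), mul_one]
    exact mul_right_cancel₀ (val_chr_ne_zero e 1 z) (by rw [h1, one_mul])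
  map_mul' x y := val_mul F x y (chr_groupLike e z)

private theorem chi_apply (e : Splitting A F n) (z : Fin n → ℤ) (y : Pt A C) :
    chi (C := C) e z y = val F y (chr e z) := rfl

private theorem val_mem_span (e : Splitting A F n) (t : F ⊗[ℚ] A) :
    (fun y : Pt A C => val F y t) ∈ Submodule.span C
      (Set.range fun z : Fin n → ℤ => (chi (C := C) e z : Pt A C → C)) := by
  have h1 : (fun y : Pt A C => val F y t) = ∑ z ∈ (e t).coeff.support,
      (algebraMap F C ((e t).coeff z)) • (chi (C := C) e (Multiplicative.toAdd z) : Pt A C → C) := by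
    funext y
    conv_lhs => rw [eq_sum_chr e t]
    rw [Finsupp.sum, map_sum, Finset.sum_apply]
    refine Finset.sum_congr rfl fun z _ => ?_
    rw [map_smul, Pi.smul_apply, chi_apply, Algebra.smul_def, smul_eq_mul]
  rw [h1]
  exact Submodule.sum_mem _ fun z _ => Submodule.smul_mem _ _ (Submodule.subset_span ⟨_, rfl⟩)

private theorem ev_mem_span (e : Splitting A F n) (a : A) :
    (fun y : Pt A C => ev y a) ∈ Submodule.span C
      (Set.range fun z : Fin n → ℤ => (chi (C := C) e z : Pt A C → C)) := by
  have h1 : (fun y : Pt A C => ev y a) = fun y : Pt A C => val F y ((1 : F) ⊗ₜ[ℚ] a) := by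
    funext y
    rw [val_tmul, map_one, one_mul]
  rw [h1]
  exact val_mem_span e _

private theorem val_mem_of_ev_mem (S : Submodule C (Pt A C → C))
    (hS : ∀ a : A, (fun y : Pt A C => ev y a) ∈ S) (t : F ⊗[ℚ] A) :
    (fun y : Pt A C => val F y t) ∈ S := by
  induction t with
  | zero =>
    have h1 : (fun y : Pt A C => val F y (0 : F ⊗[ℚ] A)) = 0 := by
      funext y
      rw [map_zero, Pi.zero_apply]
    rw [h1]
    exact S.zero_mem
  | tmul c a =>
    have h1 : (fun y : Pt A C => val F y (c ⊗ₜ[ℚ] a)) =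
        algebraMap F C c • (fun y : Pt A C => ev y a) := by
      funext y
      rw [val_tmul, Pi.smul_apply, smul_eq_mul]
    rw [h1]
    exact S.smul_mem _ (hS a)
  | add s t hs ht =>
    have h1 : (fun y : Pt A C => val F y (s + t)) =
        (fun y : Pt A C => val F y s) + fun y : Pt A C => val F y t := by
      funext y
      rw [map_add, Pi.add_apply]
    rw [h1]
    exact S.add_mem hs ht

private theorem val_chr_prod (e : Splitting A F n) (y : Pt A C) (z : Fin n → ℤ) :
    val F y (chr e z) = ∏ j, (val F y (chr e (Pi.single j 1))) ^ z j := by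
  set Φ : Multiplicative (Fin n → ℤ) →* Cˣ := MonoidHom.mk'
    (fun z => Units.mk0 (val F y (chr e (Multiplicative.toAdd z))) (val_chr_ne_zero e y _))
    (by
      intro a b
      apply Units.ext
      show val F y (chr e (Multiplicative.toAdd (a * b))) = _
      rw [toAdd_mul, chr_add, map_mul]
      rfl) with hΦ
  have hval : ∀ z : Fin n → ℤ, ((Φ (Multiplicative.ofAdd z) : Cˣ) : C) = val F y (chr e z) :=
    fun z => rfl
  have h1 : Multiplicative.ofAdd z =
      ∏ i, (Multiplicative.ofAdd (Pi.single i (1 : ℤ) : Fin n → ℤ)) ^ z i := by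
    have h2 : z = ∑ i, z i • (Pi.single i (1 : ℤ) : Fin n → ℤ) := by
      funext j
      simp [Finset.sum_apply, Pi.single_apply]
    conv_lhs => rw [h2]
    rw [ofAdd_sum]
    rfl
  rw [← hval z, h1, map_prod, Units.coe_prod]
  refine Finset.prod_congr rfl fun j _ => ?_
  rw [map_zpow, Units.val_zpow_eq_zpow_val, hval]

end Aux

private theorem exists_chr_eq {F F' : Type*} {C : Type*} [Field F] [Algebra ℚ F] [Field F']
    [Algebra ℚ F'] [Field C] [Algebra ℚ C] [Algebra F C] [IsScalarTower ℚ F C] [Algebra F' C]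
    [IsScalarTower ℚ F' C] (e : Splitting A F n) (e' : Splitting A F' n') (z : Fin n → ℤ) :
    ∃ w : Fin n' → ℤ, ∀ y : Pt A C, val F y (chr e z) = val F' y (chr e' w) := by
  have hLI := linearIndependent_monoidHom (Pt A C) C
  by_contra hcon
  have h1 : chi (C := C) e z ∉ Set.range fun w : Fin n' → ℤ => chi (C := C) e' w := by
    rintro ⟨w, hw⟩
    refine hcon ⟨w, fun y => ?_⟩
    have := DFunLike.congr_fun hw y
    exact this.symm
  have h2 := hLI.notMem_span_image h1
  apply h2
  have h3 : (fun f : Pt A C →* C => (f : Pt A C → C)) ''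
      (Set.range fun w : Fin n' → ℤ => chi (C := C) e' w) =
      Set.range fun w : Fin n' → ℤ => (chi (C := C) e' w : Pt A C → C) := by
    rw [← Set.range_comp]
    rfl
  rw [h3]
  exact val_mem_of_ev_mem (F := F) _ (fun a => ev_mem_span e' a) (chr e z)

section Base

variable {K C : Type*} [Field K] [Algebra ℚ K] [Field C] [Algebra ℚ C] [Algebra K C]
  [IsScalarTower ℚ K C]

/-- The point of `T(C)` which is given by a point of `T(K)`. -/
private noncomputable def up (C : Type*) [Field C] [Algebra ℚ C] [Algebra K C] [IsScalarTower ℚ K C]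
    (y : Pt A K) : Pt A C :=
  WithConv.toConv (((Algebra.ofId K C).restrictScalars ℚ).comp (ev y))

private theorem ev_up (y : Pt A K) (a : A) : ev (up C y) a = algebraMap K C (ev y a) := rfl

private theorem up_toK (x : Pt A ℚ) : up C (toK A K x) = toK A C x := by
  apply ev_ext
  intro a
  rw [ev_up, ev_toK, ev_toK, ← IsScalarTower.algebraMap_apply]

private theorem val_up' (y : Pt A K) (t : K ⊗[ℚ] A) :
    val K (up C y) t = algebraMap K C (val K y t) := by
  induction t with
  | zero => simp
  | tmul c a => rw [val_tmul, val_tmul, ev_up, map_mul, Algebra.algebraMap_self_apply]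
  | add s t hs ht => rw [map_add, map_add, hs, ht, map_add]

end Base

private theorem val_up {K C : Type*} [NormedField K] [Algebra ℚ K] [Field C] [Algebra ℚ C]
    [Algebra K C] [IsScalarTower ℚ K C] (y : Pt A K) (t : K ⊗[ℚ] A) :
    val K (up C y) t = algebraMap K C (bc y t) := by
  induction t with
  | zero => simp
  | tmul c a => rw [val_tmul, bc_tmul, ev_up, map_mul]
  | add s t hs ht => rw [map_add, map_add, hs, ht, map_add]

private theorem isAlgebraic_rat :
    @Algebra.IsAlgebraic ℚ (AlgebraicClosure ℚ) _ _ DivisionRing.toRatAlgebra := by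
  have h : @Algebra.IsAlgebraic ℚ (AlgebraicClosure ℚ) _ _ (AlgebraicClosure.instAlgebra ℚ) :=
    AlgebraicClosure.isAlgebraic ℚ
  have e : (DivisionRing.toRatAlgebra : Algebra ℚ (AlgebraicClosure ℚ)) =
      AlgebraicClosure.instAlgebra ℚ := Subsingleton.elim _ _
  rw [e]
  exact h

theorem exists_theta_of_splitting (e₀ : Splitting A (AlgebraicClosure ℚ) n) (K : Type)
    [NormedField K] [Algebra ℚ K] (e : Splitting A K n')
    (E : IntermediateField ℚ (AlgebraicClosure ℚ))
    (hE : E = IntermediateField.adjoin ℚ {a | ∃ (x : Pt A ℚ) (j : Fin n), a = cval e₀ x j}) :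
    ∃ (σ : E →+* K) (Θ : Pt A K →* (Fin n → Kˣ)) (M : Fin n' → Fin n → ℤ) (w : Fin n → Fin n' → ℤ),
      (Continuous fun y (j : Fin n) => ((Θ y j : Kˣ) : K)) ∧
      (∀ (x : Pt A ℚ) (j : Fin n) (hx : cval e₀ x j ∈ E),
        ((Θ (toK A K x) j : Kˣ) : K) = σ ⟨cval e₀ x j, hx⟩) ∧
      (∀ (y : Pt A K) (j : Fin n), ((Θ y j : Kˣ) : K) = bc y (gl e (w j))) ∧
      ∀ (y : Pt A K) (i : Fin n'), bc y (gl e (Pi.single i 1)) = ∏ j, ((Θ y j : Kˣ) : K) ^ M i j := by
  classical
  let C := AlgebraicClosure K
  have halg := isAlgebraic_rat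
  let ι : AlgebraicClosure ℚ →ₐ[ℚ] C := IsAlgClosed.lift
  let hAlg : Algebra (AlgebraicClosure ℚ) C := ι.toRingHom.toAlgebra
  have htower : @IsScalarTower ℚ (AlgebraicClosure ℚ) C Algebra.toSMul Algebra.toSMul
      Algebra.toSMul := IsScalarTower.of_algebraMap_eq fun q => (ι.commutes q).symm
  have hι : ∀ a, algebraMap (AlgebraicClosure ℚ) C a = ι a := fun a => rfl
  choose w hw using fun j : Fin n => exists_chr_eq (C := C) e₀ e (Pi.single j 1)
  choose M hM using fun i : Fin n' => exists_chr_eq (C := C) e e₀ (Pi.single i 1)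
  have hinj : Function.Injective (algebraMap K C) := (algebraMap K C).injective
  set Θ : Pt A K →* (Fin n → Kˣ) := MonoidHom.mk'
    (fun y j => Units.mk0 (bc y (gl e (w j))) (bc_gl_ne_zero e y (w j)))
    (by
      intro x y
      funext j
      apply Units.ext
      show bc (x * y) (gl e (w j)) = _
      rw [bc_mul _ _ (gl_groupLike _ _)]
      rfl) with hΘ
  have hΘv : ∀ (y : Pt A K) (j : Fin n), ((Θ y j : Kˣ) : K) = bc y (gl e (w j)) := fun y j => rfl
  -- the values at rational points
  have key : ∀ (x : Pt A ℚ) (j : Fin n),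
      ι (cval e₀ x j) = algebraMap K C (bc (toK A K x) (gl e (w j))) := by
    intro x j
    have h1 := hw j (toK A C x)
    rw [← hι]
    have h2 : algebraMap (AlgebraicClosure ℚ) C (cval e₀ x j) =
        val (AlgebraicClosure ℚ) (toK A C x) (chr e₀ (Pi.single j 1)) := by
      rw [← up_toK (K := AlgebraicClosure ℚ) (C := C) x, val_up']
      rfl
    rw [h2, h1, ← up_toK (K := K) (C := C) x, val_up]
    rfl
  have hE1 : ∀ a ∈ E, ∃ b : K, algebraMap K C b = ι a := by
    have hle : E ≤ (((Algebra.ofId K C).restrictScalars ℚ).fieldRange).comap ι := by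
      rw [hE, IntermediateField.adjoin_le_iff]
      rintro _ ⟨x, j, rfl⟩
      exact ⟨bc (toK A K x) (gl e (w j)), (key x j).symm⟩
    intro a ha
    obtain ⟨b, hb⟩ := hle ha
    exact ⟨b, hb⟩
  choose s hs using fun a : E => hE1 a a.2
  let σ : E →+* K :=
    { toFun := s
      map_one' := hinj (by rw [hs, map_one]; exact map_one ι)
      map_zero' := hinj (by rw [hs, map_zero]; exact map_zero ι)
      map_mul' := fun a b => hinj (by rw [map_mul, hs, hs, hs]; exact map_mul ι _ _)
      map_add' := fun a b => hinj (by rw [map_add, hs, hs, hs]; exact map_add ι _ _) }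
  refine ⟨σ, Θ, M, w, ?_, ?_, hΘv, ?_⟩
  · refine continuous_pi fun j => ?_
    exact continuous_bc (gl e (w j))
  · intro x j hx
    apply hinj
    rw [hΘv, ← key]
    exact (hs ⟨cval e₀ x j, hx⟩).symm
  · intro y i
    apply hinj
    have h1 := hM i (up C y)
    rw [val_up] at h1
    have h2 : gl e (Pi.single i 1) = chr e (Pi.single i 1) := rfl
    rw [h2, h1, val_chr_prod, map_prod]
    refine Finset.prod_congr rfl fun j _ => ?_
    rw [map_zpow₀, hΘv, hw j, val_up]
    rfl

end Pool.Agent.Lib.H22T
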