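import Pool.Agent.Lib.H22T.Defs3
import Pool.Agent.Lib.H22T.T4
import Pool.Agent.Lib.H22T.T5

/-!
# Ranks of groups of vectors with coordinates in a number field
-/

namespace Pool.Agent.Lib.H22T

open Pool.Agent.Lib.H22F301 (coord pairHom valHom logAbs exists_basis exists_minor int_row int_col
  norm_eq_one_of_valuation)

section Vectors

variable {E K 𝕜 : Type*} [Field E] [Field K] [Field 𝕜] {n : ℕ}

/-- The vector of the values of `f` at the coordinates. -/
noncomputable def elv (σ : E →+* K) (f : Kˣ →* Multiplicative 𝕜) (x : Fin n → Eˣ) : Fin n → 𝕜 :=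
  fun i => ehv σ f (x i)

theorem elv_prod (σ : E →+* K) (f : Kˣ →* Multiplicative 𝕜) {ι : Type*} (s : Finset ι)
    (x : ι → Fin n → Eˣ) (c : ι → ℤ) :
    elv σ f (∏ k ∈ s, x k ^ c k) = ∑ k ∈ s, (c k : 𝕜) • elv σ f (x k) := by
  funext i
  rw [Finset.sum_apply]
  simp only [elv, Finset.prod_apply, Pi.pow_apply, Pi.smul_apply, smul_eq_mul]
  exact ehv_prod σ f s (fun k => x k i) c

theorem finrank_elv_le (σ : E →+* K) (f : Kˣ →* Multiplicative 𝕜) {L : Subgroup (Fin n → Eˣ)}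
    {m : ℕ} {g : Fin m → Fin n → Eˣ}
    (hg : ∀ x, x ∈ L ↔ ∃ c : Fin m → ℤ, x = ∏ j, g j ^ c j) :
    Module.finrank 𝕜 (Submodule.span 𝕜 (elv σ f '' (L : Set (Fin n → Eˣ)))) ≤
    Module.finrank 𝕜 (Submodule.span 𝕜 (Set.range fun j => elv σ f (g j))) := by
  apply Submodule.finrank_mono
  rw [Submodule.span_le]
  rintro _ ⟨x, hx, rfl⟩
  obtain ⟨c, rfl⟩ := (hg x).1 hx
  rw [elv_prod]
  exact Submodule.sum_mem _ fun j _ => Submodule.smul_mem _ _ (Submodule.subset_span ⟨j, rfl⟩)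

end Vectors

theorem gen_mem {G : Type*} [CommGroup G] {L : Subgroup G} {m : ℕ} {f : Fin m → G}
    (hf : ∀ x, x ∈ L ↔ ∃ c : Fin m → ℤ, x = ∏ j, f j ^ c j) (j : Fin m) : f j ∈ L := by
  rw [hf]
  refine ⟨Pi.single j 1, ?_⟩
  rw [Finset.prod_eq_single j]
  · simp
  · intro k _ hk
    simp [hk]
  · simp

/-! ## The real place -/

section Real

variable {n : ℕ} {E : Type*} [Field E] [NumberField E]

theorem sq_of_elog (σ : E →+* ℝ) {u : Eˣ} (h : ehv σ logAbs u = 0) : u ^ 2 = 1 := by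
  have h0 : Real.log |σ (u : E)| = 0 := h
  have h1 : |σ (u : E)| = 1 := by
    have hpos : 0 < |σ (u : E)| := abs_pos.2 ((map_ne_zero σ).2 u.ne_zero)
    rcases Real.log_eq_zero.1 h0 with h2 | h2 | h2
    · exact absurd h2 hpos.ne'
    · exact h2
    · linarith
  have h2 : σ ((u : E) ^ 2) = 1 := by rw [map_pow, ← sq_abs, h1, one_pow]
  apply Units.ext
  rw [Units.val_pow_eq_pow_val, Units.val_one]
  exact σ.injective (by rw [h2, map_one])

/-- If the `q`-adic logarithms span a space of dimension at least `3`, then the real logarithms span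
a space of dimension at least `2`. -/
theorem two_le_real_nf (σ : E →+* ℝ) {L : Subgroup (Fin n → Eˣ)} {m : ℕ} (hL : FreeOfRank L m)
    {q : ℕ} [Fact q.Prime] (τ : E →+* ℚ_[q]) (lg : ℚ_[q]ˣ →* Multiplicative ℚ_[q])
    (h3 : 3 ≤ Module.finrank ℚ_[q]
      (Submodule.span ℚ_[q] (elv τ lg '' (L : Set (Fin n → Eˣ))))) :
    2 ≤ Module.finrank ℝ (Submodule.span ℝ (elv σ logAbs '' (L : Set (Fin n → Eˣ)))) := by
  by_contra hcon
  push Not at hcon
  obtain ⟨f, hf, -⟩ := exists_basis hL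
  have hfL : ∀ j, f j ∈ L := gen_mem hf
  obtain ⟨a, b, hdet⟩ := exists_minor (fun j => elv τ lg (f j)) (h3.trans (finrank_elv_le τ lg hf))
  set W : Matrix (Fin 3) (Fin 3) ℚ_[q] := Matrix.of fun k l => ehv τ lg (f (a k) (b l)) with hW
  have hW0 : W.det ≠ 0 := hdet
  set V : Submodule ℝ (Fin n → ℝ) := Submodule.span ℝ
    (elv σ logAbs '' (L : Set (Fin n → Eˣ))) with hV
  have h4 : Module.finrank ℝ V ≤ 1 := by omega
  obtain ⟨v0, hv0⟩ := finrank_le_one_iff.1 h4
  have h5 : ∀ k : Fin 3, ∃ c : ℝ, ∀ i, ehv σ logAbs (f (a k) i) = c * (v0 : Fin n → ℝ) i := by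
    intro k
    obtain ⟨c, hc⟩ := hv0 ⟨elv σ logAbs (f (a k)), Submodule.subset_span ⟨f (a k), hfL _, rfl⟩⟩
    refine ⟨c, fun i => ?_⟩
    have h6 := congrFun (congrArg Subtype.val hc) i
    exact h6.symm
  choose c hc using h5
  have hlog : ∀ (k l : Fin 3), Real.log |σ (f (a k) (b l) : E)| =
      c k * (v0 : Fin n → ℝ) (b l) := fun k l => hc k (b l)
  refine six_log_nf σ (fun l k => f (a (Fin.castLE (by norm_num) l)) (b k))
    (fun l => c (Fin.castLE (by norm_num) l)) (fun k => (v0 : Fin n → ℝ) (b k))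
    (fun l k => hlog _ _) ?_ ?_
  · intro e he
    have h6 : (![e 0, e 1, 0] : Fin 3 → ℤ) = 0 := by
      apply int_row hW0
      intro l
      have h7 : ehv σ logAbs (∏ k, (f (a k) (b l)) ^ ((![e 0, e 1, 0] : Fin 3 → ℤ) k)) = 0 := by
        rw [ehv_prod]
        simp only [hc]
        rw [Fin.sum_univ_two] at he
        rw [Fin.sum_univ_three]
        simp only [Matrix.cons_val_zero, Matrix.cons_val_one, Matrix.cons_val, Int.cast_zero]
        have e0 : (Fin.castLE (by norm_num) (0 : Fin 2) : Fin 3) = 0 := rfl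
        have e1 : (Fin.castLE (by norm_num) (1 : Fin 2) : Fin 3) = 1 := rfl
        rw [e0, e1] at he
        linear_combination (v0 : Fin n → ℝ) (b l) * he
      have h8 := ehv_torsion τ lg (by norm_num : 0 < 2) (sq_of_elog σ h7)
      rw [ehv_prod] at h8
      exact h8
    funext l
    fin_cases l
    · have := congrFun h6 0
      simpa using this
    · have := congrFun h6 1
      simpa using this
  · intro e he
    apply int_col hW0
    intro k
    have h7 : ehv σ logAbs (∏ l, (f (a k) (b l)) ^ (e l)) = 0 := by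
      rw [ehv_prod]
      simp only [hc]
      have : ∑ l, (e l : ℝ) * (c k * (v0 : Fin n → ℝ) (b l)) =
          c k * ∑ l, (e l : ℝ) * (v0 : Fin n → ℝ) (b l) := by
        rw [Finset.mul_sum]
        exact Finset.sum_congr rfl fun l _ => by ring
      rw [this, he, mul_zero]
    have h8 := ehv_torsion τ lg (by norm_num : 0 < 2) (sq_of_elog σ h7)
    rw [ehv_prod] at h8
    exact h8

/-- The logarithms of the absolute values do not all vanish. -/
theorem one_le_real_nf (σ : E →+* ℝ) {L : Subgroup (Fin n → Eˣ)} {m : ℕ} (hL : FreeOfRank L m)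
    (hm : 1 ≤ m) :
    1 ≤ Module.finrank ℝ (Submodule.span ℝ (elv σ logAbs '' (L : Set (Fin n → Eˣ)))) := by
  obtain ⟨f, hf, hf1⟩ := exists_basis hL
  by_contra hcon
  have h0 : Module.finrank ℝ
    (Submodule.span ℝ (elv σ logAbs '' (L : Set (Fin n → Eˣ)))) = 0 := by omega
  have hfL : f ⟨0, hm⟩ ∈ L := gen_mem hf _
  have h1 : Submodule.span ℝ (elv σ logAbs '' (L : Set (Fin n → Eˣ))) = ⊥ :=
    Submodule.finrank_eq_zero.1 h0
  have h2 : elv σ logAbs (f ⟨0, hm⟩) = 0 := by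
    have := Submodule.subset_span (R := ℝ) (s := (elv σ logAbs '' (L : Set (Fin n → Eˣ))))
      ⟨f ⟨0, hm⟩, hfL, rfl⟩
    rw [h1] at this
    exact this
  have h3 : ∏ j, f j ^ (Pi.single (⟨0, hm⟩ : Fin m) (2 : ℤ) : Fin m → ℤ) j = 1 := by
    rw [Finset.prod_eq_single ⟨0, hm⟩]
    · rw [Pi.single_eq_same]
      funext i
      have h4 : (f ⟨0, hm⟩ i) ^ 2 = 1 := sq_of_elog σ (congrFun h2 i)
      rw [Pi.pow_apply, Pi.one_apply]
      exact_mod_cast h4
    · intro k _ hk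
      simp [hk]
    · simp
  have h4 := congrFun (hf1 _ h3) ⟨0, hm⟩
  simp at h4

end Real

/-! ## Finite places -/

section Padic

variable {p : ℕ} [hp : Fact p.Prime] {n : ℕ} {E : Type*} [Field E] [NumberField E]

omit [NumberField E] in
theorem norm_of_ezval (σ : E →+* ℚ_[p]) {u : Eˣ} (h : ezval σ u = 0) : ‖σ (u : E)‖ = 1 :=
  (norm_eq_one_of_valuation ((map_ne_zero σ).2 (Units.ne_zero _))).2 h

omit [NumberField E] in
theorem torsion_of_elg (σ : E →+* ℚ_[p]) {lg : ℚ_[p]ˣ →* Multiplicative ℚ_[p]} {N : ℕ}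
    (hker : ∀ y : ℚ_[p]ˣ, ‖(y : ℚ_[p])‖ = 1 → Multiplicative.toAdd (lg y) = 0 → y ^ N = 1)
    {u : Eˣ} (h : ezval σ u = 0) (h' : ehv σ lg u = 0) : u ^ N = 1 := by
  have h1 := hker (Units.map σ.toMonoidHom u) (norm_of_ezval σ h) h'
  have hinj : Function.Injective (Units.map σ.toMonoidHom) := Units.map_injective σ.injective
  apply hinj
  rw [map_one, map_pow]
  exact h1

omit [NumberField E] in
theorem epv_left (σ : E →+* ℚ_[p]) (lg : ℚ_[p]ˣ →* Multiplicative ℚ_[p]) (x : Fin n → Eˣ)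
    (i : Fin n) : epv σ lg x (Fin.castAdd n i) = (ezval σ (x i) : ℚ_[p]) := by
  show Fin.append _ _ (Fin.castAdd n i) = _
  rw [Fin.append_left]
  rfl

omit [NumberField E] in
theorem epv_right (σ : E →+* ℚ_[p]) (lg : ℚ_[p]ˣ →* Multiplicative ℚ_[p]) (x : Fin n → Eˣ)
    (i : Fin n) : epv σ lg x (Fin.natAdd n i) = ehv σ lg (x i) := by
  show Fin.append _ _ (Fin.natAdd n i) = _
  rw [Fin.append_right]
  rfl

omit [NumberField E] in
theorem epv_mul (σ : E →+* ℚ_[p]) (lg : ℚ_[p]ˣ →* Multiplicative ℚ_[p]) (x y : Fin n → Eˣ) :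
    epv σ lg (x * y) = epv σ lg x + epv σ lg y := by
  unfold epv
  rw [← toAdd_mul, ← map_mul]
  congr 2
  funext i
  simp

omit [NumberField E] in
theorem epv_zpow (σ : E →+* ℚ_[p]) (lg : ℚ_[p]ˣ →* Multiplicative ℚ_[p]) (x : Fin n → Eˣ)
    (c : ℤ) : epv σ lg (x ^ c) = (c : ℚ_[p]) • epv σ lg x := by
  unfold epv
  rw [Int.cast_smul_eq_zsmul, ← toAdd_zpow, ← map_zpow]
  congr 2
  funext i
  simp

omit [NumberField E] in
theorem epv_prod (σ : E →+* ℚ_[p]) (lg : ℚ_[p]ˣ →* Multiplicative ℚ_[p]) {ι : Type*}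
    (s : Finset ι) (x : ι → Fin n → Eˣ) (c : ι → ℤ) :
    epv σ lg (∏ k ∈ s, x k ^ c k) = ∑ k ∈ s, (c k : ℚ_[p]) • epv σ lg (x k) := by
  classical
  induction s using Finset.induction_on with
  | empty =>
    rw [Finset.prod_empty, Finset.sum_empty]
    have h := epv_zpow σ lg (1 : Fin n → Eˣ) 0
    rwa [zpow_zero, Int.cast_zero, zero_smul] at h
  | insert a s ha ih => rw [Finset.prod_insert ha, Finset.sum_insert ha, epv_mul, epv_zpow, ih]

end Padic

end Pool.Agent.Lib.H22T
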