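import Pool.Agent.Lib.H22T.T6

/-!
# Ranks of groups of vectors with coordinates in a number field: the finite places
-/

namespace Pool.Agent.Lib.H22T

open Pool.Agent.Lib.H22F301 (coord pairHom valHom logAbs exists_basis exists_minor int_row int_col
  select_rows exists_outside finrank_images_le norm_eq_one_of_valuation)

section Padic

variable {p : ℕ} [hp : Fact p.Prime] {n : ℕ} {E : Type*} [Field E] [NumberField E]

/-- The rank at a finite place in terms of the rank of the valuations. -/
theorem rank_val_nf (σ : E →+* ℚ_[p]) {lg : ℚ_[p]ˣ →* Multiplicative ℚ_[p]} {N : ℕ} (hN : 0 < N)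
    (hlg : Continuous fun y => Multiplicative.toAdd (lg y))
    (hker : ∀ y : ℚ_[p]ˣ, ‖(y : ℚ_[p])‖ = 1 → Multiplicative.toAdd (lg y) = 0 → y ^ N = 1)
    {L : Subgroup (Fin n → Eˣ)} {m : ℕ} (hL : FreeOfRank L m) :
    evalRank σ L ≤ m ∧
    evalRank σ L ≤ Module.finrank ℚ_[p] (Submodule.span ℚ_[p] (epv σ lg '' (L : Set (Fin n → Eˣ)))) ∧
    (evalRank σ L < m → evalRank σ L + 1 ≤
      Module.finrank ℚ_[p] (Submodule.span ℚ_[p] (epv σ lg '' (L : Set (Fin n → Eˣ))))) ∧
    (evalRank σ L + 3 ≤ m → ∀ (q : ℕ) [Fact q.Prime] (τ : E →+* ℚ_[q])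
      (lq : ℚ_[q]ˣ →* Multiplicative ℚ_[q]),
      evalRank σ L + 2 ≤ Module.finrank ℚ_[q]
        (Submodule.span ℚ_[q] (elv τ lq '' (L : Set (Fin n → Eˣ)))) → evalRank σ L + 2 ≤
        Module.finrank ℚ_[p] (Submodule.span ℚ_[p] (epv σ lg '' (L : Set (Fin n → Eˣ))))) ∧
    (∃ y : Fin m → Fin n → Eˣ, (∀ j, y j ∈ L ∧ ∀ i, ezval σ (y j i) = 0) ∧
      ∀ (q : ℕ) [Fact q.Prime] (τ : E →+* ℚ_[q]) (lq : ℚ_[q]ˣ →* Multiplicative ℚ_[q]),
        Module.finrank ℚ_[q] (Submodule.span ℚ_[q]
          (Set.range fun (j : Fin m) (i : Fin n) => ehv τ lq (y j i))) ≤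
        Module.finrank ℚ_[p] (Submodule.span ℚ_[p]
          (Set.range fun (j : Fin m) (i : Fin n) => ehv σ lg (y j i))) →
        Module.finrank ℚ_[q] (Submodule.span ℚ_[q] (elv τ lq '' (L : Set (Fin n → Eˣ)))) ≤
        Module.finrank ℚ_[p] (Submodule.span ℚ_[p] (epv σ lg '' (L : Set (Fin n → Eˣ))))) ∧
    (evalRank σ L + 2 = m → ¬ EPlane σ L → evalRank σ L + 2 ≤
      Module.finrank ℚ_[p] (Submodule.span ℚ_[p] (epv σ lg '' (L : Set (Fin n → Eˣ))))) ∧
    (∀ (ι : Type) [Fintype ι] (b : ι → Fin n → Eˣ),
      (∀ t, b t ∈ L ∧ ∀ i, ezval σ (b t i) = 0) →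
      LinearIndependent ℚ_[p] (fun t => epv σ lg (b t)) → evalRank σ L + Fintype.card ι ≤
        Module.finrank ℚ_[p] (Submodule.span ℚ_[p] (epv σ lg '' (L : Set (Fin n → Eˣ))))) := by
  classical
  obtain ⟨f, hf, hf1⟩ := exists_basis hL
  have hfL : ∀ j, f j ∈ L := gen_mem hf
  -- independence over the integers
  have hstar : ∀ c : Fin m → ℤ, ∑ j, (c j : ℚ_[p]) • epv σ lg (f j) = 0 → c = 0 := by
    intro c hcs
    rw [← epv_prod] at hcs
    set x : Fin n → Eˣ := ∏ j, f j ^ c j with hx
    have h1 : x ^ N = 1 := by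
      funext i
      have e1 := congrFun hcs (Fin.castAdd n i)
      have e2 := congrFun hcs (Fin.natAdd n i)
      rw [epv_left, Pi.zero_apply] at e1
      rw [epv_right, Pi.zero_apply] at e2
      exact torsion_of_elg σ hker (by exact_mod_cast e1) e2
    have h2 : ∏ j, f j ^ (fun j => c j * N) j = 1 := by
      rw [← h1, hx, ← Finset.prod_pow]
      refine Finset.prod_congr rfl fun j _ => ?_
      rw [zpow_mul, zpow_natCast]
    have h3 := hf1 _ h2
    funext j
    have h4 := congrFun h3 j
    simp only [Pi.zero_apply, mul_eq_zero] at h4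
    exact h4.resolve_right (by exact_mod_cast hN.ne')
  -- the valuations
  set w : Fin m → Fin n → ℤ := fun j i => ezval σ (f j i) with hw
  have hspan : Submodule.span ℚ (Set.range fun (j : Fin m) (i : Fin n) => ((w j i : ℤ) : ℚ)) =
      Submodule.span ℚ
        ((fun (x : Fin n → Eˣ) (i : Fin n) => ((ezval σ (x i) : ℤ) : ℚ)) ''
          (L : Set (Fin n → Eˣ))) := by
    apply le_antisymm
    · apply Submodule.span_mono
      rintro _ ⟨j, rfl⟩
      exact ⟨f j, hfL j, rfl⟩
    · rw [Submodule.span_le]
      rintro _ ⟨x, hx, rfl⟩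
      obtain ⟨c, rfl⟩ := (hf x).1 hx
      have e1 : (fun (i : Fin n) => ((ezval σ ((∏ j, f j ^ c j : Fin n → Eˣ) i) : ℤ) : ℚ)) =
          ∑ j, (c j : ℚ) • (fun i : Fin n => ((w j i : ℤ) : ℚ)) := by
        funext i
        rw [Finset.prod_apply, Finset.sum_apply]
        simp only [Pi.pow_apply]
        rw [ezval_prod]
        push_cast
        rfl
      rw [SetLike.mem_coe]
      simp only
      rw [e1]
      exact Submodule.sum_mem _ fun j _ => Submodule.smul_mem _ _ (Submodule.subset_span ⟨j, rfl⟩)
  have hvr : Module.finrank ℚ (Submodule.span ℚ (Set.range fun (j : Fin m) (i : Fin n) =>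
      ((w j i : ℤ) : ℚ))) = evalRank σ L := by
    rw [hspan, evalRank]
  generalize evalRank σ L = v at hvr ⊢
  obtain ⟨a, G, D, C, ha, hG, hD, hC⟩ := select_rows w hvr
  set V : Submodule ℚ_[p] (Fin (n + n) → ℚ_[p]) :=
    Submodule.span ℚ_[p] (epv σ lg '' (L : Set (Fin n → Eˣ))) with hV
  have hpV : ∀ x ∈ L, epv σ lg x ∈ V := fun x hx => Submodule.subset_span ⟨x, hx, rfl⟩
  -- elements with valuation zero
  set y : Fin m → Fin n → Eˣ := fun j => f j ^ D j * ∏ s, f (a s) ^ (-C j s) with hy
  have hyL : ∀ j, y j ∈ L := fun j =>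
    Subgroup.mul_mem _ (Subgroup.zpow_mem _ (hfL j) _)
      (Subgroup.prod_mem _ fun s _ => Subgroup.zpow_mem _ (hfL _) _)
  have hpy : ∀ j, epv σ lg (y j) = (D j : ℚ_[p]) • epv σ lg (f j) -
      ∑ s, (C j s : ℚ_[p]) • epv σ lg (f (a s)) := by
    intro j
    rw [hy]
    simp only
    rw [epv_mul, epv_zpow, epv_prod, sub_eq_add_neg, ← Finset.sum_neg_distrib]
    congr 1
    refine Finset.sum_congr rfl fun s _ => ?_
    rw [Int.cast_neg, neg_smul]
  have hz : ∀ j i, ezval σ (y j i) = 0 := by
    intro j i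
    have e1 := congrFun (hpy j) (Fin.castAdd n i)
    rw [epv_left, Pi.sub_apply, Pi.smul_apply, epv_left, Finset.sum_apply] at e1
    simp only [Pi.smul_apply, epv_left, smul_eq_mul] at e1
    have e2 : ezval σ (y j i) = D j * ezval σ (f j i) - ∑ s, C j s * ezval σ (f (a s) i) := by
      exact_mod_cast e1
    have e3 : D j * ezval σ (f j i) = ∑ s, C j s * ezval σ (f (a s) i) := hC j i
    omega
  have hleft : ∀ j i, epv σ lg (y j) (Fin.castAdd n i) = 0 := by
    intro j i
    rw [epv_left, hz, Int.cast_zero]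
  have hlin : ∀ {k : ℕ} (e : Fin k → Fin m), Function.Injective e → (∀ i s, e i ≠ a s) →
      ∀ c : Fin k → ℤ, ∑ i, (c i : ℚ_[p]) • epv σ lg (y (e i)) = 0 → c = 0 := by
    intro k e he hea c hcs
    set c' : Fin m → ℤ := fun j => (∑ i, if e i = j then c i * D (e i) else 0) -
      (∑ s, if a s = j then ∑ i, c i * C (e i) s else 0) with hc'
    have h1 : ∑ j, (c' j : ℚ_[p]) • epv σ lg (f j) = 0 := by
      rw [← hcs]
      simp only [hc']
      push_cast
      simp only [sub_smul, Finset.sum_sub_distrib, Finset.sum_smul]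
      rw [Finset.sum_comm]
      simp only [ite_smul, zero_smul, Finset.sum_ite_eq, Finset.mem_univ, if_true]
      simp only [hpy, smul_sub, Finset.sum_sub_distrib, smul_smul, Finset.smul_sum]
      congr 1
      rw [Finset.sum_comm]
      simp only [Finset.sum_ite_eq, Finset.mem_univ, if_true, Finset.sum_smul]
      rw [Finset.sum_comm]
    have h2 := hstar c' h1
    funext i
    have h3 := congrFun h2 (e i)
    have h4 : ∑ s, (if a s = e i then ∑ i, c i * C (e i) s else 0) = 0 :=
      Finset.sum_eq_zero fun s _ => if_neg fun h => hea i s h.symm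
    simp only [hc', Pi.zero_apply, h4, sub_zero] at h3
    rw [Finset.sum_eq_single i] at h3
    · simp only [if_true, mul_eq_zero] at h3
      exact h3.resolve_right (hD _)
    · intro i' _ hi'
      rw [if_neg fun h => hi' (he h)]
    · simp
  -- independent vectors
  have hindep : ∀ {k : ℕ} (b : Fin k → Fin (n + n) → ℚ_[p]), LinearIndependent ℚ_[p] b →
      (∀ t i, b t (Fin.castAdd n i) = 0) → (∀ t, b t ∈ V) → v + k ≤ Module.finrank ℚ_[p] V := by
    intro k b hb hb0 hbV
    have h1 : LinearIndependent ℚ_[p] (Sum.elim (fun s : Fin v => epv σ lg (f (a s))) b) := by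
      rw [Fintype.linearIndependent_iff]
      intro g hg
      rw [Fintype.sum_sum_type] at hg
      simp only [Sum.elim_inl, Sum.elim_inr] at hg
      have h2 : ∀ s : Fin v, g (Sum.inl s) = 0 := by
        intro s
        have h3 : ∀ i : Fin n, ∑ t, g (Sum.inl t) * ((w (a t) i : ℤ) : ℚ_[p]) = 0 := by
          intro i
          have e1 := congrFun hg (Fin.castAdd n i)
          rw [Pi.add_apply, Finset.sum_apply, Finset.sum_apply, Pi.zero_apply] at e1
          simp only [Pi.smul_apply, hb0, smul_eq_mul, mul_zero, Finset.sum_const_zero, add_zero,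
            epv_left] at e1
          exact e1
        have h4 : ∑ i, ((G s i : ℚ) : ℚ_[p]) *
            ∑ t, g (Sum.inl t) * ((w (a t) i : ℤ) : ℚ_[p]) = 0 :=
          Finset.sum_eq_zero fun i _ => by rw [h3 i, mul_zero]
        have h5 : ∀ t, ∑ i, ((G s i : ℚ) : ℚ_[p]) * ((w (a t) i : ℤ) : ℚ_[p]) =
            if s = t then 1 else 0 := by
          intro t
          have e2 := congrArg (fun z : ℚ => (z : ℚ_[p])) (hG s t)
          rcases eq_or_ne s t with h | h
          · rw [if_pos h] at e2 ⊢
            push_cast at e2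
            exact e2
          · rw [if_neg h] at e2 ⊢
            push_cast at e2
            exact e2
        have h6 : ∑ i, ((G s i : ℚ) : ℚ_[p]) *
            ∑ t, g (Sum.inl t) * ((w (a t) i : ℤ) : ℚ_[p]) = g (Sum.inl s) := by
          simp only [Finset.mul_sum]
          rw [Finset.sum_comm]
          have e3 : ∀ t, ∑ i, ((G s i : ℚ) : ℚ_[p]) * (g (Sum.inl t) * ((w (a t) i : ℤ) : ℚ_[p])) =
              g (Sum.inl t) * if s = t then 1 else 0 := by
            intro t
            rw [← h5 t, Finset.mul_sum]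
            refine Finset.sum_congr rfl fun i _ => ?_
            ring
          simp only [e3, mul_ite, mul_one, mul_zero, Finset.sum_ite_eq, Finset.mem_univ, if_true]
        rw [← h6, h4]
      have h7 : ∑ t, g (Sum.inr t) • b t = 0 := by
        simpa [h2] using hg
      rw [Fintype.linearIndependent_iff] at hb
      rintro (s | t)
      · exact h2 s
      · exact hb (fun t => g (Sum.inr t)) h7 t
    have h8 := finrank_span_eq_card h1
    rw [Fintype.card_sum, Fintype.card_fin, Fintype.card_fin] at h8
    rw [← h8]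
    apply Submodule.finrank_mono
    rw [Submodule.span_le]
    rintro _ ⟨s | t, rfl⟩
    · exact hpV _ (hfL _)
    · exact hbV t
  have hvm : v ≤ m := by
    have := Fintype.card_le_of_injective a ha
    simpa using this
  refine ⟨hvm, ?_, fun hlt => ?_, fun hm q hq τ lq hvd => ?_,
    ⟨y, fun j => ⟨hyL j, hz j⟩, fun q hq τ lq e3 => ?_⟩, fun hm hP => ?_,
    fun ι _ b hb hli => ?_⟩
  · have := hindep (k := 0) (fun t => t.elim0) linearIndependent_empty_type (fun t => t.elim0)
      (fun t => t.elim0)
    simpa using this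
  · obtain ⟨e, hei, hea⟩ := exists_outside (k := 1) a (by omega)
    refine hindep (k := 1) (fun t => epv σ lg (y (e t))) ?_ (fun t i => hleft _ i)
      (fun t => hpV _ (hyL _))
    rw [linearIndependent_unique_iff]
    intro h0
    have h2 := hlin e hei hea (fun _ => 1) (by
      simp only [Fin.sum_univ_one, Int.cast_one, one_smul]
      exact h0)
    exact one_ne_zero (congrFun h2 0)
  · by_contra hcon
    obtain ⟨e, hei, hea⟩ := exists_outside (k := 3) a hm
    have hnz : epv σ lg (y (e 0)) ≠ 0 := by
      intro h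
      have h2 := hlin e hei hea ![1, 0, 0] (by
        rw [Fin.sum_univ_three]
        simp [h])
      have := congrFun h2 0
      simp at this
    have h5 : ∀ j, ∃ c : ℚ_[p], epv σ lg (y j) = c • epv σ lg (y (e 0)) := by
      intro j
      by_contra hno
      push Not at hno
      apply hcon
      refine hindep (k := 2) ![epv σ lg (y (e 0)), epv σ lg (y j)] ?_ ?_ ?_
      · rw [LinearIndependent.pair_iff]
        intro s t hst
        have ht : t = 0 := by
          by_contra ht
          apply hno (-(t⁻¹ * s))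
          have e1 : epv σ lg (y j) = t⁻¹ • (t • epv σ lg (y j)) := by
            rw [smul_smul, inv_mul_cancel₀ ht, one_smul]
          rw [e1, neg_smul, mul_smul, ← smul_neg]
          congr 1
          exact (neg_eq_of_add_eq_zero_right hst).symm
        rw [ht, zero_smul, add_zero] at hst
        exact ⟨(smul_eq_zero.1 hst).resolve_right hnz, ht⟩
      · intro t i
        fin_cases t
        · exact hleft _ i
        · exact hleft _ i
      · intro t
        fin_cases t
        · exact hpV _ (hyL _)
        · exact hpV _ (hyL _)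
    choose u hu using h5
    set κ : Fin n → ℚ_[p] := fun i => epv σ lg (y (e 0)) (Fin.natAdd n i) with hκ
    have hl : ∀ j i, ehv σ lg (y j i) = u j * κ i := by
      intro j i
      rw [← epv_right σ lg, hu j]
      rfl
    -- two coordinates with independent logarithms
    obtain ⟨i1, i2, h12⟩ : ∃ i1 i2 : Fin n, ∀ a b : ℤ, (a : ℚ_[p]) * κ i1 + b * κ i2 = 0 →
        a = 0 ∧ b = 0 := by
      by_contra hno
      push Not at hno
      obtain ⟨i1, hi1⟩ : ∃ i1, κ i1 ≠ 0 := by
        by_contra hno2
        push Not at hno2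
        apply hnz
        funext i
        rw [Pi.zero_apply]
        refine Fin.addCases (fun i => ?_) (fun i => ?_) i
        · exact hleft _ i
        · exact hno2 i
      choose α β hab hab' using fun i => hno i1 i
      have hb0 : ∀ i, β i ≠ 0 := by
        intro i hbi
        have h1 := hab i
        rw [hbi, Int.cast_zero, zero_mul, add_zero] at h1
        have h2 := (mul_eq_zero.1 h1).resolve_right hi1
        exact hab' i (by exact_mod_cast h2) hbi
      have hq1 : ∀ j i, (β i : ℚ_[q]) * ehv τ lq (y j i) + (α i : ℚ_[q]) * ehv τ lq (y j i1) = 0 := by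
        intro j i
        have e1 : ehv σ lg ((y j i) ^ β i * (y j i1) ^ α i) = 0 := by
          rw [ehv_mul, ehv_zpow, ehv_zpow, hl, hl]
          linear_combination u j * hab i
        have e2 : ezval σ ((y j i) ^ β i * (y j i1) ^ α i) = 0 := by
          have e3 : ehv σ (valHom p) ((y j i) ^ β i * (y j i1) ^ α i) = 0 := by
            rw [ehv_mul, ehv_zpow, ehv_zpow, ehv_valHom, ehv_valHom, hz, hz, Int.cast_zero, mul_zero,
              mul_zero, add_zero]
          rw [ehv_valHom] at e3
          exact_mod_cast e3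
        have e4 := ehv_torsion τ lq hN (torsion_of_elg σ hker e2 e1)
        rwa [ehv_mul, ehv_zpow, ehv_zpow] at e4
      set Kv : Fin n → ℚ_[q] := fun i => -(α i : ℚ_[q]) / (β i : ℚ_[q]) with hKv
      have hb0' : ∀ i, (β i : ℚ_[q]) ≠ 0 := fun i => by exact_mod_cast hb0 i
      have hq2 : ∀ j, (fun i => ehv τ lq (y j i)) = ehv τ lq (y j i1) • Kv := by
        intro j
        funext i
        rw [Pi.smul_apply, smul_eq_mul, hKv]
        simp only
        rw [eq_comm, mul_div_assoc', div_eq_iff (hb0' i)]
        linear_combination (-1 : ℚ_[q]) * hq1 j i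
      have hDq : ∀ j, (D j : ℚ_[q]) ≠ 0 := fun j => by exact_mod_cast hD j
      set F : Fin v → Fin n → ℚ_[q] := fun s i => ehv τ lq (f (a s) i) with hF
      have hq3 : ∀ j, (fun i => ehv τ lq (f j i)) = ((D j : ℚ_[q])⁻¹ * ehv τ lq (y j i1)) • Kv +
          ∑ s, ((D j : ℚ_[q])⁻¹ * (C j s : ℚ_[q])) • F s := by
        intro j
        funext i
        have e1 := congrFun (hq2 j) i
        have e2 : ehv τ lq (y j i) = D j * ehv τ lq (f j i) -
            ∑ s, (C j s : ℚ_[q]) * ehv τ lq (f (a s) i) := by
          have : y j i = (f j i) ^ D j * ∏ s, (f (a s) i) ^ (-C j s) := by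
            rw [hy]
            simp only [Pi.mul_apply, Pi.pow_apply, Finset.prod_apply]
          rw [this, ehv_mul, ehv_zpow, ehv_prod, sub_eq_add_neg, ← Finset.sum_neg_distrib]
          congr 1
          refine Finset.sum_congr rfl fun s _ => ?_
          rw [Int.cast_neg, neg_mul]
        rw [e2] at e1
        rw [Pi.smul_apply, smul_eq_mul] at e1
        rw [Pi.add_apply, Pi.smul_apply, smul_eq_mul, Finset.sum_apply]
        simp only [Pi.smul_apply, smul_eq_mul]
        have e3 : ehv τ lq (f j i) = (D j : ℚ_[q])⁻¹ * (D j * ehv τ lq (f j i)) := by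
          rw [← mul_assoc, inv_mul_cancel₀ (hDq j), one_mul]
        have e4 : ∑ s, (D j : ℚ_[q])⁻¹ * (C j s : ℚ_[q]) * F s i =
            (D j : ℚ_[q])⁻¹ * ∑ s, (C j s : ℚ_[q]) * ehv τ lq (f (a s) i) := by
          rw [Finset.mul_sum]
          exact Finset.sum_congr rfl fun s _ => by rw [hF]; ring
        rw [e3, e4]
        linear_combination (D j : ℚ_[q])⁻¹ * e1
      have h2 := hvd.trans (finrank_elv_le τ lq hf)
      have h4 : Module.finrank ℚ_[q] (Submodule.span ℚ_[q] (Set.range fun j =>
          elv τ lq (f j))) ≤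
          Module.finrank ℚ_[q] (Submodule.span ℚ_[q]
            (((insert Kv (Finset.univ.image F) : Finset (Fin n → ℚ_[q])) :
              Set (Fin n → ℚ_[q])))) := by
        apply Submodule.finrank_mono
        rw [Submodule.span_le]
        rintro _ ⟨j, rfl⟩
        have e1 : elv τ lq (f j) =
            fun i => ehv τ lq (f j i) := rfl
        simp only
        rw [e1, hq3 j]
        refine Submodule.add_mem _ (Submodule.smul_mem _ _ (Submodule.subset_span ?_))
          (Submodule.sum_mem _ fun s _ => Submodule.smul_mem _ _ (Submodule.subset_span ?_))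
        · rw [Finset.mem_coe]
          exact Finset.mem_insert_self _ _
        · rw [Finset.mem_coe]
          exact Finset.mem_insert_of_mem (Finset.mem_image_of_mem _ (Finset.mem_univ s))
      have h6 : Module.finrank ℚ_[q] (Submodule.span ℚ_[q]
            (((insert Kv (Finset.univ.image F) : Finset (Fin n → ℚ_[q])) :
              Set (Fin n → ℚ_[q])))) ≤ v + 1 := by
        refine (finrank_span_finset_le_card _).trans ((Finset.card_insert_le _ _).trans ?_)
        have : (Finset.univ.image F).card ≤ v := by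
          refine Finset.card_image_le.trans ?_
          rw [Finset.card_univ, Fintype.card_fin]
        omega
      omega
    refine six_lg_nf σ hN hlg hker (fun l k => y (e k) (![i1, i2] l)) (fun l k => norm_of_ezval σ (hz _ _))
      (fun l => κ (![i1, i2] l)) (fun k => u (e k)) (fun l k => by
        rw [mul_comm]
        exact hl _ _) ?_ ?_
    · intro c hcs
      rw [Fin.sum_univ_two] at hcs
      simp only [Matrix.cons_val_zero, Matrix.cons_val_one] at hcs
      obtain ⟨e1, e2⟩ := h12 _ _ hcs
      funext l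
      fin_cases l
      · exact e1
      · exact e2
    · intro c hcs
      apply hlin e hei hea
      have e1 : ∀ k, (c k : ℚ_[p]) • epv σ lg (y (e k)) =
          ((c k : ℚ_[p]) * u (e k)) • epv σ lg (y (e 0)) := fun k => by rw [hu (e k), smul_smul]
      simp only [e1]
      rw [← Finset.sum_smul, hcs, zero_smul]
  · -- the place `p`
    have e1 : v + Module.finrank ℚ_[p] (Submodule.span ℚ_[p] (Set.range fun j => epv σ lg (y j))) ≤
        Module.finrank ℚ_[p] V := by
      obtain ⟨b, hb1, -, hb3⟩ := Submodule.exists_fun_fin_finrank_span_eq ℚ_[p]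
        (Set.range fun j => epv σ lg (y j))
      refine hindep b hb3 ?_ ?_
      · intro t i
        obtain ⟨j, hj⟩ := hb1 t
        rw [← hj]
        exact hleft j i
      · intro t
        obtain ⟨j, hj⟩ := hb1 t
        rw [← hj]
        exact hpV _ (hyL j)
    have e2 : Module.finrank ℚ_[p] (Submodule.span ℚ_[p]
        (Set.range fun (j : Fin m) (i : Fin n) => ehv σ lg (y j i))) ≤
        Module.finrank ℚ_[p] (Submodule.span ℚ_[p] (Set.range fun j => epv σ lg (y j))) := by
      apply finrank_images_le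
        (LinearMap.funLeft ℚ_[p] ℚ_[p] (Fin.natAdd n : Fin n → Fin (n + n)))
      intro j
      funext i
      rw [LinearMap.funLeft_apply, epv_right]
    -- the place `q`
    have hDq : ∀ j, (D j : ℚ_[q]) ≠ 0 := fun j => by exact_mod_cast hD j
    set F : Fin v → Fin n → ℚ_[q] := fun s i => ehv τ lq (f (a s) i) with hF
    set Y : Fin m → Fin n → ℚ_[q] := fun j i => ehv τ lq (y j i) with hY
    have hq3 : ∀ j, (fun i => ehv τ lq (f j i)) = ((D j : ℚ_[q])⁻¹) • Y j +
        ∑ s, ((D j : ℚ_[q])⁻¹ * (C j s : ℚ_[q])) • F s := by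
      intro j
      funext i
      have e2 : ehv τ lq (y j i) = D j * ehv τ lq (f j i) -
          ∑ s, (C j s : ℚ_[q]) * ehv τ lq (f (a s) i) := by
        have : y j i = (f j i) ^ D j * ∏ s, (f (a s) i) ^ (-C j s) := by
          rw [hy]
          simp only [Pi.mul_apply, Pi.pow_apply, Finset.prod_apply]
        rw [this, ehv_mul, ehv_zpow, ehv_prod, sub_eq_add_neg, ← Finset.sum_neg_distrib]
        congr 1
        refine Finset.sum_congr rfl fun s _ => ?_
        rw [Int.cast_neg, neg_mul]
      rw [Pi.add_apply, Pi.smul_apply, smul_eq_mul, Finset.sum_apply]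
      simp only [Pi.smul_apply, smul_eq_mul]
      have e3 : ehv τ lq (f j i) = (D j : ℚ_[q])⁻¹ * (D j * ehv τ lq (f j i)) := by
        rw [← mul_assoc, inv_mul_cancel₀ (hDq j), one_mul]
      have e4 : ∑ s, (D j : ℚ_[q])⁻¹ * (C j s : ℚ_[q]) * F s i =
          (D j : ℚ_[q])⁻¹ * ∑ s, (C j s : ℚ_[q]) * ehv τ lq (f (a s) i) := by
        rw [Finset.mul_sum]
        exact Finset.sum_congr rfl fun s _ => by rw [hF]; ring
      have e5 : Y j i = ehv τ lq (y j i) := rfl
      rw [e3, e4, e5, e2]
      ring
    have h1 := finrank_elv_le τ lq hf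
    have h4 : Module.finrank ℚ_[q] (Submodule.span ℚ_[q] (Set.range fun j =>
        elv τ lq (f j))) ≤
        Module.finrank ℚ_[q] ((Submodule.span ℚ_[q] (Set.range Y) ⊔
          Submodule.span ℚ_[q] (Set.range F) : Submodule ℚ_[q] (Fin n → ℚ_[q]))) := by
      apply Submodule.finrank_mono
      rw [Submodule.span_le]
      rintro _ ⟨j, rfl⟩
      have e1 : elv τ lq (f j) =
          fun i => ehv τ lq (f j i) := rfl
      simp only
      rw [e1, hq3 j]
      exact Submodule.add_mem_sup (Submodule.smul_mem _ _ (Submodule.subset_span ⟨j, rfl⟩))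
        (Submodule.sum_mem _ fun s _ => Submodule.smul_mem _ _ (Submodule.subset_span ⟨s, rfl⟩))
    have h5 := Submodule.finrank_add_le_finrank_add_finrank (Submodule.span ℚ_[q] (Set.range Y))
      (Submodule.span ℚ_[q] (Set.range F))
    have h6 : Module.finrank ℚ_[q] (Submodule.span ℚ_[q] (Set.range F)) ≤ v := by
      have := finrank_range_le_card (R := ℚ_[q]) F
      rwa [Fintype.card_fin] at this
    omega
  · by_contra hcon
    obtain ⟨e, hei, hea⟩ := exists_outside (k := 2) a (by omega)
    have hnz : epv σ lg (y (e 0)) ≠ 0 := by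
      intro h
      have h2 := hlin e hei hea ![1, 0] (by
        rw [Fin.sum_univ_two]
        simp [h])
      have := congrFun h2 0
      simp at this
    have h5 : ∀ x ∈ L, (∀ i, ezval σ (x i) = 0) → ∃ c : ℚ_[p], epv σ lg x = c • epv σ lg (y (e 0)) := by
      intro x hx hx0
      by_contra hno
      push Not at hno
      apply hcon
      refine hindep (k := 2) ![epv σ lg (y (e 0)), epv σ lg x] ?_ ?_ ?_
      · rw [LinearIndependent.pair_iff]
        intro s t hst
        have ht : t = 0 := by
          by_contra ht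
          apply hno (-(t⁻¹ * s))
          have e1 : epv σ lg x = t⁻¹ • (t • epv σ lg x) := by
            rw [smul_smul, inv_mul_cancel₀ ht, one_smul]
          rw [e1, neg_smul, mul_smul, ← smul_neg]
          congr 1
          exact (neg_eq_of_add_eq_zero_right hst).symm
        rw [ht, zero_smul, add_zero] at hst
        exact ⟨(smul_eq_zero.1 hst).resolve_right hnz, ht⟩
      · intro t i
        fin_cases t
        · exact hleft _ i
        · show epv σ lg x (Fin.castAdd n i) = 0
          rw [epv_left, hx0, Int.cast_zero]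
      · intro t
        fin_cases t
        · exact hpV _ (hyL _)
        · exact hpV _ hx
    set κ : Fin n → ℚ_[p] := fun i => epv σ lg (y (e 0)) (Fin.natAdd n i) with hκ
    have hl0 : ∀ x ∈ L, (∀ i, ezval σ (x i) = 0) → ∃ c : ℚ_[p], ∀ i, ehv σ lg (x i) = c * κ i := by
      intro x hx hx0
      obtain ⟨c, hc⟩ := h5 x hx hx0
      refine ⟨c, fun i => ?_⟩
      rw [← epv_right σ lg, hc]
      rfl
    choose u hu using fun j => h5 (y j) (hyL j) (hz j)
    have hl : ∀ j i, ehv σ lg (y j i) = u j * κ i := by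
      intro j i
      rw [← epv_right σ lg, hu j]
      rfl
    obtain ⟨i1, hi1⟩ : ∃ i1, κ i1 ≠ 0 := by
      by_contra hno2
      push Not at hno2
      apply hnz
      funext i
      rw [Pi.zero_apply]
      refine Fin.addCases (fun i => ?_) (fun i => ?_) i
      · exact hleft _ i
      · exact hno2 i
    -- a relation between the logarithms of the coordinates
    have hplane : ∀ i₁ i₂ i : Fin n, ∀ α β γ : ℤ, (α : ℚ_[p]) * κ i₁ + β * κ i₂ + γ * κ i = 0 →
        ∀ x ∈ L, (∀ k, ezval σ (x k) = 0) → x i ^ (-(γ * N)) = x i₁ ^ (α * N) * x i₂ ^ (β * N) := by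
      intro i₁ i₂ i α β γ h x hx hx0'
      obtain ⟨c, hc⟩ := hl0 x hx hx0'
      have e1 : ehv σ lg (x i₁ ^ α * x i₂ ^ β * x i ^ γ) = 0 := by
        rw [ehv_mul, ehv_mul, ehv_zpow, ehv_zpow, ehv_zpow, hc, hc, hc]
        linear_combination c * h
      have e2 : ezval σ (x i₁ ^ α * x i₂ ^ β * x i ^ γ) = 0 := by
        have e3 : ehv σ (valHom p) (x i₁ ^ α * x i₂ ^ β * x i ^ γ) = 0 := by
          rw [ehv_mul, ehv_mul, ehv_zpow, ehv_zpow, ehv_zpow, ehv_valHom, ehv_valHom, ehv_valHom, hx0',
            hx0', hx0', Int.cast_zero, mul_zero, mul_zero, mul_zero, add_zero, add_zero]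
        rw [ehv_valHom] at e3
        exact_mod_cast e3
      have e4 := torsion_of_elg σ hker e2 e1
      rw [mul_pow, mul_pow, ← zpow_natCast, ← zpow_natCast, ← zpow_natCast, ← zpow_mul, ← zpow_mul,
        ← zpow_mul] at e4
      rw [zpow_neg]
      exact (eq_inv_of_mul_eq_one_left e4).symm
    have hNZ : (N : ℤ) ≠ 0 := by exact_mod_cast hN.ne'
    by_cases hA : ∃ i1 i2 : Fin n, ∀ a b : ℤ, (a : ℚ_[p]) * κ i1 + b * κ i2 = 0 → a = 0 ∧ b = 0
    · obtain ⟨i1, i2, h12⟩ := hA
      by_cases hB : ∃ i3 : Fin n, ∀ a b c : ℤ, (a : ℚ_[p]) * κ i1 + b * κ i2 + c * κ i3 = 0 →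
          a = 0 ∧ b = 0 ∧ c = 0
      · obtain ⟨i3, h123⟩ := hB
        refine six_lg_nf σ hN hlg hker (fun l k => y (e l) (![i1, i2, i3] k))
          (fun l k => norm_of_ezval σ (hz _ _)) (fun l => u (e l)) (fun k => κ (![i1, i2, i3] k))
          (fun l k => hl _ _) ?_ ?_
        · intro c hcs
          apply hlin e hei hea
          have e1 : ∀ k, (c k : ℚ_[p]) • epv σ lg (y (e k)) =
              ((c k : ℚ_[p]) * u (e k)) • epv σ lg (y (e 0)) := fun k => by rw [hu (e k), smul_smul]
          simp only [e1]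
          rw [← Finset.sum_smul, hcs, zero_smul]
        · intro c hcs
          rw [Fin.sum_univ_three] at hcs
          simp only [Matrix.cons_val_zero, Matrix.cons_val_one, Matrix.cons_val] at hcs
          obtain ⟨e1, e2, e3⟩ := h123 _ _ _ hcs
          funext l
          fin_cases l
          · exact e1
          · exact e2
          · exact e3
      · push Not at hB
        apply hP
        refine ⟨i1, i2, fun i => ?_⟩
        obtain ⟨α, β, γ, h, hne⟩ := hB i
        refine ⟨α * N, β * N, -(γ * N), ?_, hplane i1 i2 i α β γ h⟩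
        rw [neg_ne_zero]
        refine mul_ne_zero (fun hγ => ?_) hNZ
        rw [hγ, Int.cast_zero, zero_mul, add_zero] at h
        obtain ⟨e1, e2⟩ := h12 _ _ h
        exact hne e1 e2 hγ
    · push Not at hA
      apply hP
      refine ⟨i1, i1, fun i => ?_⟩
      obtain ⟨α, γ, h, hne⟩ := hA i1 i
      have h' : (α : ℚ_[p]) * κ i1 + (0 : ℤ) * κ i1 + γ * κ i = 0 := by
        rw [Int.cast_zero, zero_mul, add_zero]
        exact h
      refine ⟨α * N, 0 * N, -(γ * N), ?_, hplane i1 i1 i α 0 γ h'⟩
      rw [neg_ne_zero]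
      refine mul_ne_zero (fun hγ => ?_) hNZ
      rw [hγ, Int.cast_zero, zero_mul, add_zero] at h
      have e1 := (mul_eq_zero.1 h).resolve_right hi1
      exact hne (by exact_mod_cast e1) hγ
  · refine hindep (fun t => epv σ lg (b ((Fintype.equivFin ι).symm t)))
      (hli.comp _ (Fintype.equivFin ι).symm.injective) (fun t i => ?_)
      (fun t => hpV _ (hb _).1)
    rw [epv_left, (hb _).2, Int.cast_zero]

end Padic

end Pool.Agent.Lib.H22T
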