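import Pool.Agent.Lib.H22T.Defs2

/-!
# The rank `d(q)` and the logarithms of the values of characters
-/

namespace Pool.Agent.Lib.H22T

open Pool.Agent.Lib.H22F301 (coord pairHom valHom logAbs)

variable {A : Type*} [CommRing A] [HopfAlgebra ℚ A] [Coalgebra.IsCocomm ℚ A] {n : ℕ}

/-- `d(q)` is at most the dimension of the span of the `q`-adic logarithms of the values of
characters which separate the points (compare `rankAt_le_finrank` in `H22F301/Split.lean`). -/
theorem rankAt_le_theta {q : ℕ} [Fact q.Prime] (lg : ℚ_[q]ˣ →* Multiplicative ℚ_[q]) {N : ℕ}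
    (hN : 0 < N) (hlg : Continuous fun y => Multiplicative.toAdd (lg y))
    (hker : ∀ y : ℚ_[q]ˣ, ‖(y : ℚ_[q])‖ = 1 → Multiplicative.toAdd (lg y) = 0 → y ^ N = 1)
    (Θ : Pt A ℚ_[q] →* (Fin n → ℚ_[q]ˣ))
    (hΘ : Continuous fun y (j : Fin n) => ((Θ y j : ℚ_[q]ˣ) : ℚ_[q]))
    (hinj : Function.Injective Θ) {L : Subgroup (Pt A ℚ)} {d : ℕ} (hd : RankAt q L d) :
    d ≤ Module.finrank ℚ_[q] (Submodule.span ℚ_[q]
      ((fun x => Multiplicative.toAdd (coord lg (Θ (toK A ℚ_[q] x)))) '' (L : Set (Pt A ℚ)))) := by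
  obtain ⟨φ, hφc, hφi, -⟩ := hd
  have hΘc : Continuous fun y => Θ y := continuous_pi fun j =>
    Units.isEmbedding_val₀.continuous_iff.2 ((continuous_apply j).comp hΘ)
  set V : Submodule ℚ_[q] (Fin n → ℚ_[q]) := Submodule.span ℚ_[q]
      ((fun x => Multiplicative.toAdd (coord lg (Θ (toK A ℚ_[q] x)))) '' (L : Set (Pt A ℚ)))
    with hV
  have hVc : IsClosed (V : Set (Fin n → ℚ_[q])) := Submodule.closed_of_finiteDimensional V
  have hcc : Continuous fun y : Pt A ℚ_[q] => Multiplicative.toAdd (coord lg (Θ y)) :=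
    (Pool.Agent.Lib.H22F301.continuous_coord lg hlg).comp hΘc
  have hGV : ∀ x ∈ closureAt ℚ_[q] L, Multiplicative.toAdd (coord lg (Θ x)) ∈ V := by
    have hcl : IsClosed {x : Pt A ℚ_[q] | Multiplicative.toAdd (coord lg (Θ x)) ∈
        (V : Set (Fin n → ℚ_[q]))} := hVc.preimage hcc
    intro x hx
    refine closure_minimal ?_ hcl hx
    rintro _ ⟨z, hz, rfl⟩
    exact Submodule.subset_span ⟨z, hz, rfl⟩
  set ψ : (Fin d → ℤ_[q]) →+ (Fin n → ℚ_[q]) :=
    AddMonoidHom.mk' (fun x => Multiplicative.toAdd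
      (coord lg (Θ ((φ (Multiplicative.ofAdd x) : closureAt ℚ_[q] L) : Pt A ℚ_[q])))) (by
      intro x y
      rw [ofAdd_add, map_mul, Subgroup.coe_mul, map_mul, map_mul, toAdd_mul]) with hψ
  have hψc : Continuous ψ := by
    show Continuous fun x : Fin d → ℤ_[q] => Multiplicative.toAdd
      (coord lg (Θ ((φ (Multiplicative.ofAdd x) : closureAt ℚ_[q] L) : Pt A ℚ_[q])))
    exact hcc.comp (continuous_subtype_val.comp (hφc.comp continuous_ofAdd))
  have hψV : ∀ x, ψ x ∈ V := fun x => hGV _ (SetLike.coe_mem _)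
  have hψi : ∀ x, ψ x = 0 → x = 0 := by
    intro x hx
    have h1 : (φ (Multiplicative.ofAdd x)) ^ N = 1 := by
      apply Subtype.ext
      apply hinj
      funext i
      set φi : Multiplicative (Fin d → ℤ_[q]) →* ℚ_[q]ˣ :=
        ((Pi.evalMonoidHom (fun _ : Fin n => ℚ_[q]ˣ) i).comp Θ).comp
          ((closureAt ℚ_[q] L).subtype.comp φ)
        with hφi'
      have hφic : Continuous φi :=
        ((continuous_apply i).comp hΘc).comp (continuous_subtype_val.comp hφc)
      have h2 := hker _ (Pool.Agent.Lib.H22F301.norm_one_of_hom φi hφic (Multiplicative.ofAdd x))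
        (congrFun hx i)
      have h3 : φi (Multiplicative.ofAdd x) ^ N =
          Θ (((φ (Multiplicative.ofAdd x)) ^ N : closureAt ℚ_[q] L) : Pt A ℚ_[q]) i := by
        rw [Subgroup.coe_pow, map_pow, Pi.pow_apply]
        rfl
      rw [← h3, h2, Subgroup.coe_one, map_one, Pi.one_apply]
    rw [← map_pow, ← ofAdd_nsmul] at h1
    have h2 := hφi (h1.trans (map_one φ).symm)
    have h3 : N • x = 0 := ofAdd_eq_one.1 h2
    funext i
    have h4 := congrFun h3 i
    simp only [Pi.smul_apply, Pi.zero_apply, nsmul_eq_mul, mul_eq_zero, Nat.cast_eq_zero] at h4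
    exact h4.resolve_left hN.ne'
  have hψs : ∀ (c : ℤ_[q]) (x : Fin d → ℤ_[q]), ψ (c • x) = (c : ℚ_[q]) • ψ x := by
    intro c x
    have h1 : Continuous fun c : ℤ_[q] => ψ (c • x) := hψc.comp (continuous_id.smul continuous_const)
    have h2 : Continuous fun c : ℤ_[q] => (c : ℚ_[q]) • ψ x :=
      continuous_subtype_val.smul continuous_const
    have h3 := DenseRange.equalizer PadicInt.denseRange_intCast h1 h2 (by
      funext z
      simp only [Function.comp_apply]
      rw [Int.cast_smul_eq_zsmul, map_zsmul, PadicInt.coe_intCast, Int.cast_smul_eq_zsmul])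
    exact congrFun h3 c
  set e : Fin d → V := fun j => ⟨ψ (Pi.single j 1), hψV _⟩ with he
  have hli : LinearIndependent ℤ_[q] e := by
    rw [Fintype.linearIndependent_iff]
    intro c hc j
    have h1 : ψ (∑ j, c j • (Pi.single j (1 : ℤ_[q]) : Fin d → ℤ_[q])) = 0 := by
      rw [map_sum]
      simp only [hψs]
      have h2 := congrArg (Submodule.subtype V) hc
      rw [map_sum, map_zero] at h2
      rw [← h2]
      refine Finset.sum_congr rfl fun j _ => ?_
      rfl
    have h2 := hψi _ h1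
    have h3 := congrFun h2 j
    simpa [Finset.sum_apply, Pi.single_apply] using h3
  have hli2 : LinearIndependent ℚ_[q] e := (LinearIndependent.iff_fractionRing ℤ_[q] ℚ_[q]).1 hli
  have := hli2.fintype_card_le_finrank
  simpa using this

end Pool.Agent.Lib.H22T
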