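import Pool.Agent.Lib.H22T.T1
import Pool.Agent.Lib.H22T.T2
import Pool.Agent.Lib.H22T.T3
import Pool.Agent.Lib.H22T.T6
import Pool.Agent.Lib.H22T.T9
import Pool.Agent.Lib.H22T.T10
import Pool.Agent.Lib.H22T.T11
import Pool.Agent.Lib.H22T.T12
import Pool.Agent.Lib.H22T.T13

/-!
# Tori over `ℚ`: the ranks at the split places
-/

namespace Pool.Agent.Lib.H22T

open Pool.Agent.Lib.H22F301 (coord pairHom valHom logAbs exists_padicLog)
open scoped TensorProduct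

variable {A : Type*} [CommRing A] [HopfAlgebra ℚ A] [Coalgebra.IsCocomm ℚ A] {n n' : ℕ}

/-! ## The values of the characters as a homomorphism -/

theorem cval_mul (e₀ : Splitting A (AlgebraicClosure ℚ) n) (x y : Pt A ℚ) (j : Fin n) :
    cval e₀ (x * y) j = cval e₀ x j * cval e₀ y j := by
  unfold cval
  rw [map_mul, val_mul _ _ _ (chr_groupLike _ _)]

theorem cval_ne_zero (e₀ : Splitting A (AlgebraicClosure ℚ) n) (x : Pt A ℚ) (j : Fin n) :
    cval e₀ x j ≠ 0 := by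
  intro h
  unfold cval at h
  have h1 : val (AlgebraicClosure ℚ) (toK A (AlgebraicClosure ℚ) x) (chr e₀ (Pi.single j 1)) *
      val (AlgebraicClosure ℚ) (toK A (AlgebraicClosure ℚ) x) (chr e₀ (-Pi.single j 1)) = 1 := by
    rw [← map_mul, ← chr_add, add_neg_cancel, chr_zero, map_one]
  rw [h, zero_mul] at h1
  exact zero_ne_one h1

theorem exists_cHom (e₀ : Splitting A (AlgebraicClosure ℚ) n)
    (E : IntermediateField ℚ (AlgebraicClosure ℚ)) (hE : ∀ x j, cval e₀ x j ∈ E) :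
    ∃ c : Pt A ℚ →* (Fin n → Eˣ), ∀ x j, (c x j : E) = ⟨cval e₀ x j, hE x j⟩ := by
  refine ⟨MonoidHom.mk' (fun x j => Units.mk0 ⟨cval e₀ x j, hE x j⟩ ?_) ?_, fun x j => rfl⟩
  · intro h
    exact cval_ne_zero e₀ x j (congrArg Subtype.val h)
  · intro x y
    funext j
    apply Units.ext
    apply Subtype.ext
    exact cval_mul e₀ x y j

/-- The number field generated by the values of the characters. -/
theorem exists_data (e₀ : Splitting A (AlgebraicClosure ℚ) n) :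
    ∃ E : IntermediateField ℚ (AlgebraicClosure ℚ), FiniteDimensional ℚ E ∧
      E = IntermediateField.adjoin ℚ {a | ∃ (x : Pt A ℚ) (j : Fin n), a = cval e₀ x j} ∧
      ∃ (c : Pt A ℚ →* (Fin n → Eˣ)) (hE : ∀ x j, cval e₀ x j ∈ E), Function.Injective c ∧
        (∀ x j, (c x j : E) = ⟨cval e₀ x j, hE x j⟩) ∧
        ∀ N : ℕ, ∃ (q : ℕ) (_ : Fact q.Prime) (τ : E →+* ℚ_[q]) (Θ : Pt A ℚ_[q] →* (Fin n → ℚ_[q]ˣ)),
          N < q ∧ (Continuous fun y (j : Fin n) => ((Θ y j : ℚ_[q]ˣ) : ℚ_[q])) ∧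
          Function.Injective Θ ∧
          ∀ x j, ((Θ (toK A ℚ_[q] x) j : ℚ_[q]ˣ) : ℚ_[q]) = τ (c x j : E) := by
  obtain ⟨F, hF, hcF, hΘ⟩ := exists_theta_of_embedding e₀
  set E : IntermediateField ℚ (AlgebraicClosure ℚ) :=
    IntermediateField.adjoin ℚ {a | ∃ (x : Pt A ℚ) (j : Fin n), a = cval e₀ x j} with hEdef
  have hEF : E ≤ F := by
    rw [hEdef, IntermediateField.adjoin_le_iff]
    rintro _ ⟨x, j, rfl⟩
    exact hcF x j
  have hE : ∀ x j, cval e₀ x j ∈ E := fun x j =>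
    IntermediateField.subset_adjoin ℚ _ ⟨x, j, rfl⟩
  obtain ⟨c, hc⟩ := exists_cHom e₀ E hE
  have hfin : FiniteDimensional ℚ E :=
    FiniteDimensional.of_injective (IntermediateField.inclusion hEF).toLinearMap
      (IntermediateField.inclusion hEF).injective
  have hnf : NumberField F := { to_charZero := inferInstance, to_finiteDimensional := hF }
  have hmain : ∀ N : ℕ, ∃ (q : ℕ) (_ : Fact q.Prime) (τ : E →+* ℚ_[q])
      (Θ : Pt A ℚ_[q] →* (Fin n → ℚ_[q]ˣ)),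
          N < q ∧ (Continuous fun y (j : Fin n) => ((Θ y j : ℚ_[q]ˣ) : ℚ_[q])) ∧
          Function.Injective Θ ∧
          ∀ x j, ((Θ (toK A ℚ_[q] x) j : ℚ_[q]ˣ) : ℚ_[q]) = τ (c x j : E) := by
    intro N
    obtain ⟨q, hq, hNq, ⟨τ⟩⟩ := exists_prime_embedding F N
    obtain ⟨Θ, hΘ1, hΘ2, hΘ3⟩ := hΘ ℚ_[q] τ
    refine ⟨q, hq, τ.comp (IntermediateField.inclusion hEF : E →+* F), Θ, hNq, hΘ1, hΘ2,
      fun x j => ?_⟩
    rw [hΘ3 x j (hcF x j), hc]
    rfl
  refine ⟨E, hfin, hEdef, c, hE, ?_, hc, hmain⟩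
  obtain ⟨q, hq, τ, Θ, -, -, hΘ2, hΘ3⟩ := hmain 0
  intro x y hxy
  apply toK_injective (K := ℚ_[q])
  apply hΘ2
  funext j
  apply Units.ext
  rw [hΘ3, hΘ3, hxy]

/-! ## Images of `L` -/

section Images

variable {E : Type*} [Field E]

theorem image_elv {K 𝕜 : Type*} [NormedField K] [Algebra ℚ K] [Field 𝕜] (σ : E →+* K)
    (f : Kˣ →* Multiplicative 𝕜) (Θ : Pt A K →* (Fin n → Kˣ)) (c : Pt A ℚ →* (Fin n → Eˣ))
    (h : ∀ x j, ((Θ (toK A K x) j : Kˣ) : K) = σ (c x j : E)) (L : Subgroup (Pt A ℚ)) :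
    (fun x => Multiplicative.toAdd (coord f (Θ (toK A K x)))) '' (L : Set (Pt A ℚ)) =
      elv σ f '' ((L.map c : Subgroup (Fin n → Eˣ)) : Set (Fin n → Eˣ)) := by
  have h' : ∀ x, Θ (toK A K x) = fun i => Units.map σ.toMonoidHom (c x i) :=
    fun x => funext fun i => Units.ext (h x i)
  ext v
  constructor
  · rintro ⟨x, hx, rfl⟩
    exact ⟨c x, ⟨x, hx, rfl⟩, by simp only [h']; rfl⟩
  · rintro ⟨_, ⟨x, hx, rfl⟩, rfl⟩
    exact ⟨x, hx, by simp only [h']; rfl⟩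

theorem image_epv {p : ℕ} [Fact p.Prime] (σ : E →+* ℚ_[p])
    (lg : ℚ_[p]ˣ →* Multiplicative ℚ_[p]) (Θ : Pt A ℚ_[p] →* (Fin n → ℚ_[p]ˣ))
    (c : Pt A ℚ →* (Fin n → Eˣ))
    (h : ∀ x j, ((Θ (toK A ℚ_[p] x) j : ℚ_[p]ˣ) : ℚ_[p]) = σ (c x j : E))
    (L : Subgroup (Pt A ℚ)) :
    (fun x => Multiplicative.toAdd (pairHom lg n (Θ (toK A ℚ_[p] x)))) '' (L : Set (Pt A ℚ)) =
      epv σ lg '' ((L.map c : Subgroup (Fin n → Eˣ)) : Set (Fin n → Eˣ)) := by
  have h' : ∀ x, Θ (toK A ℚ_[p] x) = fun i => Units.map σ.toMonoidHom (c x i) :=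
    fun x => funext fun i => Units.ext (h x i)
  ext v
  constructor
  · rintro ⟨x, hx, rfl⟩
    exact ⟨c x, ⟨x, hx, rfl⟩, by simp only [h']; rfl⟩
  · rintro ⟨_, ⟨x, hx, rfl⟩, rfl⟩
    exact ⟨x, hx, by simp only [h']; rfl⟩

end Images

theorem freeOfRank_map {G G' : Type*} [CommGroup G] [CommGroup G'] {c : G →* G'}
    (hc : Function.Injective c) {L : Subgroup G} {m : ℕ} (hL : FreeOfRank L m) :
    FreeOfRank (L.map c) m := by
  obtain ⟨e⟩ := hL
  exact ⟨(L.equivMapOfInjective c hc).symm.trans e⟩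

/-- The values of the basis characters determine a point. -/
theorem theta_injective {K : Type*} [NormedField K] [Algebra ℚ K] (e : Splitting A K n')
    (Θ : Pt A K →* (Fin n → Kˣ)) (M : Fin n' → Fin n → ℤ)
    (hM : ∀ (y : Pt A K) (i : Fin n'),
      bc y (gl e (Pi.single i 1)) = ∏ j, ((Θ y j : Kˣ) : K) ^ M i j) :
    Function.Injective Θ := by
  intro y y' h
  have h1 : ∀ i, bc y (gl e (Pi.single i 1)) = bc y' (gl e (Pi.single i 1)) := by
    intro i
    rw [hM, hM, h]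
  have h2 : ∀ (y : Pt A K) (z : Fin n' → ℤ),
      bc y (gl e z) = ∏ i, bc y (gl e (Pi.single i 1)) ^ z i := by
    intro y z
    set g : Multiplicative (Fin n' → ℤ) →* Kˣ :=
      MonoidHom.mk' (fun z => Units.mk0 (bc y (gl e (Multiplicative.toAdd z)))
        (bc_gl_ne_zero e y _)) (by
        intro z w
        apply Units.ext
        show bc y (gl e (Multiplicative.toAdd (z * w))) = _
        rw [toAdd_mul, gl_add, map_mul]
        rfl) with hg
    have h3 : Multiplicative.ofAdd z =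
        ∏ i, (Multiplicative.ofAdd (Pi.single i (1 : ℤ) : Fin n' → ℤ)) ^ z i := by
      have h2 : z = ∑ i, z i • (Pi.single i (1 : ℤ) : Fin n' → ℤ) := by
        funext j
        simp [Finset.sum_apply, Pi.single_apply]
      conv_lhs => rw [h2]
      rw [ofAdd_sum]
      rfl
    have h4 := congrArg (fun u => ((g u : Kˣ) : K)) h3
    simp only [map_prod, map_zpow, Units.coe_prod, Units.val_zpow_eq_zpow_val] at h4
    exact h4
  apply ev_ext
  intro a
  rw [ev_eq_sum e y a, ev_eq_sum e y' a]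
  refine Finsupp.sum_congr fun z _ => ?_
  rw [h2 y, h2 y']
  simp only [h1]

/-! ## The two sources for the rank `d` -/

/-- `d` is at most the rank of the `q`-adic logarithms of the values of the characters. -/
def LogRankAt {E : Type*} [Field E] (c : Pt A ℚ →* (Fin n → Eˣ)) (L : Subgroup (Pt A ℚ)) (d : ℕ) :
    Prop :=
  ∃ (q : ℕ) (_ : Fact q.Prime) (τ : E →+* ℚ_[q]) (lg : ℚ_[q]ˣ →* Multiplicative ℚ_[q]),
    d ≤ Module.finrank ℚ_[q] (Submodule.span ℚ_[q]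
      (elv τ lg '' ((L.map c : Subgroup (Fin n → Eˣ)) : Set (Fin n → Eˣ))))

theorem logRankAt_of_theta {E : Type*} [Field E] (c : Pt A ℚ →* (Fin n → Eˣ)) {q : ℕ}
    [hq : Fact q.Prime] (τ : E →+* ℚ_[q]) (Θ : Pt A ℚ_[q] →* (Fin n → ℚ_[q]ˣ))
    (hΘ : Continuous fun y (j : Fin n) => ((Θ y j : ℚ_[q]ˣ) : ℚ_[q]))
    (hinj : Function.Injective Θ)
    (h : ∀ x j, ((Θ (toK A ℚ_[q] x) j : ℚ_[q]ˣ) : ℚ_[q]) = τ (c x j : E))
    {L : Subgroup (Pt A ℚ)} {d : ℕ} (hd : RankAt q L d) : LogRankAt c L d := by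
  obtain ⟨N, lg, hN, hlg, hker⟩ := exists_padicLog q
  refine ⟨q, hq, τ, lg, ?_⟩
  have h1 := rankAt_le_theta lg hN hlg hker Θ hΘ hinj hd
  rwa [image_elv τ lg Θ c h L] at h1

theorem logRankAt_le {E : Type*} [Field E] {c : Pt A ℚ →* (Fin n → Eˣ)} {L : Subgroup (Pt A ℚ)}
    {d : ℕ} (h : LogRankAt c L d) : d ≤ n := by
  obtain ⟨q, hq, τ, lg, h⟩ := h
  refine h.trans ((Submodule.finrank_le _).trans ?_)
  rw [Module.finrank_fin_fun]

/-! ## The places -/

/-- The real place, if the torus is split there. -/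
theorem real_place (e₀ : Splitting A (AlgebraicClosure ℚ) n)
    (E : IntermediateField ℚ (AlgebraicClosure ℚ)) [FiniteDimensional ℚ E]
    (hEdef : E = IntermediateField.adjoin ℚ {a | ∃ (x : Pt A ℚ) (j : Fin n), a = cval e₀ x j})
    (c : Pt A ℚ →* (Fin n → Eˣ)) (hE : ∀ x j, cval e₀ x j ∈ E) (hinj : Function.Injective c)
    (hc : ∀ x j, (c x j : E) = ⟨cval e₀ x j, hE x j⟩) {L : Subgroup (Pt A ℚ)} {m : ℕ}
    (hL : FreeOfRank L m) (e : Splitting A ℝ n') {d : ℕ} (hdm : d ≤ m) (hd : LogRankAt c L d) :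
    ((min d 3 : ℕ) : ℕ∞) ≤ ell ℝ L := by
  have hnf : NumberField E :=
    { to_charZero := inferInstance, to_finiteDimensional := inferInstance }
  obtain ⟨σ, Θ, M, w, hΘ, hσ, hw, hM⟩ := exists_theta_of_splitting e₀ ℝ e E hEdef
  have hcΘ : ∀ x j, ((Θ (toK A ℝ x) j : ℝˣ) : ℝ) = σ (c x j : E) := by
    intro x j
    rw [hσ x j (hE x j), hc]
  have hell := min_le_ell_real_theta Θ hΘ hL
  rw [image_elv σ logAbs Θ c hcΘ L] at hell
  refine le_trans ?_ hell
  have h1 : min d 3 ≤ min m (Module.finrank ℝ (Submodule.span ℝ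
      (elv σ logAbs '' ((L.map c : Subgroup (Fin n → Eˣ)) : Set (Fin n → Eˣ)))) + 1) := by
    rcases Nat.lt_or_ge d 3 with h | h
    · rcases Nat.eq_zero_or_pos d with h0 | h0
      · omega
      · have := one_le_real_nf σ (freeOfRank_map hinj hL) (by omega)
        omega
    · obtain ⟨q, hq, τ, lq, hd⟩ := hd
      have := two_le_real_nf σ (freeOfRank_map hinj hL) τ lq (h.trans hd)
      omega
  exact_mod_cast h1

end Pool.Agent.Lib.H22T
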