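import Pool.Agent.Lib.H22T.T7
import Pool.Agent.Lib.H22T.T6c
import Pool.Agent.Lib.H22T.B1
import Pool.Agent.Lib.H22T.G1
import Pool.Agent.Lib.H22T.G2
import Pool.Agent.Lib.H22T.G4
import Pool.Agent.Lib.H22T.G5

/-!
# Tori over `ℚ`: the ranks at the split places, values in a group of small rank
-/

namespace Pool.Agent.Lib.H22T

open Pool.Agent.Lib.H22F301 (coord pairHom valHom logAbs exists_padicLog exists_basis)
open scoped TensorProduct

variable {A : Type*} [CommRing A] [HopfAlgebra ℚ A] [Coalgebra.IsCocomm ℚ A] {n n' : ℕ}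

theorem chi_eq_prod {K : Type*} [NormedField K] [Algebra ℚ K] (e : Splitting A K n')
    (z : Fin n' → ℤ) (x : Pt A ℚ) : chi e z x = ∏ i, chi e (Pi.single i 1) x ^ z i := by
  set g : Multiplicative (Fin n' → ℤ) →* Kˣ :=
    MonoidHom.mk' (fun z => Units.mk0 (bc (toK A K x) (gl e (Multiplicative.toAdd z)))
      (bc_gl_ne_zero e _ _)) (by
      intro z w
      apply Units.ext
      show bc (toK A K x) (gl e (Multiplicative.toAdd (z * w))) = _
      rw [toAdd_mul, gl_add, map_mul]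
      rfl) with hg
  have h3 : Multiplicative.ofAdd z =
      ∏ i, (Multiplicative.ofAdd (Pi.single i (1 : ℤ) : Fin n' → ℤ)) ^ z i := by
    have h2 : z = ∑ i, z i • (Pi.single i (1 : ℤ) : Fin n' → ℤ) := by
      funext j
      simp [Finset.sum_apply, Pi.single_apply]
    conv_lhs => rw [h2]
    rw [ofAdd_sum]
    rfl
  have h4 := congrArg (fun u => ((g u : Kˣ) : K)) h3
  simp only [map_prod, map_zpow, Units.coe_prod, Units.val_zpow_eq_zpow_val] at h4
  exact h4

/-- Values of characters as products of powers of the values of the basis characters. -/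
theorem exists_repr {K E : Type*} [NormedField K] [Algebra ℚ K] [Field E] (e : Splitting A K n')
    (σ : E →+* K) (c : Pt A ℚ →* (Fin n → Eˣ)) (w : Fin n → Fin n' → ℤ)
    (h1 : ∀ (x : Pt A ℚ) (j : Fin n), σ (c x j : E) = chi e (w j) x) {S : Set (Pt A ℚ)}
    {x : Pt A ℚ} (hx : x ∈ S) (j : Fin n) :
    ∃ (N : ℕ) (s : Fin N → K) (a : Fin N → ℤ), (∀ t, s t ∈ charValues e S) ∧
      σ (c x j : E) = ∏ t, s t ^ a t :=
  ⟨n', fun t => chi e (Pi.single t 1) x, w j, fun t => ⟨x, hx, t, rfl⟩, by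
    rw [h1, chi_eq_prod]⟩

theorem prod_zpow_field {K : Type*} [Field K] {u : K} (hu : u ≠ 0) {ι : Type*} (s : Finset ι)
    (a : ι → ℤ) : ∏ i ∈ s, u ^ a i = u ^ ∑ i ∈ s, a i := by
  classical
  induction s using Finset.induction_on with
  | empty => simp
  | insert b s hb ih => rw [Finset.prod_insert hb, Finset.sum_insert hb, zpow_add₀ hu, ih]

/-- If not all valuations vanish, three units among the values are dependent if the values lie in a
group of rank three. -/
theorem dep_of_rank_three {p : ℕ} [Fact p.Prime] {E K : Type*} [Field E] [Field K]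
    (σ : E →+* ℚ_[p]) (ι : E →+* K) {S : Set K} (h : RankLE S 3) (u₀ : Eˣ)
    (hu₀ : ezval σ u₀ ≠ 0) (y : Fin 3 → Eˣ) (hy0 : ∀ i, ezval σ (y i) = 0)
    (hu : ι (u₀ : E) ∈ S) (hy : ∀ i, ι (y i : E) ∈ S) :
    ∃ c : Fin 3 → ℤ, c ≠ 0 ∧ ∏ i, y i ^ c i = 1 := by
  obtain ⟨c, hc, hprod⟩ := dep_of_rankLE ι h (Fin.cons u₀ y : Fin (3 + 1) → Eˣ) (by
    intro i
    refine Fin.cases ?_ (fun i => ?_) i
    · exact ⟨1, fun _ => ι (u₀ : E), fun _ => 1, fun _ => hu, by simp⟩
    · exact ⟨1, fun _ => ι (y i : E), fun _ => 1, fun _ => hy i, by simp⟩)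
  have h1 := congrArg (ezval σ) hprod
  have h2 : ezval σ (1 : Eˣ) = 0 := by
    have := ezval_prod σ (∅ : Finset (Fin 1)) (fun _ => (1 : Eˣ)) (fun _ => 0)
    simpa using this
  rw [ezval_prod, h2, Fin.sum_univ_succ] at h1
  simp only [Fin.cons_zero, Fin.cons_succ, hy0, mul_zero, Finset.sum_const_zero, add_zero,
    mul_eq_zero] at h1
  have h3 : c 0 = 0 := h1.resolve_right hu₀
  rw [Fin.prod_univ_succ] at hprod
  simp only [Fin.cons_zero, Fin.cons_succ, h3, zpow_zero, one_mul] at hprod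
  refine ⟨fun i => c i.succ, fun h => hc ?_, hprod⟩
  funext i
  refine Fin.cases h3 (fun i => ?_) i
  exact congrFun h i

/-- The finite places at which the torus is split. -/
theorem finite_place (e₀ : Splitting A (AlgebraicClosure ℚ) n)
    (E : IntermediateField ℚ (AlgebraicClosure ℚ)) [FiniteDimensional ℚ E]
    (hEdef : E = IntermediateField.adjoin ℚ {a | ∃ (x : Pt A ℚ) (j : Fin n), a = cval e₀ x j})
    (c : Pt A ℚ →* (Fin n → Eˣ)) (hE : ∀ x j, cval e₀ x j ∈ E) (hinj : Function.Injective c)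
    (hc : ∀ x j, (c x j : E) = ⟨cval e₀ x j, hE x j⟩) {L : Subgroup (Pt A ℚ)} {m : ℕ}
    (hL : FreeOfRank L m) {p : ℕ} [Fact p.Prime] (e : Splitting A ℚ_[p] n') :
    ∃ k : ℕ, (k : ℕ∞) ≤ ell ℚ_[p] L ∧
      ∀ d, LogRankAt c L d →
        ((logRank e L + 3 ≤ m ∨ ¬ UnitsInPlane e L) → min m (min d (logRank e L + 2)) ≤ k) ∧
        (RankLE (charValues e (unitPart e L)) 2 → d ≤ k) ∧
        (RankLE (charValuesBar e₀ (L : Set (Pt A ℚ))) 3 → logRank e L ≠ 0 → d ≤ k) := by
  have hnf : NumberField E :=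
    { to_charZero := inferInstance, to_finiteDimensional := inferInstance }
  obtain ⟨σ, Θ, M, w, hΘ, hσ, hw, hM⟩ := exists_theta_of_splitting e₀ ℚ_[p] e E hEdef
  have hcΘ : ∀ x j, ((Θ (toK A ℚ_[p] x) j : ℚ_[p]ˣ) : ℚ_[p]) = σ (c x j : E) := by
    intro x j
    rw [hσ x j (hE x j), hc]
  have h1 : ∀ (x : Pt A ℚ) (j : Fin n), σ (c x j : E) = chi e (w j) x := by
    intro x j
    rw [← hcΘ, hw]
    rfl
  have h2 : ∀ (x : Pt A ℚ) (i : Fin n'),
      chi e (Pi.single i 1) x = ∏ j, σ (c x j : E) ^ M i j := by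
    intro x i
    unfold chi
    rw [hM]
    exact Finset.prod_congr rfl fun j _ => by rw [hcΘ]
  obtain ⟨N, lg, hN, hlg, hker⟩ := exists_padicLog p
  have hr := logRank_eq_evalRank e σ c M w h1 h2 hL
  have hell := finrank_theta_le_ell hlg Θ hΘ L
  rw [image_epv σ lg Θ c hcΘ L] at hell
  obtain ⟨r1, r2, r3, r4, ⟨y, hy, r5⟩, r6, -⟩ :=
    rank_val_nf σ hN hlg hker (freeOfRank_map hinj hL)
  -- three values which are units
  have hdep : (∀ (j : Fin 3 → Fin m) (i : Fin 3 → Fin n), ∃ c : Fin 3 → ℤ, c ≠ 0 ∧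
      ∏ k, y (j k) (i k) ^ c k = 1) → ∀ (q : ℕ) [Fact q.Prime] (τ : E →+* ℚ_[q])
      (lq : ℚ_[q]ˣ →* Multiplicative ℚ_[q]),
        Module.finrank ℚ_[q] (Submodule.span ℚ_[q]
          (elv τ lq '' ((L.map c : Subgroup (Fin n → Eˣ)) : Set (Fin n → Eˣ)))) ≤
        Module.finrank ℚ_[p] (Submodule.span ℚ_[p]
          (epv σ lg '' ((L.map c : Subgroup (Fin n → Eˣ)) : Set (Fin n → Eˣ)))) := by
    intro hd q hq τ lq
    apply r5
    refine rank_le_of_rank_two y hd (lg.comp (Units.map σ.toMonoidHom))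
      (lq.comp (Units.map τ.toMonoidHom)) ?_ ?_
    · intro j i h
      exact ⟨N, hN, torsion_of_elg σ hker ((hy j).2 i) h⟩
    · intro j₁ i₁ j₂ i₂ h
      exact (transcendental_lg_nf σ hN hlg hker h (norm_of_ezval σ ((hy j₁).2 i₁))
        (norm_of_ezval σ ((hy j₂).2 i₂))).2
  -- the elements `y j` come from elements of `L`
  have hyx : ∀ j, ∃ x ∈ L, x ∈ unitPart e L ∧ y j = c x := by
    intro j
    obtain ⟨⟨x, hx, hxy⟩, h3⟩ := hy j
    refine ⟨x, hx, (mem_unitPart_iff e σ c M w h1 h2 hx).2 fun k => ?_, hxy.symm⟩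
    rw [hxy]
    exact h3 k
  choose x hxL hxU hyx using hyx
  refine ⟨_, hell, ?_⟩
  rintro d ⟨q, hq, τ, lq, hd⟩
  refine ⟨fun hm => ?_, fun h => hd.trans (hdep ?_ q τ lq), fun h hv =>
    hd.trans (hdep ?_ q τ lq)⟩
  · rw [← hr] at r1 r2 r3 r4 r6
    rcases Nat.lt_or_ge (logRank e L) m with h | h
    · have h3 := r3 h
      rcases Nat.lt_or_ge d (logRank e L + 2) with h4 | h4
      · omega
      · rcases Nat.lt_or_ge m (logRank e L + 3) with h5 | h5
        · have h6 : ¬ EPlane σ (L.map c) := fun h6 =>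
            (hm.resolve_left (by omega)) (unitsInPlane_of_ePlane e σ c M w h1 h2 h6)
          rcases Nat.lt_or_ge m (logRank e L + 2) with h7 | h7
          · omega
          · have := r6 (by omega) h6
            omega
        · have := r4 h5 q τ lq (h4.trans hd)
          omega
    · omega
  · intro j i
    apply dep_of_rankLE σ h
    intro k
    rw [hyx]
    exact exists_repr e σ c w h1 (hxU (j k)) (i k)
  · intro j i
    have h0 : ∃ x ∈ L, ∃ j, ezval σ (c x j) ≠ 0 := by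
      by_contra hno
      push Not at hno
      apply hv
      rw [hr, evalRank, Submodule.finrank_eq_zero, Submodule.span_eq_bot]
      rintro _ ⟨_, ⟨x, hx, rfl⟩, rfl⟩
      funext j
      simp only [hno x hx j, Int.cast_zero, Pi.zero_apply]
    obtain ⟨x₀, hx₀, j₀, hne⟩ := h0
    refine dep_of_rank_three σ (algebraMap E (AlgebraicClosure ℚ)) h (c x₀ j₀) hne _
      (fun k => (hy (j k)).2 (i k)) ⟨x₀, hx₀, j₀, ?_⟩ fun k => ⟨x (j k), hxL (j k), i k, ?_⟩
    · rw [hc]
      rfl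
    · rw [hyx, hc]
      rfl

/-- The real place, if the torus is split there and the values of the characters generate a group of
rank at most two. -/
theorem real_place_two (e₀ : Splitting A (AlgebraicClosure ℚ) n)
    (E : IntermediateField ℚ (AlgebraicClosure ℚ)) [FiniteDimensional ℚ E]
    (hEdef : E = IntermediateField.adjoin ℚ {a | ∃ (x : Pt A ℚ) (j : Fin n), a = cval e₀ x j})
    (c : Pt A ℚ →* (Fin n → Eˣ)) (hE : ∀ x j, cval e₀ x j ∈ E) (hinj : Function.Injective c)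
    (hc : ∀ x j, (c x j : E) = ⟨cval e₀ x j, hE x j⟩) {L : Subgroup (Pt A ℚ)} {m : ℕ}
    (hL : FreeOfRank L m) (e : Splitting A ℝ n') {d : ℕ} (hd : LogRankAt c L d)
    (h : RankLE (charValuesBar e₀ (L : Set (Pt A ℚ))) 2) :
    ((min m (d + 1) : ℕ) : ℕ∞) ≤ ell ℝ L := by
  have hnf : NumberField E :=
    { to_charZero := inferInstance, to_finiteDimensional := inferInstance }
  obtain ⟨σ, Θ, M, w, hΘ, hσ, hw, hM⟩ := exists_theta_of_splitting e₀ ℝ e E hEdef
  have hcΘ : ∀ x j, ((Θ (toK A ℝ x) j : ℝˣ) : ℝ) = σ (c x j : E) := by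
    intro x j
    rw [hσ x j (hE x j), hc]
  have hell := min_le_ell_real_theta Θ hΘ hL
  rw [image_elv σ logAbs Θ c hcΘ L] at hell
  refine le_trans ?_ hell
  have h3 : d ≤ Module.finrank ℝ (Submodule.span ℝ
      (elv σ logAbs '' ((L.map c : Subgroup (Fin n → Eˣ)) : Set (Fin n → Eˣ)))) := by
    obtain ⟨q, hq, τ, lq, hd⟩ := hd
    obtain ⟨f, hf, -⟩ := exists_basis (freeOfRank_map hinj hL)
    have hfL : ∀ j, f j ∈ L.map c := gen_mem hf
    have hfx : ∀ j, ∃ x ∈ L, f j = c x := by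
      intro j
      obtain ⟨x, hx, hxy⟩ := hfL j
      exact ⟨x, hx, hxy.symm⟩
    choose x hxL hfx using hfx
    refine (hd.trans (finrank_elv_le τ lq hf)).trans (le_trans (b := Module.finrank ℝ
      (Submodule.span ℝ (Set.range fun (j : Fin m) (i : Fin n) => ehv σ logAbs (f j i)))) ?_ ?_)
    · refine rank_le_of_rank_two f ?_ (logAbs.comp (Units.map σ.toMonoidHom))
        (lq.comp (Units.map τ.toMonoidHom)) ?_ ?_
      · intro j i
        apply dep_of_rankLE (algebraMap E (AlgebraicClosure ℚ)) h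
        intro k
        refine ⟨1, fun _ => algebraMap E (AlgebraicClosure ℚ) (f (j k) (i k) : E), fun _ => 1,
          fun _ => ⟨x (j k), hxL (j k), i k, ?_⟩, by simp⟩
        rw [hfx, hc]
        rfl
      · intro j i h
        exact ⟨2, by norm_num, sq_of_elog σ h⟩
      · intro j₁ i₁ j₂ i₂ h
        exact (transcendental_log_nf σ h).2
    · apply Submodule.finrank_mono
      apply Submodule.span_mono
      rintro _ ⟨j, rfl⟩
      exact ⟨f j, hfL j, rfl⟩
  have h4 : min m (d + 1) ≤ min m (Module.finrank ℝ (Submodule.span ℝ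
      (elv σ logAbs '' ((L.map c : Subgroup (Fin n → Eˣ)) : Set (Fin n → Eˣ)))) + 1) := by
    omega
  exact_mod_cast h4

/-! ## Block triangular systems -/

section Block

variable {E : Type*} [Field E]

/-- The value in `E` of the character with exponent `z`. -/
noncomputable def ech (c : Pt A ℚ →* (Fin n → Eˣ)) (M : Fin n' → Fin n → ℤ) (x : Pt A ℚ)
    (z : Fin n' → ℤ) : Eˣ :=
  ∏ j, c x j ^ (∑ i, M i j * z i)

theorem ech_mul (c : Pt A ℚ →* (Fin n → Eˣ)) (M : Fin n' → Fin n → ℤ) (x y : Pt A ℚ)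
    (z : Fin n' → ℤ) : ech c M (x * y) z = ech c M x z * ech c M y z := by
  unfold ech
  rw [← Finset.prod_mul_distrib]
  refine Finset.prod_congr rfl fun j _ => ?_
  rw [map_mul, Pi.mul_apply, mul_zpow]

theorem ech_add (c : Pt A ℚ →* (Fin n → Eˣ)) (M : Fin n' → Fin n → ℤ) (x : Pt A ℚ)
    (z w : Fin n' → ℤ) : ech c M x (z + w) = ech c M x z * ech c M x w := by
  unfold ech
  rw [← Finset.prod_mul_distrib]
  refine Finset.prod_congr rfl fun j _ => ?_
  rw [← zpow_add, ← Finset.sum_add_distrib]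
  congr 1
  refine Finset.sum_congr rfl fun i _ => ?_
  rw [Pi.add_apply, mul_add]

theorem ech_zsmul (c : Pt A ℚ →* (Fin n → Eˣ)) (M : Fin n' → Fin n → ℤ) (x : Pt A ℚ)
    (a : ℤ) (z : Fin n' → ℤ) : ech c M x (a • z) = ech c M x z ^ a := by
  unfold ech
  rw [← Finset.prod_zpow]
  refine Finset.prod_congr rfl fun j _ => ?_
  rw [← zpow_mul, Finset.sum_mul]
  congr 1
  refine Finset.sum_congr rfl fun i _ => ?_
  rw [Pi.smul_apply, smul_eq_mul]
  ring

theorem chi_eq_ech {K : Type*} [NormedField K] [Algebra ℚ K] (e : Splitting A K n') (σ : E →+* K)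
    (c : Pt A ℚ →* (Fin n → Eˣ)) (M : Fin n' → Fin n → ℤ)
    (h2 : ∀ (x : Pt A ℚ) (i : Fin n'),
      chi e (Pi.single i 1) x = ∏ j, σ (c x j : E) ^ M i j) (x : Pt A ℚ) (z : Fin n' → ℤ) :
    chi e z x = σ (ech c M x z : E) := by
  unfold ech
  rw [chi_eq_prod, Units.coe_prod, map_prod]
  simp only [h2]
  simp only [← Finset.prod_zpow, ← zpow_mul]
  rw [Finset.prod_comm]
  refine Finset.prod_congr rfl fun j _ => ?_
  rw [Units.val_zpow_eq_zpow_val, map_zpow₀]
  exact prod_zpow_field ((map_ne_zero σ).2 (Units.ne_zero _)) _ _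

theorem ech_mul_eq {K : Type*} [NormedField K] [Algebra ℚ K] (e : Splitting A K n') (σ : E →+* K)
    (c : Pt A ℚ →* (Fin n → Eˣ)) (M : Fin n' → Fin n → ℤ)
    (h2 : ∀ (x : Pt A ℚ) (i : Fin n'),
      chi e (Pi.single i 1) x = ∏ j, σ (c x j : E) ^ M i j) {x y x' : Pt A ℚ} {z w z' : Fin n' → ℤ}
    (h : chi e z' x' = chi e z x * chi e w y) : ech c M x' z' = ech c M x z * ech c M y w := by
  apply Units.ext
  apply σ.injective
  rw [← chi_eq_ech e σ c M h2, h, chi_eq_ech e σ c M h2, chi_eq_ech e σ c M h2, Units.val_mul,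
    map_mul]

theorem ech_indep {K : Type*} [NormedField K] [Algebra ℚ K] (e : Splitting A K n') (σ : E →+* K)
    (c : Pt A ℚ →* (Fin n → Eˣ)) (M : Fin n' → Fin n → ℤ)
    (h2 : ∀ (x : Pt A ℚ) (i : Fin n'),
      chi e (Pi.single i 1) x = ∏ j, σ (c x j : E) ^ M i j) {y₁ y₂ : Pt A ℚ}
    {w₁ w₂ : Fin n' → ℤ}
    (h0 : ∀ a b : ℤ, chi e (a • w₁) y₁ * chi e (b • w₂) y₂ = 1 → a = 0 ∧ b = 0) (a b : ℤ)
    (h : ech c M y₁ w₁ ^ a * ech c M y₂ w₂ ^ b = 1) : a = 0 ∧ b = 0 := by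
  apply h0
  rw [chi_eq_ech e σ c M h2, chi_eq_ech e σ c M h2, ech_zsmul, ech_zsmul, ← map_mul,
    ← Units.val_mul, h, Units.val_one, map_one]

theorem isTors_chi_iff {K : Type*} [NormedField K] [Algebra ℚ K] (e : Splitting A K n')
    (σ : E →+* K) (c : Pt A ℚ →* (Fin n → Eˣ)) (M : Fin n' → Fin n → ℤ)
    (h2 : ∀ (x : Pt A ℚ) (i : Fin n'),
      chi e (Pi.single i 1) x = ∏ j, σ (c x j : E) ^ M i j) (x : Pt A ℚ) (z : Fin n' → ℤ) :
    IsTors (chi e z x) ↔ ∃ N : ℕ, 0 < N ∧ ech c M x z ^ N = 1 := by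
  unfold IsTors
  rw [chi_eq_ech e σ c M h2]
  constructor
  · rintro ⟨N, hN, h⟩
    refine ⟨N, hN, Units.ext (σ.injective ?_)⟩
    rw [Units.val_pow_eq_pow_val, map_pow, h, Units.val_one, map_one]
  · rintro ⟨N, hN, h⟩
    refine ⟨N, hN, ?_⟩
    rw [← map_pow, ← Units.val_pow_eq_pow_val, h, Units.val_one, map_one]

end Block

/-- The finite places: the lower bound given by a block triangular system. -/
theorem finite_place_block (e₀ : Splitting A (AlgebraicClosure ℚ) n)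
    (E : IntermediateField ℚ (AlgebraicClosure ℚ)) [FiniteDimensional ℚ E]
    (hEdef : E = IntermediateField.adjoin ℚ {a | ∃ (x : Pt A ℚ) (j : Fin n), a = cval e₀ x j})
    (c : Pt A ℚ →* (Fin n → Eˣ)) (hE : ∀ x j, cval e₀ x j ∈ E) (hinj : Function.Injective c)
    (hc : ∀ x j, (c x j : E) = ⟨cval e₀ x j, hE x j⟩) {L : Subgroup (Pt A ℚ)} {m : ℕ}
    (hL : FreeOfRank L m) {p : ℕ} [Fact p.Prime] (e : Splitting A ℚ_[p] n') {k : ℕ}
    (hk : BlockRank (fun x z => chi e z x) (unitPart e L) Set.univ k) :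
    ((logRank e L + k : ℕ) : ℕ∞) ≤ ell ℚ_[p] L := by
  have hnf : NumberField E :=
    { to_charZero := inferInstance, to_finiteDimensional := inferInstance }
  obtain ⟨σ, Θ, M, w, hΘ, hσ, hw, hM⟩ := exists_theta_of_splitting e₀ ℚ_[p] e E hEdef
  have hcΘ : ∀ x j, ((Θ (toK A ℚ_[p] x) j : ℚ_[p]ˣ) : ℚ_[p]) = σ (c x j : E) := by
    intro x j
    rw [hσ x j (hE x j), hc]
  have h1 : ∀ (x : Pt A ℚ) (j : Fin n), σ (c x j : E) = chi e (w j) x := by
    intro x j
    rw [← hcΘ, hw]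
    rfl
  have h2 : ∀ (x : Pt A ℚ) (i : Fin n'),
      chi e (Pi.single i 1) x = ∏ j, σ (c x j : E) ^ M i j := by
    intro x i
    unfold chi
    rw [hM]
    exact Finset.prod_congr rfl fun j _ => by rw [hcΘ]
  obtain ⟨N, lg, hN, hlg, hker⟩ := exists_padicLog p
  have hr := logRank_eq_evalRank e σ c M w h1 h2 hL
  have hell := finrank_theta_le_ell hlg Θ hΘ L
  rw [image_epv σ lg Θ c hcΘ L] at hell
  obtain ⟨-, -, -, -, -, -, r7⟩ := rank_val_nf σ hN hlg hker (freeOfRank_map hinj hL)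
  refine le_trans ?_ hell
  set S : Subgroup (Pt A ℚ) :=
    { carrier := {x | x ∈ L ∧ ∀ k, ezval σ (c x k) = 0}
      mul_mem' := by
        rintro x y ⟨hx, hx0⟩ ⟨hy, hy0⟩
        refine ⟨L.mul_mem hx hy, fun k => ?_⟩
        have h := ehv_mul σ (valHom p) (c x k) (c y k)
        simp only [ehv_valHom] at h
        rw [map_mul, Pi.mul_apply]
        have h' : ezval σ (c x k * c y k) = ezval σ (c x k) + ezval σ (c y k) := by
          exact_mod_cast h
        rw [h', hx0, hy0, add_zero]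
      one_mem' := by
        refine ⟨L.one_mem, fun k => ?_⟩
        have := ezval_prod σ (∅ : Finset (Fin 1)) (fun _ => (1 : Eˣ)) (fun _ => 0)
        rw [map_one, Pi.one_apply]
        simpa using this
      inv_mem' := by
        rintro x ⟨hx, hx0⟩
        refine ⟨L.inv_mem hx, fun k => ?_⟩
        have h := ehv_zpow σ (valHom p) (c x k) (-1)
        simp only [ehv_valHom] at h
        rw [map_inv, Pi.inv_apply, ← zpow_neg_one]
        have h' : ezval σ (c x k ^ (-1 : ℤ)) = (-1) * ezval σ (c x k) := by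
          exact_mod_cast h
        rw [h', hx0, mul_zero] } with hSdef
  have hzX : ∀ x ∈ S, ∀ z, ezval σ (ech c M x z) = 0 := by
    rintro x ⟨-, hx0⟩ z
    unfold ech
    rw [ezval_prod]
    exact Finset.sum_eq_zero fun j _ => by rw [hx0, mul_zero]
  obtain ⟨ι, _, x, hcard, hx, hli⟩ := exists_indep_of_blockRank
    (fun (x : Pt A ℚ) (z : Fin n' → ℤ) => chi e z x) (fun x z => ehv σ lg (ech c M x z))
    (fun x y z => by rw [ech_mul, ehv_mul]) (fun x z w => by rw [ech_add, ehv_mul]) S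
    (fun x hx z => by
      rw [isTors_chi_iff e σ c M h2]
      exact ⟨fun h => ⟨N, hN, torsion_of_elg σ hker (hzX x hx z) h⟩,
        fun ⟨N', hN', h⟩ => ehv_torsion σ lg hN' h⟩)
    (fun x y x' z w z' h => by rw [ech_mul_eq e σ c M h2 h, ehv_mul])
    (fun y₁ hy₁ y₂ hy₂ w₁ w₂ h0 => transcendental_lg_nf σ hN hlg hker (ech_indep e σ c M h2 h0)
      (norm_of_ezval σ (hzX _ hy₁ _)) (norm_of_ezval σ (hzX _ hy₂ _)))
    (fun x z hx s t h hs ht => six_lg_nf σ hN hlg hker (fun l k => ech c M (x l) (z k))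
      (fun l k => norm_of_ezval σ (hzX _ (hx l) _)) s t h hs ht)
    (fun x z hx s t h hs ht => six_lg_nf σ hN hlg hker (fun l k => ech c M (x k) (z l))
      (fun l k => norm_of_ezval σ (hzX _ (hx k) _)) s t h hs ht)
    hk (fun x hx => ⟨hx.1, (mem_unitPart_iff e σ c M w h1 h2 hx.1).1 hx⟩)
  have hli2 : LinearIndependent ℚ_[p] (fun i => epv σ lg (c (x i))) := by
    set F : (Fin (n + n) → ℚ_[p]) →ₗ[ℚ_[p]] (↥(Set.univ : Set (Fin n' → ℤ)) → ℚ_[p]) :=
      LinearMap.pi fun z => ∑ j : Fin n, ((∑ i, M i j * (z : Fin n' → ℤ) i : ℤ) : ℚ_[p]) •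
        LinearMap.proj (Fin.natAdd n j) with hF
    apply LinearIndependent.of_comp F
    convert hli using 1
    funext i z
    rw [Function.comp_apply, hF, LinearMap.pi_apply, LinearMap.sum_apply]
    simp only [LinearMap.smul_apply, LinearMap.proj_apply, epv_right, smul_eq_mul]
    rw [ech, ehv_prod]
  have h3 := r7 ι (fun i => c (x i)) (fun i => ⟨⟨x i, (hx i).1, rfl⟩,
    (mem_unitPart_iff e σ c M w h1 h2 (hx i).1).1 (hx i)⟩) hli2
  rw [← hr, hcard] at h3
  exact_mod_cast h3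

/-- The real place: the lower bound given by a block triangular system. -/
theorem real_place_block (e₀ : Splitting A (AlgebraicClosure ℚ) n)
    (E : IntermediateField ℚ (AlgebraicClosure ℚ)) [FiniteDimensional ℚ E]
    (hEdef : E = IntermediateField.adjoin ℚ {a | ∃ (x : Pt A ℚ) (j : Fin n), a = cval e₀ x j})
    (c : Pt A ℚ →* (Fin n → Eˣ)) (hE : ∀ x j, cval e₀ x j ∈ E)
    (hc : ∀ x j, (c x j : E) = ⟨cval e₀ x j, hE x j⟩) {L : Subgroup (Pt A ℚ)} {m : ℕ}
    (hL : FreeOfRank L m) (e : Splitting A ℝ n') {k : ℕ}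
    (hk : BlockRank (fun x z => chi e z x) (L : Set (Pt A ℚ)) Set.univ k) :
    ((min m (k + 1) : ℕ) : ℕ∞) ≤ ell ℝ L := by
  have hnf : NumberField E :=
    { to_charZero := inferInstance, to_finiteDimensional := inferInstance }
  obtain ⟨σ, Θ, M, w, hΘ, hσ, hw, hM⟩ := exists_theta_of_splitting e₀ ℝ e E hEdef
  have hcΘ : ∀ x j, ((Θ (toK A ℝ x) j : ℝˣ) : ℝ) = σ (c x j : E) := by
    intro x j
    rw [hσ x j (hE x j), hc]
  have h2 : ∀ (x : Pt A ℚ) (i : Fin n'),
      chi e (Pi.single i 1) x = ∏ j, σ (c x j : E) ^ M i j := by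
    intro x i
    unfold chi
    rw [hM]
    exact Finset.prod_congr rfl fun j _ => by rw [hcΘ]
  have hell := min_le_ell_real_theta Θ hΘ hL
  rw [image_elv σ logAbs Θ c hcΘ L] at hell
  refine le_trans ?_ hell
  obtain ⟨ι, _, x, hcard, hx, hli⟩ := exists_indep_of_blockRank
    (fun (x : Pt A ℚ) (z : Fin n' → ℤ) => chi e z x) (fun x z => ehv σ logAbs (ech c M x z))
    (fun x y z => by rw [ech_mul, ehv_mul]) (fun x z w => by rw [ech_add, ehv_mul]) L
    (fun x hx z => by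
      rw [isTors_chi_iff e σ c M h2]
      exact ⟨fun h => ⟨2, by norm_num, sq_of_elog σ h⟩,
        fun ⟨N', hN', h⟩ => ehv_torsion σ logAbs hN' h⟩)
    (fun x y x' z w z' h => by rw [ech_mul_eq e σ c M h2 h, ehv_mul])
    (fun y₁ hy₁ y₂ hy₂ w₁ w₂ h0 => transcendental_log_nf σ (ech_indep e σ c M h2 h0))
    (fun x z hx s t h hs ht => six_log_nf σ (fun l k => ech c M (x l) (z k)) s t h hs ht)
    (fun x z hx s t h hs ht => six_log_nf σ (fun l k => ech c M (x k) (z l)) s t h hs ht)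
    hk (fun x hx => hx)
  have hli2 : LinearIndependent ℝ (fun i => elv σ logAbs (c (x i))) := by
    set F : (Fin n → ℝ) →ₗ[ℝ] (↥(Set.univ : Set (Fin n' → ℤ)) → ℝ) :=
      LinearMap.pi fun z => ∑ j : Fin n, ((∑ i, M i j * (z : Fin n' → ℤ) i : ℤ) : ℝ) •
        LinearMap.proj j with hF
    apply LinearIndependent.of_comp F
    have hcomp : (F ∘ fun i => elv σ logAbs (c (x i))) =
        fun (i : ι) (z : ↥(Set.univ : Set (Fin n' → ℤ))) => ehv σ logAbs (ech c M (x i) z) := by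
      funext i z
      rw [Function.comp_apply, hF, LinearMap.pi_apply, LinearMap.sum_apply]
      simp only [LinearMap.smul_apply, LinearMap.proj_apply, elv, smul_eq_mul]
      rw [ech, ehv_prod]
    rw [hcomp]
    exact hli
  have h3 : k ≤ Module.finrank ℝ (Submodule.span ℝ
      (elv σ logAbs '' ((L.map c : Subgroup (Fin n → Eˣ)) : Set (Fin n → Eˣ)))) := by
    have h4 := finrank_span_eq_card hli2
    rw [← hcard, ← h4]
    apply Submodule.finrank_mono
    apply Submodule.span_mono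
    rintro _ ⟨i, rfl⟩
    exact ⟨c (x i), ⟨x i, hx i, rfl⟩, rfl⟩
  have h4 : min m (k + 1) ≤ min m (Module.finrank ℝ (Submodule.span ℝ
      (elv σ logAbs '' ((L.map c : Subgroup (Fin n → Eˣ)) : Set (Fin n → Eˣ)))) + 1) := by
    omega
  exact_mod_cast h4

end Pool.Agent.Lib.H22T
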