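import Mathlib

/-!
# Tori over `ℚ`, closures and topological ranks (definitions and first bounds)
-/

namespace Pool.Agent.Lib.H22T

open scoped TensorProduct
open WithConv Coalgebra

/-- The group `T(K)` of `K`-points of the affine group scheme `T = Spec A` over `ℚ`. -/
def Pt (A K : Type*) [CommRing A] [HopfAlgebra ℚ A] [Field K] [Algebra ℚ K] : Type _ :=
  WithConv (A →ₐ[ℚ] K)

section Group

variable {A K : Type*} [CommRing A] [HopfAlgebra ℚ A] [Coalgebra.IsCocomm ℚ A] [Field K]
  [Algebra ℚ K]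

noncomputable instance : CommMonoid (Pt A K) := inferInstanceAs (CommMonoid (WithConv (A →ₐ[ℚ] K)))

/-- The value of the function `a` at the point `x`. -/
def ev (x : Pt A K) : A →ₐ[ℚ] K := WithConv.ofConv x

theorem ev_ext {x y : Pt A K} (h : ∀ a, ev x a = ev y a) : x = y :=
  WithConv.ofConv_injective (AlgHom.ext h)

theorem ev_one (a : A) : ev (1 : Pt A K) a = algebraMap ℚ K (Coalgebra.counit a) := rfl

theorem ev_mul (x y : Pt A K) (a : A) :
    ev (x * y) a = Algebra.TensorProduct.lift (ev x) (ev y) (fun _ _ => .all _ _)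
      (Coalgebra.comul (R := ℚ) a) :=
  AlgHom.convMul_apply (R := ℚ) (C := A) (A := K) x y a

theorem ev_mul_repr {ι : Type*} (x y : Pt A K) {a : A} (r : Coalgebra.Repr ℚ a ι) :
    ev (x * y) a = ∑ i ∈ r.index, ev x (r.left i) * ev y (r.right i) := by
  rw [ev_mul, ← r.eq]
  simp

noncomputable instance : Inv (Pt A K) :=
  ⟨fun x => WithConv.toConv ((ev x).comp (HopfAlgebra.antipodeAlgHom ℚ A))⟩

theorem ev_inv (x : Pt A K) (a : A) : ev x⁻¹ a = ev x (HopfAlgebra.antipode ℚ a) := rfl

noncomputable instance : CommGroup (Pt A K) :=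
  { (inferInstance : CommMonoid (Pt A K)), (inferInstance : Inv (Pt A K)) with
    inv_mul_cancel := by
      intro x
      apply ev_ext
      intro a
      rw [ev_mul_repr _ _ (Coalgebra.Repr.arbitrary ℚ a), ev_one]
      simp only [ev_inv, ← map_mul, ← map_sum]
      rw [HopfAlgebra.sum_antipode_mul_eq_algebraMap_counit]
      simp }

/-- The map `T(ℚ) → T(K)`. -/
noncomputable def toK (A K : Type*) [CommRing A] [HopfAlgebra ℚ A] [Coalgebra.IsCocomm ℚ A]
    [Field K] [Algebra ℚ K] : Pt A ℚ →* Pt A K where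
  toFun x := WithConv.toConv ((Algebra.ofId ℚ K).comp (ev x))
  map_one' := by
    apply ev_ext; intro a; rfl
  map_mul' x y := by
    apply ev_ext
    intro a
    rw [ev_mul_repr _ _ (Coalgebra.Repr.arbitrary ℚ a)]
    show algebraMap ℚ K (ev (x * y) a) = _
    rw [ev_mul_repr _ _ (Coalgebra.Repr.arbitrary ℚ a), map_sum]
    simp only [map_mul]
    rfl

theorem ev_toK (x : Pt A ℚ) (a : A) : ev (toK A K x) a = algebraMap ℚ K (ev x a) := rfl

theorem toK_injective : Function.Injective (toK A K) := by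
  intro x y h
  apply ev_ext
  intro a
  apply (algebraMap ℚ K).injective
  rw [← ev_toK, ← ev_toK, h]

end Group

section Topology

variable {A K : Type*} [CommRing A] [HopfAlgebra ℚ A] [Coalgebra.IsCocomm ℚ A] [NormedField K]
  [Algebra ℚ K]

/-- The topology of `T(K)`: the coarsest topology for which the functions `x ↦ a(x)`, `a ∈ A`,
are continuous. -/
instance : TopologicalSpace (Pt A K) :=
  TopologicalSpace.induced (fun x (a : A) => ev x a) Pi.topologicalSpace

theorem isInducing : Topology.IsInducing (fun (x : Pt A K) (a : A) => ev x a) := ⟨rfl⟩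

theorem continuous_ev (a : A) : Continuous (fun x : Pt A K => ev x a) :=
  (continuous_apply a).comp isInducing.continuous

theorem continuous_pt {X : Type*} [TopologicalSpace X] {f : X → Pt A K}
    (h : ∀ a, Continuous (fun x => ev (f x) a)) : Continuous f :=
  isInducing.continuous_iff.2 (continuous_pi h)

instance : T2Space (Pt A K) :=
  T2Space.of_injective_continuous (f := fun (x : Pt A K) (a : A) => ev x a)
    (fun _ _ h => ev_ext (fun a => congrFun h a)) isInducing.continuous

instance : IsTopologicalGroup (Pt A K) where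
  continuous_mul := by
    apply continuous_pt
    intro a
    simp only [ev_mul_repr _ _ (Coalgebra.Repr.arbitrary ℚ a)]
    exact continuous_finsetSum _ fun i _ =>
      ((continuous_ev _).comp continuous_fst).mul ((continuous_ev _).comp continuous_snd)
  continuous_inv := continuous_pt fun a => continuous_ev _

theorem isClosed_range : IsClosed (Set.range (fun (x : Pt A K) (a : A) => ev x a)) := by
  have : Set.range (fun (x : Pt A K) (a : A) => ev x a) =
      {f : A → K | (∀ q : ℚ, f (algebraMap ℚ A q) = algebraMap ℚ K q) ∧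
        (∀ a b, f (a * b) = f a * f b) ∧ (∀ a b, f (a + b) = f a + f b)} := by
    ext f
    constructor
    · rintro ⟨x, rfl⟩
      exact ⟨fun q => (ev x).commutes q, fun a b => map_mul _ a b, fun a b => map_add _ a b⟩
    · rintro ⟨h1, h2, h3⟩
      refine ⟨WithConv.toConv
        { toFun := f, map_one' := ?_, map_mul' := h2, map_zero' := ?_, map_add' := h3,
          commutes' := h1 }, rfl⟩
      · simpa using h1 1
      · simpa using h1 0
  rw [this]
  refine IsClosed.and ?_ (IsClosed.and ?_ ?_)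
  · simp only [Set.ofPred_forall]
    exact isClosed_iInter fun q => isClosed_eq (continuous_apply _) continuous_const
  · simp only [Set.ofPred_forall]
    exact isClosed_iInter fun a => isClosed_iInter fun b =>
      isClosed_eq (continuous_apply _) ((continuous_apply a).mul (continuous_apply b))
  · simp only [Set.ofPred_forall]
    exact isClosed_iInter fun a => isClosed_iInter fun b =>
      isClosed_eq (continuous_apply _) ((continuous_apply a).add (continuous_apply b))

/-- A closed set of points on which all functions are bounded is compact. -/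
theorem isCompact_of_bounded [ProperSpace K] {S : Set (Pt A K)} (hS : IsClosed S)
    (h : ∀ a : A, ∃ C : ℝ, ∀ x ∈ S, ‖ev x a‖ ≤ C) : IsCompact S := by
  choose C hC using h
  have hcl : Topology.IsClosedEmbedding (fun (x : Pt A K) (a : A) => ev x a) :=
    ⟨⟨isInducing, fun _ _ h => ev_ext (fun a => congrFun h a)⟩, isClosed_range⟩
  have hc : IsCompact (Set.pi Set.univ fun a : A => Metric.closedBall (0 : K) (C a)) :=
    isCompact_univ_pi fun a => isCompact_closedBall _ _
  have := hcl.isCompact_preimage hc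
  refine this.of_isClosed_subset hS ?_
  intro x hx
  simp only [Set.mem_preimage, Set.mem_pi, Set.mem_univ, true_imp_iff, Metric.mem_closedBall,
    dist_zero_right]
  exact fun a => hC a x hx

end Topology

/-! ## Topological rank -/

/-- `F` is a free abelian group of rank `k`. -/
def FreeOfRank {G : Type*} [CommGroup G] (F : Subgroup G) (k : ℕ) : Prop :=
  Nonempty (F ≃* Multiplicative (Fin k → ℤ))

/-- The topological rank of a topological abelian group: the least rank of a free abelian subgroup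
whose closure is an open subgroup of finite index, and `∞` if there is no such subgroup of finite
rank. -/
noncomputable def topRank (G : Type*) [CommGroup G] [TopologicalSpace G] : ℕ∞ :=
  ⨅ (k : ℕ) (_ : ∃ F H : Subgroup G, FreeOfRank F k ∧ (H : Set G) = closure (F : Set G) ∧
    IsOpen (H : Set G) ∧ H.FiniteIndex), (k : ℕ∞)

/-- `G` contains `ℤ_p ^ d` as a subgroup of finite index. -/
def HasZpRank (p : ℕ) [Fact p.Prime] (G : Type*) [CommGroup G] [TopologicalSpace G] (d : ℕ) :
    Prop :=
  ∃ φ : Multiplicative (Fin d → ℤ_[p]) →* G, Continuous φ ∧ Function.Injective φ ∧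
    φ.range.FiniteIndex

theorem pow_index_mem {G : Type*} [CommGroup G] (H : Subgroup G) (g : G) : g ^ H.index ∈ H := by
  have h : (QuotientGroup.mk g : G ⧸ H) ^ H.index = 1 := by
    rw [Subgroup.index]; exact pow_card_eq_one'
  rwa [← QuotientGroup.mk_pow, QuotientGroup.eq_one_iff] at h

/-- Generators of a free abelian group. -/
theorem exists_gens {G : Type*} [CommGroup G] {F : Subgroup G} {k : ℕ} (hF : FreeOfRank F k) :
    ∃ f : Fin k → G, ∀ x : G, x ∈ F ↔ ∃ c : Fin k → ℤ, x = ∏ i, f i ^ c i := by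
  obtain ⟨e⟩ := hF
  refine ⟨fun i => (e.symm (Multiplicative.ofAdd (Pi.single i 1)) : F), ?_⟩
  have key : ∀ c : Fin k → ℤ, ((e.symm (Multiplicative.ofAdd c) : F) : G) =
      ∏ i, (((e.symm (Multiplicative.ofAdd (Pi.single i 1)) : F) : G)) ^ c i := by
    intro c
    have h1 : Multiplicative.ofAdd c =
        ∏ i, (Multiplicative.ofAdd (Pi.single i (1 : ℤ) : Fin k → ℤ)) ^ c i := by
      have h2 : c = ∑ i, c i • (Pi.single i (1 : ℤ) : Fin k → ℤ) := by
        funext j
        simp [Finset.sum_apply, Pi.single_apply]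
      conv_lhs => rw [h2]
      rw [ofAdd_sum]
      rfl
    rw [h1, map_prod, Subgroup.val_finsetProd]
    simp only [map_zpow, Subgroup.coe_zpow]
  intro x
  constructor
  · intro hx
    refine ⟨Multiplicative.toAdd (e ⟨x, hx⟩), ?_⟩
    rw [← key]
    simp
  · rintro ⟨c, rfl⟩
    rw [← key]
    exact SetLike.coe_mem _

/-- In a group which contains `ℤ_p ^ d` with finite index, a free abelian subgroup whose closure
has finite index has rank at least `d`. -/
theorem le_of_zpRank {p : ℕ} [Fact p.Prime] {G : Type*} [CommGroup G] [TopologicalSpace G]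
    [IsTopologicalGroup G] [T2Space G] {d k : ℕ} (hd : HasZpRank p G d) {F H : Subgroup G}
    (hF : FreeOfRank F k) (hH : (H : Set G) = closure (F : Set G)) (hfin : H.FiniteIndex) :
    d ≤ k := by
  obtain ⟨φ, hφc, hφi, hφf⟩ := hd
  obtain ⟨f, hf⟩ := exists_gens hF
  set N := φ.range.index with hN
  have hN0 : N ≠ 0 := hφf.index_ne_zero
  have hM0 : H.index ≠ 0 := hfin.index_ne_zero
  have h1 : ∀ i, ∃ a : Fin d → ℤ_[p], φ (Multiplicative.ofAdd a) = f i ^ N := fun i => by
    obtain ⟨a, ha⟩ := pow_index_mem φ.range (f i)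
    exact ⟨Multiplicative.toAdd a, ha⟩
  choose a ha using h1
  set Φ : (Fin k → ℤ_[p]) →ₗ[ℤ_[p]] (Fin d → ℤ_[p]) := Fintype.linearCombination ℤ_[p] a with hΦ
  have hΦc : Continuous Φ := by
    rw [hΦ]
    show Continuous (fun c : Fin k → ℤ_[p] => Fintype.linearCombination ℤ_[p] a c)
    simp only [Fintype.linearCombination_apply]
    exact continuous_finsetSum _ fun i _ => (continuous_apply i).smul continuous_const
  set W : Set G := Set.range (fun c => φ (Multiplicative.ofAdd (Φ c))) with hW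
  have hWc : IsClosed W := by
    apply IsCompact.isClosed
    rw [hW, ← Set.image_univ]
    exact isCompact_univ.image (hφc.comp (continuous_ofAdd.comp hΦc))
  have hFW : ∀ x ∈ H, x ^ N ∈ W := by
    have hcl : IsClosed {x : G | x ^ N ∈ W} := hWc.preimage (continuous_pow N)
    have hsub : (F : Set G) ⊆ {x : G | x ^ N ∈ W} := by
      intro x hx
      obtain ⟨c, rfl⟩ := (hf x).1 hx
      refine ⟨fun i => (c i : ℤ_[p]), ?_⟩
      have h5 : Φ (fun i => (c i : ℤ_[p])) = ∑ i, c i • a i := by
        rw [hΦ, Fintype.linearCombination_apply]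
        refine Finset.sum_congr rfl fun i _ => ?_
        rw [Int.cast_smul_eq_zsmul]
      show φ (Multiplicative.ofAdd (Φ (fun i => (c i : ℤ_[p])))) = (∏ i, f i ^ c i) ^ N
      rw [h5, ofAdd_sum, map_prod, ← Finset.prod_pow]
      refine Finset.prod_congr rfl fun i _ => ?_
      rw [ofAdd_zsmul, map_zpow, ha, ← zpow_natCast, ← zpow_natCast, ← zpow_mul, ← zpow_mul,
        mul_comm]
    intro x hx
    have : x ∈ closure (F : Set G) := by rw [← hH]; exact hx
    exact closure_minimal hsub hcl this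
  have h2 : ∀ x : Fin d → ℤ_[p], ∃ c, Φ c = ((H.index * N : ℕ) : ℤ_[p]) • x := by
    intro x
    obtain ⟨c, hc⟩ := hFW _ (pow_index_mem H (φ (Multiplicative.ofAdd x)))
    refine ⟨c, ?_⟩
    rw [← pow_mul, ← map_pow] at hc
    have := hφi hc
    rw [← ofAdd_nsmul] at this
    have := Multiplicative.ofAdd.injective this
    rw [this, Nat.cast_smul_eq_nsmul]
  choose B hB using fun j : Fin d => h2 (Pi.single j 1)
  set Ψ : (Fin d → ℤ_[p]) →ₗ[ℤ_[p]] (Fin k → ℤ_[p]) := Fintype.linearCombination ℤ_[p] B with hΨ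
  have h3 : ∀ x, Φ (Ψ x) = ((H.index * N : ℕ) : ℤ_[p]) • x := by
    intro x
    have h5 : Φ (Ψ x) = ∑ j, x j • Φ (B j) := by
      have e1 : Ψ x = ∑ j, x j • B j := by rw [hΨ, Fintype.linearCombination_apply]
      rw [e1, map_sum]
      simp only [map_smul]
    rw [h5]
    simp only [hB]
    funext j
    simp [Finset.sum_apply, Pi.single_apply, mul_comm]
  have h4 : Function.Injective Ψ := by
    intro x y hxy
    have h5 : ((H.index * N : ℕ) : ℤ_[p]) • x = ((H.index * N : ℕ) : ℤ_[p]) • y := by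
      rw [← h3, ← h3, hxy]
    have h6 : ((H.index * N : ℕ) : ℤ_[p]) ≠ 0 := by
      exact_mod_cast mul_ne_zero hM0 hN0
    exact smul_right_injective _ h6 h5
  have h7 := card_le_of_injective ℤ_[p] Ψ h4
  simpa using h7

/-- If some power map sends a free abelian group of rank `m` into one of rank `k`, then
`m ≤ k`. -/
theorem le_of_pow_mem {G : Type*} [CommGroup G] {L F : Subgroup G} {m k N : ℕ}
    (hL : FreeOfRank L m) (hF : FreeOfRank F k) (hN : N ≠ 0) (h : ∀ x ∈ L, x ^ N ∈ F) :
    m ≤ k := by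
  obtain ⟨e⟩ := hL
  obtain ⟨e'⟩ := hF
  set g : Multiplicative (Fin m → ℤ) →* Multiplicative (Fin k → ℤ) :=
    e'.toMonoidHom.comp
      { toFun := fun z => (⟨((e.symm z : L) : G) ^ N, h _ (SetLike.coe_mem _)⟩ : F)
        map_one' := by ext; simp
        map_mul' := by intro x y; ext; simp [mul_pow] } with hg
  have hinj : Function.Injective g := by
    intro x y hxy
    have h1 := e'.injective hxy
    have h2 : ((e.symm x : L) : G) ^ N = ((e.symm y : L) : G) ^ N := congrArg Subtype.val h1
    have h3 : (e.symm x) ^ N = (e.symm y) ^ N := by ext; simpa using h2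
    rw [← map_pow, ← map_pow] at h3
    have h4 := e.symm.injective h3
    have h5 : N • Multiplicative.toAdd x = N • Multiplicative.toAdd y := by
      have := congrArg Multiplicative.toAdd h4
      simpa using this
    have h6 : Multiplicative.toAdd x = Multiplicative.toAdd y := by
      funext i
      have := congrFun h5 i
      simp only [Pi.smul_apply, nsmul_eq_mul, mul_eq_mul_left_iff, Nat.cast_eq_zero] at this
      exact this.resolve_right hN
    exact Multiplicative.toAdd.injective h6
  have h7 := card_le_of_injective ℤ (MonoidHom.toAdditive g).toIntLinearMap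
    (fun x y hxy => hinj hxy)
  simpa using h7

/-- The lower bound `min (m, r + 1)`. -/
theorem min_le_of_free {G : Type*} [CommGroup G] [TopologicalSpace G] [T1Space G] {n : ℕ}
    (lam : G →* Multiplicative (Fin n → ℝ))
    (hlam : Continuous fun g => Multiplicative.toAdd (lam g))
    {L F H : Subgroup G} {m k : ℕ} (hL : FreeOfRank L m) (hF : FreeOfRank F k)
    (hH : (H : Set G) = closure (F : Set G)) (hfin : H.FiniteIndex) :
    min m (Module.finrank ℝ (Submodule.span ℝ ((fun g => Multiplicative.toAdd (lam g)) '' L)) + 1)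
      ≤ k := by
  obtain ⟨f, hf⟩ := exists_gens hF
  have hM0 : H.index ≠ 0 := hfin.index_ne_zero
  set v : Fin k → (Fin n → ℝ) := fun i => Multiplicative.toAdd (lam (f i)) with hv
  set V : Submodule ℝ (Fin n → ℝ) := Submodule.span ℝ (Set.range v) with hV
  have hFv : ∀ c : Fin k → ℤ, Multiplicative.toAdd (lam (∏ i, f i ^ c i)) = ∑ i, (c i : ℝ) • v i := by
    intro c
    rw [map_prod, toAdd_prod]
    refine Finset.sum_congr rfl fun i _ => ?_
    rw [map_zpow, toAdd_zpow, Int.cast_smul_eq_zsmul]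
  have hVc : IsClosed (V : Set (Fin n → ℝ)) := Submodule.closed_of_finiteDimensional V
  have hHV : ∀ x ∈ H, Multiplicative.toAdd (lam x) ∈ V := by
    have hcl : IsClosed {x : G | Multiplicative.toAdd (lam x) ∈ (V : Set (Fin n → ℝ))} :=
      hVc.preimage hlam
    have hsub : (F : Set G) ⊆ {x : G | Multiplicative.toAdd (lam x) ∈ (V : Set (Fin n → ℝ))} := by
      intro x hx
      obtain ⟨c, rfl⟩ := (hf x).1 hx
      show Multiplicative.toAdd (lam (∏ i, f i ^ c i)) ∈ V
      rw [hFv]
      exact Submodule.sum_mem _ fun i _ =>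
        Submodule.smul_mem _ _ (Submodule.subset_span (Set.mem_range_self i))
    intro x hx
    have : x ∈ closure (F : Set G) := by rw [← hH]; exact hx
    exact closure_minimal hsub hcl this
  have hGV : ∀ x, Multiplicative.toAdd (lam x) ∈ V := by
    intro x
    have h1 := hHV _ (pow_index_mem H x)
    rw [map_pow, toAdd_pow, ← Nat.cast_smul_eq_nsmul ℝ] at h1
    have h2 : (H.index : ℝ) ≠ 0 := by exact_mod_cast hM0
    exact (Submodule.smul_mem_iff V h2).1 h1
  have hle : Submodule.span ℝ ((fun g => Multiplicative.toAdd (lam g)) '' (L : Set G)) ≤ V := by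
    rw [Submodule.span_le]
    rintro _ ⟨x, -, rfl⟩
    exact hGV x
  have hr : Module.finrank ℝ (Submodule.span ℝ ((fun g => Multiplicative.toAdd (lam g)) '' (L : Set G))) ≤
      Module.finrank ℝ V := Submodule.finrank_mono hle
  have hVk : Module.finrank ℝ V ≤ k := by
    have := finrank_range_le_card (R := ℝ) v
    simpa [Set.finrank] using this
  rcases Nat.lt_or_ge (Module.finrank ℝ V) k with hlt | hge
  · exact le_trans (min_le_right _ _) (by omega)
  -- the vectors `v i` are linearly independent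
  refine le_trans (min_le_left _ _) ?_
  have hli : LinearIndependent ℝ v := by
    rw [linearIndependent_iff_card_le_finrank_span]
    simpa [Set.finrank] using hge
  obtain ⟨μ, hμ⟩ : ∃ μ : (Fin n → ℝ) →ₗ[ℝ] (Fin k → ℝ), ∀ c : Fin k → ℝ, μ (∑ i, c i • v i) = c := by
    obtain ⟨μ, hμ⟩ := (Fintype.linearCombination ℝ v).exists_leftInverse_of_injective
      (LinearMap.ker_eq_bot.2 (by
        have := linearIndependent_iff_injective_fintypeLinearCombination.1 hli
        exact this))
    refine ⟨μ, fun c => ?_⟩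
    have := LinearMap.congr_fun hμ c
    simpa [Fintype.linearCombination_apply] using this
  have hμc : Continuous μ := μ.continuous_of_finiteDimensional
  -- `F` is closed
  have hFH : ∀ x ∈ H, x ∈ F := by
    intro g hg
    have hg' : g ∈ closure (F : Set G) := by rw [← hH]; exact hg
    set w : G → (Fin k → ℝ) := fun x => μ (Multiplicative.toAdd (lam x)) with hw
    have hwc : Continuous w := hμc.comp hlam
    set U : Set G := {x | dist (w x) (w g) < 1 / 2} with hU
    have hUo : IsOpen U := isOpen_lt (hwc.dist continuous_const) continuous_const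
    have hgU : g ∈ U := by simp [hU]
    have huniq : ∀ x ∈ U ∩ F, ∀ y ∈ U ∩ F, x = y := by
      rintro x ⟨hx1, hx2⟩ y ⟨hy1, hy2⟩
      obtain ⟨c, rfl⟩ := (hf x).1 hx2
      obtain ⟨c', rfl⟩ := (hf y).1 hy2
      have e1 : w (∏ i, f i ^ c i) = fun i => (c i : ℝ) := by
        simp only [hw]; rw [hFv, hμ]
      have e2 : w (∏ i, f i ^ c' i) = fun i => (c' i : ℝ) := by
        simp only [hw]; rw [hFv, hμ]
      have h1 : dist (w (∏ i, f i ^ c i)) (w (∏ i, f i ^ c' i)) < 1 := by
        have := dist_triangle_right (w (∏ i, f i ^ c i)) (w (∏ i, f i ^ c' i)) (w g)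
        simp only [hU, Set.mem_ofPred_eq] at hx1 hy1
        linarith
      have h2 : c = c' := by
        funext i
        have h3 := lt_of_le_of_lt (dist_le_pi_dist _ _ i) h1
        rw [e1, e2] at h3
        rw [Real.dist_eq, ← Int.cast_sub, ← Int.cast_abs] at h3
        have h4 : |c i - c' i| < 1 := by exact_mod_cast h3
        rw [Int.abs_lt_one_iff] at h4
        omega
      rw [h2]
    have h5 : g ∈ closure (U ∩ F) := hUo.inter_closure ⟨hgU, hg'⟩
    have h6 : (U ∩ (F : Set G)).Nonempty := closure_nonempty_iff.1 ⟨g, h5⟩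
    obtain ⟨x, hx⟩ := h6
    have h7 : U ∩ (F : Set G) ⊆ {x} := fun y hy => huniq y hy x hx
    have h8 : g ∈ ({x} : Set G) := closure_minimal h7 isClosed_singleton h5
    rw [Set.mem_singleton_iff] at h8
    rw [h8]
    exact hx.2
  exact le_of_pow_mem hL hF hM0 (fun x _ => hFH _ (pow_index_mem H x))

/-! ## Split tori -/

/-- A splitting of `T` over `K`: an isomorphism `T × K ≅ 𝔾_m ^ n` of group schemes over `K`, i.e.
an isomorphism of bialgebras between `K ⊗ A` and the group algebra of `ℤ ^ n`. -/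
abbrev Splitting (A K : Type*) [CommRing A] [HopfAlgebra ℚ A] [Field K] [Algebra ℚ K] (n : ℕ) :
    Type _ :=
  (K ⊗[ℚ] A) ≃ₐc[K] MonoidAlgebra K (Multiplicative (Fin n → ℤ))

section Split

variable {A K : Type*} [CommRing A] [HopfAlgebra ℚ A] [Coalgebra.IsCocomm ℚ A] [NormedField K]
  [Algebra ℚ K] {n : ℕ}

/-- The value of an element of `K ⊗ A` at a point of `T(K)`. -/
noncomputable def bc (x : Pt A K) : (K ⊗[ℚ] A) →ₐ[K] K :=
  Algebra.TensorProduct.lift (Algebra.ofId K K) (ev x) (fun _ _ => .all _ _)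

theorem bc_tmul (x : Pt A K) (c : K) (a : A) : bc x (c ⊗ₜ[ℚ] a) = c * ev x a := by
  simp [bc]

theorem bc_mul_apply (x y : Pt A K) (t : K ⊗[ℚ] A) :
    bc (x * y) t = Algebra.TensorProduct.lift (bc x) (bc y) (fun _ _ => .all _ _)
      (Coalgebra.comul (R := K) t) := by
  suffices h : bc (x * y) = (Algebra.TensorProduct.lift (bc x) (bc y) (fun _ _ => .all _ _)).comp
      (Bialgebra.comulAlgHom K (K ⊗[ℚ] A)) by
    exact DFunLike.congr_fun h t
  apply Algebra.TensorProduct.ext (by ext)
  ext a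
  have h1 : Coalgebra.comul (R := K) ((1 : K) ⊗ₜ[ℚ] a) =
      ∑ i ∈ (Coalgebra.Repr.arbitrary ℚ a).index,
        ((1 : K) ⊗ₜ[ℚ] (Coalgebra.Repr.arbitrary ℚ a).left i) ⊗ₜ[K]
          ((1 : K) ⊗ₜ[ℚ] (Coalgebra.Repr.arbitrary ℚ a).right i) := by
    rw [TensorProduct.comul_tmul, ← (Coalgebra.Repr.arbitrary ℚ a).eq]
    simp [TensorProduct.tmul_sum]
  simp only [AlgHom.coe_comp, Function.comp_apply, Algebra.TensorProduct.includeRight_apply,
    AlgHom.coe_restrictScalars', Bialgebra.comulAlgHom_apply, h1, map_sum,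
    Algebra.TensorProduct.lift_tmul, bc_tmul, one_mul]
  exact ev_mul_repr _ _ _

theorem bc_mul (x y : Pt A K) {g : K ⊗[ℚ] A} (hg : IsGroupLikeElem K g) :
    bc (x * y) g = bc x g * bc y g := by
  rw [bc_mul_apply, hg.comul_eq_tmul_self, Algebra.TensorProduct.lift_tmul]

theorem continuous_bc (t : K ⊗[ℚ] A) : Continuous (fun x : Pt A K => bc x t) := by
  induction t with
  | zero => simpa using continuous_const
  | tmul c a => simp only [bc_tmul]; exact continuous_const.mul (continuous_ev a)
  | add s t hs ht => simp only [map_add]; exact hs.add ht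

/-- The character with exponent `z`. -/
noncomputable def gl (e : Splitting A K n) (z : Fin n → ℤ) : K ⊗[ℚ] A :=
  e.symm (MonoidAlgebra.single (Multiplicative.ofAdd z) 1)

theorem gl_groupLike (e : Splitting A K n) (z : Fin n → ℤ) : IsGroupLikeElem K (gl e z) :=
  (MonoidAlgebra.isGroupLikeElem_single_one _).map e.symm

theorem gl_zero (e : Splitting A K n) : gl e 0 = 1 := by
  unfold gl
  rw [ofAdd_zero, ← MonoidAlgebra.one_def, map_one]

theorem gl_add (e : Splitting A K n) (z w : Fin n → ℤ) : gl e (z + w) = gl e z * gl e w := by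
  unfold gl
  rw [← map_mul, MonoidAlgebra.single_mul_single, one_mul, ofAdd_add]

theorem bc_gl_ne_zero (e : Splitting A K n) (x : Pt A K) (z : Fin n → ℤ) : bc x (gl e z) ≠ 0 := by
  intro h
  have h1 : bc x (gl e z) * bc x (gl e (-z)) = 1 := by
    rw [← map_mul, ← gl_add, add_neg_cancel, gl_zero, map_one]
  rw [h, zero_mul] at h1
  exact zero_ne_one h1

/-- The value of `a` as a linear combination of characters. -/
theorem ev_eq_sum (e : Splitting A K n) (x : Pt A K) (a : A) :
    ev x a = (e (1 ⊗ₜ[ℚ] a)).coeff.sum fun z c => c * bc x (gl e (Multiplicative.toAdd z)) := by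
  have h1 : ev x a = bc x (e.symm (e (1 ⊗ₜ[ℚ] a))) := by
    rw [BialgEquiv.symm_apply_apply, bc_tmul, one_mul]
  rw [h1]
  conv_lhs => rw [← MonoidAlgebra.sum_coeff_single (e (1 ⊗ₜ[ℚ] a))]
  rw [Finsupp.sum, Finsupp.sum, map_sum, map_sum]
  refine Finset.sum_congr rfl fun z _ => ?_
  have h2 : (MonoidAlgebra.single z ((e (1 ⊗ₜ[ℚ] a)).coeff z) :
      MonoidAlgebra K (Multiplicative (Fin n → ℤ))) =
      ((e (1 ⊗ₜ[ℚ] a)).coeff z) • MonoidAlgebra.single z 1 := by
    rw [MonoidAlgebra.smul_single, smul_eq_mul, mul_one]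
  rw [h2, map_smul, map_smul, smul_eq_mul]
  rfl

/-- The vector of the numbers `log |χ_i(x)|`, `i = 1, …, n`, where `χ_1, …, χ_n` is the basis of
the character group given by the splitting. -/
noncomputable def logVec (e : Splitting A K n) : Pt A K →* Multiplicative (Fin n → ℝ) :=
  MonoidHom.mk' (fun x => Multiplicative.ofAdd fun i => Real.log ‖bc x (gl e (Pi.single i 1))‖)
    (by
      intro x y
      rw [← ofAdd_add]
      congr 1
      funext i
      rw [Pi.add_apply, bc_mul _ _ (gl_groupLike _ _), norm_mul,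
        Real.log_mul (norm_ne_zero_iff.2 (bc_gl_ne_zero _ _ _))
          (norm_ne_zero_iff.2 (bc_gl_ne_zero _ _ _))])

theorem logVec_apply (e : Splitting A K n) (x : Pt A K) (i : Fin n) :
    Multiplicative.toAdd (logVec e x) i = Real.log ‖bc x (gl e (Pi.single i 1))‖ := rfl

theorem continuous_logVec (e : Splitting A K n) :
    Continuous fun x => Multiplicative.toAdd (logVec e x) := by
  apply continuous_pi
  intro i
  show Continuous fun x => Real.log ‖bc x (gl e (Pi.single i 1))‖
  exact ((continuous_bc _).norm).log fun x => norm_ne_zero_iff.2 (bc_gl_ne_zero _ _ _)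

theorem log_norm_gl (e : Splitting A K n) (x : Pt A K) (z : Fin n → ℤ) :
    Real.log ‖bc x (gl e z)‖ = ∑ i, (z i : ℝ) * Multiplicative.toAdd (logVec e x) i := by
  set f : (Fin n → ℤ) →+ ℝ := AddMonoidHom.mk' (fun z => Real.log ‖bc x (gl e z)‖) (by
    intro z w
    rw [gl_add, map_mul, norm_mul, Real.log_mul (norm_ne_zero_iff.2 (bc_gl_ne_zero _ _ _))
          (norm_ne_zero_iff.2 (bc_gl_ne_zero _ _ _))]) with hf
  have h1 : f z = ∑ i, (z i : ℝ) * f (Pi.single i 1) := by
    have h2 : z = ∑ i, z i • (Pi.single i (1 : ℤ) : Fin n → ℤ) := by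
      funext j
      simp [Finset.sum_apply, Pi.single_apply]
    conv_lhs => rw [h2]
    rw [map_sum]
    refine Finset.sum_congr rfl fun i _ => ?_
    rw [map_zsmul, zsmul_eq_mul]
  exact h1

theorem norm_gl_eq_one (e : Splitting A K n) (x : Pt A K)
    (h : Multiplicative.toAdd (logVec e x) = 0) (z : Fin n → ℤ) : ‖bc x (gl e z)‖ = 1 := by
  have h1 := log_norm_gl e x z
  rw [h] at h1
  simp only [Pi.zero_apply, mul_zero, Finset.sum_const_zero] at h1
  exact Real.eq_one_of_pos_of_log_eq_zero (norm_pos_iff.2 (bc_gl_ne_zero _ _ _)) h1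

/-- The points whose characters have absolute value `1` form a compact set. -/
theorem isCompact_logVec_zero [ProperSpace K] (e : Splitting A K n) :
    IsCompact {x : Pt A K | Multiplicative.toAdd (logVec e x) = 0} := by
  apply isCompact_of_bounded
  · exact isClosed_eq (continuous_logVec e) continuous_const
  · intro a
    refine ⟨(e (1 ⊗ₜ[ℚ] a)).coeff.sum fun _ c => ‖c‖, ?_⟩
    intro x hx
    rw [ev_eq_sum e x a, Finsupp.sum, Finsupp.sum]
    refine (norm_sum_le _ _).trans (Finset.sum_le_sum fun z _ => ?_)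
    rw [norm_mul, norm_gl_eq_one e x hx, mul_one]

/-- Over `ℝ` such points have order at most two. -/
theorem sq_eq_one_of_logVec_zero (e : Splitting A ℝ n) (x : Pt A ℝ)
    (h : Multiplicative.toAdd (logVec e x) = 0) : x ^ 2 = 1 := by
  apply ev_ext
  intro a
  rw [ev_eq_sum e _ a, ev_eq_sum e _ a]
  refine Finsupp.sum_congr fun z _ => ?_
  have h1 : ∀ w, bc (1 : Pt A ℝ) (gl e w) = 1 := by
    intro w
    have h2 := bc_mul (1 : Pt A ℝ) 1 (gl_groupLike e w)
    rw [one_mul] at h2
    exact (mul_eq_left₀ (bc_gl_ne_zero e 1 w)).1 h2.symm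
  rw [pow_two, bc_mul _ _ (gl_groupLike _ _), h1, mul_one]
  have h3 := norm_gl_eq_one e x h (Multiplicative.toAdd z)
  rw [Real.norm_eq_abs] at h3
  rw [← abs_mul_abs_self, h3]
  ring

end Split

/-! ## Primes at which the closure is compact -/

section Compact

variable {A : Type*} [CommRing A] [HopfAlgebra ℚ A] [Coalgebra.IsCocomm ℚ A]

theorem exists_integral_bound {s : Set A} (a : A) (ha : a ∈ Algebra.adjoin ℚ s) :
    ∃ N : ℕ, ∀ (p : ℕ) [Fact p.Prime], N < p → ∀ x : A →ₐ[ℚ] ℚ_[p],
      (∀ b ∈ s, ‖x b‖ ≤ 1) → ‖x a‖ ≤ 1 := by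
  induction ha using Algebra.adjoin_induction with
  | mem a ha => exact ⟨0, fun p _ _ x hx => hx a ha⟩
  | algebraMap q =>
    refine ⟨q.den, fun p hp hN x _ => ?_⟩
    rw [AlgHom.commutes]
    have h1 : ¬ p ∣ q.den := fun h => absurd (Nat.le_of_dvd q.den_pos h) (by omega)
    simpa using Padic.norm_rat_le_one h1
  | add a b _ _ iha ihb =>
    obtain ⟨N1, h1⟩ := iha
    obtain ⟨N2, h2⟩ := ihb
    refine ⟨max N1 N2, fun p hp hN x hx => ?_⟩
    rw [map_add]
    exact (IsUltrametricDist.norm_add_le_max _ _).trans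
      (max_le (h1 p (by omega) x hx) (h2 p (by omega) x hx))
  | mul a b _ _ iha ihb =>
    obtain ⟨N1, h1⟩ := iha
    obtain ⟨N2, h2⟩ := ihb
    refine ⟨max N1 N2, fun p hp hN x hx => ?_⟩
    rw [map_mul, norm_mul]
    exact mul_le_one₀ (h1 p (by omega) x hx) (norm_nonneg _) (h2 p (by omega) x hx)

theorem exists_norm_bound {s : Set A} (p : ℕ) [Fact p.Prime] (a : A)
    (ha : a ∈ Algebra.adjoin ℚ s) :
    ∃ C : ℝ, ∀ x : A →ₐ[ℚ] ℚ_[p], (∀ b ∈ s, ‖x b‖ ≤ 1) → ‖x a‖ ≤ C := by
  induction ha using Algebra.adjoin_induction with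
  | mem a ha => exact ⟨1, fun x hx => hx a ha⟩
  | algebraMap q => exact ⟨‖algebraMap ℚ ℚ_[p] q‖, fun x _ => by rw [AlgHom.commutes]⟩
  | add a b _ _ iha ihb =>
    obtain ⟨C1, h1⟩ := iha
    obtain ⟨C2, h2⟩ := ihb
    refine ⟨C1 + C2, fun x hx => ?_⟩
    rw [map_add]
    exact (norm_add_le _ _).trans (add_le_add (h1 x hx) (h2 x hx))
  | mul a b _ _ iha ihb =>
    obtain ⟨C1, h1⟩ := iha
    obtain ⟨C2, h2⟩ := ihb
    refine ⟨C1 * C2, fun x hx => ?_⟩
    rw [map_mul, norm_mul]
    exact mul_le_mul (h1 x hx) (h2 x hx) (norm_nonneg _) ((norm_nonneg _).trans (h1 x hx))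

/-- A common bound for finitely many elements. -/
theorem exists_integral_bound_finset {s : Set A} (hs : Algebra.adjoin ℚ s = ⊤) (t : Finset A) :
    ∃ N : ℕ, ∀ (p : ℕ) [Fact p.Prime], N < p → ∀ x : A →ₐ[ℚ] ℚ_[p],
      (∀ b ∈ s, ‖x b‖ ≤ 1) → ∀ a ∈ t, ‖x a‖ ≤ 1 := by
  have h : ∀ a : A, ∃ N : ℕ, ∀ (p : ℕ) [Fact p.Prime], N < p → ∀ x : A →ₐ[ℚ] ℚ_[p],
      (∀ b ∈ s, ‖x b‖ ≤ 1) → ‖x a‖ ≤ 1 :=
    fun a => exists_integral_bound a (by rw [hs]; exact Algebra.mem_top)
  choose N hN using h
  refine ⟨t.sup N, fun p hp hp' x hx a ha => hN a p (lt_of_le_of_lt (Finset.le_sup ha) hp') x hx⟩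

/-- For large primes the integral points are closed under multiplication. -/
theorem exists_mul_bound {s : Finset A} (hs : Algebra.adjoin ℚ (s : Set A) = ⊤) :
    ∃ N : ℕ, ∀ (p : ℕ) [Fact p.Prime], N < p → ∀ x y : Pt A ℚ_[p],
      (∀ b ∈ (s : Set A), ‖ev x b‖ ≤ 1) → (∀ b ∈ (s : Set A), ‖ev y b‖ ≤ 1) →
        ∀ b ∈ (s : Set A), ‖ev (x * y) b‖ ≤ 1 := by
  classical
  set t : Finset A := s.biUnion fun b =>
    (Coalgebra.Repr.arbitrary ℚ b).index.image (Coalgebra.Repr.arbitrary ℚ b).left ∪
    (Coalgebra.Repr.arbitrary ℚ b).index.image (Coalgebra.Repr.arbitrary ℚ b).right with ht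
  obtain ⟨N, hN⟩ := exists_integral_bound_finset hs t
  refine ⟨N, fun p hp hp' x y hx hy b hb => ?_⟩
  rw [ev_mul_repr x y (Coalgebra.Repr.arbitrary ℚ b)]
  refine IsUltrametricDist.norm_sum_le_of_forall_le_of_nonneg zero_le_one fun i hi => ?_
  rw [norm_mul]
  refine mul_le_one₀ (hN p hp' (ev x) hx _ ?_) (norm_nonneg _) (hN p hp' (ev y) hy _ ?_)
  · rw [ht, Finset.mem_biUnion]
    exact ⟨b, hb, Finset.mem_union_left _ (Finset.mem_image_of_mem _ hi)⟩
  · rw [ht, Finset.mem_biUnion]
    exact ⟨b, hb, Finset.mem_union_right _ (Finset.mem_image_of_mem _ hi)⟩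

/-- For large primes finitely many rational points are integral. -/
theorem exists_rat_bound (s : Finset A) (u : Finset (Pt A ℚ)) :
    ∃ N : ℕ, ∀ (p : ℕ) [Fact p.Prime], N < p → ∀ x ∈ u, ∀ b ∈ (s : Set A),
      ‖ev (toK A ℚ_[p] x) b‖ ≤ 1 := by
  refine ⟨u.sup fun x => s.sup fun b => (ev x b).den, fun p hp hp' x hx b hb => ?_⟩
  rw [ev_toK]
  have h1 : (ev x b).den ≤ u.sup fun x => s.sup fun b => (ev x b).den :=
    le_trans (Finset.le_sup (f := fun b => (ev x b).den) hb)
      (Finset.le_sup (f := fun x => s.sup fun b => (ev x b).den) hx)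
  have h2 : ¬ p ∣ (ev x b).den := fun h =>
    absurd (Nat.le_of_dvd (ev x b).den_pos h) (by omega)
  simpa using Padic.norm_rat_le_one h2

/-- The closure of `L` in `T(K)`. -/
noncomputable def closureAt (K : Type*) [NormedField K] [Algebra ℚ K] (L : Subgroup (Pt A ℚ)) :
    Subgroup (Pt A K) :=
  (L.map (toK A K)).topologicalClosure

/-- The closure is compact for all large primes. -/
theorem exists_compact [Algebra.FiniteType ℚ A] {L : Subgroup (Pt A ℚ)} {m : ℕ}
    (hL : FreeOfRank L m) : ∃ N : ℕ, ∀ (p : ℕ) [Fact p.Prime], N < p →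
      IsCompact (closureAt ℚ_[p] L : Set (Pt A ℚ_[p])) := by
  classical
  obtain ⟨s, hs⟩ := (Algebra.FiniteType.out : (⊤ : Subalgebra ℚ A).FG)
  obtain ⟨f, hf⟩ := exists_gens hL
  obtain ⟨N1, h1⟩ := exists_mul_bound hs
  obtain ⟨N2, h2⟩ := exists_rat_bound s
    ({1} ∪ (Finset.univ.image f ∪ Finset.univ.image fun i => (f i)⁻¹))
  refine ⟨max N1 N2, fun p hp hp' => ?_⟩
  set M : Submonoid (Pt A ℚ_[p]) :=
    { carrier := {x | ∀ b ∈ (s : Set A), ‖ev x b‖ ≤ 1}
      mul_mem' := fun {x y} hx hy => h1 p (by omega) x y hx hy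
      one_mem' := by
        have := h2 p (by omega) 1 (by simp)
        rwa [map_one] at this } with hM
  have hMcl : IsClosed (M : Set (Pt A ℚ_[p])) := by
    have : (M : Set (Pt A ℚ_[p])) = ⋂ b ∈ (s : Set A), {x | ‖ev x b‖ ≤ 1} := by
      ext x; simp [hM]
    rw [this]
    exact isClosed_biInter fun b _ => isClosed_le ((continuous_ev b).norm) continuous_const
  have hMc : IsCompact (M : Set (Pt A ℚ_[p])) := by
    apply isCompact_of_bounded hMcl
    intro a
    obtain ⟨C, hC⟩ := exists_norm_bound (s := (s : Set A)) p a (by rw [hs]; exact Algebra.mem_top)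
    exact ⟨C, fun x hx => hC (ev x) hx⟩
  have hpow : ∀ (i : Fin m) (c : ℤ), toK A ℚ_[p] (f i) ^ c ∈ M := by
    intro i c
    have e1 : toK A ℚ_[p] (f i) ∈ M := h2 p (by omega) _ (by simp)
    have e2 : (toK A ℚ_[p] (f i))⁻¹ ∈ M := by
      rw [← map_inv]; exact h2 p (by omega) _ (by simp)
    obtain ⟨k, rfl | rfl⟩ := Int.eq_nat_or_neg c
    · rw [zpow_natCast]; exact M.pow_mem e1 k
    · rw [zpow_neg, ← inv_zpow, zpow_natCast]; exact M.pow_mem e2 k
  have hLM : (L.map (toK A ℚ_[p]) : Set (Pt A ℚ_[p])) ⊆ M := by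
    rintro _ ⟨x, hx, rfl⟩
    obtain ⟨c, rfl⟩ := (hf x).1 hx
    rw [map_prod]
    simp only [map_zpow]
    exact M.prod_mem fun i _ => hpow i (c i)
  refine hMc.of_isClosed_subset (Subgroup.isClosed_topologicalClosure _) ?_
  exact closure_minimal hLM hMcl

end Compact


/-! ## The theorem -/

section Final

variable {A : Type*} [CommRing A] [HopfAlgebra ℚ A] [Coalgebra.IsCocomm ℚ A]

/-- The dimension of the real vector space spanned by the vectors
`(log |χ_1(x)|, …, log |χ_n(x)|)`, `x ∈ L`.  For `K = ℚ_p` this is the rank of the group of the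
vectors `(v_p(χ_1(x)), …, v_p(χ_n(x)))`. -/
noncomputable def logRank {K : Type*} [NormedField K] [Algebra ℚ K] {n : ℕ}
    (e : Splitting A K n) (L : Subgroup (Pt A ℚ)) : ℕ :=
  Module.finrank ℝ (Submodule.span ℝ
    ((fun x => Multiplicative.toAdd (logVec e (toK A K x))) '' (L : Set (Pt A ℚ))))

/-- The image of `L` in its closure. -/
noncomputable def inClosure (K : Type*) [NormedField K] [Algebra ℚ K] (L : Subgroup (Pt A ℚ)) :
    Subgroup (closureAt K L) :=
  (L.map (toK A K)).subgroupOf (closureAt K L)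

theorem map_le_closureAt (K : Type*) [NormedField K] [Algebra ℚ K] (L : Subgroup (Pt A ℚ)) :
    L.map (toK A K) ≤ closureAt K L := Subgroup.le_topologicalClosure _

theorem freeOfRank_inClosure (K : Type*) [NormedField K] [Algebra ℚ K] {L : Subgroup (Pt A ℚ)}
    {m : ℕ} (hL : FreeOfRank L m) : FreeOfRank (inClosure K L) m := by
  obtain ⟨e⟩ := hL
  exact ⟨((Subgroup.subgroupOfEquivOfLe (map_le_closureAt K L)).trans
    (L.equivMapOfInjective (toK A K) toK_injective).symm).trans e⟩

theorem closure_inClosure (K : Type*) [NormedField K] [Algebra ℚ K] (L : Subgroup (Pt A ℚ)) :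
    closure (inClosure K L : Set (closureAt K L)) = Set.univ := by
  rw [Set.eq_univ_iff_forall]
  intro x
  rw [closure_subtype]
  have h1 : ((↑) '' (inClosure K L : Set (closureAt K L)) : Set (Pt A K)) =
      (L.map (toK A K) : Set (Pt A K)) := by
    ext y
    constructor
    · rintro ⟨z, hz, rfl⟩
      exact hz
    · intro hy
      exact ⟨⟨y, map_le_closureAt K L hy⟩, hy, rfl⟩
  rw [h1]
  exact x.2

/-- `d(p) ≤ m`. -/
theorem zpRank_le {p : ℕ} [Fact p.Prime] {L : Subgroup (Pt A ℚ)} {m d : ℕ}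
    (hL : FreeOfRank L m) (hd : HasZpRank p (closureAt ℚ_[p] L) d) : d ≤ m := by
  refine le_of_zpRank hd (freeOfRank_inClosure ℚ_[p] hL) (H := ⊤) ?_ inferInstance
  rw [closure_inClosure]; rfl

/-- A group which contains `ℤ_p ^ d` with finite index has topological rank `d`. -/
theorem topRank_eq_of_zpRank {p : ℕ} [Fact p.Prime] {G : Type*} [CommGroup G]
    [TopologicalSpace G] [IsTopologicalGroup G] [T2Space G] {d : ℕ} (hd : HasZpRank p G d) :
    topRank G = d := by
  apply le_antisymm
  · obtain ⟨φ, hφc, hφi, hφf⟩ := hd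
    set j : Multiplicative (Fin d → ℤ) →* Multiplicative (Fin d → ℤ_[p]) :=
      AddMonoidHom.toMultiplicative
        { toFun := fun c i => (c i : ℤ_[p])
          map_zero' := by funext i; simp
          map_add' := by intro x y; funext i; simp } with hj
    have hjinj : Function.Injective j := by
      intro x y hxy
      apply Multiplicative.toAdd.injective
      funext i
      have := congrFun (congrArg Multiplicative.toAdd hxy) i
      have h2 : ((Multiplicative.toAdd x i : ℤ) : ℤ_[p]) = (Multiplicative.toAdd y i : ℤ) := this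
      exact_mod_cast h2
    have hdense : DenseRange j := by
      have h1 : DenseRange (fun (c : Fin d → ℤ) (i : Fin d) => (c i : ℤ_[p])) :=
        DenseRange.piMap (fun _ => PadicInt.denseRange_intCast)
      exact h1
    have hcl : IsClosed (φ.range : Set G) := by
      apply IsCompact.isClosed
      rw [MonoidHom.coe_range, ← Set.image_univ]
      exact isCompact_univ.image hφc
    refine iInf₂_le_of_le d ⟨(φ.comp j).range, φ.range, ?_, ?_, ?_, hφf⟩ le_rfl
    · exact ⟨(MonoidHom.ofInjective (f := φ.comp j) (hφi.comp hjinj)).symm⟩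
    · apply Set.Subset.antisymm
      · rw [MonoidHom.coe_range, MonoidHom.coe_range, MonoidHom.coe_comp]
        exact hφc.range_subset_closure_image_dense hdense |>.trans (by
          rw [← Set.range_comp])
      · apply closure_minimal _ hcl
        rintro _ ⟨x, rfl⟩
        exact ⟨j x, rfl⟩
    · exact Subgroup.isOpen_of_isClosed_of_finiteIndex _ hcl
  · refine le_iInf₂ fun k hk => ?_
    obtain ⟨F, H, hF, hH, -, hfin⟩ := hk
    exact_mod_cast le_of_zpRank hd hF hH hfin

/-- The lower bound at a place at which `T` is split. -/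
theorem min_le_topRank {K : Type*} [NormedField K] [Algebra ℚ K] {n : ℕ} (e : Splitting A K n)
    {L : Subgroup (Pt A ℚ)} {m : ℕ} (hL : FreeOfRank L m) :
    ((min m (logRank e L + 1) : ℕ) : ℕ∞) ≤ topRank (closureAt K L) := by
  refine le_iInf₂ fun k hk => ?_
  obtain ⟨F, H, hF, hH, -, hfin⟩ := hk
  have h := min_le_of_free ((logVec e).comp (closureAt K L).subtype)
    ((continuous_logVec e).comp continuous_subtype_val) (freeOfRank_inClosure K hL) hF hH hfin
  have h2 : ((fun g => Multiplicative.toAdd (((logVec e).comp (closureAt K L).subtype) g)) ''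
      (inClosure K L : Set (closureAt K L))) =
      ((fun x => Multiplicative.toAdd (logVec e (toK A K x))) '' (L : Set (Pt A ℚ))) := by
    ext v
    constructor
    · rintro ⟨z, hz, rfl⟩
      obtain ⟨x, hx, hxz⟩ := hz
      exact ⟨x, hx, by simp only; rw [hxz]; rfl⟩
    · rintro ⟨x, hx, rfl⟩
      exact ⟨⟨toK A K x, map_le_closureAt K L ⟨x, hx, rfl⟩⟩, ⟨x, hx, rfl⟩, rfl⟩
  rw [h2] at h
  exact_mod_cast h

theorem logVec_zero_of_logRank {K : Type*} [NormedField K] [Algebra ℚ K] {n : ℕ}
    (e : Splitting A K n) {L : Subgroup (Pt A ℚ)} (h : logRank e L = 0) :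
    ∀ x ∈ L, Multiplicative.toAdd (logVec e (toK A K x)) = 0 := by
  intro x hx
  have h1 := Submodule.finrank_eq_zero.1 h
  have h2 : Multiplicative.toAdd (logVec e (toK A K x)) ∈ Submodule.span ℝ
    ((fun x => Multiplicative.toAdd (logVec e (toK A K x))) '' (L : Set (Pt A ℚ))) :=
    Submodule.subset_span ⟨x, hx, rfl⟩
  rw [h1] at h2
  exact (Submodule.mem_bot ℝ).1 h2

theorem isCompact_of_logRank {K : Type*} [NormedField K] [ProperSpace K] [Algebra ℚ K] {n : ℕ}
    (e : Splitting A K n) {L : Subgroup (Pt A ℚ)} (h : logRank e L = 0) :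
    IsCompact (closureAt K L : Set (Pt A K)) := by
  refine (isCompact_logVec_zero e).of_isClosed_subset (Subgroup.isClosed_topologicalClosure _) ?_
  refine closure_minimal ?_ (isClosed_eq (continuous_logVec e) continuous_const)
  rintro _ ⟨x, hx, rfl⟩
  exact logVec_zero_of_logRank e h x hx

theorem rank_zero_of_logRank {n : ℕ} (e : Splitting A ℝ n) {L : Subgroup (Pt A ℚ)} {m : ℕ}
    (hL : FreeOfRank L m) (h : logRank e L = 0) : m = 0 := by
  have h1 : ∀ x ∈ L, x ^ 2 ∈ (⊥ : Subgroup (Pt A ℚ)) := by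
    intro x hx
    rw [Subgroup.mem_bot]
    apply toK_injective (K := ℝ)
    rw [map_pow, map_one]
    exact sq_eq_one_of_logVec_zero e _ (logVec_zero_of_logRank e h x hx)
  have hbot : FreeOfRank (⊥ : Subgroup (Pt A ℚ)) 0 := ⟨MulEquiv.ofUnique⟩
  have := le_of_pow_mem hL hbot two_ne_zero h1
  omega

/-- `T` is split at the place with completion `K`. -/
def IsSplitAt (A K : Type*) [CommRing A] [HopfAlgebra ℚ A] [Field K] [Algebra ℚ K] : Prop :=
  ∃ n : ℕ, Nonempty (Splitting A K n)

/-- `T` is a torus: it becomes isomorphic to a power of the multiplicative group over the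
algebraic closure of `ℚ`. -/
def IsTorus (A : Type*) [CommRing A] [HopfAlgebra ℚ A] : Prop :=
  IsSplitAt A (AlgebraicClosure ℚ)

/-- The closure of `L` in `T(ℚ_p)` is compact. -/
def CompactAt (p : ℕ) [Fact p.Prime] (L : Subgroup (Pt A ℚ)) : Prop :=
  IsCompact (closureAt ℚ_[p] L : Set (Pt A ℚ_[p]))

/-- `d(p) = d`: the closure of `L` in `T(ℚ_p)` contains `ℤ_p ^ d` as a subgroup of finite index. -/
def RankAt (p : ℕ) [Fact p.Prime] (L : Subgroup (Pt A ℚ)) (d : ℕ) : Prop :=
  HasZpRank p (closureAt ℚ_[p] L) d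

/-- `d(p)` has the value `d` at each prime `p` for which the closure of `L` in `T(ℚ_p)` is
compact. -/
def CommonRank (L : Subgroup (Pt A ℚ)) (d : ℕ) : Prop :=
  ∀ (p : ℕ) [Fact p.Prime], CompactAt p L → RankAt p L d

/-- `ℓ(p)` for `K = ℚ_p`, and `ℓ(∞)` for `K = ℝ`: the topological rank of the closure of `L` in
`T(K)`. -/
noncomputable def ell (K : Type*) [NormedField K] [Algebra ℚ K] (L : Subgroup (Pt A ℚ)) : ℕ∞ :=
  topRank (closureAt K L)

/-- **Lower bounds for the topological rank.**  Let `T = Spec A` be a torus over `ℚ`, `L` a free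
abelian subgroup of rank `m` of `T(ℚ)`.
1. The closure of `L` in `T(ℚ_p)` is compact for all large primes `p`.
2. If it contains `ℤ_p ^ d` with finite index, then `d ≤ m` and `ℓ(p) = d`.
3. At a prime `p` at which `T` is split, `ℓ(p) ≥ min (m, v(p) + 1)`, where `v(p)` is the rank of the
   valuation vectors of `L`, and `v(p) ≥ 1` if the closure is not compact.
4. If `T` is split over `ℝ`, then `ℓ(∞) ≥ min (m, r + 1)`, where `r` is the real dimension of the
   span of the logarithmic vectors of `L`, and `r ≥ 1` if `m ≥ 1`.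
5. If `d(p) = d ≤ 2` at each prime `p` with compact closure, then `ℓ(p) ≥ d` at each `p ≤ ∞` at
   which `T` is split. -/
theorem base_result [Algebra.FiniteType ℚ A] (_hT : IsTorus A) (L : Subgroup (Pt A ℚ)) (m : ℕ)
    (hL : FreeOfRank L m) :
    (∃ N : ℕ, ∀ (p : ℕ) [Fact p.Prime], N < p → CompactAt p L) ∧
    (∀ (p : ℕ) [Fact p.Prime] (d : ℕ), RankAt p L d → d ≤ m ∧ ell ℚ_[p] L = d) ∧
    (∀ (p : ℕ) [Fact p.Prime] (n : ℕ) (e : Splitting A ℚ_[p] n),
      ((min m (logRank e L + 1) : ℕ) : ℕ∞) ≤ ell ℚ_[p] L ∧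
      (¬ CompactAt p L → 1 ≤ logRank e L)) ∧
    (∀ (n : ℕ) (e : Splitting A ℝ n),
      ((min m (logRank e L + 1) : ℕ) : ℕ∞) ≤ ell ℝ L ∧ (1 ≤ m → 1 ≤ logRank e L)) ∧
    (∀ d : ℕ, d ≤ 2 → CommonRank L d →
      (∀ (p : ℕ) [Fact p.Prime], IsSplitAt A ℚ_[p] → (d : ℕ∞) ≤ ell ℚ_[p] L) ∧
      (IsSplitAt A ℝ → (d : ℕ∞) ≤ ell ℝ L)) := by
  have hC := exists_compact hL
  have hP : ∀ (p : ℕ) [Fact p.Prime] (n : ℕ) (e : Splitting A ℚ_[p] n),
      ¬ CompactAt p L → 1 ≤ logRank e L := by
    intro p hp n e hc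
    by_contra h
    exact hc (isCompact_of_logRank e (by omega))
  have hR : ∀ (n : ℕ) (e : Splitting A ℝ n), 1 ≤ m → 1 ≤ logRank e L := by
    intro n e hm
    by_contra h
    have := rank_zero_of_logRank e hL (by omega)
    omega
  refine ⟨hC, fun p hp d hd => ⟨zpRank_le hL hd, topRank_eq_of_zpRank hd⟩,
    fun p hp n e => ⟨min_le_topRank e hL, hP p n e⟩, fun n e => ⟨min_le_topRank e hL, hR n e⟩,
    fun d hd hcom => ?_⟩
  have hdm : d ≤ m := by
    obtain ⟨N, hN⟩ := hC
    obtain ⟨p, hp1, hp2⟩ := Nat.exists_infinite_primes (N + 1)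
    have : Fact p.Prime := ⟨hp2⟩
    exact zpRank_le hL (hcom p (hN p (by omega)))
  constructor
  · intro p hp hs
    by_cases hc : CompactAt p L
    · exact (topRank_eq_of_zpRank (hcom p hc)).ge
    · obtain ⟨n, ⟨e⟩⟩ := hs
      refine le_trans ?_ (min_le_topRank e hL)
      have := hP p n e hc
      exact_mod_cast le_min hdm (by omega)
  · rintro ⟨n, ⟨e⟩⟩
    rcases Nat.eq_zero_or_pos m with h0 | h0
    · have : d = 0 := by omega
      rw [this]; exact bot_le
    · refine le_trans ?_ (min_le_topRank e hL)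
      have := hR n e h0
      exact_mod_cast le_min hdm (by omega)

end Final

end Pool.Agent.Lib.H22T
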